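import Mathlib.Data.Rat.Defs
import Mathlib.Data.Rat.Lemmas
import Mathlib.Algebra.BigOperators.Intervals
import Mathlib.Data.Nat.Prime.Basic
import Mathlib.Data.Nat.Factorial.Basic
import Mathlib.Tactic.FieldSimp
import Mathlib.Tactic.Ring
import Mathlib.Tactic.NormNum.LegendreSymbol
import Mathlib.Tactic.NormNum.Prime

set_option autoImplicit false

namespace Pool.Agent.Q34

open Finset

/-- generalized binomial coefficient `a (a-1) ... (a-k+1) / k!` for rational `a` -/
def gb (a : ℚ) (k : ℕ) : ℚ := (∏ i ∈ range k, (a - i)) / (k.factorial : ℚ)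

/-- `u ≡ v (mod p^m)` for rational numbers: `u - v = p^m * r` with `r` a rational number whose
denominator is prime to `p` -/
def Cong (p m : ℕ) (u v : ℚ) : Prop := ∃ r : ℚ, Nat.Coprime r.den p ∧ u - v = (p : ℚ) ^ m * r

/-- `∑_{k<n} C(a,k) C(b,k) z^k` -/
def hs (a b z : ℚ) (n : ℕ) : ℚ := ∑ k ∈ range n, gb a k * gb b k * z ^ k

/-- fast evaluation of `hs` -/
def st (a b z : ℚ) : ℕ → ℚ × ℚ
  | 0 => (1, 0)
  | k + 1 => ((st a b z k).1 * ((a - k) * (b - k) * z / ((k + 1) * (k + 1))),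
      (st a b z k).2 + (st a b z k).1)

lemma gb_succ (a : ℚ) (k : ℕ) : gb a (k + 1) = gb a k * ((a - k) / (k + 1)) := by
  unfold gb
  rw [prod_range_succ, Nat.factorial_succ]
  have h1 : ((k.factorial : ℕ) : ℚ) ≠ 0 := by exact_mod_cast k.factorial_ne_zero
  have h2 : ((k : ℚ) + 1) ≠ 0 := by positivity
  push_cast
  field_simp

lemma st_spec (a b z : ℚ) (n : ℕ) :
    (st a b z n).1 = gb a n * gb b n * z ^ n ∧ (st a b z n).2 = hs a b z n := by
  induction n with
  | zero => simp [st, gb, hs]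
  | succ k ih =>
    refine ⟨?_, ?_⟩
    · have h2 : ((k : ℚ) + 1) ≠ 0 := by positivity
      simp only [st]
      rw [ih.1, gb_succ, gb_succ, pow_succ]
      field_simp
    · simp only [st, hs]
      rw [sum_range_succ, ← ih.1]
      have := ih.2
      rw [hs] at this
      rw [this]

lemma not_cong {p m : ℕ} (hp : p.Prime) {u v : ℚ} (h : p ∣ ((u - v) / (p : ℚ) ^ m).den) :
    ¬ Cong p m u v := by
  rintro ⟨r, hr, e⟩
  have hp0 : (p : ℚ) ^ m ≠ 0 := pow_ne_zero m (by exact_mod_cast hp.ne_zero)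
  have e2 : (u - v) / (p : ℚ) ^ m = r := by rw [e]; field_simp
  rw [e2] at h
  have := Nat.dvd_gcd h (dvd_refl p)
  rw [hr] at this
  exact hp.one_lt.ne' (Nat.dvd_one.mp this)

end Pool.Agent.Q34
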