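import Mathlib
import Pool.Agent.Helper857.Pad
import Pool.Agent.Q34.GB

set_option autoImplicit false

namespace Pool.Agent.Q34.Red

open Finset Pool.Agent.Helper857.Pad

section red
variable {p : ℕ} [hp : Fact p.Prime]

/-- reduction modulo `p` of a rational number (meaningful for `p`-integral ones) -/
noncomputable def R (p : ℕ) [Fact p.Prime] (x : ℚ) : ZMod p := (x : ZMod p)

lemma den_ne {x : ℚ} (hx : x ∈ Zp p) : ((x.den : ℕ) : ZMod p) ≠ 0 := by
  intro h
  exact hx ((ZMod.natCast_eq_zero_iff _ _).mp h)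

lemma R_add {x y : ℚ} (hx : x ∈ Zp p) (hy : y ∈ Zp p) : R p (x + y) = R p x + R p y :=
  Rat.cast_add_of_ne_zero (den_ne hx) (den_ne hy)

lemma R_mul {x y : ℚ} (hx : x ∈ Zp p) (hy : y ∈ Zp p) : R p (x * y) = R p x * R p y :=
  Rat.cast_mul_of_ne_zero (den_ne hx) (den_ne hy)

lemma R_nat (n : ℕ) : R p (n : ℚ) = n := by unfold R; exact Rat.cast_natCast n

lemma R_int (n : ℤ) : R p (n : ℚ) = n := by unfold R; exact Rat.cast_intCast n

lemma R_zero : R p 0 = 0 := by simpa using R_nat (p := p) 0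

lemma R_one : R p 1 = 1 := by simpa using R_nat (p := p) 1

lemma R_neg {x : ℚ} : R p (-x) = - R p x := by unfold R; exact Rat.cast_neg x

lemma R_sub {x y : ℚ} (hx : x ∈ Zp p) (hy : y ∈ Zp p) : R p (x - y) = R p x - R p y := by
  rw [sub_eq_add_neg, R_add hx ((Zp p).neg_mem hy), R_neg, sub_eq_add_neg]

lemma R_sum {ι : Type*} (s : Finset ι) (f : ι → ℚ) (hf : ∀ i ∈ s, f i ∈ Zp p) :
    R p (∑ i ∈ s, f i) = ∑ i ∈ s, R p (f i) := by
  classical
  induction s using Finset.induction_on with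
  | empty => simpa using R_zero
  | insert a s ha ih =>
    rw [sum_insert ha, sum_insert ha, R_add (hf a (mem_insert_self a s))
      ((Zp p).sum_mem (fun i hi => hf i (mem_insert_of_mem hi))),
      ih (fun i hi => hf i (mem_insert_of_mem hi))]

lemma R_prod {ι : Type*} (s : Finset ι) (f : ι → ℚ) (hf : ∀ i ∈ s, f i ∈ Zp p) :
    R p (∏ i ∈ s, f i) = ∏ i ∈ s, R p (f i) := by
  classical
  induction s using Finset.induction_on with
  | empty => simpa using R_one
  | insert a s ha ih =>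
    rw [prod_insert ha, prod_insert ha, R_mul (hf a (mem_insert_self a s))
      ((Zp p).prod_mem (fun i hi => hf i (mem_insert_of_mem hi))),
      ih (fun i hi => hf i (mem_insert_of_mem hi))]

lemma R_pow {x : ℚ} (hx : x ∈ Zp p) (n : ℕ) : R p (x ^ n) = R p x ^ n := by
  induction n with
  | zero => simpa using R_one
  | succ n ih => rw [pow_succ, R_mul ((Zp p).pow_mem hx n) hx, ih, pow_succ]

lemma R_p : R p (p : ℚ) = 0 := by rw [R_nat]; simp

lemma R_eq_zero {x : ℚ} (hx : x ∈ Zp p) (h : R p x = 0) : I p 1 x := by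
  have hd : (x.den : ℚ) ≠ 0 := by exact_mod_cast x.den_nz
  have e : (x.num : ℚ) = x * x.den := by
    rw [Rat.mul_den_eq_num]
  have e2 : ((x.num : ℤ) : ZMod p) = 0 := by
    rw [← R_int (p := p) x.num, e, R_mul hx (nat_mem _), h, zero_mul]
  have e3 : (p : ℤ) ∣ x.num := (ZMod.intCast_zmod_eq_zero_iff_dvd _ _).mp e2
  obtain ⟨c, hc⟩ := e3
  refine ⟨c * ((x.den : ℚ))⁻¹, (Zp p).mul_mem (int_mem c) (inv_nat_mem hx), ?_⟩
  rw [pow_one, ← mul_assoc, ← div_eq_mul_inv, eq_div_iff hd, ← e, hc]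
  push_cast
  ring

lemma R_of_I {x : ℚ} (h : I p 1 x) : R p x = 0 := by
  obtain ⟨y, hy, rfl⟩ := h
  rw [pow_one, R_mul (nat_mem p) hy, R_p, zero_mul]

lemma R_eq_iff {x y : ℚ} (hx : x ∈ Zp p) (hy : y ∈ Zp p) : R p x = R p y ↔ I p 1 (x - y) := by
  constructor
  · intro h
    exact R_eq_zero ((Zp p).sub_mem hx hy) (by rw [R_sub hx hy, h, sub_self])
  · intro h
    have := R_of_I h
    rw [R_sub hx hy] at this
    exact sub_eq_zero.mp this

lemma natCast_ne {n : ℕ} (h0 : 0 < n) (h : n < p) : (n : ZMod p) ≠ 0 := by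
  intro hh
  exact absurd (Nat.le_of_dvd h0 ((ZMod.natCast_eq_zero_iff _ _).mp hh)) (by omega)

lemma cong_of_I {m : ℕ} {u v : ℚ} (h : I p m (u - v)) : Pool.Agent.Q34.Cong p m u v := by
  obtain ⟨y, hy, e⟩ := h
  exact ⟨y, ((Nat.Prime.coprime_iff_not_dvd hp.out).mpr hy).symm, e⟩

/-- cancel a natural number prime to `p` from the left -/
lemma mem_of_mul {n : ℕ} (h : ¬ p ∣ n) {x : ℚ} (hx : (n : ℚ) * x ∈ Zp p) : x ∈ Zp p :=
  (I.cancel h (I.of_mem hx)).mem

/-- `p`-adic units -/
def Un (p : ℕ) [Fact p.Prime] (x : ℚ) : Prop := x ≠ 0 ∧ x ∈ Zp p ∧ x⁻¹ ∈ Zp p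

lemma Un.mul {x y : ℚ} (hx : Un p x) (hy : Un p y) : Un p (x * y) :=
  ⟨mul_ne_zero hx.1 hy.1, (Zp p).mul_mem hx.2.1 hy.2.1, by
    rw [mul_inv]; exact (Zp p).mul_mem hx.2.2 hy.2.2⟩

lemma Un.inv {x : ℚ} (hx : Un p x) : Un p x⁻¹ :=
  ⟨inv_ne_zero hx.1, hx.2.2, by rw [inv_inv]; exact hx.2.1⟩

lemma Un.div {x y : ℚ} (hx : Un p x) (hy : Un p y) : Un p (x / y) := by
  rw [div_eq_mul_inv]; exact hx.mul hy.inv

lemma Un.neg {x : ℚ} (hx : Un p x) : Un p (-x) :=
  ⟨neg_ne_zero.mpr hx.1, (Zp p).neg_mem hx.2.1, by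
    rw [inv_neg]; exact (Zp p).neg_mem hx.2.2⟩

lemma Un.one : Un p 1 := ⟨one_ne_zero, (Zp p).one_mem, by simpa using (Zp p).one_mem⟩

lemma Un.pow {x : ℚ} (hx : Un p x) (n : ℕ) : Un p (x ^ n) := by
  induction n with
  | zero => simpa using Un.one
  | succ n ih => rw [pow_succ]; exact ih.mul hx

lemma Un.nat {n : ℕ} (h : ¬ p ∣ n) : Un p (n : ℚ) := by
  refine ⟨?_, nat_mem n, inv_nat_mem h⟩
  intro h0
  apply h
  have : n = 0 := by exact_mod_cast h0
  rw [this]; exact dvd_zero p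

lemma Un.int {n : ℤ} (h : ¬ (p : ℤ) ∣ n) : Un p (n : ℚ) := by
  refine ⟨?_, int_mem n, inv_int_mem h⟩
  intro h0
  apply h
  have : n = 0 := by exact_mod_cast h0
  rw [this]; exact dvd_zero _

lemma Un.nat_lt {n : ℕ} (h0 : 0 < n) (h : n < p) : Un p (n : ℚ) :=
  Un.nat fun hd => absurd (Nat.le_of_dvd h0 hd) (by omega)

lemma Un.prod {ι : Type*} (s : Finset ι) (f : ι → ℚ) (hf : ∀ i ∈ s, Un p (f i)) :
    Un p (∏ i ∈ s, f i) := by
  classical
  induction s using Finset.induction_on with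
  | empty => simpa using Un.one
  | insert a s ha ih =>
    rw [prod_insert ha]
    exact (hf a (mem_insert_self a s)).mul (ih (fun i hi => hf i (mem_insert_of_mem hi)))

lemma Un.add_I {x y : ℚ} (hx : Un p x) (hy : I p 1 y) : Un p (x + y) := by
  have h1 : I p 1 ((1 + y * x⁻¹) - 1) := by
    rw [add_sub_cancel_left]; exact hy.mul_mem hx.2.2
  obtain ⟨h2, h3, -⟩ := Pool.Agent.Helper857.Pad.unit h1
  have e : x + y = x * (1 + y * x⁻¹) := by
    have := hx.1
    field_simp
  rw [e]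
  refine hx.mul ⟨h2, ?_, h3⟩
  exact (Zp p).add_mem (Zp p).one_mem (hy.mul_mem hx.2.2).mem

lemma Un.fac {n : ℕ} (h : n < p) : Un p ((n.factorial : ℕ) : ℚ) :=
  Un.nat fun hd => absurd ((hp.out.dvd_factorial).mp hd) (by omega)

lemma Un.R_ne {x : ℚ} (hx : Un p x) : R p x ≠ 0 := by
  intro h0
  have : R p (x * x⁻¹) = 1 := by rw [mul_inv_cancel₀ hx.1, R_one]
  rw [R_mul hx.2.1 hx.2.2, h0, zero_mul] at this
  exact zero_ne_one this

lemma Un.R_inv {x : ℚ} (hx : Un p x) : R p x⁻¹ = (R p x)⁻¹ := by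
  have h0 := hx.R_ne
  have : R p (x * x⁻¹) = 1 := by rw [mul_inv_cancel₀ hx.1, R_one]
  rw [R_mul hx.2.1 hx.2.2] at this
  exact (inv_eq_of_mul_eq_one_right this).symm

lemma R_div {x y : ℚ} (hx : x ∈ Zp p) (hy : Un p y) : R p (x / y) = R p x / R p y := by
  rw [div_eq_mul_inv, R_mul hx hy.2.2, hy.R_inv, div_eq_mul_inv]

end red

section rf
variable {A : Type*} [CommRing A]

/-- rising factorial -/
def rf (b : A) (k : ℕ) : A := ∏ i ∈ range k, (b + i)

lemma rf_zero (b : A) : rf b 0 = 1 := by simp [rf]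

lemma rf_succ (b : A) (k : ℕ) : rf b (k + 1) = rf b k * (b + k) := by
  unfold rf; rw [prod_range_succ]

lemma rf_succ' (b : A) (k : ℕ) : rf b (k + 1) = b * rf (b + 1) k := by
  unfold rf
  rw [prod_range_succ', mul_comm]
  congr 1
  · simp
  · refine prod_congr rfl fun i _ => ?_
    push_cast; ring

lemma rf_add (b : A) (m n : ℕ) : rf b (m + n) = rf b m * rf (b + m) n := by
  unfold rf
  rw [prod_range_add]
  congr 1
  refine prod_congr rfl fun i _ => ?_
  push_cast; ring

/-- reversal -/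
lemma rf_neg (b : A) (n : ℕ) : rf b n = (-1) ^ n * rf (1 - b - n) n := by
  unfold rf
  rw [← prod_range_reflect (fun i => (1 - b - (n : A)) + (i : A)) n]
  rw [show ((-1 : A)) ^ n = ∏ _i ∈ range n, (-1 : A) by simp, ← prod_mul_distrib]
  refine prod_congr rfl fun i hi => ?_
  have hi' : i < n := mem_range.mp hi
  rw [show n - 1 - i = n - (i + 1) by omega, Nat.cast_sub (by omega)]
  push_cast; ring

/-- Chu-Vandermonde in any commutative ring -/
theorem chu (n : ℕ) : ∀ b c : A,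
    ∑ k ∈ range (n + 1), (-1) ^ k * (n.choose k : A) * rf b k * rf (c + k) (n - k) =
      rf (c - b) n := by
  induction n with
  | zero => intro b c; simp [rf_zero]
  | succ n ih =>
    intro b c
    have h1 : ∑ k ∈ range (n + 1 + 1), (-1) ^ k * ((n + 1).choose k : A) * rf b k *
        rf (c + k) (n + 1 - k) =
        (c + n) * ∑ k ∈ range (n + 1), (-1) ^ k * (n.choose k : A) * rf b k *
          rf (c + k) (n - k) -
        b * ∑ k ∈ range (n + 1), (-1) ^ k * (n.choose k : A) * rf (b + 1) k *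
          rf (c + 1 + k) (n - k) := by
      rw [sum_range_succ' (fun k => (-1) ^ k * ((n + 1).choose k : A) * rf b k *
        rf (c + k) (n + 1 - k))]
      have h2 : ∀ k ∈ range (n + 1), (-1 : A) ^ (k + 1) * ((n + 1).choose (k + 1) : A) *
          rf b (k + 1) * rf (c + ((k + 1 : ℕ) : A)) (n + 1 - (k + 1)) =
          - (b * ((-1) ^ k * (n.choose k : A) * rf (b + 1) k * rf (c + 1 + k) (n - k))) +
          (-1) ^ (k + 1) * (n.choose (k + 1) : A) * rf b (k + 1) *
            rf (c + ((k + 1 : ℕ) : A)) (n + 1 - (k + 1)) := by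
        intro k hk
        rw [Nat.choose_succ_succ, rf_succ' b k, show n + 1 - (k + 1) = n - k by omega]
        push_cast
        rw [show c + ((k : A) + 1) = c + 1 + k by ring]
        ring
      rw [sum_congr rfl h2, sum_add_distrib, sum_neg_distrib, ← mul_sum]
      have h3 : ∑ k ∈ range (n + 1), (-1 : A) ^ (k + 1) * (n.choose (k + 1) : A) *
          rf b (k + 1) * rf (c + ((k + 1 : ℕ) : A)) (n + 1 - (k + 1)) +
          (-1) ^ 0 * ((n + 1).choose 0 : A) * rf b 0 * rf (c + ((0 : ℕ) : A)) (n + 1 - 0) =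
          (c + n) * ∑ k ∈ range (n + 1), (-1) ^ k * (n.choose k : A) * rf b k *
          rf (c + k) (n - k) := by
        have h4 : (-1 : A) ^ 0 * ((n + 1).choose 0 : A) * rf b 0 *
            rf (c + ((0 : ℕ) : A)) (n + 1 - 0) =
            (-1 : A) ^ 0 * (n.choose 0 : A) * rf b 0 * rf (c + ((0 : ℕ) : A)) (n + 1 - 0) := by
          simp
        rw [h4, ← sum_range_succ' (fun k => (-1 : A) ^ k * (n.choose k : A) *
          rf b k * rf (c + (k : A)) (n + 1 - k)), sum_range_succ]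
        rw [Nat.choose_succ_self, Nat.cast_zero]
        rw [mul_sum]
        rw [show (-1 : A) ^ (n + 1) * 0 * rf b (n + 1) * rf (c + ((n + 1 : ℕ) : A)) (n + 1 - (n + 1)) = 0
          by ring, add_zero]
        refine sum_congr rfl fun k hk => ?_
        have hk' : k ≤ n := by have := mem_range.mp hk; omega
        rw [show n + 1 - k = (n - k) + 1 by omega, rf_succ, Nat.cast_sub hk']
        ring
      linear_combination h3
    rw [h1, ih b c, ih (b + 1) (c + 1), show c + 1 - (b + 1) = c - b by ring, rf_succ]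
    ring

end rf

/-- the terminating Chu-Vandermonde sum for a sequence with the hypergeometric recurrence -/
theorem chu_rec {F : Type*} [Field F] (n : ℕ) (b c : F) (u : ℕ → F)
    (hu : ∀ k < n, (c + k) * (k + 1) * u (k + 1) = ((k : F) - n) * (b + k) * u k)
    (h2 : ∀ k < n, (k : F) + 1 ≠ 0) :
    rf c n * ∑ k ∈ range (n + 1), u k = rf (c - b) n * u 0 := by
  have key : ∀ k ≤ n, rf c k * u k = (-1) ^ k * (n.choose k : F) * rf b k * u 0 := by
    intro k
    induction k with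
    | zero => intro _; simp [rf_zero]
    | succ k ih =>
      intro hk
      have hk' : k < n := by omega
      have ih' := ih hk'.le
      have e1 := hu k hk'
      have e2 : ((n.choose (k + 1) : ℕ) : F) * (k + 1) = (n.choose k : F) * (n - k) := by
        have := Nat.choose_succ_right_eq n k
        have h3 : ((n.choose (k + 1) * (k + 1) : ℕ) : F) = ((n.choose k * (n - k) : ℕ) : F) := by
          rw [this]
        push_cast [Nat.cast_sub hk'.le] at h3
        exact h3
      apply mul_left_cancel₀ (h2 k hk')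
      rw [rf_succ, rf_succ, pow_succ]
      linear_combination (rf c k) * e1 + ((k : F) - n) * (b + k) * ih' -
        (-1) ^ k * (-1) * rf b k * (b + k) * u 0 * e2
  rw [mul_sum, ← chu n b c, sum_mul]
  refine sum_congr rfl fun k hk => ?_
  have hk' : k ≤ n := by have := mem_range.mp hk; omega
  have e3 : rf c n = rf c k * rf (c + k) (n - k) := by
    rw [← rf_add]; congr 1; omega
  rw [e3]
  linear_combination rf (c + k) (n - k) * key k hk'

end Pool.Agent.Q34.Red
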