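import Mathlib
import Pool.Agent.Helper857.W8
import Pool.Agent.Q34.Red

set_option autoImplicit false

/-! The sum `∑ (4k+1) (C(2k,k)/4^k)^4`. -/

namespace Pool.Agent.Q34.A4

open Finset Pool.Agent.Helper857.Pad Pool.Agent.Helper857.W

/-- `C(2k,k)/4^k = (1/2)_k / k!` -/
noncomputable def be (k : ℕ) : ℚ := ((2 * k).choose k : ℚ) / 4 ^ k

lemma be_zero : be 0 = 1 := by simp [be]

lemma be_succ (k : ℕ) : be (k + 1) = be k * (2 * k + 1) / (2 * k + 2) := by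
  unfold be
  have h := Nat.succ_mul_centralBinom_succ k
  rw [Nat.centralBinom, Nat.centralBinom] at h
  have h2 : ((k : ℚ) + 1) * ((2 * (k + 1)).choose (k + 1) : ℚ) = 2 * (2 * k + 1) * ((2 * k).choose k : ℚ) := by
    exact_mod_cast h
  have h3 : (k : ℚ) + 1 ≠ 0 := by positivity
  have h4 : 2 * (k : ℚ) + 2 ≠ 0 := by positivity
  rw [pow_succ, div_eq_div_iff (by positivity) h4]
  field_simp
  linear_combination 2 * h2

lemma be_pos (k : ℕ) : 0 < be k := by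
  unfold be
  have : 0 < (2 * k).choose k := Nat.choose_pos (by omega)
  positivity

/-- the sum -/
noncomputable def S (N : ℕ) : ℚ := ∑ k ∈ range (N + 1), (4 * (k : ℚ) + 1) * be k ^ 4

/-- the companion -/
noncomputable def t (N j : ℕ) : ℚ :=
  2 * (2 * (N : ℚ) + 1) ^ 2 * be N ^ 2 * be (N - j) * be (N + j + 1) / (2 * j + 1)

lemma wz (k d : ℕ) : t (k + d + 1) k - t (k + d) k =
    (4 * ((k + d + 1 : ℕ) : ℚ) + 1) * be (k + d + 1) ^ 2 *
      (be (k + d + 1 + k) * be (d + 1) - be (k + d + 1 + (k + 1)) * be d) := by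
  unfold t
  rw [show k + d + 1 - k = d + 1 by omega, show k + d - k = d by omega,
    show k + d + 1 + k + 1 = (k + d + k + 1) + 1 by ring,
    show k + d + 1 + k = k + d + k + 1 by ring,
    show k + d + 1 + (k + 1) = (k + d + k + 1) + 1 by ring, be_succ d, be_succ (k + d + k + 1),
    be_succ (k + d)]
  generalize be (k + d + k + 1) = y
  generalize be (k + d) = z
  generalize be d = x
  have h1 : (d : ℚ) + 1 ≠ 0 := by positivity
  have h2 : 2 * (d : ℚ) + 2 ≠ 0 := by positivity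
  have h3 : 2 * (k : ℚ) + 1 ≠ 0 := by positivity
  have h4 : 2 * ((k : ℚ) + d) + 2 ≠ 0 := by positivity
  have h5 : 2 * ((k : ℚ) + d + k + 1) + 2 ≠ 0 := by positivity
  push_cast
  field_simp
  ring

lemma diag (N : ℕ) : t N N = (4 * (N : ℚ) + 1) * be N ^ 2 * be (N + N) := by
  unfold t
  rw [Nat.sub_self, be_zero, be_succ (N + N)]
  have h3 : 2 * (N : ℚ) + 1 ≠ 0 := by positivity
  have h4 : 2 * ((N : ℚ) + N) + 2 ≠ 0 := by positivity
  push_cast
  field_simp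
  ring

theorem S_eq (N : ℕ) : S N = ∑ j ∈ range (N + 1), t N j := by
  induction N with
  | zero =>
    simp only [S, zero_add, range_one, sum_singleton, be_zero, Nat.cast_zero, t]
    rw [be_succ 0, be_zero]; norm_num
  | succ N ih =>
    have hS : S (N + 1) = S N + (4 * ((N + 1 : ℕ) : ℚ) + 1) * be (N + 1) ^ 4 := by
      unfold S; rw [sum_range_succ _ (N + 1)]
    rw [hS, ih, sum_range_succ _ (N + 1), diag]
    have h1 : ∑ j ∈ range (N + 1), t (N + 1) j = ∑ j ∈ range (N + 1), t N j +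
        ∑ j ∈ range (N + 1), ((4 * ((N + 1 : ℕ) : ℚ) + 1) * be (N + 1) ^ 2 * (be (N + 1 + j) * be (N + 1 - j)) -
          (4 * ((N + 1 : ℕ) : ℚ) + 1) * be (N + 1) ^ 2 * (be (N + 1 + (j + 1)) * be (N + 1 - (j + 1)))) := by
      rw [← sum_add_distrib]
      refine sum_congr rfl fun j hj => ?_
      have hj' : j ≤ N := by have := mem_range.mp hj; omega
      obtain ⟨d, rfl⟩ : ∃ d, N = j + d := ⟨N - j, by omega⟩
      have := wz j d
      rw [show j + d + 1 - j = d + 1 by omega, show j + d + 1 - (j + 1) = d by omega]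
      linear_combination this
    rw [h1, Finset.sum_range_sub' (fun j => (4 * ((N + 1 : ℕ) : ℚ) + 1) * be (N + 1) ^ 2 * (be (N + 1 + j) * be (N + 1 - j)))]
    rw [Nat.sub_self, be_zero, add_zero, Nat.sub_zero]
    ring

/-! ### expansion at `2R+1` -/

lemma be_prod (R : ℕ) : be R = (-1) ^ R * ∏ i ∈ range R, (1 - ((2 * R + 1 : ℕ) : ℚ) / (2 * ((i : ℚ) + 1))) := by
  have h1 : ∀ n, be n = (∏ i ∈ range n, (2 * (i : ℚ) + 1)) / ∏ i ∈ range n, (2 * (i : ℚ) + 2) := by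
    intro n
    induction n with
    | zero => simp [be_zero]
    | succ n ih => rw [be_succ, ih, prod_range_succ, prod_range_succ]; field_simp
  have h2 : ∏ i ∈ range R, (2 * (i : ℚ) + 1) = ∏ i ∈ range R, (((2 * R + 1 : ℕ) : ℚ) - (2 * i + 2)) := by
    rw [← prod_range_reflect]
    refine prod_congr rfl fun i hi => ?_
    have hi' := mem_range.mp hi
    rw [show R - 1 - i = R - (i + 1) by omega, Nat.cast_sub (by omega)]
    push_cast; ring
  rw [h1, h2, ← prod_div_distrib, show ((-1 : ℚ)) ^ R = ∏ _i ∈ range R, (-1 : ℚ) by simp,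
    ← prod_mul_distrib]
  refine prod_congr rfl fun i _ => ?_
  have : (i : ℚ) + 1 ≠ 0 := by positivity
  field_simp
  ring

lemma be_mid (R : ℕ) : 2 * be (2 * R + 1) = be R * ((-1) ^ R * ∏ i ∈ range R,
    ((1 + ((2 * R + 1 : ℕ) : ℚ) / (2 * ((i : ℚ) + 1))) / (1 - 2 * (((2 * R + 1 : ℕ) : ℚ) / (2 * ((i : ℚ) + 1)))))) := by
  have h1 : ∀ n, be (R + n) = be R * ((∏ i ∈ range n, (2 * ((R : ℚ) + i) + 1)) / ∏ i ∈ range n, (2 * ((R : ℚ) + i) + 2)) := by
    intro n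
    induction n with
    | zero => simp
    | succ n ih =>
      rw [← add_assoc, be_succ, ih, prod_range_succ, prod_range_succ]
      have : ∏ i ∈ range n, (2 * ((R : ℚ) + i) + 2) ≠ 0 := by
        rw [prod_ne_zero_iff]; intro i _; positivity
      have h3 : 2 * ((R : ℚ) + n) + 2 ≠ 0 := by positivity
      push_cast
      field_simp
  have h2 : ∏ i ∈ range (R + 1), (2 * ((R : ℚ) + i) + 1) =
      ((2 * R + 1 : ℕ) : ℚ) * ∏ i ∈ range R, (((2 * R + 1 : ℕ) : ℚ) + (2 * i + 2)) := by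
    rw [prod_range_succ']
    rw [mul_comm]
    congr 1
    · push_cast; ring
    · refine prod_congr rfl fun i _ => ?_
      push_cast; ring
  have h3 : ∏ i ∈ range (R + 1), (2 * ((R : ℚ) + i) + 2) =
      (2 * ((2 * R + 1 : ℕ) : ℚ)) * ∏ i ∈ range R, (2 * ((2 * R + 1 : ℕ) : ℚ) - (2 * i + 2)) := by
    rw [prod_range_succ, mul_comm]
    congr 1
    · push_cast; ring
    · rw [← prod_range_reflect]
      refine prod_congr rfl fun i hi => ?_
      have hi' := mem_range.mp hi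
      rw [show R - 1 - i = R - (i + 1) by omega, Nat.cast_sub (by omega)]
      push_cast; ring
  have hne : ∀ i < R, (2 * ((2 * R + 1 : ℕ) : ℚ) - (2 * (i : ℚ) + 2)) ≠ 0 := by
    intro i hi
    have : ((i : ℚ)) < R := by exact_mod_cast hi
    push_cast
    intro h0
    linarith
  have hP : ((2 * R + 1 : ℕ) : ℚ) ≠ 0 := by positivity
  rw [show 2 * R + 1 = R + (R + 1) by ring, h1, h2, h3, mul_div_mul_comm, ← prod_div_distrib]
  rw [show R + (R + 1) = 2 * R + 1 by ring]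
  have h4 : ((2 * R + 1 : ℕ) : ℚ) / (2 * ((2 * R + 1 : ℕ) : ℚ)) = 1 / 2 := by
    field_simp
  rw [h4, show ((-1 : ℚ)) ^ R = ∏ _i ∈ range R, (-1 : ℚ) by simp, ← prod_mul_distrib]
  have h5 : ∏ i ∈ range R, (((2 * R + 1 : ℕ) : ℚ) + (2 * (i : ℚ) + 2)) / (2 * ((2 * R + 1 : ℕ) : ℚ) - (2 * i + 2)) =
      ∏ i ∈ range R, (-1 : ℚ) * ((1 + ((2 * R + 1 : ℕ) : ℚ) / (2 * ((i : ℚ) + 1))) / (1 - 2 * (((2 * R + 1 : ℕ) : ℚ) / (2 * ((i : ℚ) + 1))))) := by
    refine prod_congr rfl fun i hi => ?_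
    have h6 := hne i (mem_range.mp hi)
    have h7 : (i : ℚ) + 1 ≠ 0 := by positivity
    set P : ℚ := ((2 * R + 1 : ℕ) : ℚ)
    have h8 : 1 - 2 * (P / (2 * ((i : ℚ) + 1))) ≠ 0 := by
      intro h0
      apply h6
      field_simp at h0
      linarith
    rw [div_eq_iff h6, mul_assoc, div_mul_eq_mul_div, eq_comm]
    rw [← mul_div_assoc, div_eq_iff h8]
    field_simp
    ring
  rw [h5]
  ring

/-- product of the two factors -/
lemma be_sq (R : ℕ) : 2 * be R ^ 2 * be (2 * R + 1) = ∏ i ∈ range R,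
    ((1 - ((2 * R + 1 : ℕ) : ℚ) / (2 * ((i : ℚ) + 1))) ^ 3 * (1 + ((2 * R + 1 : ℕ) : ℚ) / (2 * ((i : ℚ) + 1))) /
      (1 - 2 * (((2 * R + 1 : ℕ) : ℚ) / (2 * ((i : ℚ) + 1))))) := by
  have e : 2 * be R ^ 2 * be (2 * R + 1) = be R ^ 2 * (2 * be (2 * R + 1)) := by ring
  rw [e, be_mid]
  have h := be_prod R
  rw [h]
  have hs : ((-1 : ℚ) ^ R) ^ 4 = 1 := by
    rw [← pow_mul, mul_comm, pow_mul]; norm_num
  set A := ∏ i ∈ range R, (1 - ((2 * R + 1 : ℕ) : ℚ) / (2 * ((i : ℚ) + 1))) with hA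
  rw [show (∏ i ∈ range R, ((1 - ((2 * R + 1 : ℕ) : ℚ) / (2 * ((i : ℚ) + 1))) ^ 3 * (1 + ((2 * R + 1 : ℕ) : ℚ) / (2 * ((i : ℚ) + 1))) /
      (1 - 2 * (((2 * R + 1 : ℕ) : ℚ) / (2 * ((i : ℚ) + 1)))))) = A ^ 3 * ∏ i ∈ range R,
    ((1 + ((2 * R + 1 : ℕ) : ℚ) / (2 * ((i : ℚ) + 1))) / (1 - 2 * (((2 * R + 1 : ℕ) : ℚ) / (2 * ((i : ℚ) + 1))))) by
      rw [hA, ← prod_pow, ← prod_mul_distrib]
      exact prod_congr rfl fun i _ => by ring]
  linear_combination (A ^ 3 * ∏ i ∈ range R,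
    ((1 + ((2 * R + 1 : ℕ) : ℚ) / (2 * ((i : ℚ) + 1))) / (1 - 2 * (((2 * R + 1 : ℕ) : ℚ) / (2 * ((i : ℚ) + 1)))))) * hs

/-- `∏_{1 ≤ i < s} (1 - N/i)` -/
noncomputable def Aq (N : ℚ) (s : ℕ) : ℚ := ∏ i ∈ range (s - 1), (1 - g N (i + 1))
/-- `∏_{i<s} (1 - 2N/(2i+1))` -/
noncomputable def Bq (N : ℚ) (s : ℕ) : ℚ := ∏ i ∈ range s, (1 - 2 * g N (2 * i + 1))

lemma pair (R s : ℕ) (hs : 1 ≤ s) (hs' : s ≤ 2 * R) :
    be s * be (2 * R + 1 - s) * Bq ((2 * R + 1 : ℕ) : ℚ) s =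
      - (be (2 * R + 1) * g ((2 * R + 1 : ℕ) : ℚ) s * Aq ((2 * R + 1 : ℕ) : ℚ) s) := by
  obtain ⟨s, rfl⟩ : ∃ l, s = l + 1 := ⟨s - 1, by omega⟩
  induction s with
  | zero =>
    have h1 : be (2 * R + 1) = be (2 * R) * (2 * ((2 * R : ℕ) : ℚ) + 1) / (2 * ((2 * R : ℕ) : ℚ) + 2) := be_succ _
    rw [show 0 + 1 = 1 by rfl, show 2 * R + 1 - 1 = 2 * R by omega, h1]
    have h0 : be 1 = 1 / 2 := by rw [be_succ 0, be_zero]; norm_num
    rw [h0]
    simp only [Bq, Aq, g, range_one, prod_singleton, Nat.sub_self, range_zero, prod_empty]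
    have : 2 * ((2 * R : ℕ) : ℚ) + 2 ≠ 0 := by positivity
    push_cast at this ⊢
    field_simp
    ring
  | succ s ih =>
    have ih' := ih (by omega) (by omega)
    obtain ⟨d, hd⟩ : ∃ d, 2 * R + 1 = s + 2 + d := ⟨2 * R + 1 - (s + 2), by omega⟩
    rw [show 2 * R + 1 - (s + 1) = d + 1 by omega] at ih'
    rw [show 2 * R + 1 - (s + 1 + 1) = d by omega]
    have hB : Bq ((2 * R + 1 : ℕ) : ℚ) (s + 1 + 1) = Bq ((2 * R + 1 : ℕ) : ℚ) (s + 1) * (1 - 2 * g ((2 * R + 1 : ℕ) : ℚ) (2 * (s + 1) + 1)) := by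
      unfold Bq; rw [prod_range_succ]
    have hA : Aq ((2 * R + 1 : ℕ) : ℚ) (s + 1 + 1) = Aq ((2 * R + 1 : ℕ) : ℚ) (s + 1) * (1 - g ((2 * R + 1 : ℕ) : ℚ) (s + 1)) := by
      unfold Aq; rw [show s + 1 + 1 - 1 = s + 1 by omega, show s + 1 - 1 = s by omega, prod_range_succ]
    rw [be_succ d] at ih'
    rw [hB, hA, be_succ (s + 1)]
    have e1 : be (s + 1) * be d * Bq ((2 * R + 1 : ℕ) : ℚ) (s + 1) * (2 * d + 1) =
      -(be (2 * R + 1) * g ((2 * R + 1 : ℕ) : ℚ) (s + 1) * Aq ((2 * R + 1 : ℕ) : ℚ) (s + 1)) * (2 * d + 2) := by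
      rw [← ih']
      have : 2 * (d : ℚ) + 2 ≠ 0 := by positivity
      field_simp
    have hN : ((2 * R + 1 : ℕ) : ℚ) = s + 2 + d := by rw [hd]; push_cast; ring
    have q1 : 2 * ((s : ℚ) + 1) + 1 ≠ 0 := by positivity
    have q2 : (s : ℚ) + 1 ≠ 0 := by positivity
    have q3 : 2 * ((s : ℚ) + 1) + 2 ≠ 0 := by positivity
    have q4 : (s : ℚ) + 1 + 1 ≠ 0 := by positivity
    have g1 : 1 - 2 * g ((2 * R + 1 : ℕ) : ℚ) (2 * (s + 1) + 1) = - (2 * d + 1) / (2 * (s + 1) + 1) := by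
      unfold g; rw [hN]; push_cast; field_simp; ring
    have g2 : 1 - g ((2 * R + 1 : ℕ) : ℚ) (s + 1) = - (d + 1) / (s + 1) := by
      unfold g; rw [hN]; push_cast; field_simp; ring
    have g3 : g ((2 * R + 1 : ℕ) : ℚ) (s + 1 + 1) = g ((2 * R + 1 : ℕ) : ℚ) (s + 1) * (s + 1) / (s + 1 + 1) := by
      unfold g; push_cast; field_simp
    rw [g1, g2, g3]
    push_cast at e1 ⊢
    field_simp
    linear_combination (-1) * e1

/-- `S R / (2R+1)` as a sum -/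
lemma S_quot (R : ℕ) : S R / ((2 * R + 1 : ℕ) : ℚ) = 2 * be R ^ 2 * be (2 * R + 1) *
    (1 + ∑ s ∈ Icc 1 R, 1 / 2 * g ((2 * R + 1 : ℕ) : ℚ) s ^ 2 * ((1 - g ((2 * R + 1 : ℕ) : ℚ) (2 * s))⁻¹ *
      (Aq ((2 * R + 1 : ℕ) : ℚ) s * (Bq ((2 * R + 1 : ℕ) : ℚ) s)⁻¹))) := by
  have hP : ((2 * R + 1 : ℕ) : ℚ) ≠ 0 := by positivity
  rw [div_eq_iff hP, S_eq, ← sum_flip, sum_range_succ', Nat.sub_zero]
  have h0 : t R R = 2 * be R ^ 2 * be (2 * R + 1) * ((2 * R + 1 : ℕ) : ℚ) := by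
    unfold t
    rw [Nat.sub_self, be_zero, show R + R + 1 = 2 * R + 1 by ring]
    push_cast at hP ⊢
    field_simp
  rw [h0, mul_add, mul_one, add_mul, add_comm]
  congr 1
  rw [sum_shift, mul_sum, sum_mul]
  refine sum_congr rfl fun s hs => ?_
  have hs' := mem_range.mp hs
  have hp := pair R (s + 1) (by omega) (by omega)
  unfold t
  rw [show R - (R - (s + 1)) = s + 1 by omega, show R + (R - (s + 1)) + 1 = 2 * R + 1 - (s + 1) by omega]
  have hBne : Bq ((2 * R + 1 : ℕ) : ℚ) (s + 1) ≠ 0 := by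
    unfold Bq
    rw [prod_ne_zero_iff]
    intro i _ h0
    unfold g at h0
    have h1 : ((2 * i + 1 : ℕ) : ℚ) ≠ 0 := by positivity
    field_simp at h0
    have h2 : ((2 * i + 1 : ℕ) : ℚ) = ((2 * (2 * R + 1) : ℕ) : ℚ) := by push_cast at h0 ⊢; linarith
    have h3 : 2 * i + 1 = 2 * (2 * R + 1) := by exact_mod_cast h2
    omega
  have hs1 : (s : ℚ) + 1 ≠ 0 := by positivity
  have hc : ((R - (s + 1) : ℕ) : ℚ) = R - (s + 1) := by
    rw [Nat.cast_sub (by omega)]; push_cast; ring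
  rw [hc]
  have hR : ((s : ℚ) + 1) ≤ R := by exact_mod_cast hs'
  have hne : 2 * ((R : ℚ) - (s + 1)) + 1 ≠ 0 := by
    have : 0 ≤ (R : ℚ) - (s + 1) := by linarith
    positivity
  have g1 : (1 - g ((2 * R + 1 : ℕ) : ℚ) (2 * (s + 1)))⁻¹ = - (2 * ((s : ℚ) + 1)) / (2 * ((R : ℚ) - (s + 1)) + 1) := by
    have : 1 - g ((2 * R + 1 : ℕ) : ℚ) (2 * (s + 1)) = - (2 * ((R : ℚ) - (s + 1)) + 1) / (2 * (s + 1)) := by
      unfold g; push_cast; field_simp; ring
    rw [this, inv_div, div_neg, neg_div]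
  rw [g1]
  have e2 : be (s + 1) * be (2 * R + 1 - (s + 1)) = - (be (2 * R + 1) * g ((2 * R + 1 : ℕ) : ℚ) (s + 1) *
      Aq ((2 * R + 1 : ℕ) : ℚ) (s + 1)) * (Bq ((2 * R + 1 : ℕ) : ℚ) (s + 1))⁻¹ := by
    rw [← hp]; field_simp
  have e3 : 2 * (2 * (R : ℚ) + 1) ^ 2 * be R ^ 2 * be (s + 1) * be (2 * R + 1 - (s + 1)) / (2 * ((R : ℚ) - (s + 1)) + 1) =
      2 * (2 * (R : ℚ) + 1) ^ 2 * be R ^ 2 * (be (s + 1) * be (2 * R + 1 - (s + 1))) / (2 * ((R : ℚ) - (s + 1)) + 1) := by ring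
  rw [e3, e2]
  have g4 : g ((2 * R + 1 : ℕ) : ℚ) (s + 1) = (2 * R + 1) / (s + 1) := by unfold g; push_cast; rfl
  generalize (Bq ((2 * R + 1 : ℕ) : ℚ) (s + 1))⁻¹ = b
  generalize Aq ((2 * R + 1 : ℕ) : ℚ) (s + 1) = c
  rw [g4]
  push_cast
  field_simp

section padic
variable {p : ℕ} [hp : Fact p.Prime] {a R : ℕ}

lemma two_mem : (2 : ℚ) ∈ Zp p := by exact_mod_cast nat_mem (p := p) 2

/-- inverse expansion -/
lemma inv_exp {A x : ℚ} (h : I p 2 (A - (1 - x))) (hx : I p 1 x) :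
    A ≠ 0 ∧ A⁻¹ ∈ Zp p ∧ I p 2 (A⁻¹ - (1 + x)) := by
  have h1 : I p 1 (A - 1) := by
    have : A - 1 = (A - (1 - x)) - x := by ring
    rw [this]; exact (h.mono (by norm_num)).sub hx
  obtain ⟨n0, m0, i0⟩ := unit h1
  refine ⟨n0, m0, ?_⟩
  have e : A⁻¹ - (1 + x) = - (A - (1 - x)) * A⁻¹ * (1 + x) + x ^ 2 * A⁻¹ := by
    field_simp
    ring
  rw [e]
  have m1 : (1 + x) ∈ Zp p := (Zp p).add_mem (Zp p).one_mem hx.mem
  exact ((h.neg.mul_mem m0).mul_mem m1).add ((by simpa using hx.pow 2 : I p 2 (x ^ 2)).mul_mem m0)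

lemma prod_lin {m : ℕ} (z : ℕ → ℚ) (hz : ∀ i < m, I p 1 (z i)) :
    I p 2 (∏ i ∈ range m, (1 - z i) - (1 - ∑ i ∈ range m, z i)) := by
  simpa using prod_one_sub (p := p) (m := 1) z m hz

/-- product of three expansions -/
lemma three {A B C x y z : ℚ} (hA : I p 2 (A - (1 + x))) (hB : I p 2 (B - (1 - y)))
    (hC : I p 2 (C - (1 + z))) (hx : I p 1 x) (hy : I p 1 y) (hz : I p 1 z) :
    I p 2 (A * (B * C) - (1 + x - y + z)) := by
  have mA : A ∈ Zp p := by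
    have := (Zp p).add_mem hA.mem ((Zp p).add_mem (Zp p).one_mem hx.mem)
    simpa using this
  have mB : B ∈ Zp p := by
    have := (Zp p).add_mem hB.mem ((Zp p).sub_mem (Zp p).one_mem hy.mem)
    simpa using this
  have m1 : (1 + x) ∈ Zp p := (Zp p).add_mem (Zp p).one_mem hx.mem
  have m2 : (1 - y) ∈ Zp p := (Zp p).sub_mem (Zp p).one_mem hy.mem
  have m3 : (1 + z) ∈ Zp p := (Zp p).add_mem (Zp p).one_mem hz.mem
  have mC : C ∈ Zp p := by
    have := (Zp p).add_mem hC.mem m3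
    simpa using this
  have e : A * (B * C) - (1 + x - y + z) = (A - (1 + x)) * (B * C) + (1 + x) * ((B - (1 - y)) * C) +
      (1 + x) * ((1 - y) * (C - (1 + z))) + (x * z - x * y - y * z - x * y * z) := by ring
  rw [e]
  have t1 : I p 2 (x * z) := hx.mul hz
  have t2 : I p 2 (x * y) := hx.mul hy
  have t3 : I p 2 (y * z) := hy.mul hz
  exact (((hA.mul_mem ((Zp p).mul_mem mB mC)).add (I.mem_mul m1 (hB.mul_mem mC))).add
    (I.mem_mul m1 (I.mem_mul m2 hC))).add (((t1.sub t2).sub t3).sub (t2.mul_mem hz.mem))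

/-- the prefactor -/
lemma pre (ha : 1 ≤ a) (hN : 2 * R + 1 = p ^ a) :
    I p 4 (2 * be R ^ 2 * be (2 * R + 1) - (1 + (1 / 4) * HH ((2 * R + 1 : ℕ) : ℚ) R)) := by
  have hh := half_mem (p := p) ha hN
  rw [be_sq]
  set N : ℚ := ((2 * R + 1 : ℕ) : ℚ) with hNd
  have hv : ∀ i < R, I p 1 (N / (2 * ((i : ℚ) + 1))) := fun i hi => ev_I ha hN hi
  have hf : ∀ i < R, I p 4 ((1 - N / (2 * ((i : ℚ) + 1))) ^ 3 * (1 + N / (2 * ((i : ℚ) + 1))) /
      (1 - 2 * (N / (2 * ((i : ℚ) + 1)))) - (1 - (-(2 * (N / (2 * ((i : ℚ) + 1))) ^ 3)))) := by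
    intro i hi
    have h1 := hv i hi
    set v := N / (2 * ((i : ℚ) + 1))
    have u : I p 1 ((1 - 2 * v) - 1) := by
      have : (1 - 2 * v) - 1 = - (2 * v) := by ring
      rw [this]; exact (I.mem_mul two_mem h1).neg
    obtain ⟨n0, m0, -⟩ := unit u
    have hinv : (1 - 2 * v) * (1 - 2 * v)⁻¹ = 1 := mul_inv_cancel₀ n0
    have e : (1 - v) ^ 3 * (1 + v) / (1 - 2 * v) - (1 - (-(2 * v ^ 3))) = v ^ 4 * (3 * (1 - 2 * v)⁻¹) := by
      rw [div_eq_mul_inv]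
      linear_combination (1 + 2 * v ^ 3) * hinv
    rw [e]
    have h4 : I p 4 (v ^ 4) := by simpa using h1.pow 4
    exact h4.mul_mem ((Zp p).mul_mem (by exact_mod_cast nat_mem (p := p) 3) m0)
  -- product
  have key : ∀ r ≤ R, I p 4 (∏ i ∈ range r, ((1 - N / (2 * ((i : ℚ) + 1))) ^ 3 * (1 + N / (2 * ((i : ℚ) + 1))) /
      (1 - 2 * (N / (2 * ((i : ℚ) + 1))))) - (1 + ∑ i ∈ range r, 2 * (N / (2 * ((i : ℚ) + 1))) ^ 3)) := by
    intro r hr
    induction r with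
    | zero => simpa using I.zero 4
    | succ r ih =>
      have ih' := ih (by omega)
      rw [prod_range_succ, sum_range_succ]
      have h1 := hf r (by omega)
      have h2 := hv r (by omega)
      set v := N / (2 * ((r : ℚ) + 1))
      set f := (1 - v) ^ 3 * (1 + v) / (1 - 2 * v)
      set Pr := ∏ i ∈ range r, ((1 - N / (2 * ((i : ℚ) + 1))) ^ 3 * (1 + N / (2 * ((i : ℚ) + 1))) /
        (1 - 2 * (N / (2 * ((i : ℚ) + 1)))))
      set Sr := ∑ i ∈ range r, 2 * (N / (2 * ((i : ℚ) + 1))) ^ 3 with hSr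
      have hS3 : I p 3 Sr := by
        rw [hSr]
        refine I.sum _ _ fun i hi => I.mem_mul two_mem ?_
        simpa using (hv i (by have := mem_range.mp hi; omega)).pow 3
      have mP : Pr ∈ Zp p := by
        have := (Zp p).add_mem ih'.mem ((Zp p).add_mem (Zp p).one_mem hS3.mem)
        simpa using this
      have v3 : I p 3 (v ^ 3) := by simpa using h2.pow 3
      have e : Pr * f - (1 + (Sr + 2 * v ^ 3)) = Pr * (f - (1 - (-(2 * v ^ 3)))) + (Pr - (1 + Sr)) * (1 + 2 * v ^ 3) +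
          Sr * (2 * v ^ 3) := by ring
      rw [e]
      have m1 : (1 + 2 * v ^ 3) ∈ Zp p := (Zp p).add_mem (Zp p).one_mem ((Zp p).mul_mem two_mem v3.mem)
      exact ((I.mem_mul mP h1).add (ih'.mul_mem m1)).add ((hS3.mul (I.mem_mul two_mem v3)).mono (by norm_num))
  have h := key R le_rfl
  have e : ∑ i ∈ range R, 2 * (N / (2 * ((i : ℚ) + 1))) ^ 3 = (1 / 4) * HH N R := by
    unfold HH
    rw [sum_shift, mul_sum]
    refine sum_congr rfl fun r _ => ?_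
    unfold g
    have : (r : ℚ) + 1 ≠ 0 := by positivity
    push_cast
    field_simp
    ring
  rwa [e] at h

theorem main (ha : 1 ≤ a) (hN : 2 * R + 1 = p ^ a) :
    I p 4 (S R / ((2 * R + 1 : ℕ) : ℚ) - (1 + (1 / 2) * SS ((2 * R + 1 : ℕ) : ℚ) R +
      (1 / 2) * (HH ((2 * R + 1 : ℕ) : ℚ) R - XX ((2 * R + 1 : ℕ) : ℚ) R - MM ((2 * R + 1 : ℕ) : ℚ) R))) := by
  have hh := half_mem (p := p) ha hN
  have hpre := pre (p := p) ha hN
  have h3 := H3 (p := p) ha hN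
  have hgI : ∀ m, 1 ≤ m → m ≤ 2 * R → I p 1 (g ((2 * R + 1 : ℕ) : ℚ) m) := fun m h1 h2 => g_I (p := p) ha hN h1 h2
  have htrip : ∀ r s, 1 ≤ r → r ≤ 2 * R → 1 ≤ s → s ≤ 2 * R →
      I p 4 (g ((2*R+1:ℕ):ℚ) (2*R+1-r) * g ((2*R+1:ℕ):ℚ) s ^ 2 + g ((2*R+1:ℕ):ℚ) r * g ((2*R+1:ℕ):ℚ) s ^ 2) :=
    fun r s h1 h2 h3 h4 => (trip (p := p) ha hN h1 h2 h3 h4).1
  rw [S_quot]
  set N : ℚ := ((2 * R + 1 : ℕ) : ℚ) with hNd
  have m12 : (1 / 2 : ℚ) ∈ Zp p := by rw [one_div]; exact hh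
  have g2 : ∀ s, 1 ≤ s → s ≤ R → I p 2 (g N s ^ 2) := fun s h1 h2 => by
    simpa using (hgI s h1 (by omega)).pow 2
  -- the expansion of the factor
  have hfac : ∀ s, 1 ≤ s → s ≤ R → I p 2 ((1 - g N (2 * s))⁻¹ * (Aq N s * (Bq N s)⁻¹) -
      (1 + g N (2 * s) - ∑ i ∈ range (s - 1), g N (i + 1) + ∑ i ∈ range s, 2 * g N (2 * i + 1))) := by
    intro s h1 h2
    have x1 : I p 1 (g N (2 * s)) := hgI _ (by omega) (by omega)
    have y1 : I p 1 (∑ i ∈ range (s - 1), g N (i + 1)) := I.sum _ _ fun i hi =>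
      hgI _ (by omega) (by have := mem_range.mp hi; omega)
    have zi : ∀ i < s, I p 1 (2 * g N (2 * i + 1)) := fun i hi =>
      I.mem_mul two_mem (hgI _ (by omega) (by omega))
    have z1 : I p 1 (∑ i ∈ range s, 2 * g N (2 * i + 1)) := I.sum _ _ fun i hi =>
      zi i (mem_range.mp hi)
    have hA : I p 2 ((1 - g N (2 * s))⁻¹ - (1 + g N (2 * s))) :=
      (inv_exp (by rw [sub_self]; exact I.zero 2) x1).2.2
    have hB : I p 2 (Aq N s - (1 - ∑ i ∈ range (s - 1), g N (i + 1))) :=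
      prod_lin _ fun i hi => hgI _ (by omega) (by omega)
    have hC : I p 2 ((Bq N s)⁻¹ - (1 + ∑ i ∈ range s, 2 * g N (2 * i + 1))) :=
      (inv_exp (prod_lin (fun i => 2 * g N (2 * i + 1)) zi) z1).2.2
    exact three hA hB hC x1 y1 z1
  -- replace the sum
  set E := ∑ s ∈ Icc 1 R, 1 / 2 * g N s ^ 2 * ((1 - g N (2 * s))⁻¹ * (Aq N s * (Bq N s)⁻¹)) with hE
  set E' := ∑ s ∈ Icc 1 R, 1 / 2 * g N s ^ 2 * (1 + g N (2 * s) - ∑ i ∈ range (s - 1), g N (i + 1) +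
    ∑ i ∈ range s, 2 * g N (2 * i + 1)) with hE'
  have hEE : I p 4 (E - E') := by
    rw [hE, hE', ← sum_sub_distrib]
    refine I.sum _ _ fun s hs => ?_
    obtain ⟨h1, h2⟩ := mem_Icc.mp hs
    rw [← mul_sub, mul_assoc]
    exact I.mem_mul m12 ((g2 s h1 h2).mul (hfac s h1 h2))
  -- evaluate E'
  have e1 : ∑ s ∈ Icc 1 R, g N s ^ 2 * ∑ i ∈ range (s - 1), g N (i + 1) = XX N R := by
    unfold XX
    rw [sum_comm]
    refine sum_congr rfl fun s hs => ?_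
    obtain ⟨h1, h2⟩ := mem_Icc.mp hs
    rw [← sum_filter, mul_sum]
    have : (Icc 1 R).filter (fun r => r < s) = Icc 1 (s - 1) := by
      ext r; simp only [mem_filter, mem_Icc]; omega
    rw [this, sum_shift]
    exact sum_congr rfl fun i _ => by ring
  have e2 : I p 4 (∑ s ∈ Icc 1 R, g N s ^ 2 * ∑ i ∈ range s, 2 * g N (2 * i + 1) + MM N R) := by
    unfold MM
    rw [sum_comm, ← sum_add_distrib]
    refine I.sum _ _ fun s hs => ?_
    obtain ⟨h1, h2⟩ := mem_Icc.mp hs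
    rw [← sum_filter]
    have hf : (Icc 1 R).filter (fun r => R < r + s) = Icc (R + 1 - s) R := by
      ext r; simp only [mem_filter, mem_Icc]; omega
    rw [hf]
    have h4 : ∑ i ∈ range s, 2 * g N (2 * i + 1) = ∑ r ∈ Icc (R + 1 - s) R, 2 * g N (2 * R + 1 - 2 * r) := by
      apply sum_nbij' (fun i => R - i) (fun r => R - r)
      · intro i hi; simp only [mem_Icc, mem_range] at hi ⊢; omega
      · intro i hi; simp only [mem_Icc, mem_range] at hi ⊢; omega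
      · intro i hi; simp only [mem_range] at hi ⊢; omega
      · intro i hi; simp only [mem_Icc] at hi ⊢; omega
      · intro i hi
        simp only [mem_range] at hi
        rw [show 2 * R + 1 - 2 * (R - i) = 2 * i + 1 by omega]
    rw [h4, mul_sum, ← sum_add_distrib]
    refine I.sum _ _ fun r hr => ?_
    have hr' := mem_Icc.mp hr
    have h5 := htrip (2 * r) s (by omega) (by omega) h1 (by omega)
    have h6 : g N (2 * r) = g N r * (2 : ℚ)⁻¹ := g_two N r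
    have e : g N s ^ 2 * (2 * g N (2 * R + 1 - 2 * r)) + g N r * g N s ^ 2 =
        2 * (g N (2 * R + 1 - 2 * r) * g N s ^ 2 + g N (2 * r) * g N s ^ 2) := by
      rw [h6]; ring
    rw [e]
    exact I.mem_mul two_mem h5
  have e3 : E' = (1 / 2) * SS N R + (1 / 4) * HH N R - (1 / 2) * XX N R +
      (1 / 2) * ∑ s ∈ Icc 1 R, g N s ^ 2 * ∑ i ∈ range s, 2 * g N (2 * i + 1) := by
    rw [hE', ← e1]
    unfold SS HH
    rw [mul_sum, mul_sum, mul_sum, mul_sum, ← sum_add_distrib, ← sum_sub_distrib, ← sum_add_distrib]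
    refine sum_congr rfl fun s _ => ?_
    rw [g_two N s]
    ring
  have hE3 : I p 2 E' := by
    rw [hE']
    refine I.sum _ _ fun s hs => ?_
    obtain ⟨h1, h2⟩ := mem_Icc.mp hs
    rw [mul_assoc]
    refine I.mem_mul m12 ((g2 s h1 h2).mul_mem ?_)
    refine (Zp p).add_mem ((Zp p).sub_mem ((Zp p).add_mem (Zp p).one_mem (hgI _ (by omega) (by omega)).mem) ?_) ?_
    · exact (Zp p).sum_mem fun i hi => (hgI _ (by omega) (by have := mem_range.mp hi; omega)).mem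
    · exact (Zp p).sum_mem fun i hi => (Zp p).mul_mem two_mem
        (hgI _ (by omega) (by have := mem_range.mp hi; omega)).mem
  have hEm : E ∈ Zp p := by
    have := (Zp p).add_mem hEE.mem hE3.mem
    simpa using this
  set B := 2 * be R ^ 2 * be (2 * R + 1)
  have m14 : (1 / 4 : ℚ) ∈ Zp p := by
    have := (Zp p).mul_mem m12 m12
    norm_num at this
    simpa using this
  have e4 : B * (1 + E) - (1 + (1 / 2) * SS N R + (1 / 2) * (HH N R - XX N R - MM N R)) =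
      (B - (1 + (1 / 4) * HH N R)) * (1 + E) + (1 + (1 / 4) * HH N R) * (E - E') +
      (HH N R * E') * (1 / 4) +
      (1 / 2) * (∑ s ∈ Icc 1 R, g N s ^ 2 * ∑ i ∈ range s, 2 * g N (2 * i + 1) + MM N R) := by
    linear_combination e3
  rw [e4]
  have m5 : (1 + E) ∈ Zp p := (Zp p).add_mem (Zp p).one_mem hEm
  have m6 : (1 + (1 / 4) * HH N R) ∈ Zp p := (Zp p).add_mem (Zp p).one_mem ((Zp p).mul_mem m14 h3.mem)
  exact (((hpre.mul_mem m5).add (I.mem_mul m6 hEE)).add (((h3.mul hE3).mono (by norm_num)).mul_mem m14)).add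
    (I.mem_mul m12 e2)

/-- simplified: `S/N ≡ 1 + SS/2 (mod p^4)` for all odd `p` -/
theorem main' (ha : 1 ≤ a) (hN : 2 * R + 1 = p ^ a) :
    I p 4 (S R / ((2 * R + 1 : ℕ) : ℚ) - (1 + (1 / 2) * SS ((2 * R + 1 : ℕ) : ℚ) R)) := by
  have hm := main (p := p) ha hN
  have km := KM ((2*R+1:ℕ):ℚ) R
  have xyh := XYH ((2*R+1:ℕ):ℚ) R
  have kid := Kid ((2*R+1:ℕ):ℚ) R
  set N : ℚ := ((2*R+1:ℕ):ℚ) with hNd
  have e : HH N R - XX N R - MM N R = 0 := by
    linear_combination xyh - km + kid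
  rw [e] at hm
  simpa using hm

/-- for `p ≥ 5` -/
theorem fin5' (ha : 1 ≤ a) (hN : 2 * R + 1 = p ^ a) (h5 : 5 ≤ p) :
    I p 4 (12 * (S R / ((2 * R + 1 : ℕ) : ℚ) - 1) + 7 * HH ((2 * R + 1 : ℕ) : ℚ) R) := by
  have n3 : ¬ p ∣ 3 := fun h => absurd (Nat.le_of_dvd (by norm_num) h) (by omega)
  have n2 : ¬ p ∣ 2 := fun h => absurd (Nat.le_of_dvd (by norm_num) h) (by omega)
  have n6 : ¬ p ∣ 6 := by
    intro h
    rw [show 6 = 2*3 by norm_num, hp.out.dvd_mul] at h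
    exact h.elim n2 n3
  have hm := main (p := p) ha hN
  have sh := SH (p := p) ha hN
  have h3 := H3 (p := p) ha hN
  have l1 := L1 (p := p) ha hN
  have k1 := Kp1 (p := p) ha hN
  have k2 := Kp2 (p := p) ha hN
  have km := KM ((2*R+1:ℕ):ℚ) R
  have xyh := XYH ((2*R+1:ℕ):ℚ) R
  have kid := Kid ((2*R+1:ℕ):ℚ) R
  set N : ℚ := ((2*R+1:ℕ):ℚ) with hNd
  have m (n : ℕ) : ((n:ℕ):ℚ) ∈ Zp p := nat_mem n
  have s3 : I p 3 (SS N R) := by
    apply I.cancel n6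
    have e : ((6:ℕ):ℚ) * SS N R = (6 * SS N R + 7 * HH N R) - 7 * HH N R := by push_cast; ring
    rw [e]
    exact (sh.mono (by norm_num)).sub (I.mem_mul (by exact_mod_cast m 7) h3)
  have ls : I p 4 (LL N R * SS N R) := l1.mul s3
  set P := LL N R * SS N R with hP
  set K := KK N R
  set M := MM N R
  set X := XX N R
  set Y := YY N R
  set H := HH N R
  set S' := SS N R
  set T := S R / N
  set K' := Kp N R
  have x3y : I p 4 (X - 3 * Y) := by
    apply I.cancel n3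
    have e : ((3:ℕ):ℚ) * (X - 3*Y) = 8 * ((K' - (1/8) * (K + X - Y - M)) - (K' - (P + X - Y))) - 9 * P := by
      push_cast
      linear_combination (-1) * km + (2) * kid
    rw [e]
    exact (I.mem_mul (by exact_mod_cast m 8) (k2.sub k1)).sub (I.mem_mul (by exact_mod_cast m 9) ls)
  have h4y : I p 4 (H + 4 * Y) := by
    have e : H + 4 * Y = P - (X - 3*Y) := by linear_combination xyh
    rw [e]; exact ls.sub x3y
  -- H - X - M = H - X - P + K = H - X - P + 2X + Y = H + X + Y - P = 0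
  have e : 12 * (T - 1) + 7 * H = 12 * (T - (1 + (1 / 2) * S' + (1 / 2) * (H - X - M))) +
      (6 * S' + 7 * H) := by
    linear_combination (6) * xyh - 6 * km + 6 * kid
  rw [e]
  exact (I.mem_mul (by exact_mod_cast m 12) hm).add sh

end padic

lemma be_rf (k : ℕ) : be k = (∏ i ∈ range k, ((1 : ℚ) / 2 + i)) / ((k.factorial : ℕ) : ℚ) := by
  induction k with
  | zero => simp [be_zero]
  | succ k ih =>
    rw [be_succ, ih, prod_range_succ, Nat.factorial_succ]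
    have h1 : ((k.factorial : ℕ) : ℚ) ≠ 0 := by exact_mod_cast k.factorial_ne_zero
    have h2 : (k : ℚ) + 1 ≠ 0 := by positivity
    push_cast
    field_simp
    ring

end Pool.Agent.Q34.A4
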