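import Mathlib
import Pool.Agent.Q34.A4

set_option autoImplicit false

/-! The sum `∑ (3k+1) (C(2k,k)/4^k)^3 4^k`, and its comparison with `∑ (4k+1) (C(2k,k)/4^k)^4`. -/

namespace Pool.Agent.Q34.C4

open Finset Pool.Agent.Helper857.Pad Pool.Agent.Helper857.W Pool.Agent.Q34.A4
open scoped Nat

/-- `(1/2)_k` -/
noncomputable def ph (k : ℕ) : ℚ := be k * (k ! : ℕ)

lemma fne (k : ℕ) : ((k ! : ℕ) : ℚ) ≠ 0 := by exact_mod_cast k.factorial_ne_zero

lemma ph_zero : ph 0 = 1 := by simp [ph, be_zero]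

lemma ph_succ (k : ℕ) : ph (k + 1) = ph k * (2 * k + 1) / 2 := by
  unfold ph
  rw [be_succ, Nat.factorial_succ]
  have : 2 * (k : ℚ) + 2 ≠ 0 := by positivity
  push_cast
  field_simp

lemma ph_pos (k : ℕ) : 0 < ph k := mul_pos (be_pos k) (by exact_mod_cast k.factorial_pos)

lemma ph_ne (k : ℕ) : ph k ≠ 0 := (ph_pos k).ne'

lemma be_ph (k : ℕ) : be k = ph k / (k ! : ℕ) := by
  unfold ph
  have := fne k
  field_simp

/-! ### first pair -/

/-- `F(k+d, k)` -/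
noncomputable def F1 (k d : ℕ) : ℚ :=
  (4 * ((k + d : ℕ) : ℚ) + 1) * (ph (k + d) / ((k + d)! : ℕ)) ^ 3 * ph (k + d + k) / (d ! : ℕ) *
    ((-1) ^ k * (k ! : ℕ) / ph k ^ 3)

/-- `t(k+d, k)` -/
noncomputable def t1 (k d : ℕ) : ℚ :=
  2 * (-1) ^ k * (ph (k + d + 1) / ((k + d)! : ℕ)) ^ 3 * ph (k + d + 1 + k) * (k ! : ℕ) /
    ((d ! : ℕ) * ph (k + 1) ^ 3)

lemma wz1 (k d : ℕ) : t1 k (d + 1) - t1 k d = F1 k (d + 1) - F1 (k + 1) d := by
  unfold t1 F1
  rw [show k + (d + 1) + 1 + k = (k + d + 1 + k) + 1 by ring, show k + 1 + d + (k + 1) = (k + d + 1 + k) + 1 by ring,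
    show k + (d + 1) + k = k + d + 1 + k by ring, show k + (d + 1) = k + d + 1 by ring,
    show k + 1 + d = k + d + 1 by ring]
  rw [ph_succ (k + d + 1 + k), ph_succ (k + d + 1), ph_succ (k + d), ph_succ k,
    Nat.factorial_succ (k + d), Nat.factorial_succ d, Nat.factorial_succ k]
  have q1 := ph_ne (k + d + 1 + k)
  have q2 := ph_ne (k + d)
  have q3 := ph_ne k
  have f1 := fne (k + d)
  have f2 := fne d
  have f3 := fne k
  generalize ph (k + d + 1 + k) = y at *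
  generalize ph (k + d) = z at *
  generalize ph k = w at *
  have h1 : (k : ℚ) + d + 1 ≠ 0 := by positivity
  have h2 : (d : ℚ) + 1 ≠ 0 := by positivity
  have h3 : 2 * (k : ℚ) + 1 ≠ 0 := by positivity
  push_cast
  field_simp
  ring

lemma diag1 (k : ℕ) : t1 k 0 = F1 k 0 := by
  unfold t1 F1
  simp only [add_zero, Nat.factorial_zero, Nat.cast_one]
  rw [show k + 1 + k = (k + k) + 1 by ring, ph_succ (k + k), ph_succ k]
  have q3 := ph_ne k
  have f3 := fne k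
  generalize ph k = w at *
  have h3 : 2 * (k : ℚ) + 1 ≠ 0 := by positivity
  push_cast
  field_simp
  ring

theorem S_eq1 (N : ℕ) : S N = ∑ j ∈ range (N + 1), t1 j (N - j) := by
  induction N with
  | zero =>
    simp only [S, zero_add, range_one, sum_singleton, be_zero, Nat.cast_zero, t1]
    simp [ph_succ, ph_zero]
    norm_num
  | succ N ih =>
    have hS : S (N + 1) = S N + (4 * ((N + 1 : ℕ) : ℚ) + 1) * be (N + 1) ^ 4 := by
      unfold S; rw [sum_range_succ _ (N + 1)]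
    rw [hS, ih, sum_range_succ _ (N + 1), Nat.sub_self, diag1]
    have h1 : ∑ j ∈ range (N + 1), t1 j (N + 1 - j) = ∑ j ∈ range (N + 1), t1 j (N - j) +
        ∑ j ∈ range (N + 1), (F1 j (N + 1 - j) - F1 (j + 1) (N + 1 - (j + 1))) := by
      rw [← sum_add_distrib]
      refine sum_congr rfl fun j hj => ?_
      have hj' : j ≤ N := by have := mem_range.mp hj; omega
      obtain ⟨d, rfl⟩ : ∃ d, N = j + d := ⟨N - j, by omega⟩
      have := wz1 j d
      rw [show j + d + 1 - j = d + 1 by omega, show j + d + 1 - (j + 1) = d by omega,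
        show j + d - j = d by omega]
      linear_combination this
    rw [h1, Finset.sum_range_sub' (fun j => F1 j (N + 1 - j))]
    have h2 : F1 0 (N + 1 - 0) = (4 * ((N + 1 : ℕ) : ℚ) + 1) * be (N + 1) ^ 4 := by
      unfold F1
      rw [Nat.sub_zero, show 0 + (N + 1) + 0 = N + 1 by ring, show 0 + (N + 1) = N + 1 by ring,
        be_ph, ph_zero]
      simp
      ring
    rw [h2, Nat.sub_self]
    ring

/-! ### second pair -/

/-- the sum -/
noncomputable def T (N : ℕ) : ℚ := ∑ n ∈ range N, (3 * (n : ℚ) + 1) * be n ^ 3 * 4 ^ n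

/-- `F(2k+d, k)` -/
noncomputable def F2 (k d : ℕ) : ℚ :=
  (3 * ((2 * k + d : ℕ) : ℚ) + 1 - 2 * k) * (ph (2 * k + d) / ((2 * k + d)! : ℕ)) * 4 ^ (2 * k + d) *
    ph (k + d) ^ 2 / (((k + d)! : ℕ) * (d ! : ℕ)) * ((-1) ^ k / (4 ^ k * ph k))

/-- `G(2k+1+d, k)` -/
noncomputable def g2 (k d : ℕ) : ℚ :=
  - (((2 * k + 1 + d : ℕ) : ℚ) ^ 2 * (ph (2 * k + 1 + d) / ((2 * k + 1 + d)! : ℕ)) * 4 ^ (2 * k + 1 + d) *
    ph (k + d) ^ 2 / (((k + d)! : ℕ) * (d ! : ℕ)) * ((-1) ^ k / (4 ^ k * ph k))) / (2 * (2 * k + 1))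

lemma wz2 (k d : ℕ) : F2 k (d + 2) = F2 (k + 1) d - g2 k (d + 2) + g2 k (d + 1) := by
  unfold F2 g2
  rw [show 2 * k + (d + 2) = 2 * k + d + 2 by ring, show 2 * (k + 1) + d = 2 * k + d + 2 by ring,
    show 2 * k + 1 + (d + 2) = (2 * k + d + 2) + 1 by ring,
    show 2 * k + 1 + (d + 1) = 2 * k + d + 2 by ring,
    show k + (d + 2) = (k + d + 1) + 1 by ring, show k + 1 + d = k + d + 1 by ring,
    show k + (d + 1) = k + d + 1 by ring, show d + 2 = (d + 1) + 1 by ring]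
  rw [ph_succ (2 * k + d + 2), ph_succ (k + d + 1), ph_succ k, Nat.factorial_succ (2 * k + d + 2),
    Nat.factorial_succ (k + d + 1), Nat.factorial_succ (d + 1), Nat.factorial_succ d]
  have q1 := ph_ne (2 * k + d + 2)
  have q2 := ph_ne (k + d + 1)
  have q3 := ph_ne k
  have f1 := fne (2 * k + d + 2)
  have f2 := fne (k + d + 1)
  have f3 := fne d
  generalize ph (2 * k + d + 2) = y at *
  generalize ph (k + d + 1) = z at *
  generalize ph k = w at *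
  have h1 : 2 * (k : ℚ) + d + 2 + 1 ≠ 0 := by positivity
  have h2 : (d : ℚ) + 1 ≠ 0 := by positivity
  have h2' : (d : ℚ) + 1 + 1 ≠ 0 := by positivity
  have h3 : 2 * (k : ℚ) + 1 ≠ 0 := by positivity
  have h4 : (k : ℚ) + d + 1 + 1 ≠ 0 := by positivity
  push_cast
  field_simp
  ring

lemma wz2_0 (k : ℕ) : F2 k 0 = - g2 k 0 := by
  unfold F2 g2
  rw [show 2 * k + 0 = 2 * k by ring, show 2 * k + 1 + 0 = 2 * k + 1 by ring, ph_succ (2 * k),
    Nat.factorial_succ (2 * k)]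
  have q3 := ph_ne k
  have f1 := fne (2 * k)
  have f2 := fne (k + 0)
  generalize ph (2 * k) = y at *
  generalize ph k = w at *
  have h3 : 2 * (k : ℚ) + 1 ≠ 0 := by positivity
  push_cast
  field_simp
  ring

lemma wz2_1 (k : ℕ) : F2 k 1 = - g2 k 1 + g2 k 0 := by
  unfold F2 g2
  rw [show 2 * k + 1 + 0 = 2 * k + 1 by ring, ph_succ (2 * k + 1), ph_succ (k + 0),
    Nat.factorial_succ (2 * k + 1), Nat.factorial_succ (k + 0)]
  have q3 := ph_ne k
  have f1 := fne (2 * k + 1)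
  have f2 := fne (k + 0)
  generalize ph (2 * k + 1) = y at *
  simp only [add_zero, Nat.factorial_zero, Nat.factorial_one] at *
  generalize ph k = w at *
  have h1 : 2 * (k : ℚ) + 1 + 1 ≠ 0 := by positivity
  have h3 : 2 * (k : ℚ) + 1 ≠ 0 := by positivity
  have h4 : (k : ℚ) + 1 ≠ 0 := by positivity
  push_cast
  field_simp
  ring

lemma tele (k M : ℕ) : ∑ d ∈ range (M + 3), F2 k d = ∑ d ∈ range (M + 1), F2 (k + 1) d - g2 k (M + 2) := by
  induction M with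
  | zero =>
    rw [sum_range_succ, sum_range_succ, sum_range_succ, sum_range_zero, zero_add, zero_add, range_one,
      sum_singleton, wz2_0, wz2_1, wz2]
    ring
  | succ M ih =>
    rw [show M + 1 + 3 = (M + 3) + 1 by ring, sum_range_succ, ih, sum_range_succ _ (M + 1),
      show M + 3 = (M + 1) + 2 by ring, wz2 k (M + 1)]
    ring

theorem T_eq (R : ℕ) : T (2 * R + 1) = F2 R 0 - ∑ k ∈ range R, g2 k (2 * (R - k)) := by
  have h0 : T (2 * R + 1) = ∑ d ∈ range (2 * R + 1), F2 0 d := by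
    unfold T
    refine sum_congr rfl fun d _ => ?_
    unfold F2
    rw [be_ph, ph_zero]
    simp only [mul_zero, zero_add, pow_zero, Nat.cast_zero, sub_zero]
    have := fne d
    field_simp
  have h1 : ∀ K ≤ R, ∑ d ∈ range (2 * R + 1), F2 0 d =
      ∑ d ∈ range (2 * (R - K) + 1), F2 K d - ∑ k ∈ range K, g2 k (2 * (R - k)) := by
    intro K
    induction K with
    | zero => intro _; simp
    | succ K ih =>
      intro hK
      rw [ih (by omega), sum_range_succ _ K, show 2 * (R - K) + 1 = 2 * (R - (K + 1)) + 3 by omega, tele,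
        show 2 * (R - K) = 2 * (R - (K + 1)) + 2 by omega]
      ring
  rw [h0, h1 R le_rfl, Nat.sub_self]
  simp

lemma main_eq (R : ℕ) : t1 R 0 = F2 R 0 := by
  unfold t1 F2
  simp only [add_zero, Nat.factorial_zero, Nat.cast_one]
  rw [show R + 1 + R = 2 * R + 1 by ring, ph_succ (2 * R), ph_succ R]
  have q3 := ph_ne R
  have f1 := fne R
  have f2 := fne (2 * R)
  -- (2R)! = 4^R (1/2)_R R!
  have hb : be R * 4 ^ R * (R ! : ℕ) * (R ! : ℕ) = ((2 * R)! : ℕ) := by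
    unfold be
    have h1 : (2 * R).choose R * R ! * (2 * R - R)! = (2 * R)! := Nat.choose_mul_factorial_mul_factorial (by omega)
    rw [show 2 * R - R = R by omega] at h1
    rw [← h1]
    push_cast
    field_simp
  have hb2 : ph R * 4 ^ R * (R ! : ℕ) = ((2 * R)! : ℕ) := by rw [← hb]; unfold ph; ring
  rw [← hb2]
  generalize ph (2 * R) = y at *
  generalize ph R = w at *
  have h3 : 2 * (R : ℚ) + 1 ≠ 0 := by positivity
  push_cast
  rw [show (4 : ℚ) ^ (2 * R) = 4 ^ R * 4 ^ R by rw [two_mul, pow_add]]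
  field_simp
  ring

/-! ### p-adic comparison -/

/-- partial fractions -/
lemma pf (k : ℕ) : ∀ x : ℚ, 0 < x → ∑ i ∈ range (k + 1), (-1) ^ i * (k.choose i : ℚ) / (x + i) =
    (k ! : ℕ) / ∏ i ∈ range (k + 1), (x + i) := by
  induction k with
  | zero => intro x hx; simp
  | succ k ih =>
    intro x hx
    have h1 : ∑ i ∈ range (k + 1 + 1), (-1) ^ i * ((k + 1).choose i : ℚ) / (x + i) =
        ∑ i ∈ range (k + 1), (-1) ^ i * (k.choose i : ℚ) / (x + i) -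
        ∑ i ∈ range (k + 1), (-1) ^ i * (k.choose i : ℚ) / (x + 1 + i) := by
      rw [sum_range_succ' (fun i => (-1) ^ i * ((k + 1).choose i : ℚ) / (x + i))]
      have h2 : ∀ i ∈ range (k + 1), (-1 : ℚ) ^ (i + 1) * ((k + 1).choose (i + 1) : ℚ) / (x + ((i + 1 : ℕ) : ℚ)) =
          (-1) ^ (i + 1) * (k.choose (i + 1) : ℚ) / (x + ((i + 1 : ℕ) : ℚ)) -
          (-1) ^ i * (k.choose i : ℚ) / (x + 1 + i) := by
        intro i _
        rw [Nat.choose_succ_succ]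
        push_cast
        rw [show x + ((i : ℚ) + 1) = x + 1 + i by ring]
        ring
      rw [sum_congr rfl h2, sum_sub_distrib]
      have h3 : ∑ i ∈ range (k + 1), (-1 : ℚ) ^ i * (k.choose i : ℚ) / (x + i) =
          ∑ i ∈ range (k + 1), (-1 : ℚ) ^ (i + 1) * (k.choose (i + 1) : ℚ) / (x + ((i + 1 : ℕ) : ℚ)) +
          (-1) ^ 0 * ((k + 1).choose 0 : ℚ) / (x + ((0 : ℕ) : ℚ)) := by
        have h4 : (-1 : ℚ) ^ 0 * ((k + 1).choose 0 : ℚ) / (x + ((0 : ℕ) : ℚ)) =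
          (-1) ^ 0 * (k.choose 0 : ℚ) / (x + ((0 : ℕ) : ℚ)) := by simp
        rw [h4, ← sum_range_succ' (fun i => (-1 : ℚ) ^ i * (k.choose i : ℚ) / (x + (i : ℚ))),
          sum_range_succ _ (k + 1), Nat.choose_succ_self]
        simp
      rw [h3]
      ring
    rw [h1, ih x hx, ih (x + 1) (by linarith)]
    have e1 : ∏ i ∈ range (k + 1 + 1), (x + i) = x * ∏ i ∈ range (k + 1), (x + 1 + i) := by
      rw [prod_range_succ', mul_comm]
      congr 1
      · simp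
      · exact prod_congr rfl fun i _ => by push_cast; ring
    have e2 : ∏ i ∈ range (k + 1 + 1), (x + (i : ℚ)) = (∏ i ∈ range (k + 1), (x + i)) * (x + (k + 1 : ℕ)) :=
      prod_range_succ _ _
    have p1 : ∏ i ∈ range (k + 1), (x + (i : ℚ)) ≠ 0 := by
      rw [prod_ne_zero_iff]; intro i _; positivity
    have p2 : ∏ i ∈ range (k + 1), (x + 1 + (i : ℚ)) ≠ 0 := by
      rw [prod_ne_zero_iff]; intro i _; positivity
    have hx' : x ≠ 0 := hx.ne'
    have hx2 : x + ((k + 1 : ℕ) : ℚ) ≠ 0 := by positivity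
    rw [e1]
    rw [e1] at e2
    set A := ∏ i ∈ range (k + 1), (x + (i : ℚ))
    set B := ∏ i ∈ range (k + 1), (x + 1 + (i : ℚ))
    rw [Nat.factorial_succ]
    have e3 : B = A * (x + ((k + 1 : ℕ) : ℚ)) / x := by field_simp; linarith
    rw [e3]
    push_cast at hx2 ⊢
    field_simp
    ring

lemma ph_prod (k : ℕ) : ph k = ∏ i ∈ range k, ((1 : ℚ) / 2 + i) := by
  induction k with
  | zero => simp [ph_zero]
  | succ k ih => rw [ph_succ, ih, prod_range_succ]; ring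

lemma inv_be (k : ℕ) : 1 / ((2 * (k : ℚ) + 1) * be k) =
    ∑ i ∈ range (k + 1), (-1) ^ i * (k.choose i : ℚ) / (2 * i + 1) := by
  have h := pf k (1 / 2) (by norm_num)
  rw [← ph_prod, ph_succ] at h
  have e : ∑ i ∈ range (k + 1), (-1 : ℚ) ^ i * (k.choose i : ℚ) / (1 / 2 + i) =
      2 * ∑ i ∈ range (k + 1), (-1) ^ i * (k.choose i : ℚ) / (2 * i + 1) := by
    rw [mul_sum]
    refine sum_congr rfl fun i _ => ?_
    have : (1 : ℚ) / 2 + i ≠ 0 := by positivity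
    have h2 : 2 * (i : ℚ) + 1 ≠ 0 := by positivity
    field_simp
    ring
  rw [e] at h
  have q := ph_ne k
  have f := fne k
  have h3 : 2 * (k : ℚ) + 1 ≠ 0 := by positivity
  rw [be_ph]
  have h5 : (k ! : ℕ) / (ph k * (2 * (k : ℚ) + 1) / 2) = 2 * (1 / ((2 * (k : ℚ) + 1) * (ph k / (k ! : ℕ)))) := by
    field_simp
  rw [h5] at h
  linarith

/-- the basic term -/
noncomputable def Lk (N : ℚ) (k : ℕ) : ℚ := N / (2 * k + 1) * (N * (1 / ((2 * (k : ℚ) + 1) * be k))) ^ 2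

/-- `∏ (1 - N/(2i+1))` -/
noncomputable def PA (N : ℚ) (k : ℕ) : ℚ := ∏ i ∈ range k, (1 - yy N i)
/-- `∏ (1 + N/(2(i+1)))` -/
noncomputable def PB (N : ℚ) (k : ℕ) : ℚ := ∏ i ∈ range k, (1 + N / (2 * ((i : ℚ) + 1)))
/-- `∏ (1 - N/(k+1+i))` -/
noncomputable def PC (N : ℚ) (k : ℕ) : ℚ := ∏ i ∈ range k, (1 - N / ((k : ℚ) + 1 + i))

lemma t1_quot (R k : ℕ) (hk : k ≤ R) : t1 k (R - k) = ((2 * R + 1 : ℕ) : ℚ) *
    (Lk ((2 * R + 1 : ℕ) : ℚ) k * (be R ^ 4 * (PA ((2 * R + 1 : ℕ) : ℚ) k * PB ((2 * R + 1 : ℕ) : ℚ) k))) := by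
  have e1 : ∀ k, ph (R + 1 + k) = ph R * (((2 * R + 1 : ℕ) : ℚ) / 2) * ((k ! : ℕ) : ℚ) * PB ((2 * R + 1 : ℕ) : ℚ) k := by
    intro k
    induction k with
    | zero => simp [PB, ph_succ]; ring
    | succ k ih =>
      have hB : PB ((2 * R + 1 : ℕ) : ℚ) (k + 1) = PB ((2 * R + 1 : ℕ) : ℚ) k * (1 + ((2 * R + 1 : ℕ) : ℚ) / (2 * ((k : ℚ) + 1))) := by
        unfold PB; rw [prod_range_succ]
      rw [← add_assoc, ph_succ, ih, hB, Nat.factorial_succ]
      have : (k : ℚ) + 1 ≠ 0 := by positivity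
      generalize PB ((2 * R + 1 : ℕ) : ℚ) k = B
      push_cast
      field_simp
      ring
  have e2 : ∀ k ≤ R, ((R ! : ℕ) : ℚ) = ((R - k)! : ℕ) * ((-1) ^ k * ph k * PA ((2 * R + 1 : ℕ) : ℚ) k) := by
    intro k
    induction k with
    | zero => intro _; simp [PA, ph_zero]
    | succ k ih =>
      intro hk
      have hA : PA ((2 * R + 1 : ℕ) : ℚ) (k + 1) = PA ((2 * R + 1 : ℕ) : ℚ) k * (1 - yy ((2 * R + 1 : ℕ) : ℚ) k) := by
        unfold PA; rw [prod_range_succ]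
      rw [ih (by omega), hA, show R - k = (R - (k + 1)) + 1 by omega, Nat.factorial_succ, ph_succ]
      have hc : ((R - (k + 1) : ℕ) : ℚ) = R - (k + 1) := by
        rw [Nat.cast_sub hk]; push_cast; ring
      generalize PA ((2 * R + 1 : ℕ) : ℚ) k = A
      unfold yy
      push_cast
      rw [hc]
      have h3 : 2 * (k : ℚ) + 1 ≠ 0 := by positivity
      field_simp
      ring
  unfold t1 Lk
  rw [show k + (R - k) = R by omega, e1 k]
  have e3 : ph (R + 1) = be R * (R ! : ℕ) * ((2 * R + 1 : ℕ) : ℚ) / 2 := by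
    rw [ph_succ]; unfold ph; push_cast; ring
  rw [e3, ph_succ, be_ph k]
  have f1 := fne R
  have f2 := fne k
  have f3 := fne (R - k)
  have q1 := ph_ne k
  have h2 := e2 k hk
  have e4 : ph R = be R * ((R - k)! : ℕ) * ((-1) ^ k * ph k * PA ((2 * R + 1 : ℕ) : ℚ) k) := by
    unfold ph at h2 ⊢
    rw [mul_assoc, ← h2]
  rw [e4]
  have s : ((-1 : ℚ) ^ k) * (-1) ^ k = 1 := by rw [← mul_pow]; norm_num
  generalize PA ((2 * R + 1 : ℕ) : ℚ) k = A
  generalize PB ((2 * R + 1 : ℕ) : ℚ) k = B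
  generalize be R = b
  have hN : ((2 * R + 1 : ℕ) : ℚ) ≠ 0 := by positivity
  generalize ((2 * R + 1 : ℕ) : ℚ) = N at *
  generalize ph k = w at *
  have h3 : 2 * (k : ℚ) + 1 ≠ 0 := by positivity
  generalize (-1 : ℚ) ^ k = e at *
  generalize ((R ! : ℕ) : ℚ) = fR at *
  generalize (((R - k)! : ℕ) : ℚ) = fd at *
  generalize ((k ! : ℕ) : ℚ) = fk at *
  have key : 2 * e * (b * fR * N / 2 / fR) ^ 3 * (b * fd * (e * w * A) * (N / 2) * fk * B) * fk /
      (fd * (w * (2 * (k : ℚ) + 1) / 2) ^ 3) = (e * e) * (2 * (b * fR * N / 2 / fR) ^ 3 *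
        (b * fd * (w * A) * (N / 2) * fk * B) * fk / (fd * (w * (2 * (k : ℚ) + 1) / 2) ^ 3)) := by ring
  rw [key, s, one_mul]
  field_simp

lemma g2_quot (R k : ℕ) (hk : k < R) : g2 k (2 * (R - k)) = - (((2 * R + 1 : ℕ) : ℚ) *
    (Lk ((2 * R + 1 : ℕ) : ℚ) k * (2 * 4 ^ (2 * R + 1) * be (2 * R + 1) ^ 3 *
      (Aq ((2 * R + 1 : ℕ) : ℚ) (k + 1) ^ 2 * ((Bq ((2 * R + 1 : ℕ) : ℚ) (k + 1))⁻¹) ^ 2) *
      PC ((2 * R + 1 : ℕ) : ℚ) k))) := by
  have hp := pair R (k + 1) (by omega) (by omega)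
  have hBne : Bq ((2 * R + 1 : ℕ) : ℚ) (k + 1) ≠ 0 := by
    unfold Bq
    rw [prod_ne_zero_iff]
    intro i _ h0
    unfold g at h0
    have h1 : ((2 * i + 1 : ℕ) : ℚ) ≠ 0 := by positivity
    field_simp at h0
    have h2 : ((2 * i + 1 : ℕ) : ℚ) = ((2 * (2 * R + 1) : ℕ) : ℚ) := by push_cast at h0 ⊢; linarith
    have h3 : 2 * i + 1 = 2 * (2 * R + 1) := by exact_mod_cast h2
    omega
  rw [show 2 * R + 1 - (k + 1) = 2 * R - k by omega] at hp
  -- falling factorial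
  have e2 : ∀ j, j ≤ k → (((2 * R - k)! : ℕ) : ℚ) = ((2 * R - k - j)! : ℕ) *
      ∏ i ∈ range j, (((2 * R + 1 : ℕ) : ℚ) - ((k : ℚ) + 1 + i)) := by
    intro j
    induction j with
    | zero => intro _; simp
    | succ j ih =>
      intro hj
      rw [ih (by omega), prod_range_succ, show 2 * R - k - j = (2 * R - k - (j + 1)) + 1 by omega,
        Nat.factorial_succ]
      have hc : ((2 * R - k - (j + 1) : ℕ) : ℚ) = 2 * R - k - (j + 1) := by
        rw [Nat.cast_sub (by omega), Nat.cast_sub (by omega)]; push_cast; ring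
      push_cast
      rw [hc]
      ring
  have e3 : ∏ i ∈ range k, (((2 * R + 1 : ℕ) : ℚ) - ((k : ℚ) + 1 + i)) =
      (-1) ^ k * (4 ^ k * ph k) * PC ((2 * R + 1 : ℕ) : ℚ) k := by
    have h1 : ∏ i ∈ range k, ((k : ℚ) + 1 + i) = 4 ^ k * ph k := by
      have h2 : k ! * (k + 1).ascFactorial k = (k + k)! := Nat.factorial_mul_ascFactorial _ _
      have h3 : (((k + 1).ascFactorial k : ℕ) : ℚ) = ∏ i ∈ range k, ((k : ℚ) + 1 + i) := by
        rw [Nat.ascFactorial_eq_prod_range]; push_cast; rfl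
      have h4 : (2 * k).choose k * k ! * (2 * k - k)! = (2 * k)! := Nat.choose_mul_factorial_mul_factorial (by omega)
      rw [show 2 * k - k = k by omega] at h4
      rw [← h3]
      have f := fne k
      apply mul_left_cancel₀ f
      have h5 : ((k ! : ℕ) : ℚ) * (((k + 1).ascFactorial k : ℕ) : ℚ) = (((2 * k)! : ℕ) : ℚ) := by
        rw [← Nat.cast_mul, h2, two_mul]
      rw [h5, ← h4]
      unfold ph be
      push_cast
      field_simp
    rw [← h1, show ((-1 : ℚ)) ^ k = ∏ _i ∈ range k, (-1 : ℚ) by simp]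
    unfold PC
    rw [← prod_mul_distrib, ← prod_mul_distrib]
    refine prod_congr rfl fun i _ => ?_
    have : (k : ℚ) + 1 + i ≠ 0 := by positivity
    field_simp
    ring
  have e4 := e2 k le_rfl
  rw [e3, show 2 * R - k - k = 2 * (R - k) by omega] at e4
  have f0 := fne (2 * (R - k))
  have q1 := ph_ne k
  have f2 := fne k
  have hbk := (be_pos k).ne'
  have h3 : 2 * (k : ℚ) + 1 ≠ 0 := by positivity
  have h6 : (k : ℚ) + 1 ≠ 0 := by positivity
  -- be (2R-k)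
  have e5 : be (2 * R - k) = - (be (2 * R + 1) * (2 * (((2 * R + 1 : ℕ) : ℚ) * (1 / ((2 * (k : ℚ) + 1) * be k)))) *
      Aq ((2 * R + 1 : ℕ) : ℚ) (k + 1)) * (Bq ((2 * R + 1 : ℕ) : ℚ) (k + 1))⁻¹ := by
    have hk1 := be_succ k
    have g1 : g ((2 * R + 1 : ℕ) : ℚ) (k + 1) = ((2 * R + 1 : ℕ) : ℚ) / (k + 1) := by unfold g; push_cast; rfl
    rw [hk1, g1] at hp
    have h7 : 2 * (k : ℚ) + 2 ≠ 0 := by positivity
    generalize Aq ((2 * R + 1 : ℕ) : ℚ) (k + 1) = A at *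
    generalize Bq ((2 * R + 1 : ℕ) : ℚ) (k + 1) = B at *
    generalize be (2 * R - k) = x at *
    generalize be (2 * R + 1) = y at *
    generalize ((2 * R + 1 : ℕ) : ℚ) = N at *
    field_simp at hp ⊢
    linear_combination hp
  unfold g2 Lk
  rw [show k + 2 * (R - k) = 2 * R - k by omega, show 2 * k + 1 + 2 * (R - k) = 2 * R + 1 by omega,
    ← be_ph]
  have e6 : ph (2 * R - k) ^ 2 / ((((2 * R - k)! : ℕ) : ℚ) * ((2 * (R - k))! : ℕ)) =
      be (2 * R - k) ^ 2 * ((-1) ^ k * (4 ^ k * ph k) * PC ((2 * R + 1 : ℕ) : ℚ) k) := by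
    have f5 := fne (2 * R - k)
    unfold ph at e4 ⊢
    rw [div_eq_iff (mul_ne_zero f5 f0), mul_pow]
    have : (((2 * R - k)! : ℕ) : ℚ) ^ 2 = (((2 * R - k)! : ℕ) : ℚ) * (((2 * (R - k))! : ℕ) *
      ((-1) ^ k * (4 ^ k * (be k * (k ! : ℕ))) * PC ((2 * R + 1 : ℕ) : ℚ) k)) := by
      rw [← e4]; ring
    rw [this]
    ring
  have s : ((-1 : ℚ) ^ k) * (-1) ^ k = 1 := by rw [← mul_pow]; norm_num
  have e7 : - (((2 * R + 1 : ℕ) : ℚ) ^ 2 * be (2 * R + 1) * 4 ^ (2 * R + 1) * ph (2 * R - k) ^ 2 /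
      ((((2 * R - k)! : ℕ) : ℚ) * ((2 * (R - k))! : ℕ)) * ((-1) ^ k / (4 ^ k * ph k))) / (2 * (2 * (k : ℚ) + 1)) =
      - (((2 * R + 1 : ℕ) : ℚ) ^ 2 * be (2 * R + 1) * 4 ^ (2 * R + 1) * (ph (2 * R - k) ^ 2 /
      ((((2 * R - k)! : ℕ) : ℚ) * ((2 * (R - k))! : ℕ))) * ((-1) ^ k / (4 ^ k * ph k))) / (2 * (2 * (k : ℚ) + 1)) := by
    ring
  rw [e7, e6, e5]
  have h4 : (4 : ℚ) ^ k ≠ 0 := by positivity
  generalize Aq ((2 * R + 1 : ℕ) : ℚ) (k + 1) = A at *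
  generalize (Bq ((2 * R + 1 : ℕ) : ℚ) (k + 1))⁻¹ = B at *
  generalize be (2 * R + 1) = y at *
  generalize PC ((2 * R + 1 : ℕ) : ℚ) k = C at *
  have hN : ((2 * R + 1 : ℕ) : ℚ) ≠ 0 := by positivity
  generalize ((2 * R + 1 : ℕ) : ℚ) = N at *
  generalize ph k = w at *
  generalize be k = b at *
  generalize (4 : ℚ) ^ k = f at *
  generalize (4 : ℚ) ^ (2 * R + 1) = F at *
  generalize (-1 : ℚ) ^ k = e at *
  have key : -(N ^ 2 * y * F * ((-(y * (2 * (N * (1 / ((2 * (k : ℚ) + 1) * b)))) * A) * B) ^ 2 * (e * (f * w) * C)) *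
      (e / (f * w))) / (2 * (2 * (k : ℚ) + 1)) = (e * e) * (-(N ^ 2 * y * F * ((-(y * (2 * (N * (1 / ((2 * (k : ℚ) + 1) * b)))) * A) * B) ^ 2 * ((f * w) * C)) *
      (1 / (f * w))) / (2 * (2 * (k : ℚ) + 1))) := by ring
  rw [key, s, one_mul]
  field_simp

section padic
variable {p : ℕ} [hp : Fact p.Prime] {a R : ℕ}

/-- `x ≡ 1 (mod p)` -/
def O1 (p : ℕ) [Fact p.Prime] (x : ℚ) : Prop := I p 1 (x - 1)

lemma O1.mem {x : ℚ} (h : O1 p x) : x ∈ Zp p := by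
  have := (Zp p).add_mem (I.mem h) (Zp p).one_mem
  simpa using this

lemma O1.mul {x y : ℚ} (hx : O1 p x) (hy : O1 p y) : O1 p (x * y) := by
  have e : x * y - 1 = (x - 1) * y + (y - 1) := by ring
  unfold O1
  rw [e]
  exact (I.mul_mem hx hy.mem).add hy

lemma O1.inv {x : ℚ} (hx : O1 p x) : O1 p x⁻¹ := (unit hx).2.2

lemma O1.one : O1 p 1 := by unfold O1; rw [sub_self]; exact I.zero 1

lemma O1.pow {x : ℚ} (hx : O1 p x) (n : ℕ) : O1 p (x ^ n) := by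
  induction n with
  | zero => simpa using O1.one
  | succ n ih => rw [pow_succ]; exact ih.mul hx

lemma O1.prod (f : ℕ → ℚ) (n : ℕ) (h : ∀ i < n, O1 p (f i)) : O1 p (∏ i ∈ range n, f i) :=
  prod_one f n h

lemma O1.sub {x : ℚ} (hx : I p 1 x) : O1 p (1 - x) := by
  unfold O1; rw [show 1 - x - 1 = -x by ring]; exact hx.neg

lemma O1.add {x : ℚ} (hx : I p 1 x) : O1 p (1 + x) := by
  unfold O1; rw [show 1 + x - 1 = x by ring]; exact hx

lemma Lk_I (ha : 1 ≤ a) (hN : 2 * R + 1 = p ^ a) {k : ℕ} (hk : k < R) :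
    I p 3 (Lk ((2 * R + 1 : ℕ) : ℚ) k) := by
  have h1 : I p 1 (yy ((2 * R + 1 : ℕ) : ℚ) k) := yy_I ha hN hk
  have h2 : I p 1 (((2 * R + 1 : ℕ) : ℚ) * (1 / ((2 * (k : ℚ) + 1) * be k))) := by
    rw [inv_be, mul_sum]
    refine I.sum _ _ fun i hi => ?_
    have hi' := mem_range.mp hi
    have h3 : I p 1 (yy ((2 * R + 1 : ℕ) : ℚ) i) := yy_I ha hN (by omega)
    have e : ((2 * R + 1 : ℕ) : ℚ) * ((-1) ^ i * (k.choose i : ℚ) / (2 * i + 1)) =
        yy ((2 * R + 1 : ℕ) : ℚ) i * ((-1) ^ i * (k.choose i : ℚ)) := by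
      unfold yy; ring
    rw [e]
    refine h3.mul_mem ((Zp p).mul_mem ((Zp p).pow_mem ((Zp p).neg_mem (Zp p).one_mem) i) (nat_mem _))
  have h3 : I p 2 ((((2 * R + 1 : ℕ) : ℚ) * (1 / ((2 * (k : ℚ) + 1) * be k))) ^ 2) := h2.pow 2
  exact h1.mul h3

lemma four_be (R : ℕ) : 4 ^ R * be R = (-1) ^ R * ∏ i ∈ range R, (1 - g ((2 * R + 1 : ℕ) : ℚ) (i + 1)) := by
  have e2 : ∀ j, j ≤ R → (((2 * R)! : ℕ) : ℚ) = ((2 * R - j)! : ℕ) *
      ∏ i ∈ range j, (((2 * R + 1 : ℕ) : ℚ) - ((i : ℚ) + 1)) := by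
    intro j
    induction j with
    | zero => intro _; simp
    | succ j ih =>
      intro hj
      rw [ih (by omega), prod_range_succ, show 2 * R - j = (2 * R - (j + 1)) + 1 by omega,
        Nat.factorial_succ]
      have hc : ((2 * R - (j + 1) : ℕ) : ℚ) = 2 * R - (j + 1) := by
        rw [Nat.cast_sub (by omega)]; push_cast; ring
      push_cast
      rw [hc]
      ring
  have h1 := e2 R le_rfl
  rw [show 2 * R - R = R by omega] at h1
  have h4 : (2 * R).choose R * R ! * (2 * R - R)! = (2 * R)! := Nat.choose_mul_factorial_mul_factorial (by omega)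
  rw [show 2 * R - R = R by omega] at h4
  have h5 : ((2 * R).choose R : ℚ) * (R ! : ℕ) * (R ! : ℕ) = (((2 * R)! : ℕ) : ℚ) := by exact_mod_cast h4
  have f := fne R
  have h6 : ∏ i ∈ range R, (((2 * R + 1 : ℕ) : ℚ) - ((i : ℚ) + 1)) = ((R ! : ℕ) : ℚ) * ((-1) ^ R *
      ∏ i ∈ range R, (1 - g ((2 * R + 1 : ℕ) : ℚ) (i + 1))) := by
    rw [show ((R ! : ℕ) : ℚ) = ∏ i ∈ range R, ((i : ℚ) + 1) by
      rw [← Finset.prod_range_add_one_eq_factorial]; push_cast; rfl,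
      show ((-1 : ℚ)) ^ R = ∏ _i ∈ range R, (-1 : ℚ) by simp, ← prod_mul_distrib, ← prod_mul_distrib]
    refine prod_congr rfl fun i _ => ?_
    unfold g
    have : (i : ℚ) + 1 ≠ 0 := by positivity
    push_cast
    field_simp
    ring
  rw [h6] at h1
  rw [← h5] at h1
  have e3 : (4 : ℚ) ^ R * be R = ((2 * R).choose R : ℚ) := by
    unfold be; field_simp
  rw [e3]
  have f2 : ((R ! : ℕ) : ℚ) * (R ! : ℕ) ≠ 0 := mul_ne_zero f f
  apply mul_left_cancel₀ f2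
  linear_combination h1

lemma const_O1 (ha : 1 ≤ a) (hN : 2 * R + 1 = p ^ a) :
    O1 p (2 * 4 ^ (2 * R + 1) * be (2 * R + 1) ^ 3) ∧ O1 p (be R ^ 4) := by
  have hs : ((-1 : ℚ) ^ R) * (-1) ^ R = 1 := by rw [← mul_pow]; norm_num
  have hv : ∀ i < R, I p 1 (((2*R+1:ℕ):ℚ)/(2*((i:ℚ)+1))) := fun i hi => ev_I ha hN hi
  set P1 := ∏ i ∈ range R, (1 - ((2 * R + 1 : ℕ) : ℚ) / (2 * ((i : ℚ) + 1))) with hP1
  have o1 : O1 p P1 := O1.prod _ _ fun i hi => O1.sub (hv i hi)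
  have hb : be R = (-1) ^ R * P1 := be_prod R
  set P2 := ∏ i ∈ range R, (1 - g ((2 * R + 1 : ℕ) : ℚ) (i + 1)) with hP2
  have o2 : O1 p P2 := O1.prod _ _ fun i hi => O1.sub (g_I (p := p) ha hN (by omega) (by omega))
  have h4 : 4 ^ R * be R = (-1) ^ R * P2 := four_be R
  set P3 := ∏ i ∈ range R,
    ((1 + ((2 * R + 1 : ℕ) : ℚ) / (2 * ((i : ℚ) + 1))) / (1 - 2 * (((2 * R + 1 : ℕ) : ℚ) / (2 * ((i : ℚ) + 1))))) with hP3
  have o3 : O1 p P3 := O1.prod _ _ fun i hi => by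
    rw [div_eq_mul_inv]
    exact (O1.add (hv i hi)).mul (O1.sub (I.mem_mul two_mem (hv i hi))).inv
  have hm : 2 * be (2 * R + 1) = be R * ((-1) ^ R * P3) := be_mid R
  have hm2 : 2 * be (2 * R + 1) = P1 * P3 := by rw [hm, hb]; linear_combination (P1 * P3) * hs
  have hb4 : be R ^ 4 = P1 ^ 4 := by rw [hb]; linear_combination (P1 ^ 4 * ((-1) ^ R * (-1) ^ R + 1)) * hs
  refine ⟨?_, by rw [hb4]; exact o1.pow 4⟩
  have hP1ne : P1 ≠ 0 := (unit o1).1
  have h5 : 4 ^ R = P2 * P1⁻¹ := by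
    have h6 : 4 ^ R * P1 = P2 := by
      rw [hb] at h4
      have h7 : (-1 : ℚ) ^ R ≠ 0 := pow_ne_zero _ (by norm_num)
      apply mul_left_cancel₀ h7
      linear_combination h4
    rw [← h6]; field_simp
  have e : 2 * 4 ^ (2 * R + 1) * be (2 * R + 1) ^ 3 = (4 ^ R) ^ 2 * (2 * be (2 * R + 1)) ^ 3 := by
    rw [pow_succ, mul_comm 2 R, pow_mul]; ring
  rw [e, hm2, h5]
  exact ((o2.mul o1.inv).pow 2).mul ((o1.mul o3).pow 3)

/-- comparison of the two sums -/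
theorem compare (ha : 1 ≤ a) (hN : 2 * R + 1 = p ^ a) :
    I p 4 (S R / ((2 * R + 1 : ℕ) : ℚ) - T (2 * R + 1) / ((2 * R + 1 : ℕ) : ℚ)) := by
  obtain ⟨c1, c2⟩ := const_O1 (p := p) ha hN
  have hNne : ((2 * R + 1 : ℕ) : ℚ) ≠ 0 := by positivity
  have e : S R / ((2 * R + 1 : ℕ) : ℚ) - T (2 * R + 1) / ((2 * R + 1 : ℕ) : ℚ) =
      ∑ k ∈ range R, Lk ((2 * R + 1 : ℕ) : ℚ) k * ((be R ^ 4 * (PA ((2 * R + 1 : ℕ) : ℚ) k * PB ((2 * R + 1 : ℕ) : ℚ) k)) -
      (2 * 4 ^ (2 * R + 1) * be (2 * R + 1) ^ 3 *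
      (Aq ((2 * R + 1 : ℕ) : ℚ) (k + 1) ^ 2 * ((Bq ((2 * R + 1 : ℕ) : ℚ) (k + 1))⁻¹) ^ 2) *
      PC ((2 * R + 1 : ℕ) : ℚ) k)) := by
    rw [← sub_div, div_eq_iff hNne, S_eq1, T_eq, sum_range_succ, Nat.sub_self, main_eq, sum_mul]
    have : ∑ j ∈ range R, t1 j (R - j) + F2 R 0 - (F2 R 0 - ∑ k ∈ range R, g2 k (2 * (R - k))) =
        ∑ j ∈ range R, (t1 j (R - j) + g2 j (2 * (R - j))) := by
      rw [sum_add_distrib]; ring
    rw [this]
    refine sum_congr rfl fun k hk => ?_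
    have hk' := mem_range.mp hk
    rw [t1_quot R k hk'.le, g2_quot R k hk']
    ring
  rw [e]
  refine I.sum _ _ fun k hk => ?_
  have hk' := mem_range.mp hk
  have hL := Lk_I (p := p) ha hN hk'
  set N : ℚ := ((2 * R + 1 : ℕ) : ℚ) with hNd
  have oA : O1 p (PA N k) := O1.prod _ _ fun i hi => O1.sub (yy_I ha hN (by omega))
  have oB : O1 p (PB N k) := O1.prod _ _ fun i hi => O1.add (ev_I ha hN (by omega))
  have oC : O1 p (PC N k) := O1.prod _ _ fun i hi => by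
    have := g_I (p := p) ha hN (m := k + 1 + i) (by omega) (by omega)
    unfold g at this
    push_cast at this
    refine O1.sub ?_
    rw [hNd]
    push_cast
    exact this
  have oAq : O1 p (Aq N (k + 1)) := O1.prod _ _ fun i hi =>
    O1.sub (g_I (p := p) ha hN (by omega) (by omega))
  have oBq : O1 p (Bq N (k + 1)) := O1.prod _ _ fun i hi =>
    O1.sub (I.mem_mul two_mem (g_I (p := p) ha hN (by omega) (by omega)))
  have u := c2.mul (oA.mul oB)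
  have w := (c1.mul ((oAq.pow 2).mul (oBq.inv.pow 2))).mul oC
  have d : I p 1 ((be R ^ 4 * (PA N k * PB N k)) - (2 * 4 ^ (2 * R + 1) * be (2 * R + 1) ^ 3 *
      (Aq N (k + 1) ^ 2 * ((Bq N (k + 1))⁻¹) ^ 2) * PC N k)) := by
    have := I.sub u w
    rwa [sub_sub_sub_cancel_right] at this
  exact hL.mul d

end padic

end Pool.Agent.Q34.C4
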