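import Mathlib
import Pool.Agent.Q34.C4

set_option autoImplicit false

/-! Alternating sums `∑ (-1)^k g(4k-1) ((-1/2)_k / k!)^3`. -/

namespace Pool.Agent.Q34.M4

open Finset Pool.Agent.Helper857.Pad Pool.Agent.Helper857.W Pool.Agent.Q34.A4 Pool.Agent.Q34.C4
open scoped Nat

/-- `(-1/2)_k / k!` -/
noncomputable def ga (k : ℕ) : ℚ := - be k / (2 * k - 1)

lemma odd_ne (k : ℕ) : (2 * (k : ℚ) - 1) ≠ 0 := by
  intro h
  have : (2 * (k : ℤ) - 1) = 0 := by exact_mod_cast h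
  omega

lemma ga_rf (k : ℕ) : ga k = (∏ i ∈ range k, ((-1 : ℚ) / 2 + i)) / ((k ! : ℕ) : ℚ) := by
  induction k with
  | zero => simp [ga, be_zero]
  | succ k ih =>
    rw [prod_range_succ, Nat.factorial_succ]
    have h0 := odd_ne k
    have h1 := odd_ne (k + 1)
    have f := fne k
    have e : (∏ i ∈ range k, ((-1 : ℚ) / 2 + i)) = ga k * (k ! : ℕ) := by rw [ih]; field_simp
    rw [e]
    unfold ga
    rw [be_succ]
    have h2 : 2 * (k : ℚ) + 2 ≠ 0 := by positivity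
    have h3 : (k : ℚ) + 1 ≠ 0 := by positivity
    push_cast at h1 ⊢
    rw [show 2 * ((k : ℚ) + 1) - 1 = 2 * k + 1 by ring] at h1 ⊢
    field_simp
    ring

/-- `k(N, j+1)` -/
noncomputable def kk (N j : ℕ) : ℚ := (-1) ^ (j + 1) * (2 * (j : ℚ) + 1) * be (N + j) * be (N - 1 - j)

lemma kk_step (j d : ℕ) : 2 * ((j + 1 + d : ℕ) : ℚ) * kk (j + 1 + d + 1) j + (2 * ((j + 1 + d : ℕ) : ℚ) + 1) * kk (j + 1 + d) j =
    (4 * ((j + 1 + d : ℕ) : ℚ) + 1) * ((j : ℚ) + 1) * (-1) ^ (j + 1) * (be (j + 1 + d + (j + 1)) * be d) -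
    (4 * ((j + 1 + d : ℕ) : ℚ) + 1) * (j : ℚ) * (-1) ^ j * (be (j + 1 + d + j) * be (d + 1)) := by
  unfold kk
  rw [show j + 1 + d + 1 - 1 - j = d + 1 by omega, show j + 1 + d - 1 - j = d by omega,
    show j + 1 + d + 1 + j = (j + 1 + d + j) + 1 by ring, show j + 1 + d + (j + 1) = (j + 1 + d + j) + 1 by ring,
    be_succ (j + 1 + d + j), be_succ d]
  generalize be (j + 1 + d + j) = y
  generalize be d = x
  have h1 : (d : ℚ) + 1 ≠ 0 := by positivity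
  have h2 : 2 * (d : ℚ) + 2 ≠ 0 := by positivity
  have h3 : 2 * ((j : ℚ) + 1 + d + j) + 2 ≠ 0 := by positivity
  rw [pow_succ]
  push_cast
  field_simp
  ring

lemma K_rec (N : ℕ) (hN : 1 ≤ N) :
    2 * (N : ℚ) * ∑ j ∈ range (N + 1), kk (N + 1) j + (2 * (N : ℚ) + 1) * ∑ j ∈ range N, kk N j = 0 := by
  have h1 : 2 * (N : ℚ) * ∑ j ∈ range N, kk (N + 1) j + (2 * (N : ℚ) + 1) * ∑ j ∈ range N, kk N j =
      ∑ j ∈ range N, ((4 * (N : ℚ) + 1) * ((j + 1 : ℕ) : ℚ) * (-1) ^ (j + 1) * (be (N + (j + 1)) * be (N - (j + 1))) -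
      (4 * (N : ℚ) + 1) * (j : ℚ) * (-1) ^ j * (be (N + j) * be (N - j))) := by
    rw [mul_sum, mul_sum, ← sum_add_distrib]
    refine sum_congr rfl fun j hj => ?_
    have hj' := mem_range.mp hj
    obtain ⟨d, rfl⟩ : ∃ d, N = j + 1 + d := ⟨N - (j + 1), by omega⟩
    have := kk_step j d
    rw [this, show j + 1 + d - (j + 1) = d by omega, show j + 1 + d - j = d + 1 by omega]
    push_cast
    ring
  rw [sum_range_succ, mul_add, add_right_comm, h1,
    Finset.sum_range_sub (fun j => (4 * (N : ℚ) + 1) * (j : ℚ) * (-1) ^ j * (be (N + j) * be (N - j)))]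
  unfold kk
  rw [Nat.sub_self, show N + 1 - 1 - N = 0 by omega, show N + 1 + N = (N + N) + 1 by ring, be_succ (N + N), be_zero]
  have h2 : 2 * ((N : ℚ) + N) + 2 ≠ 0 := by positivity
  have h3 : 2 * (N : ℚ) + 1 ≠ 0 := by positivity
  rw [pow_succ]
  push_cast
  field_simp
  ring

lemma K_eq (N : ℕ) (hN : 1 ≤ N) : ∑ j ∈ range N, kk N j = (-1) ^ N * N * be N := by
  induction N with
  | zero => omega
  | succ N ih =>
    rcases Nat.eq_zero_or_pos N with rfl | h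
    · simp [kk, be_zero]
    · have h1 := K_rec N h
      rw [ih h] at h1
      have hN0 : (N : ℚ) ≠ 0 := by exact_mod_cast (by omega : N ≠ 0)
      have h2 : (2 * (N : ℚ)) ≠ 0 := mul_ne_zero (by norm_num) hN0
      apply mul_left_cancel₀ h2
      rw [be_succ, pow_succ]
      have h3 : 2 * (N : ℚ) + 2 ≠ 0 := by positivity
      push_cast
      have h4 : 2 * (N : ℚ) * ∑ j ∈ range (N + 1), kk (N + 1) j = - ((2 * (N : ℚ) + 1) * ((-1) ^ N * N * be N)) := by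
        linarith
      rw [h4]
      field_simp

/-- the sum with weight `g` -/
noncomputable def Sg (g : ℚ → ℚ) (N : ℕ) : ℚ := ∑ k ∈ range (N + 1), (-1) ^ k * g (4 * k - 1) * ga k ^ 3

/-- the terms `j+1` -/
noncomputable def tj (N j : ℕ) : ℚ :=
  2 * (-1) ^ (j + 1) * be N ^ 2 * (4 * (N : ℚ) ^ 2 - (2 * j + 1) ^ 2) / (2 * j + 1) * (be (N + j) * be (N - 1 - j))

lemma tj_step (j d : ℕ) : tj (j + 1 + d + 1) j - tj (j + 1 + d) j =
    be (j + 1 + d + 1) ^ 2 * (2 * (4 * ((j + 1 + d + 1 : ℕ) : ℚ) - 1)) / (2 * ((j + 1 + d : ℕ) : ℚ) + 1) ^ 2 *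
      kk (j + 1 + d + 1) j := by
  unfold tj kk
  rw [show j + 1 + d + 1 - 1 - j = d + 1 by omega, show j + 1 + d - 1 - j = d by omega,
    show j + 1 + d + 1 + j = (j + 1 + d + j) + 1 by ring,
    be_succ (j + 1 + d + j), be_succ d, be_succ (j + 1 + d)]
  generalize be (j + 1 + d + j) = y
  generalize be (j + 1 + d) = z
  generalize be d = x
  have h1 : (d : ℚ) + 1 ≠ 0 := by positivity
  have h2 : 2 * (d : ℚ) + 2 ≠ 0 := by positivity
  have h3 : 2 * ((j : ℚ) + 1 + d + j) + 2 ≠ 0 := by positivity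
  have h4 : 2 * (j : ℚ) + 1 ≠ 0 := by positivity
  have h5 : 2 * ((j : ℚ) + 1 + d) + 1 ≠ 0 := by positivity
  have h6 : 2 * ((j : ℚ) + 1 + d) + 2 ≠ 0 := by positivity
  rw [pow_succ]
  push_cast
  field_simp
  ring

lemma tj_last (N : ℕ) : tj (N + 1) N =
    be (N + 1) ^ 2 * (2 * (4 * ((N + 1 : ℕ) : ℚ) - 1)) / (2 * (N : ℚ) + 1) ^ 2 * kk (N + 1) N := by
  unfold tj kk
  rw [show N + 1 - 1 - N = 0 by omega, be_zero]
  have h5 : 2 * (N : ℚ) + 1 ≠ 0 := by positivity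
  push_cast
  field_simp
  ring

theorem S1_eq (N : ℕ) : Sg id N = - ((-1) ^ N * be N ^ 3) + ∑ j ∈ range N, tj N j := by
  induction N with
  | zero => simp [Sg, ga, be_zero]
  | succ N ih =>
    have hS : Sg id (N + 1) = Sg id N + (-1) ^ (N + 1) * (4 * ((N + 1 : ℕ) : ℚ) - 1) * ga (N + 1) ^ 3 := by
      unfold Sg; rw [sum_range_succ _ (N + 1)]; rfl
    have h1 : ∑ j ∈ range (N + 1), tj (N + 1) j = ∑ j ∈ range N, tj N j +
        be (N + 1) ^ 2 * (2 * (4 * ((N + 1 : ℕ) : ℚ) - 1)) / (2 * (N : ℚ) + 1) ^ 2 * ∑ j ∈ range (N + 1), kk (N + 1) j := by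
      rw [sum_range_succ, tj_last, sum_range_succ (fun j => kk (N + 1) j), mul_add, ← add_assoc]
      congr 1
      rw [mul_sum, ← sum_add_distrib]
      refine sum_congr rfl fun j hj => ?_
      have hj' := mem_range.mp hj
      obtain ⟨d, rfl⟩ : ∃ d, N = j + 1 + d := ⟨N - (j + 1), by omega⟩
      have := tj_step j d
      linear_combination this
    rw [hS, ih, h1, K_eq (N + 1) (by omega)]
    unfold ga
    rw [be_succ]
    have h2 : 2 * (N : ℚ) + 2 ≠ 0 := by positivity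
    have h3 : 2 * (N : ℚ) + 1 ≠ 0 := by positivity
    have h4 : (N : ℚ) + 1 ≠ 0 := by positivity
    rw [pow_succ]
    push_cast
    rw [show 2 * ((N : ℚ) + 1) - 1 = 2 * N + 1 by ring]
    field_simp
    ring

/-- the telescoping weights -/
noncomputable def tw (j : ℕ) (y : ℚ) : ℚ := ((y - 1) ^ 3 * (y + 2) ^ (2 * j) + (y + 1) ^ 3 * (y - 2) ^ (2 * j)) / 2

lemma Sg_tw (j N : ℕ) : Sg (tw j) N = 4 * (-1) ^ (N + 1) * be N ^ 3 * (4 * (N : ℚ) + 1) ^ (2 * j) := by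
  induction N with
  | zero =>
    simp only [Sg, zero_add, range_one, sum_singleton, ga, be_zero, tw]
    norm_num
  | succ N ih =>
    have hS : Sg (tw j) (N + 1) = Sg (tw j) N + (-1) ^ (N + 1) * tw j (4 * ((N + 1 : ℕ) : ℚ) - 1) * ga (N + 1) ^ 3 := by
      unfold Sg; rw [sum_range_succ _ (N + 1)]
    rw [hS, ih]
    unfold ga tw
    rw [be_succ]
    have h2 : 2 * (N : ℚ) + 2 ≠ 0 := by positivity
    have h3 : 2 * (N : ℚ) + 1 ≠ 0 := by positivity
    have h4 : (N : ℚ) + 1 ≠ 0 := by positivity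
    push_cast
    rw [show 2 * ((N : ℚ) + 1) - 1 = 2 * N + 1 by ring, show 4 * ((N : ℚ) + 1) - 1 + 2 = 4 * (N + 1) + 1 by ring,
      show 4 * ((N : ℚ) + 1) - 1 - 2 = 4 * N + 1 by ring, pow_succ (-1 : ℚ) (N + 1), pow_succ (-1 : ℚ) N]
    generalize (4 * (N : ℚ) + 1) ^ (2 * j) = A
    generalize (4 * ((N : ℚ) + 1) + 1) ^ (2 * j) = B
    field_simp
    ring

end Pool.Agent.Q34.M4
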