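import Mathlib
import Pool.Agent.Q34.M4

set_option autoImplicit false

/-! p-adic evaluation of the sums of `M4` at `(p^r+1)/2` and `p^r-1`. -/

namespace Pool.Agent.Q34.M5

open Finset Pool.Agent.Helper857.Pad Pool.Agent.Helper857.W Pool.Agent.Q34.A4 Pool.Agent.Q34.C4 Pool.Agent.Q34.M4
open scoped Nat

/-- `∏ (1 + M/(2i+1))` -/
noncomputable def UA (M : ℚ) (k : ℕ) : ℚ := ∏ i ∈ range k, (1 + M / (2 * (i : ℚ) + 1))

/-- `be (n+1+t)` -/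
lemma be_up (n t : ℕ) : be (n + 1 + t) = be n * ((2 * (n : ℚ) + 1) * (1 / ((2 * (t : ℚ) + 1) * be t))) *
    (PB (2 * (n : ℚ) + 1) t * (UA (2 * (n : ℚ) + 1) (t + 1))⁻¹) := by
  induction t with
  | zero =>
    rw [add_zero, be_succ]
    simp only [PB, UA, range_zero, prod_empty, zero_add, range_one, prod_singleton, be_zero, Nat.cast_zero]
    have h1 : 2 * (n : ℚ) + 2 ≠ 0 := by positivity
    have h2 : 1 + (2 * (n : ℚ) + 1) / (2 * 0 + 1) ≠ 0 := by positivity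
    field_simp
    ring
  | succ t ih =>
    have hB : PB (2 * (n : ℚ) + 1) (t + 1) = PB (2 * (n : ℚ) + 1) t * (1 + (2 * (n : ℚ) + 1) / (2 * ((t : ℚ) + 1))) := by
      unfold PB; rw [prod_range_succ]
    have hA : UA (2 * (n : ℚ) + 1) (t + 1 + 1) = UA (2 * (n : ℚ) + 1) (t + 1) *
        (1 + (2 * (n : ℚ) + 1) / (2 * ((t + 1 : ℕ) : ℚ) + 1)) := by
      unfold UA; rw [prod_range_succ]
    rw [← add_assoc, be_succ (n + 1 + t), ih, hB, hA, be_succ t]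
    have h1 : UA (2 * (n : ℚ) + 1) (t + 1) ≠ 0 := by
      unfold UA
      rw [prod_ne_zero_iff]; intro i _; positivity
    generalize UA (2 * (n : ℚ) + 1) (t + 1) = A at *
    generalize PB (2 * (n : ℚ) + 1) t = B at *
    have hb := (be_pos t).ne'
    have h3 : 2 * (t : ℚ) + 1 ≠ 0 := by positivity
    have h4 : 2 * (t : ℚ) + 2 ≠ 0 := by positivity
    have h5 : (t : ℚ) + 1 ≠ 0 := by positivity
    have h6 : 2 * ((t : ℚ) + 1) + 1 ≠ 0 := by positivity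
    have h7 : 2 * (((n : ℚ) + 1) + t) + 2 ≠ 0 := by positivity
    have h8 : 2 * ((t : ℚ) + 1) + 1 + (2 * n + 1) ≠ 0 := by positivity
    push_cast
    have h9 : 1 + (2 * (n : ℚ) + 1) / (2 * ((t : ℚ) + 1) + 1) ≠ 0 := by positivity
    field_simp
    ring

/-- `be (3R+1)` -/
lemma be_PR (R : ℕ) : be (3 * R + 1) = be (2 * R + 1) * ((-1) ^ R * ∏ i ∈ range R,
    ((1 - 3 * (((2 * R + 1 : ℕ) : ℚ) / (2 * ((i : ℚ) + 1)))) * (1 + 2 * (((2 * R + 1 : ℕ) : ℚ) / (2 * ((i : ℚ) + 1))))⁻¹)) := by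
  have h1 : ∀ n, be (2 * R + 1 + n) = be (2 * R + 1) * ((∏ i ∈ range n, (2 * ((2 * R + 1 : ℚ) + i) + 1)) *
      (∏ i ∈ range n, (2 * ((2 * R + 1 : ℚ) + i) + 2))⁻¹) := by
    intro n
    induction n with
    | zero => simp
    | succ n ih =>
      rw [← add_assoc, be_succ, ih, prod_range_succ, prod_range_succ]
      have : ∏ i ∈ range n, (2 * ((2 * R + 1 : ℚ) + i) + 2) ≠ 0 := by
        rw [prod_ne_zero_iff]; intro i _; positivity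
      have h3 : 2 * ((2 * R + 1 : ℚ) + n) + 2 ≠ 0 := by positivity
      push_cast
      field_simp
  have h2 : ∏ i ∈ range R, (2 * ((2 * R + 1 : ℚ) + i) + 1) = ∏ i ∈ range R, (3 * (2 * R + 1 : ℚ) - (2 * i + 2)) := by
    rw [← prod_range_reflect]
    refine prod_congr rfl fun i hi => ?_
    have hi' := mem_range.mp hi
    rw [show R - 1 - i = R - (i + 1) by omega, Nat.cast_sub (by omega)]
    push_cast; ring
  rw [show 3 * R + 1 = 2 * R + 1 + R by ring, h1, h2, ← prod_inv_distrib, ← prod_mul_distrib,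
    show ((-1 : ℚ)) ^ R = ∏ _i ∈ range R, (-1 : ℚ) by simp, ← prod_mul_distrib]
  congr 1
  refine prod_congr rfl fun i _ => ?_
  have h3 : (i : ℚ) + 1 ≠ 0 := by positivity
  have h4 : 2 * ((2 * R + 1 : ℚ) + i) + 2 ≠ 0 := by positivity
  have h5 : 1 + 2 * (((2 * R + 1 : ℕ) : ℚ) / (2 * ((i : ℚ) + 1))) ≠ 0 := by positivity
  push_cast at h5 ⊢
  field_simp
  ring

section padic
variable {p : ℕ} [hp : Fact p.Prime] {a R : ℕ}

/-- `x ≡ 1 (mod p^2)` -/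
def O2 (p : ℕ) [Fact p.Prime] (x : ℚ) : Prop := I p 2 (x - 1)

lemma O2.mem {x : ℚ} (h : O2 p x) : x ∈ Zp p := by
  have := (Zp p).add_mem (I.mem h) (Zp p).one_mem
  simpa using this

lemma O2.mul {x y : ℚ} (hx : O2 p x) (hy : O2 p y) : O2 p (x * y) := by
  have e : x * y - 1 = (x - 1) * y + (y - 1) := by ring
  unfold O2
  rw [e]
  exact (I.mul_mem hx hy.mem).add hy

lemma O2.one : O2 p 1 := by unfold O2; rw [sub_self]; exact I.zero 2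

lemma O2.prod (f : ℕ → ℚ) (n : ℕ) (h : ∀ i < n, O2 p (f i)) : O2 p (∏ i ∈ range n, f i) :=
  prod_one f n h

/-- `A/B ≡ 1 (mod p^2)` if `A - B` is divisible by `p^2`, `B ≡ 1 (mod p)` -/
lemma O2.quot {A B : ℚ} (hB : O1 p B) (h : I p 2 (A - B)) : O2 p (A * B⁻¹) := by
  obtain ⟨n0, m0, _⟩ := unit hB
  unfold O2
  have e : A * B⁻¹ - 1 = (A - B) * B⁻¹ := by field_simp
  rw [e]
  exact h.mul_mem m0

lemma O1.mul' {x y : ℚ} (hx : O1 p x) (hy : O1 p y) : O1 p (x * y) := C4.O1.mul hx hy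

include hp in
lemma LL_I (ha : 1 ≤ a) (hN : 2 * R + 1 = p ^ a) {k : ℕ} (hk : k < R) :
    I p 1 (((2 * R + 1 : ℕ) : ℚ) * (1 / ((2 * (k : ℚ) + 1) * be k))) := by
  rw [inv_be, mul_sum]
  refine I.sum _ _ fun i hi => ?_
  have hi' := mem_range.mp hi
  have h3 : I p 1 (yy ((2 * R + 1 : ℕ) : ℚ) i) := yy_I ha hN (by omega)
  have e : ((2 * R + 1 : ℕ) : ℚ) * ((-1) ^ i * (k.choose i : ℚ) / (2 * i + 1)) =
      yy ((2 * R + 1 : ℕ) : ℚ) i * ((-1) ^ i * (k.choose i : ℚ)) := by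
    unfold yy; ring
  rw [e]
  refine h3.mul_mem ((Zp p).mul_mem ((Zp p).pow_mem ((Zp p).neg_mem (Zp p).one_mem) i) (nat_mem _))

lemma be_mem (h2 : ¬ p ∣ 2) (k : ℕ) : be k ∈ Zp p := by
  unfold be
  rw [div_eq_mul_inv]
  refine (Zp p).mul_mem (nat_mem _) ?_
  have : ¬ p ∣ 4 ^ k := by
    intro h
    have h3 := hp.out.dvd_of_dvd_pow h
    rw [show 4 = 2 * 2 by norm_num, hp.out.dvd_mul] at h3
    exact h3.elim h2 h2
  have := inv_nat_mem this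
  push_cast at this
  exact this

lemma not_two (ha : 1 ≤ a) (hN : 2 * R + 1 = p ^ a) : ¬ p ∣ 2 := by
  intro h
  have h2 : p = 2 := (Nat.prime_dvd_prime_iff_eq hp.out Nat.prime_two).mp h
  have : p ∣ 2*R+1 := by rw [hN]; exact dvd_pow_self p (by omega)
  rw [h2] at this
  omega

lemma P_I (hN : 2 * R + 1 = p ^ a) : I p a ((2 * R + 1 : ℕ) : ℚ) := by
  rw [hN]; push_cast; exact I.p_pow a

/-- the small factors, for `n = R` and `n = 3R+1` -/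
lemma up_I (ha : 1 ≤ a) (hN : 2 * R + 1 = p ^ a) (n c : ℕ) (hn : 2 * n + 1 = c * (2 * R + 1)) {t : ℕ} (ht : t < R) :
    I p 1 (be (n + 1 + t)) := by
  rw [be_up]
  have e : (2 * (n : ℚ) + 1) = c * ((2 * R + 1 : ℕ) : ℚ) := by exact_mod_cast hn
  rw [e]
  have h1 := LL_I (p := p) ha hN ht
  have o1 : O1 p (PB (c * ((2 * R + 1 : ℕ) : ℚ)) t) :=
    O1.prod _ _ fun i hi => O1.add (by
      rw [mul_div_assoc]
      exact I.mem_mul (nat_mem c) (ev_I ha hN (by omega)))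
  have o2 : O1 p (UA (c * ((2 * R + 1 : ℕ) : ℚ)) (t + 1)) :=
    O1.prod _ _ fun i hi => O1.add (by
      rw [mul_div_assoc]
      exact I.mem_mul (nat_mem c) (yy_I ha hN (by omega)))
  have h2 : I p 1 (c * ((2 * R + 1 : ℕ) : ℚ) * (1 / ((2 * (t : ℚ) + 1) * be t))) := by
    rw [mul_assoc]; exact I.mem_mul (nat_mem c) h1
  exact (I.mem_mul (be_mem (not_two ha hN) n) h2).mul_mem (o1.mul o2.inv).mem

/-- `be (2R-j)` -/
lemma down_I (ha : 1 ≤ a) (hN : 2 * R + 1 = p ^ a) {j : ℕ} (hj : j < R) : I p 1 (be (2 * R - j)) := by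
  have hp2 := pair R (j + 1) (by omega) (by omega)
  rw [show 2 * R + 1 - (j + 1) = 2 * R - j by omega] at hp2
  have hbk := (be_pos j).ne'
  have h3 : 2 * (j : ℚ) + 1 ≠ 0 := by positivity
  have h6 : (j : ℚ) + 1 ≠ 0 := by positivity
  have oAq : O1 p (Aq ((2 * R + 1 : ℕ) : ℚ) (j + 1)) := O1.prod _ _ fun i hi =>
    O1.sub (g_I (p := p) ha hN (by omega) (by omega))
  have oBq : O1 p (Bq ((2 * R + 1 : ℕ) : ℚ) (j + 1)) := O1.prod _ _ fun i hi =>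
    O1.sub (I.mem_mul two_mem (g_I (p := p) ha hN (by omega) (by omega)))
  have hBne := (unit oBq).1
  have e5 : be (2 * R - j) = (((2 * R + 1 : ℕ) : ℚ) * (1 / ((2 * (j : ℚ) + 1) * be j))) * (- (be (2 * R + 1) * 2 *
      Aq ((2 * R + 1 : ℕ) : ℚ) (j + 1)) * (Bq ((2 * R + 1 : ℕ) : ℚ) (j + 1))⁻¹) := by
    have hk1 := be_succ j
    have g1 : g ((2 * R + 1 : ℕ) : ℚ) (j + 1) = ((2 * R + 1 : ℕ) : ℚ) / (j + 1) := by unfold g; push_cast; rfl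
    rw [hk1, g1] at hp2
    have h7 : 2 * (j : ℚ) + 2 ≠ 0 := by positivity
    generalize Aq ((2 * R + 1 : ℕ) : ℚ) (j + 1) = A at *
    generalize Bq ((2 * R + 1 : ℕ) : ℚ) (j + 1) = B at *
    generalize be (2 * R - j) = x at *
    generalize be (2 * R + 1) = y at *
    generalize ((2 * R + 1 : ℕ) : ℚ) = N at *
    field_simp at hp2 ⊢
    linear_combination hp2
  rw [e5]
  refine (LL_I (p := p) ha hN hj).mul_mem ?_
  exact (Zp p).mul_mem ((Zp p).neg_mem ((Zp p).mul_mem ((Zp p).mul_mem (be_mem (not_two ha hN) _) two_mem) oAq.mem)) oBq.inv.mem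

/-- `be (R+1)` -/
lemma be_R1 : be (R + 1) = ((2 * R + 1 : ℕ) : ℚ) * (be R * (1 + ((2 * R + 1 : ℕ) : ℚ))⁻¹) := by
  rw [be_succ]
  have h1 : 2 * (R : ℚ) + 2 ≠ 0 := by positivity
  push_cast
  rw [show 1 + (2 * (R : ℚ) + 1) = 2 * R + 2 by ring]
  field_simp

/-- `be (2R)` -/
lemma be_2R (hR : 1 ≤ R) : be (2 * R) = ((2 * R + 1 : ℕ) : ℚ) * (-(be (2 * R + 1) * 2 * (1 - 2 * ((2 * R + 1 : ℕ) : ℚ))⁻¹)) := by
  rw [be_succ]
  have h1 : 2 * ((2 * R : ℕ) : ℚ) + 2 ≠ 0 := by positivity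
  have h2 : 4 * (R : ℚ) + 1 ≠ 0 := by positivity
  push_cast at h1 ⊢
  rw [show 1 - 2 * (2 * (R : ℚ) + 1) = - (4 * R + 1) by ring, inv_neg]
  have h3 : 2 * (R : ℚ) + 1 ≠ 0 := by positivity
  field_simp
  ring

lemma one_add_P (ha : 1 ≤ a) (hN : 2 * R + 1 = p ^ a) (c : ℤ) : O1 p (1 + c * ((2 * R + 1 : ℕ) : ℚ)) :=
  O1.add (I.mem_mul (int_mem c) ((P_I hN).mono ha))

/-- main term for `R+1` -/
lemma mainA (ha : 1 ≤ a) (hN : 2 * R + 1 = p ^ a) :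
    I p (a + 2) (tj (R + 1) R + ((2 * R + 1 : ℕ) : ℚ) * (-1) ^ R) := by
  have hv : ∀ i < R, I p 1 (((2*R+1:ℕ):ℚ)/(2*((i:ℚ)+1))) := fun i hi => ev_I ha hN hi
  have hP := P_I (p := p) hN
  have hP1 := hP.mono ha
  have q1 : O2 p (2 * be R ^ 2 * be (2 * R + 1)) := by
    rw [be_sq]
    refine O2.prod _ _ fun i hi => ?_
    have h := hv i hi
    generalize ((2*R+1:ℕ):ℚ)/(2*((i:ℚ)+1)) = v at *
    rw [div_eq_mul_inv]
    refine O2.quot (O1.sub (I.mem_mul two_mem h)) ?_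
    have e : (1 - v) ^ 3 * (1 + v) - (1 - 2 * v) = v ^ 2 * (2 * v - v ^ 2) := by ring
    rw [e]
    exact (h.pow 2).mul_mem ((Zp p).sub_mem ((Zp p).mul_mem two_mem h.mem) ((Zp p).pow_mem h.mem 2))
  have q2 : O2 p ((1 + 2 * ((2 * R + 1 : ℕ) : ℚ)) * ((1 + ((2 * R + 1 : ℕ) : ℚ)) ^ 2)⁻¹) := by
    refine O2.quot ((O1.add hP1).pow 2) ?_
    generalize ((2 * R + 1 : ℕ) : ℚ) = P at *
    have e : 1 + 2 * P - (1 + P) ^ 2 = - P ^ 2 := by ring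
    rw [e]
    exact (hP1.pow 2).neg
  have q := q1.mul q2
  have e : tj (R + 1) R + ((2 * R + 1 : ℕ) : ℚ) * (-1) ^ R = ((2 * R + 1 : ℕ) : ℚ) *
      ((2 * be R ^ 2 * be (2 * R + 1)) * ((1 + 2 * ((2 * R + 1 : ℕ) : ℚ)) * ((1 + ((2 * R + 1 : ℕ) : ℚ)) ^ 2)⁻¹) - 1) *
      (-(-1) ^ R) := by
    unfold tj
    rw [show R + 1 - 1 - R = 0 by omega, be_zero, be_R1, show R + 1 + R = 2 * R + 1 by ring, pow_succ]
    have h1 : 1 + ((2 * R + 1 : ℕ) : ℚ) ≠ 0 := by positivity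
    have h2 : (((R + 1 : ℕ) : ℚ)) = (1 + ((2 * R + 1 : ℕ) : ℚ)) / 2 := by push_cast; ring
    have h3 : (2 * (R : ℚ) + 1) = ((2 * R + 1 : ℕ) : ℚ) := by push_cast; ring
    rw [h2, h3]
    have h4 : ((2 * R + 1 : ℕ) : ℚ) ≠ 0 := by positivity
    generalize ((2 * R + 1 : ℕ) : ℚ) = P at *
    field_simp
    ring
  rw [e]
  exact (hP.mul q).mul_mem ((Zp p).neg_mem ((Zp p).pow_mem ((Zp p).neg_mem (Zp p).one_mem) R))

/-- main term for `2R` -/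
lemma mainB (ha : 1 ≤ a) (hR : 1 ≤ R) (hN : 2 * R + 1 = p ^ a) :
    I p (a + 2) (tj (2 * R) R + ((2 * R + 1 : ℕ) : ℚ) * (-1) ^ R) := by
  have hv : ∀ i < R, I p 1 (((2*R+1:ℕ):ℚ)/(2*((i:ℚ)+1))) := fun i hi => ev_I ha hN hi
  have hP := P_I (p := p) hN
  have hP1 := hP.mono ha
  have hs : ((-1 : ℚ) ^ R) * (-1) ^ R = 1 := by rw [← mul_pow]; norm_num
  set P1 := ∏ i ∈ range R, (1 - ((2 * R + 1 : ℕ) : ℚ) / (2 * ((i : ℚ) + 1))) with hP1d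
  have hb : be R = (-1) ^ R * P1 := be_prod R
  set P3 := ∏ i ∈ range R,
    ((1 + ((2 * R + 1 : ℕ) : ℚ) / (2 * ((i : ℚ) + 1))) / (1 - 2 * (((2 * R + 1 : ℕ) : ℚ) / (2 * ((i : ℚ) + 1))))) with hP3
  have hm : 2 * be (2 * R + 1) = be R * ((-1) ^ R * P3) := be_mid R
  have hm2 : be (2 * R + 1) = P1 * P3 / 2 := by rw [hb] at hm; linear_combination hm / 2 + (P1 * P3 / 2) * hs
  set P4 := ∏ i ∈ range R, ((1 - 3 * (((2 * R + 1 : ℕ) : ℚ) / (2 * ((i : ℚ) + 1)))) *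
    (1 + 2 * (((2 * R + 1 : ℕ) : ℚ) / (2 * ((i : ℚ) + 1))))⁻¹) with hP4
  have hn : be (3 * R + 1) = be (2 * R + 1) * ((-1) ^ R * P4) := be_PR R
  have q1 : O2 p (P1 ^ 4 * P3 ^ 3 * P4) := by
    rw [hP1d, hP3, hP4, ← prod_pow, ← prod_pow, ← prod_mul_distrib, ← prod_mul_distrib]
    refine O2.prod _ _ fun i hi => ?_
    have h := hv i hi
    generalize ((2*R+1:ℕ):ℚ)/(2*((i:ℚ)+1)) = v at *
    have three_mem : (3 : ℚ) ∈ Zp p := by exact_mod_cast nat_mem (p := p) 3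
    have o1 : O1 p (1 - 2 * v) := O1.sub (I.mem_mul two_mem h)
    have o2 : O1 p (1 + 2 * v) := O1.add (I.mem_mul two_mem h)
    have n1 := (unit o1).1
    have n2 := (unit o2).1
    have e : (1 - v) ^ 4 * ((1 + v) / (1 - 2 * v)) ^ 3 * ((1 - 3 * v) * (1 + 2 * v)⁻¹) =
        ((1 - v) ^ 4 * (1 + v) ^ 3 * (1 - 3 * v)) * ((1 - 2 * v) ^ 3 * (1 + 2 * v))⁻¹ := by
      field_simp
    rw [e]
    refine O2.quot ((o1.pow 3).mul o2) ?_
    have e : (1 - v) ^ 4 * (1 + v) ^ 3 * (1 - 3 * v) - (1 - 2 * v) ^ 3 * (1 + 2 * v) =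
      v ^ 2 * (((-4 : ℤ) : ℚ) * v ^ 1 + ((10 : ℤ) : ℚ) * v ^ 2 + ((-12 : ℤ) : ℚ) * v ^ 3 + ((8 : ℤ) : ℚ) * v ^ 4 + ((4 : ℤ) : ℚ) * v ^ 5 + ((-3 : ℤ) : ℚ) * v ^ 6) := by push_cast; ring
    rw [e]
    refine (h.pow 2).mul_mem ?_
    have hz := h.mem
    exact ((Zp p).add_mem ((Zp p).add_mem ((Zp p).add_mem ((Zp p).add_mem ((Zp p).add_mem ((Zp p).mul_mem (int_mem _) ((Zp p).pow_mem hz _)) ((Zp p).mul_mem (int_mem _) ((Zp p).pow_mem hz _))) ((Zp p).mul_mem (int_mem _) ((Zp p).pow_mem hz _))) ((Zp p).mul_mem (int_mem _) ((Zp p).pow_mem hz _))) ((Zp p).mul_mem (int_mem _) ((Zp p).pow_mem hz _))) ((Zp p).mul_mem (int_mem _) ((Zp p).pow_mem hz _)))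
  have q2 : O2 p (((1 - ((2 * R + 1 : ℕ) : ℚ)) * (1 - 3 * ((2 * R + 1 : ℕ) : ℚ))) * ((1 - 2 * ((2 * R + 1 : ℕ) : ℚ)) ^ 2)⁻¹) := by
    refine O2.quot ((O1.sub (I.mem_mul two_mem hP1)).pow 2) ?_
    generalize ((2 * R + 1 : ℕ) : ℚ) = P at *
    have e : (1 - P) * (1 - 3 * P) - (1 - 2 * P) ^ 2 = - P ^ 2 := by ring
    rw [e]
    exact (hP1.pow 2).neg
  have q := q1.mul q2
  have e : tj (2 * R) R + ((2 * R + 1 : ℕ) : ℚ) * (-1) ^ R = ((2 * R + 1 : ℕ) : ℚ) *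
      ((P1 ^ 4 * P3 ^ 3 * P4) * (((1 - ((2 * R + 1 : ℕ) : ℚ)) * (1 - 3 * ((2 * R + 1 : ℕ) : ℚ))) *
        ((1 - 2 * ((2 * R + 1 : ℕ) : ℚ)) ^ 2)⁻¹) - 1) * (-(-1) ^ R) := by
    have g1 : (2 * (R : ℚ) - 1) * be (R - 1) = 2 * R * be R := by
      obtain ⟨r, rfl⟩ : ∃ r, R = r + 1 := ⟨R - 1, by omega⟩
      rw [Nat.add_sub_cancel, be_succ]
      have : 2 * (r : ℚ) + 2 ≠ 0 := by positivity
      push_cast
      field_simp
      ring
    have g2 : (6 * (R : ℚ) + 1) * be (3 * R) = (6 * R + 2) * be (3 * R + 1) := by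
      rw [be_succ]
      have : 2 * ((3 * R : ℕ) : ℚ) + 2 ≠ 0 := by positivity
      field_simp
      push_cast
      ring
    have e1 : tj (2 * R) R = 2 * (-1) ^ (R + 1) * be (2 * R) ^ 2 / (2 * R + 1) *
        (((6 * (R : ℚ) + 1) * be (3 * R)) * ((2 * (R : ℚ) - 1) * be (R - 1))) := by
      unfold tj
      rw [show 2 * R + R = 3 * R by ring, show 2 * R - 1 - R = R - 1 by omega]
      push_cast
      ring
    rw [e1, g1, g2, be_2R hR, hn, hm2, hb, pow_succ]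
    have h3 : (2 * (R : ℚ) + 1) = ((2 * R + 1 : ℕ) : ℚ) := by push_cast; ring
    have h4 : ((2 * R + 1 : ℕ) : ℚ) ≠ 0 := by positivity
    have h5 : (R : ℚ) = (((2 * R + 1 : ℕ) : ℚ) - 1) / 2 := by push_cast; ring
    have o5 : O1 p (1 - 2 * ((2 * R + 1 : ℕ) : ℚ)) := O1.sub (I.mem_mul two_mem hP1)
    have n5 := (unit o5).1
    rw [h3, h5]
    generalize ((2 * R + 1 : ℕ) : ℚ) = P at *
    generalize (-1 : ℚ) ^ R = s at *
    field_simp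
    linear_combination (-2 * (P - 1) * (3 * P - 1) * P1 ^ 4 * P3 ^ 3 * P4 * s) * hs
  rw [e]
  exact (hP.mul q).mul_mem ((Zp p).neg_mem ((Zp p).pow_mem ((Zp p).neg_mem (Zp p).one_mem) R))

lemma sgn_mem (n : ℕ) : ((-1 : ℚ)) ^ n ∈ Zp p := (Zp p).pow_mem ((Zp p).neg_mem (Zp p).one_mem) n

/-- other terms, `N = R+1` -/
lemma otherA (ha : 1 ≤ a) (hN : 2 * R + 1 = p ^ a) {j : ℕ} (hj : j < R) : I p (a + 2) (tj (R + 1) j) := by
  have hP := P_I (p := p) hN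
  have hP1 := hP.mono ha
  have h1 := yy_I (p := p) ha hN hj
  have h2 := up_I (p := p) ha hN R 1 (by ring) hj
  have e : tj (R + 1) j = ((2 * R + 1 : ℕ) : ℚ) * (yy ((2 * R + 1 : ℕ) : ℚ) j * be (R + 1 + j)) *
      (2 * (-1) ^ (j + 1) * (be R * (1 + ((2 * R + 1 : ℕ) : ℚ))⁻¹) ^ 2 *
        ((4 * (((R + 1 : ℕ) : ℚ)) ^ 2 - (((2 * j + 1 : ℕ) : ℚ)) ^ 2) * be (R - j))) := by
    unfold tj yy
    rw [be_R1, show R + 1 - 1 - j = R - j by omega]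
    push_cast
    ring
  rw [e]
  refine (hP.mul (h1.mul h2)).mul_mem ?_
  have m2 := not_two (p := p) ha hN
  have o := (O1.add hP1).inv.mem
  refine (Zp p).mul_mem ((Zp p).mul_mem ((Zp p).mul_mem two_mem (sgn_mem _)) ((Zp p).pow_mem ((Zp p).mul_mem (be_mem m2 _) o) 2)) ?_
  exact (Zp p).mul_mem ((Zp p).sub_mem ((Zp p).mul_mem (by exact_mod_cast nat_mem (p := p) 4) ((Zp p).pow_mem (nat_mem _) 2))
    ((Zp p).pow_mem (nat_mem _) 2)) (be_mem m2 _)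

/-- other terms, `N = 2R`, first range -/
lemma otherB (ha : 1 ≤ a) (hN : 2 * R + 1 = p ^ a) {j : ℕ} (hj : j < R) : I p (a + 2) (tj (2 * R) j) := by
  have hP := P_I (p := p) hN
  have hP1 := hP.mono ha
  have h1 := yy_I (p := p) ha hN hj
  have h2 := down_I (p := p) ha hN hj
  have e : tj (2 * R) j = ((2 * R + 1 : ℕ) : ℚ) * (yy ((2 * R + 1 : ℕ) : ℚ) j * be (2 * R - j)) *
      (2 * (-1) ^ (j + 1) * (be (2 * R + 1) * 2 * (1 - 2 * ((2 * R + 1 : ℕ) : ℚ))⁻¹) ^ 2 *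
        ((((4 * R + 2 * j + 1 : ℕ) : ℚ)) * (((4 * R - 2 * j : ℕ) : ℚ)) * be (2 * R + j))) := by
    have g1 : (2 * (2 * R : ℚ) - 2 * j - 1) * be (2 * R - 1 - j) = (((4 * R - 2 * j : ℕ) : ℚ)) * be (2 * R - j) := by
      obtain ⟨r, hr⟩ : ∃ r, 2 * R = j + 1 + r := ⟨2 * R - (j + 1), by omega⟩
      rw [show 2 * R - 1 - j = r by omega, show 2 * R - j = r + 1 by omega, show 4 * R - 2 * j = 2 * r + 2 by omega,
        be_succ]
      have h3 : 2 * (R : ℚ) = j + 1 + r := by exact_mod_cast hr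
      have : 2 * (r : ℚ) + 2 ≠ 0 := by positivity
      push_cast
      rw [h3]
      field_simp
      ring
    have e1 : tj (2 * R) j = 2 * (-1) ^ (j + 1) * be (2 * R) ^ 2 / (2 * j + 1) * (((4 * R + 2 * j + 1 : ℕ) : ℚ) *
        ((2 * (2 * R : ℚ) - 2 * j - 1) * be (2 * R - 1 - j)) * be (2 * R + j)) := by
      unfold tj
      push_cast
      ring
    rw [e1, g1, be_2R (by omega)]
    unfold yy
    push_cast
    ring
  rw [e]
  refine (hP.mul (h1.mul h2)).mul_mem ?_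
  have m2 := not_two (p := p) ha hN
  have o := (O1.sub (I.mem_mul two_mem hP1)).inv.mem
  refine (Zp p).mul_mem ((Zp p).mul_mem ((Zp p).mul_mem two_mem (sgn_mem _)) ((Zp p).pow_mem ((Zp p).mul_mem ((Zp p).mul_mem (be_mem m2 _) two_mem) o) 2)) ?_
  exact (Zp p).mul_mem ((Zp p).mul_mem (nat_mem _) (nat_mem _)) (be_mem m2 _)

/-- other terms, `N = 2R`, second range -/
lemma otherC (ha : 1 ≤ a) (hN : 2 * R + 1 = p ^ a) {t : ℕ} (ht : t + 1 < R) : I p (a + 2) (tj (2 * R) (R + 1 + t)) := by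
  have hP := P_I (p := p) hN
  have hP1 := hP.mono ha
  have hv : I p 1 (((2*R+1:ℕ):ℚ)/(2*((t:ℚ)+1))) := ev_I ha hN (by omega)
  have ov := O1.add hv
  have h1 : I p 1 ((((2*R+1:ℕ):ℚ)/(2*((t:ℚ)+1))) * (1 + (((2*R+1:ℕ):ℚ)/(2*((t:ℚ)+1))))⁻¹) := hv.mul_mem ov.inv.mem
  have h2 : I p 1 (be (3 * R + 1 + 1 + t)) := up_I (p := p) ha hN (3 * R + 1) 3 (by ring) (by omega)
  have e : tj (2 * R) (R + 1 + t) = ((2 * R + 1 : ℕ) : ℚ) * (((((2*R+1:ℕ):ℚ)/(2*((t:ℚ)+1))) * (1 + (((2*R+1:ℕ):ℚ)/(2*((t:ℚ)+1))))⁻¹) *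
      be (3 * R + 1 + 1 + t)) *
      (2 * (-1) ^ (R + 1 + t + 1) * (be (2 * R + 1) * 2 * (1 - 2 * ((2 * R + 1 : ℕ) : ℚ))⁻¹) ^ 2 *
        (((((2 * R : ℕ) : ℚ)) - (((2 * t + 3 : ℕ) : ℚ))) * (((6 * R + 2 * t + 4 : ℕ) : ℚ)) * be (2 * R - 1 - (R + 1 + t)))) := by
    have g1 : (2 * (2 * R : ℚ) + 2 * ((R + 1 + t : ℕ) : ℚ) + 1) * be (2 * R + (R + 1 + t)) = (((6 * R + 2 * t + 4 : ℕ) : ℚ)) * be (3 * R + 1 + 1 + t) := by
      rw [show 3 * R + 1 + 1 + t = (2 * R + (R + 1 + t)) + 1 by ring, be_succ]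
      have : 2 * ((2 * R + (R + 1 + t) : ℕ) : ℚ) + 2 ≠ 0 := by positivity
      field_simp
      push_cast
      ring
    have e1 : tj (2 * R) (R + 1 + t) = 2 * (-1) ^ (R + 1 + t + 1) * be (2 * R) ^ 2 / (2 * ((R + 1 + t : ℕ) : ℚ) + 1) *
        (((((2 * R : ℕ) : ℚ)) - (((2 * t + 3 : ℕ) : ℚ))) *
        ((2 * (2 * R : ℚ) + 2 * ((R + 1 + t : ℕ) : ℚ) + 1) * be (2 * R + (R + 1 + t))) * be (2 * R - 1 - (R + 1 + t))) := by
      unfold tj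
      push_cast
      ring
    have e2 : 1 / (2 * ((R + 1 + t : ℕ) : ℚ) + 1) = (1 / (2*((t:ℚ)+1))) * (1 + (((2*R+1:ℕ):ℚ)/(2*((t:ℚ)+1))))⁻¹ := by
      have h3 : (t : ℚ) + 1 ≠ 0 := by positivity
      have h4 : 1 + (((2*R+1:ℕ):ℚ)/(2*((t:ℚ)+1))) ≠ 0 := by positivity
      have h5 : 2 * ((R + 1 + t : ℕ) : ℚ) + 1 ≠ 0 := by positivity
      push_cast at h4 h5 ⊢
      field_simp
      ring
    rw [e1, g1, be_2R (by omega), div_eq_mul_one_div _ (2 * ((R + 1 + t : ℕ) : ℚ) + 1), e2]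
    ring
  rw [e]
  refine (hP.mul (h1.mul h2)).mul_mem ?_
  have m2 := not_two (p := p) ha hN
  have o := (O1.sub (I.mem_mul two_mem hP1)).inv.mem
  refine (Zp p).mul_mem ((Zp p).mul_mem ((Zp p).mul_mem two_mem (sgn_mem _)) ((Zp p).pow_mem ((Zp p).mul_mem ((Zp p).mul_mem (be_mem m2 _) two_mem) o) 2)) ?_
  exact (Zp p).mul_mem ((Zp p).mul_mem ((Zp p).sub_mem (nat_mem _) (nat_mem _)) (nat_mem _)) (be_mem m2 _)

lemma cubeA (ha : 1 ≤ a) (hN : 2 * R + 1 = p ^ a) : I p (a + 2) (be (R + 1) ^ 3) := by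
  have hP := P_I (p := p) hN
  have hP1 := hP.mono ha
  have h : I p a (be (R + 1)) := by
    rw [be_R1]
    exact hP.mul_mem ((Zp p).mul_mem (be_mem (not_two ha hN) _) (O1.add hP1).inv.mem)
  exact (h.pow 3).mono (by omega)

lemma cubeB (ha : 1 ≤ a) (hR : 1 ≤ R) (hN : 2 * R + 1 = p ^ a) : I p (a + 2) (be (2 * R) ^ 3) := by
  have hP := P_I (p := p) hN
  have hP1 := hP.mono ha
  have h : I p a (be (2 * R)) := by
    rw [be_2R hR]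
    exact hP.mul_mem ((Zp p).neg_mem ((Zp p).mul_mem ((Zp p).mul_mem (be_mem (not_two ha hN) _) two_mem)
      (O1.sub (I.mem_mul two_mem hP1)).inv.mem))
  exact (h.pow 3).mono (by omega)

theorem idA (ha : 1 ≤ a) (hN : 2 * R + 1 = p ^ a) :
    I p (a + 2) (Sg id (R + 1) + ((2 * R + 1 : ℕ) : ℚ) * (-1) ^ R) := by
  rw [S1_eq, sum_range_succ]
  have e : -((-1) ^ (R + 1) * be (R + 1) ^ 3) + (∑ x ∈ range R, tj (R + 1) x + tj (R + 1) R) +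
      ((2 * R + 1 : ℕ) : ℚ) * (-1) ^ R = ∑ x ∈ range R, tj (R + 1) x +
        (tj (R + 1) R + ((2 * R + 1 : ℕ) : ℚ) * (-1) ^ R) - (-1) ^ (R + 1) * be (R + 1) ^ 3 := by ring
  rw [e]
  exact ((I.sum _ _ fun j hj => otherA ha hN (mem_range.mp hj)).add (mainA ha hN)).sub (I.mem_mul (sgn_mem _) (cubeA ha hN))

theorem idB (ha : 1 ≤ a) (hR : 1 ≤ R) (hN : 2 * R + 1 = p ^ a) :
    I p (a + 2) (Sg id (2 * R) + ((2 * R + 1 : ℕ) : ℚ) * (-1) ^ R) := by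
  rw [S1_eq]
  have e : -((-1) ^ (2 * R) * be (2 * R) ^ 3) + (∑ x ∈ range (2 * R), tj (2 * R) x) +
      ((2 * R + 1 : ℕ) : ℚ) * (-1) ^ R = ∑ x ∈ range (2 * R), (tj (2 * R) x + if x = R then ((2 * R + 1 : ℕ) : ℚ) * (-1) ^ R else 0)
        - (-1) ^ (2 * R) * be (2 * R) ^ 3 := by
    rw [sum_add_distrib, Finset.sum_ite_eq', if_pos (mem_range.mpr (by omega))]
    ring
  rw [e]
  refine (I.sum _ _ fun j hj => ?_).sub (I.mem_mul (sgn_mem _) (cubeB ha hR hN))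
  have hj' := mem_range.mp hj
  split_ifs with h
  · subst h; exact mainB ha hR hN
  · rw [add_zero]
    rcases lt_or_gt_of_ne h with h | h
    · exact otherB ha hN h
    · obtain ⟨t, rfl⟩ : ∃ t, j = R + 1 + t := ⟨j - (R + 1), by omega⟩
      exact otherC ha hN (by omega)

end padic

end Pool.Agent.Q34.M5
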