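import Mathlib

/-!
Partial fractions at `0`: for distinct nonzero `z j`, the numbers `β k = ∏_{j ≠ k} z j / (z j - z k)` have
`∑ β k = 1`, `∑ β k / z k = ∑ 1 / z j`, and `∑ β k / (z k) ^ 2 = h₂ (1 / z)`.
-/

set_option autoImplicit false

namespace Pool.Agent.Q34.PF

open Finset

variable {K : Type*} [Field K]

/-- the Lagrange basis at `x` -/
noncomputable def lb (s : Finset ℕ) (z : ℕ → K) (x : K) (k : ℕ) : K := ∏ j ∈ s.erase k, (z j - x) / (z j - z k)

theorem sum_lb (s : Finset ℕ) (hs : s.Nonempty) (z : ℕ → K) (hz : ∀ i ∈ s, ∀ j ∈ s, i ≠ j → z i ≠ z j) (x : K) :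
    ∑ k ∈ s, lb s z x k = 1 := by
  have h := Lagrange.sum_basis (s := s) (v := z) (by
    intro a ha b hb hab
    by_contra hne
    exact hz a ha b hb hne hab) hs
  have h2 := congrArg (Polynomial.eval x) h
  rw [Polynomial.eval_finsetSum, Polynomial.eval_one] at h2
  rw [← h2]
  refine sum_congr rfl fun k hk => ?_
  unfold lb Lagrange.basis
  rw [Polynomial.eval_prod]
  refine prod_congr rfl fun j hj => ?_
  unfold Lagrange.basisDivisor
  rw [Polynomial.eval_mul, Polynomial.eval_C, Polynomial.eval_sub, Polynomial.eval_X, Polynomial.eval_C]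
  have hj' := Finset.mem_erase.1 hj
  have h1 : z j - z k ≠ 0 := sub_ne_zero.2 (hz j hj'.2 k hk hj'.1)
  have h3 : z k - z j ≠ 0 := sub_ne_zero.2 (hz j hj'.2 k hk hj'.1).symm
  rw [inv_mul_eq_div, div_eq_div_iff h1 h3]
  ring

/-- `∑ β k / (z k) ^ m` -/
noncomputable def H (z : ℕ → K) (m n : ℕ) : K := ∑ k ∈ range n, lb (range n) z 0 k / z k ^ m

theorem H_zero (z : ℕ → K) (n : ℕ) (hn : 0 < n) (hz : ∀ i < n, ∀ j < n, i ≠ j → z i ≠ z j) : H z 0 n = 1 := by
  unfold H
  simp only [pow_zero, div_one]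
  refine sum_lb _ (nonempty_range_iff.2 hn.ne') z ?_ 0
  intro i hi j hj
  exact hz i (mem_range.1 hi) j (mem_range.1 hj)

theorem H_succ (z : ℕ → K) (m n : ℕ) (hz : ∀ i < n + 1, ∀ j < n + 1, i ≠ j → z i ≠ z j)
    (hz0 : ∀ i < n + 1, z i ≠ 0) : H z (m + 1) (n + 1) = H z (m + 1) n + (z n)⁻¹ * H z m (n + 1) := by
  have hk : ∀ k ∈ range n, lb (range (n + 1)) z 0 k / z k ^ (m + 1) - (z n)⁻¹ * (lb (range (n + 1)) z 0 k / z k ^ m) =
      lb (range n) z 0 k / z k ^ (m + 1) := by
    intro k hk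
    have hkn := mem_range.1 hk
    have hzk := hz0 k (by omega)
    have hzn := hz0 n (by omega)
    have hne : z n - z k ≠ 0 := sub_ne_zero.2 (hz n (by omega) k (by omega) (by omega))
    have e : (range (n + 1)).erase k = insert n ((range n).erase k) := by
      ext a
      simp only [mem_erase, mem_range, mem_insert]
      omega
    have e2 : lb (range (n + 1)) z 0 k = (z n - 0) / (z n - z k) * lb (range n) z 0 k := by
      unfold lb
      rw [e, prod_insert]
      simp
    rw [e2]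
    field_simp
    ring
  have h1 : H z (m + 1) (n + 1) - (z n)⁻¹ * H z m (n + 1) = H z (m + 1) n := by
    unfold H
    rw [mul_sum, ← sum_sub_distrib, sum_range_succ, sum_congr rfl hk]
    have hzn := hz0 n (by omega)
    have : lb (range (n + 1)) z 0 n / z n ^ (m + 1) - (z n)⁻¹ * (lb (range (n + 1)) z 0 n / z n ^ m) = 0 := by
      field_simp
      ring
    rw [this, add_zero]
  rw [← h1]
  ring

theorem H_one (z : ℕ → K) (n : ℕ) (hz : ∀ i < n, ∀ j < n, i ≠ j → z i ≠ z j)
    (hz0 : ∀ i < n, z i ≠ 0) : H z 1 n = ∑ j ∈ range n, (z j)⁻¹ := by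
  induction n with
  | zero => simp [H]
  | succ n ih =>
    rw [H_succ z 0 n hz hz0, H_zero z (n + 1) (by omega) hz, sum_range_succ, mul_one,
      ih (fun i hi j hj => hz i (by omega) j (by omega)) (fun i hi => hz0 i (by omega))]

end Pool.Agent.Q34.PF
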