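import Pool.Agent.Q34.PF

/-!
The very-well-poised basic sum `∑ (1 - a Q^(2 k)) V k E k`: summation by parts and partial fractions.
-/

set_option autoImplicit false

namespace Pool.Agent.Q34.QW

open Finset

variable {K : Type*} [Field K]

/-- `(a; Q)_m` -/
noncomputable def F (a Q : K) (m : ℕ) : K := ∏ i ∈ range m, (1 - a * Q ^ i)

/-- `(Q; Q)_m` -/
noncomputable def G (Q : K) (m : ℕ) : K := ∏ i ∈ range m, (1 - Q ^ (i + 1))

/-- the terms of the summable series -/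
noncomputable def V (n : ℕ) (a Q : K) (k : ℕ) : K :=
  ∏ j ∈ range k, ((1 - a * Q ^ j) * (Q ^ n - Q ^ j)) / ((1 - Q ^ (j + 1)) * (1 - a * Q ^ (j + n + 1)))

/-- the partial sums of the summable series -/
noncomputable def U (n : ℕ) (a Q : K) (k : ℕ) : K := -(V n a Q k * ((1 - Q ^ k) * (1 - a * Q ^ (k + n)))) / (1 - Q ^ n)

/-- nothing vanishes -/
structure Ne (a Q : K) : Prop where
  hQ : Q ≠ 0
  hF : ∀ i : ℕ, 1 - a * Q ^ i ≠ 0
  hG : ∀ i : ℕ, 1 - Q ^ (i + 1) ≠ 0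

variable {a Q : K}

theorem V_succ (n : ℕ) (k : ℕ) :
    V n a Q (k + 1) = V n a Q k * (((1 - a * Q ^ k) * (Q ^ n - Q ^ k)) /
      ((1 - Q ^ (k + 1)) * (1 - a * Q ^ (k + n + 1)))) := by
  unfold V
  rw [prod_range_succ]

theorem F_succ (m : ℕ) : F a Q (m + 1) = F a Q m * (1 - a * Q ^ m) := by
  unfold F
  rw [prod_range_succ]

theorem G_succ (m : ℕ) : G Q (m + 1) = G Q m * (1 - Q ^ (m + 1)) := by
  unfold G
  rw [prod_range_succ]

theorem F_ne (h : Ne a Q) (m : ℕ) : F a Q m ≠ 0 := prod_ne_zero_iff.2 fun i _ => h.hF i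

theorem G_ne (h : Ne a Q) (m : ℕ) : G Q m ≠ 0 := prod_ne_zero_iff.2 fun i _ => h.hG i

theorem F_add (s m : ℕ) : F a Q s * ∏ j ∈ range m, (1 - a * Q ^ (j + s)) = F a Q (s + m) := by
  unfold F
  rw [prod_range_add]
  congr 1
  exact prod_congr rfl fun j _ => by rw [add_comm s j]

theorem U_diff (h : Ne a Q) {n : ℕ} (hn : 0 < n) (k : ℕ) :
    U n a Q (k + 1) - U n a Q k = (1 - a * Q ^ (2 * k)) * V n a Q k := by
  have h1 := h.hG k
  have h2 := h.hF (k + n + 1)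
  have h3 : 1 - Q ^ n ≠ 0 := by
    have := h.hG (n - 1)
    rwa [Nat.sub_add_cancel hn] at this
  have e1 : 1 - a * Q ^ (k + 1 + n) = 1 - a * Q ^ (k + n + 1) := by rw [show k + 1 + n = k + n + 1 by ring]
  unfold U
  rw [V_succ, e1]
  have e2 : Q ^ (k + n) = Q ^ k * Q ^ n := pow_add _ _ _
  have e3 : Q ^ (2 * k) = Q ^ k * Q ^ k := by rw [two_mul, pow_add]
  have e4 : V n a Q k * (((1 - a * Q ^ k) * (Q ^ n - Q ^ k)) /
      ((1 - Q ^ (k + 1)) * (1 - a * Q ^ (k + n + 1)))) * ((1 - Q ^ (k + 1)) * (1 - a * Q ^ (k + n + 1))) =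
      V n a Q k * ((1 - a * Q ^ k) * (Q ^ n - Q ^ k)) := by
    field_simp
  rw [e4, e2, e3, ← sub_div, div_eq_iff h3]
  ring

theorem U_zero (n : ℕ) : U n a Q 0 = 0 := by
  unfold U
  simp

theorem U_last (n : ℕ) : U n a Q (n + 1) = 0 := by
  unfold U
  rw [V_succ]
  simp

/-- summation by parts -/
theorem abel (h : Ne a Q) {n : ℕ} (hn : 0 < n) (E e : ℕ → K) (hE : ∀ k, E (k + 1) = E k * e k) :
    ∑ k ∈ range (n + 1), (1 - a * Q ^ (2 * k)) * (V n a Q k * E k) =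
      -∑ k ∈ range n, U n a Q (k + 1) * (E k * (e k - 1)) := by
  have h' : ∀ m : ℕ, ∑ k ∈ range (m + 1), (1 - a * Q ^ (2 * k)) * (V n a Q k * E k) =
      U n a Q (m + 1) * E m - ∑ k ∈ range m, U n a Q (k + 1) * (E k * (e k - 1)) := by
    intro m
    induction m with
    | zero =>
      rw [sum_range_one, sum_range_zero, sub_zero, ← mul_assoc, ← U_diff h hn 0, U_zero]
      ring
    | succ m ih =>
      rw [sum_range_succ, ih, sum_range_succ _ m, ← mul_assoc, ← U_diff h hn (m + 1), hE m]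
      ring
  rw [h' n, U_last]
  ring

theorem prod_desc (n m : ℕ) (h : m ≤ n) :
    (∏ j ∈ range m, (Q ^ n - Q ^ j)) * G Q (n - m) = (-1) ^ m * (∏ j ∈ range m, Q ^ j) * G Q n := by
  induction m with
  | zero => simp
  | succ m ih =>
    have e : n - m = (n - (m + 1)) + 1 := by omega
    have ih' := ih (by omega)
    rw [e, G_succ] at ih'
    have e2 : Q ^ n = Q ^ m * Q ^ (n - (m + 1) + 1) := by
      rw [← pow_add]
      congr 1
      omega
    rw [prod_range_succ, prod_range_succ, pow_succ]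
    have e3 : Q ^ n - Q ^ m = -(Q ^ m * (1 - Q ^ (n - (m + 1) + 1))) := by
      rw [e2]
      ring
    calc (∏ j ∈ range m, (Q ^ n - Q ^ j)) * (Q ^ n - Q ^ m) * G Q (n - (m + 1))
        = -(Q ^ m) * ((∏ j ∈ range m, (Q ^ n - Q ^ j)) * (G Q (n - (m + 1)) * (1 - Q ^ (n - (m + 1) + 1)))) := by
          rw [e3]; ring
      _ = _ := by rw [ih']; ring

theorem V_closed (h : Ne a Q) (n k : ℕ) (hk : k ≤ n) :
    V n a Q k * (G Q k * F a Q (n + 1 + k) * G Q (n - k)) =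
      F a Q k * F a Q (n + 1) * ((-1) ^ k * (∏ j ∈ range k, Q ^ j) * G Q n) := by
  rw [← prod_desc n k hk, ← F_add (n + 1) k]
  have h1 : V n a Q k = (F a Q k * ∏ j ∈ range k, (Q ^ n - Q ^ j)) /
      (G Q k * ∏ j ∈ range k, (1 - a * Q ^ (j + (n + 1)))) := by
    unfold V F G
    rw [← prod_mul_distrib, ← prod_mul_distrib, ← prod_div_distrib]
    exact prod_congr rfl fun j _ => rfl
  have h2 : ∏ j ∈ range k, (1 - a * Q ^ (j + (n + 1))) ≠ 0 := prod_ne_zero_iff.2 fun j _ => h.hF _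
  rw [h1, div_mul_eq_mul_div, div_eq_iff (mul_ne_zero (G_ne h k) h2)]
  ring

theorem Q_prod (k : ℕ) : (∏ j ∈ range (k + 1), Q ^ j) * (∏ j ∈ range k, Q ^ j) = (Q ^ k) ^ k := by
  induction k with
  | zero => simp
  | succ k ih =>
    rw [prod_range_succ _ (k + 1), prod_range_succ _ k]
    have : (∏ j ∈ range k, Q ^ j) * Q ^ k * Q ^ (k + 1) * ((∏ j ∈ range k, Q ^ j) * Q ^ k) =
      ((∏ j ∈ range (k + 1), Q ^ j) * (∏ j ∈ range k, Q ^ j)) * (Q ^ (k + 1) * Q ^ k) := by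
      rw [prod_range_succ _ k]
      ring
    rw [this, ih, ← pow_mul, ← pow_mul, ← pow_add, ← pow_add]
    congr 1
    ring

theorem erase_prod {n k : ℕ} (hk : k < n) (f : ℕ → K) :
    ∏ j ∈ (range n).erase k, f j = (∏ j ∈ range k, f j) * ∏ j ∈ range (n - (k + 1)), f (k + 1 + j) := by
  have e3 : (range n).erase k = (range k) ∪ ((range (n - (k + 1))).image fun j => k + 1 + j) := by
    ext a
    simp only [mem_erase, mem_range, mem_union, mem_image]
    constructor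
    · rintro ⟨h, h'⟩
      rcases Nat.lt_or_ge a k with h4 | h4
      · exact Or.inl h4
      · exact Or.inr ⟨a - (k + 1), by omega, by omega⟩
    · rintro (h | ⟨b, hb, rfl⟩)
      · exact ⟨by omega, by omega⟩
      · exact ⟨by omega, by omega⟩
  rw [e3, prod_union, prod_image]
  · intro a _ b _ hab
    simpa using hab
  · rw [disjoint_left]
    intro a ha hb
    simp only [mem_range, mem_image] at ha hb
    obtain ⟨b, _, rfl⟩ := hb
    omega

theorem key (h : Ne a Q) {n k : ℕ} (hk : k < n) :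
    U n a Q (k + 1) * (1 - a * Q ^ (2 * k + 1)) *
      ∏ j ∈ (range n).erase k, ((Q ^ k - Q ^ j) * (1 - a * Q ^ (j + k + 1))) =
        G Q (n - 1) * F a Q (n + 1) * (Q ^ k) ^ (n - 1) := by
  rw [erase_prod hk]
  have hn : 1 - Q ^ n ≠ 0 := by
    have := h.hG (n - 1)
    rwa [Nat.sub_add_cancel (by omega)] at this
  -- first product
  have a1 : ∏ j ∈ range k, ((Q ^ k - Q ^ j) * (1 - a * Q ^ (j + k + 1))) =
      ((-1) ^ k * (∏ j ∈ range k, Q ^ j) * G Q k) * ∏ j ∈ range k, (1 - a * Q ^ (j + (k + 1))) := by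
    have := prod_desc (Q := Q) k k le_rfl
    rw [Nat.sub_self] at this
    have g0 : G Q 0 = 1 := by simp [G]
    rw [g0, mul_one] at this
    rw [← this, ← prod_mul_distrib]
    exact prod_congr rfl fun j _ => rfl
  have a2 : ∏ j ∈ range (n - (k + 1)), ((Q ^ k - Q ^ (k + 1 + j)) * (1 - a * Q ^ (k + 1 + j + k + 1))) =
      (Q ^ k) ^ (n - (k + 1)) * G Q (n - (k + 1)) *
      ∏ j ∈ range (n - (k + 1)), (1 - a * Q ^ (j + (2 * k + 2))) := by
    have e : (Q ^ k) ^ (n - (k + 1)) = ∏ _j ∈ range (n - (k + 1)), Q ^ k := by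
      rw [prod_const, card_range]
    rw [e]
    unfold G
    rw [← prod_mul_distrib, ← prod_mul_distrib]
    refine prod_congr rfl fun j _ => ?_
    have e1 : Q ^ (k + 1 + j) = Q ^ k * Q ^ (j + 1) := by rw [← pow_add]; congr 1; ring
    have e2 : k + 1 + j + k + 1 = j + (2 * k + 2) := by ring
    rw [e1, e2]
    ring
  have b1 := F_add (a := a) (Q := Q) (k + 1) k
  have b2 := F_add (a := a) (Q := Q) (2 * k + 2) (n - (k + 1))
  have e1 : k + 1 + k = 2 * k + 1 := by ring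
  have e2 : 2 * k + 2 + (n - (k + 1)) = n + k + 1 := by omega
  rw [e1] at b1
  rw [e2] at b2
  have c1 : F a Q (2 * k + 2) = F a Q (2 * k + 1) * (1 - a * Q ^ (2 * k + 1)) := F_succ _
  have c2 : F a Q (n + 1 + (k + 1)) = F a Q (n + k + 1) * (1 - a * Q ^ (k + 1 + n)) := by
    rw [show n + 1 + (k + 1) = (n + k + 1) + 1 by ring, F_succ, show n + k + 1 = k + 1 + n by ring]
  have v := V_closed h n (k + 1) (show k + 1 ≤ n by omega)
  rw [c2] at v
  rw [a1, a2]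
  rw [← b1] at c1
  rw [← b2, c1, G_succ] at v
  have gn : G Q n = G Q (n - 1) * (1 - Q ^ n) := by
    have := G_succ (Q := Q) (n - 1)
    rwa [Nat.sub_add_cancel (by omega : 1 ≤ n)] at this
  have f4 : (-1 : K) ^ (k + 1) = -(-1) ^ k := by rw [pow_succ]; ring
  have sgn : ((-1 : K) ^ k) * (-1) ^ k = 1 := by
    rw [← mul_pow]
    norm_num
  have qp : (Q ^ k) ^ k * (Q ^ k) ^ (n - (k + 1)) = (Q ^ k) ^ (n - 1) := by
    rw [← pow_add]
    congr 1
    omega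
  rw [← qp, ← Q_prod k]
  rw [f4, gn] at v
  have hU : U n a Q (k + 1) * (1 - Q ^ n) = -(V n a Q (k + 1) * ((1 - Q ^ (k + 1)) * (1 - a * Q ^ (k + 1 + n)))) := by
    unfold U
    exact div_mul_cancel₀ _ hn
  apply mul_left_cancel₀ (F_ne h (k + 1))
  apply mul_right_cancel₀ hn
  calc F a Q (k + 1) * (U n a Q (k + 1) * (1 - a * Q ^ (2 * k + 1)) *
      ((-1) ^ k * (∏ j ∈ range k, Q ^ j) * G Q k * (∏ j ∈ range k, (1 - a * Q ^ (j + (k + 1)))) *
        ((Q ^ k) ^ (n - (k + 1)) * G Q (n - (k + 1)) *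
          ∏ j ∈ range (n - (k + 1)), (1 - a * Q ^ (j + (2 * k + 2)))))) * (1 - Q ^ n)
      = (U n a Q (k + 1) * (1 - Q ^ n)) * ((-1) ^ k * (∏ j ∈ range k, Q ^ j) * (Q ^ k) ^ (n - (k + 1))) *
          (G Q k * (F a Q (k + 1) * (∏ j ∈ range k, (1 - a * Q ^ (j + (k + 1)))) * (1 - a * Q ^ (2 * k + 1)) *
            (∏ j ∈ range (n - (k + 1)), (1 - a * Q ^ (j + (2 * k + 2))))) * G Q (n - (k + 1))) := by ring
    _ = -((-1) ^ k * (∏ j ∈ range k, Q ^ j) * (Q ^ k) ^ (n - (k + 1))) * (V n a Q (k + 1) *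
          (G Q k * (1 - Q ^ (k + 1)) * (F a Q (k + 1) * (∏ j ∈ range k, (1 - a * Q ^ (j + (k + 1)))) *
            (1 - a * Q ^ (2 * k + 1)) * (∏ j ∈ range (n - (k + 1)), (1 - a * Q ^ (j + (2 * k + 2)))) *
              (1 - a * Q ^ (k + 1 + n))) * G Q (n - (k + 1)))) := by rw [hU]; ring
    _ = -((-1) ^ k * (∏ j ∈ range k, Q ^ j) * (Q ^ k) ^ (n - (k + 1))) *
          (F a Q (k + 1) * F a Q (n + 1) * (-(-1) ^ k * (∏ j ∈ range (k + 1), Q ^ j) *
            (G Q (n - 1) * (1 - Q ^ n)))) := by rw [v]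
    _ = ((-1) ^ k * (-1) ^ k) * (F a Q (k + 1) * (G Q (n - 1) * F a Q (n + 1) *
          ((∏ j ∈ range (k + 1), Q ^ j) * (∏ j ∈ range k, Q ^ j) * (Q ^ k) ^ (n - (k + 1)))) * (1 - Q ^ n)) := by
        ring
    _ = F a Q (k + 1) * (G Q (n - 1) * F a Q (n + 1) *
          ((∏ j ∈ range (k + 1), Q ^ j) * (∏ j ∈ range k, Q ^ j) * (Q ^ k) ^ (n - (k + 1)))) * (1 - Q ^ n) := by
        rw [sgn, one_mul]

/-- the nodes -/
noncomputable def nd (a Q : K) (j : ℕ) : K := a * Q ^ (j + 1) + (Q ^ j)⁻¹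

theorem nd_sub (h : Ne a Q) (j k : ℕ) : (nd a Q j - nd a Q k) * (Q ^ j * Q ^ k) =
    (Q ^ k - Q ^ j) * (1 - a * Q ^ (j + k + 1)) := by
  have h1 : Q ^ j ≠ 0 := pow_ne_zero _ h.hQ
  have h2 : Q ^ k ≠ 0 := pow_ne_zero _ h.hQ
  unfold nd
  have e1 : Q ^ (j + k + 1) = Q ^ j * Q ^ k * Q := by rw [← pow_add, ← pow_succ]
  rw [pow_succ, pow_succ, e1]
  field_simp
  ring

theorem nd_x (h : Ne a Q) (j : ℕ) {u w : K} (huw : u * w * a = Q) : (nd a Q j - a * (u + w)) * Q ^ j =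
    (1 - a * Q ^ j * u) * (1 - a * Q ^ j * w) := by
  have h1 : Q ^ j ≠ 0 := pow_ne_zero _ h.hQ
  unfold nd
  have e : (1 - a * Q ^ j * u) * (1 - a * Q ^ j * w) = 1 - a * Q ^ j * (u + w) + a * Q ^ j * Q ^ j * (u * w * a) := by
    ring
  rw [e, huw, pow_succ]
  field_simp
  ring

theorem nd_inj (h : Ne a Q) {j k : ℕ} (hjk : j ≠ k) : nd a Q j ≠ nd a Q k := by
  intro he
  have h1 := nd_sub h j k
  rw [he, sub_self, zero_mul] at h1
  rcases mul_eq_zero.1 h1.symm with h2 | h2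
  · -- `Q ^ k = Q ^ j`
    have main : ∀ x y : ℕ, x < y → Q ^ x ≠ Q ^ y := by
      intro x y hxy hq
      obtain ⟨d, rfl⟩ := Nat.exists_eq_add_of_lt hxy
      have h3 : Q ^ x * (1 - Q ^ (d + 1)) = 0 := by
        have : Q ^ (x + d + 1) = Q ^ x * Q ^ (d + 1) := by rw [← pow_add]; congr 1
        rw [this] at hq
        linear_combination hq
      rcases mul_eq_zero.1 h3 with h4 | h4
      · exact pow_ne_zero _ h.hQ h4
      · exact h.hG d h4
    rcases Nat.lt_or_gt_of_ne hjk with h3 | h3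
    · exact main j k h3 (sub_eq_zero.1 h2).symm
    · exact main k j h3 (sub_eq_zero.1 h2)
  · exact h.hF _ h2

/-- **partial fractions**: for `u w a = Q` the sum over the nodes -/
theorem pf (h : Ne a Q) {n : ℕ} (hn : 0 < n) {u w : K} (huw : u * w * a = Q)
    (h1 : ∀ j < n, (1 - a * Q ^ j * u) * (1 - a * Q ^ j * w) ≠ 0) :
    ∑ k ∈ range n, U n a Q (k + 1) * ((1 - a * Q ^ (2 * k + 1)) /
      ((1 - a * Q ^ k * u) * (1 - a * Q ^ k * w))) =
      G Q (n - 1) * F a Q (n + 1) / ∏ j ∈ range n, ((1 - a * Q ^ j * u) * (1 - a * Q ^ j * w)) := by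
  have hT : ∏ j ∈ range n, ((1 - a * Q ^ j * u) * (1 - a * Q ^ j * w)) ≠ 0 :=
    prod_ne_zero_iff.2 fun j hj => h1 j (mem_range.1 hj)
  rw [eq_div_iff hT, sum_mul]
  have hs := PF.sum_lb (range n) (nonempty_range_iff.2 hn.ne') (nd a Q)
    (fun i _ j _ hij => nd_inj h hij) (a * (u + w))
  have : G Q (n - 1) * F a Q (n + 1) = ∑ k ∈ range n, G Q (n - 1) * F a Q (n + 1) *
      PF.lb (range n) (nd a Q) (a * (u + w)) k := by
    rw [← mul_sum, hs, mul_one]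
  rw [this]
  refine sum_congr rfl fun k hk => ?_
  have hk' := mem_range.1 hk
  have hE : ∏ j ∈ (range n).erase k, ((Q ^ k - Q ^ j) * (1 - a * Q ^ (j + k + 1))) ≠ 0 := by
    refine prod_ne_zero_iff.2 fun j hj => ?_
    rw [← nd_sub h]
    exact mul_ne_zero (sub_ne_zero.2 (nd_inj h (mem_erase.1 hj).1))
      (mul_ne_zero (pow_ne_zero _ h.hQ) (pow_ne_zero _ h.hQ))
  have e1 : ∏ j ∈ range n, ((1 - a * Q ^ j * u) * (1 - a * Q ^ j * w)) =
      ((1 - a * Q ^ k * u) * (1 - a * Q ^ k * w)) *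
        ∏ j ∈ (range n).erase k, ((1 - a * Q ^ j * u) * (1 - a * Q ^ j * w)) := (mul_prod_erase _ _ hk).symm
  have e2 : PF.lb (range n) (nd a Q) (a * (u + w)) k * ∏ j ∈ (range n).erase k,
      ((Q ^ k - Q ^ j) * (1 - a * Q ^ (j + k + 1))) =
      (Q ^ k) ^ (n - 1) * ∏ j ∈ (range n).erase k, ((1 - a * Q ^ j * u) * (1 - a * Q ^ j * w)) := by
    have e3 : (Q ^ k) ^ (n - 1) = ∏ _j ∈ (range n).erase k, Q ^ k := by
      rw [prod_const, card_erase_of_mem hk, card_range]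
    rw [e3]
    unfold PF.lb
    rw [← prod_mul_distrib, ← prod_mul_distrib]
    refine prod_congr rfl fun j hj => ?_
    have h4 : nd a Q j - nd a Q k ≠ 0 := sub_ne_zero.2 (nd_inj h (mem_erase.1 hj).1)
    rw [← nd_sub h, ← nd_x h j huw]
    field_simp
  have h5 := h1 k hk'
  apply mul_right_cancel₀ hE
  rw [e1]
  have e4 : U n a Q (k + 1) * ((1 - a * Q ^ (2 * k + 1)) / ((1 - a * Q ^ k * u) * (1 - a * Q ^ k * w))) *
      (((1 - a * Q ^ k * u) * (1 - a * Q ^ k * w)) *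
        ∏ j ∈ (range n).erase k, ((1 - a * Q ^ j * u) * (1 - a * Q ^ j * w))) *
      ∏ j ∈ (range n).erase k, ((Q ^ k - Q ^ j) * (1 - a * Q ^ (j + k + 1))) =
      (U n a Q (k + 1) * (1 - a * Q ^ (2 * k + 1)) *
        ∏ j ∈ (range n).erase k, ((Q ^ k - Q ^ j) * (1 - a * Q ^ (j + k + 1)))) *
        ∏ j ∈ (range n).erase k, ((1 - a * Q ^ j * u) * (1 - a * Q ^ j * w)) := by
    generalize ((1 - a * Q ^ k * u) * (1 - a * Q ^ k * w)) = D at h5 ⊢
    generalize ∏ j ∈ (range n).erase k, ((1 - a * Q ^ j * u) * (1 - a * Q ^ j * w)) = P1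
    field_simp
  rw [e4, key h hk']
  calc _ = G Q (n - 1) * F a Q (n + 1) * ((Q ^ k) ^ (n - 1) *
        ∏ j ∈ (range n).erase k, ((1 - a * Q ^ j * u) * (1 - a * Q ^ j * w))) := by ring
    _ = _ := by rw [← e2]; ring

end Pool.Agent.Q34.QW
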