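import Pool.Agent.Q34.QWa

/-!
Congruences modulo powers of an element of a local subring of a field.
-/

set_option autoImplicit false

namespace Pool.Agent.Q34.QW

open Finset

variable {K : Type*} [Field K]

/-- `x ∈ h^m R` -/
def I (R : Subring K) (h : K) (m : ℕ) (x : K) : Prop := ∃ y ∈ R, x = h ^ m * y

/-- units of `R` -/
def Un (R : Subring K) (x : K) : Prop := x ≠ 0 ∧ x ∈ R ∧ x⁻¹ ∈ R

/-- `h` is in the Jacobson radical of `R`, and `R` contains the rationals -/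
structure Loc (R : Subring K) (h : K) : Prop where
  mem : h ∈ R
  J : ∀ x ∈ R, 1 + h * x ≠ 0 ∧ (1 + h * x)⁻¹ ∈ R
  rat : ∀ n : ℕ, n ≠ 0 → (n : K) ≠ 0 ∧ (n : K)⁻¹ ∈ R

variable {R : Subring K} {h : K}

theorem I.zero (m : ℕ) : I R h m 0 := ⟨0, R.zero_mem, by simp⟩

theorem I.add {m : ℕ} {x y : K} (hx : I R h m x) (hy : I R h m y) : I R h m (x + y) := by
  obtain ⟨a, ha, rfl⟩ := hx
  obtain ⟨b, hb, rfl⟩ := hy
  exact ⟨a + b, R.add_mem ha hb, by ring⟩

theorem I.neg {m : ℕ} {x : K} (hx : I R h m x) : I R h m (-x) := by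
  obtain ⟨a, ha, rfl⟩ := hx
  exact ⟨-a, R.neg_mem ha, by ring⟩

theorem I.sub {m : ℕ} {x y : K} (hx : I R h m x) (hy : I R h m y) : I R h m (x - y) := by
  rw [sub_eq_add_neg]
  exact hx.add hy.neg

theorem I.mul {j m : ℕ} {x y : K} (hx : I R h j x) (hy : I R h m y) : I R h (j + m) (x * y) := by
  obtain ⟨a, ha, rfl⟩ := hx
  obtain ⟨b, hb, rfl⟩ := hy
  exact ⟨a * b, R.mul_mem ha hb, by ring⟩

theorem I.of_mem {x : K} (hx : x ∈ R) : I R h 0 x := ⟨x, hx, by simp⟩

theorem I.mono (L : Loc R h) {j m : ℕ} (hjm : j ≤ m) {x : K} (hx : I R h m x) : I R h j x := by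
  obtain ⟨a, ha, rfl⟩ := hx
  obtain ⟨d, rfl⟩ := Nat.exists_eq_add_of_le hjm
  exact ⟨h ^ d * a, R.mul_mem (R.pow_mem L.mem d) ha, by ring⟩

theorem I.mem (L : Loc R h) {m : ℕ} {x : K} (hx : I R h m x) : x ∈ R := by
  obtain ⟨a, ha, rfl⟩ := hx
  exact R.mul_mem (R.pow_mem L.mem m) ha

theorem I.mul_mem {m : ℕ} {x y : K} (hx : I R h m x) (hy : y ∈ R) : I R h m (x * y) := by
  simpa using hx.mul (I.of_mem (h := h) hy)

theorem I.mem_mul {m : ℕ} {x y : K} (hy : y ∈ R) (hx : I R h m x) : I R h m (y * x) := by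
  rw [mul_comm]
  exact hx.mul_mem hy

theorem I.sum {ι : Type*} {m : ℕ} (s : Finset ι) (f : ι → K) (hf : ∀ i ∈ s, I R h m (f i)) :
    I R h m (∑ i ∈ s, f i) := by
  classical
  induction s using Finset.induction_on with
  | empty => simpa using I.zero m
  | insert a s ha ih =>
    rw [sum_insert ha]
    exact (hf a (mem_insert_self a s)).add (ih (fun i hi => hf i (mem_insert_of_mem hi)))

theorem Un.mul {x y : K} (hx : Un R x) (hy : Un R y) : Un R (x * y) :=
  ⟨mul_ne_zero hx.1 hy.1, R.mul_mem hx.2.1 hy.2.1, by rw [mul_inv]; exact R.mul_mem hx.2.2 hy.2.2⟩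

theorem Un.inv {x : K} (hx : Un R x) : Un R x⁻¹ := ⟨inv_ne_zero hx.1, hx.2.2, by rw [inv_inv]; exact hx.2.1⟩

theorem Un.one : Un R (1 : K) := ⟨one_ne_zero, R.one_mem, by simpa using R.one_mem⟩

theorem Un.pow {x : K} (hx : Un R x) (n : ℕ) : Un R (x ^ n) := by
  induction n with
  | zero => simpa using Un.one
  | succ n ih => rw [pow_succ]; exact ih.mul hx

theorem Un.div {x y : K} (hx : Un R x) (hy : Un R y) : Un R (x / y) := by
  rw [div_eq_mul_inv]
  exact hx.mul hy.inv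

theorem div_mem {x y : K} (hx : x ∈ R) (hy : Un R y) : x / y ∈ R := by
  rw [div_eq_mul_inv]
  exact R.mul_mem hx hy.2.2

theorem I.div {m : ℕ} {x y : K} (hx : I R h m x) (hy : Un R y) : I R h m (x / y) := by
  rw [div_eq_mul_inv]
  exact hx.mul_mem hy.2.2

theorem Un.add_I (L : Loc R h) {x y : K} (hx : Un R x) (hy : I R h 1 y) : Un R (x + y) := by
  obtain ⟨b, hb, rfl⟩ := hy
  have e : x + h ^ 1 * b = x * (1 + h * (x⁻¹ * b)) := by
    have := hx.1
    field_simp
  have hJ := L.J (x⁻¹ * b) (R.mul_mem hx.2.2 hb)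
  rw [e]
  exact hx.mul ⟨hJ.1, R.add_mem R.one_mem (R.mul_mem L.mem (R.mul_mem hx.2.2 hb)), hJ.2⟩

/-- products of elements near one -/
theorem prod_one (L : Loc R h) {m : ℕ} (n : ℕ) (f : ℕ → K) (hf : ∀ i < n, I R h m (f i - 1)) :
    I R h m (∏ i ∈ range n, f i - 1) := by
  induction n with
  | zero => simpa using I.zero m
  | succ n ih =>
    have ih' := ih fun i hi => hf i (by omega)
    have hn := hf n (by omega)
    rw [prod_range_succ]
    have e : (∏ i ∈ range n, f i) * f n - 1 = (∏ i ∈ range n, f i - 1) * f n + (f n - 1) := by ring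
    rw [e]
    have hfn : f n ∈ R := by
      have := R.add_mem (hn.mem L) R.one_mem
      rwa [sub_add_cancel] at this
    exact (ih'.mul_mem hfn).add hn

/-- products of elements near one, first order -/
theorem prod_sum (L : Loc R h) {m : ℕ} (n : ℕ) (f : ℕ → K) (hf : ∀ i < n, I R h m (f i - 1)) :
    I R h (m + m) (∏ i ∈ range n, f i - 1 - ∑ i ∈ range n, (f i - 1)) := by
  induction n with
  | zero => simpa using I.zero (m + m)
  | succ n ih =>
    have ih' := ih fun i hi => hf i (by omega)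
    have hn := hf n (by omega)
    rw [prod_range_succ, sum_range_succ]
    have e : (∏ i ∈ range n, f i) * f n - 1 - (∑ i ∈ range n, (f i - 1) + (f n - 1)) =
        (∏ i ∈ range n, f i - 1 - ∑ i ∈ range n, (f i - 1)) + (∏ i ∈ range n, f i - 1) * (f n - 1) := by ring
    rw [e]
    exact ih'.add ((prod_one L n f fun i hi => hf i (by omega)).mul hn)

/-- the data: `Q = a g`, `Q^(n+1) = g^(m+1)`, `g = 1 - h` -/
structure QC (R : Subring K) (h a Q : K) (n m : ℕ) : Prop where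
  L : Loc R h
  hn : 0 < n
  ha : Un R a
  hQ : Q = a * (1 - h)
  hQn : Q ^ (n + 1) = (1 - h) ^ (m + 1)
  hU : ∀ j < n, Un R (1 - Q ^ (j + 1))
  ne : Ne a Q

variable {a Q : K} {n m : ℕ}

namespace QC

theorem hg (C : QC R h a Q n m) : Un R (1 - h) := by
  have := C.L.J (-1) (R.neg_mem R.one_mem)
  rw [mul_neg, mul_one, ← sub_eq_add_neg] at this
  exact ⟨this.1, R.sub_mem R.one_mem C.L.mem, this.2⟩

theorem g_one (C : QC R h a Q n m) : I R h 1 ((1 - h) - 1) := ⟨-1, R.neg_mem R.one_mem, by ring⟩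

theorem gi_one (C : QC R h a Q n m) : I R h 1 ((1 - h)⁻¹ - 1) := by
  have hg := C.hg
  refine ⟨(1 - h)⁻¹, hg.2.2, ?_⟩
  have := hg.1
  field_simp
  ring

theorem I_pow (C : QC R h a Q n m) {x : K} (hx : I R h 1 (x - 1)) (i : ℕ) : I R h 1 (x ^ i - 1) := by
  have h2 := prod_one C.L i (fun _ => x) fun _ _ => hx
  rwa [prod_const, card_range] at h2

theorem I_mul (C : QC R h a Q n m) {x y : K} (hx : I R h 1 (x - 1)) (hy : I R h 1 (y - 1)) :
    I R h 1 (x * y - 1) := by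
  have hyR : y ∈ R := by
    have := R.add_mem (hy.mem C.L) R.one_mem
    rwa [sub_add_cancel] at this
  have e : x * y - 1 = (x - 1) * y + (y - 1) := by ring
  rw [e]
  exact (hx.mul_mem hyR).add hy

theorem unQ (C : QC R h a Q n m) : Un R Q := by
  rw [C.hQ]
  exact C.ha.mul C.hg

theorem A_mem (C : QC R h a Q n m) (k : ℕ) : a * Q ^ k ∈ R := R.mul_mem C.ha.2.1 (R.pow_mem C.unQ.2.1 k)

theorem Ag (C : QC R h a Q n m) (k : ℕ) : a * Q ^ k * (1 - h) = Q ^ (k + 1) := by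
  rw [pow_succ, mul_right_comm, ← C.hQ, mul_comm]

/-- `1 - A w` is a unit for `w` near one -/
theorem unA (C : QC R h a Q n m) {k : ℕ} (hk : k < n) {w : K} (hw : I R h 1 (w - 1)) :
    Un R (1 - a * Q ^ k * w) := by
  have e : 1 - a * Q ^ k * w = (1 - Q ^ (k + 1)) + (a * Q ^ k) * (((1 - h) - 1) - (w - 1)) := by
    rw [← C.Ag k]
    ring
  rw [e]
  exact (C.hU k hk).add_I C.L (I.mem_mul (C.A_mem k) (C.g_one.sub hw))

theorem unA0 (C : QC R h a Q n m) {k : ℕ} (hk : k < n) : Un R (1 - a * Q ^ k) := by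
  have := C.unA hk (w := 1) (by rw [sub_self]; exact I.zero 1)
  rwa [mul_one] at this

theorem unA1 (C : QC R h a Q n m) {k : ℕ} (hk : k < n) : Un R (1 - a * Q ^ k * (1 - h)) := C.unA hk C.g_one

end QC

end Pool.Agent.Q34.QW
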