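import Pool.Agent.Q34.QWb

/-!
The truncated very-well-poised basic series with `2 (m + 1)` equal parameters modulo `h ^ 5`.
-/

set_option autoImplicit false

namespace Pool.Agent.Q34.QW

open Finset

variable {K : Type*} [Field K]

/-- `g^i + g^(-i) - 2` -/
noncomputable def sg (h : K) (i : ℕ) : K := (1 - h) ^ i + (1 - h)⁻¹ ^ i - 2

/-- one factor of the perturbation -/
noncomputable def sf (h A : K) (i : ℕ) : K :=
  ((1 - A * (1 - h) ^ (i + 1)) * (1 - A * ((1 - h) * (1 - h)⁻¹ ^ i)) * (1 - A) ^ 2) /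
    ((1 - A * (1 - h) ^ i) * (1 - A * (1 - h)⁻¹ ^ i) * (1 - A * (1 - h)) ^ 2)

/-- the first-order function -/
noncomputable def om (h A : K) : K := A * (1 - A * A * (1 - h)) / ((1 - A) ^ 2 * (1 - A * (1 - h)) ^ 2)

/-- the perturbation -/
noncomputable def ep (h : K) (m : ℕ) (A : K) : K :=
  ((1 - A) / (1 - A * (1 - h))) ^ (2 * m + 1) * (1 - A * (1 - h) ^ (m + 1)) /
    (1 - A * ((1 - h) * (1 - h)⁻¹ ^ (m + 1)))

/-- the difference of two summable functions -/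
noncomputable def fd (h A : K) : K :=
  (1 - A * A * (1 - h)) / ((1 - A * (1 - h) ^ 2) * (1 - A * (1 - h)⁻¹)) -
    (1 - A * A * (1 - h)) / ((1 - A * (1 - h)) * (1 - A))

variable {R : Subring K} {h : K} {a Q : K} {n m : ℕ}

namespace QC

theorem g_mul (C : QC R h a Q n m) (i : ℕ) : (1 - h) ^ i * (1 - h)⁻¹ ^ i = 1 := by
  rw [← mul_pow, mul_inv_cancel₀ C.hg.1, one_pow]

/-- `1 - g^i = h (1 + g + ⋯ + g^(i-1))` -/
theorem one_sub_pow (h : K) (i : ℕ) : 1 - (1 - h) ^ i = h * ∑ j ∈ range i, (1 - h) ^ j := by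
  have := mul_neg_geom_sum (1 - h) i
  rw [← this]
  ring

theorem sg_eq (C : QC R h a Q n m) (i : ℕ) :
    sg h i = h ^ 2 * ((∑ j ∈ range i, (1 - h) ^ j) ^ 2 * (1 - h)⁻¹ ^ i) := by
  have h1 := C.g_mul i
  have h2 := one_sub_pow h i
  have : h ^ 2 * ((∑ j ∈ range i, (1 - h) ^ j) ^ 2 * (1 - h)⁻¹ ^ i) =
      (h * ∑ j ∈ range i, (1 - h) ^ j) ^ 2 * (1 - h)⁻¹ ^ i := by ring
  rw [this, ← h2]
  unfold sg
  linear_combination (-(1 - h) ^ i + 2) * h1

theorem sg_I (C : QC R h a Q n m) (i : ℕ) : I R h 2 (sg h i) := by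
  refine ⟨_, ?_, C.sg_eq i⟩
  refine R.mul_mem (R.pow_mem (R.sum_mem fun j _ => R.pow_mem C.hg.2.1 j) 2) (R.pow_mem C.hg.2.2 i)

theorem unAi (C : QC R h a Q n m) {k : ℕ} (hk : k < n) (i : ℕ) :
    Un R (1 - a * Q ^ k * (1 - h) ^ i) ∧ Un R (1 - a * Q ^ k * (1 - h)⁻¹ ^ i) ∧
      Un R (1 - a * Q ^ k * ((1 - h) * (1 - h)⁻¹ ^ i)) :=
  ⟨C.unA hk (C.I_pow C.g_one i), C.unA hk (C.I_pow C.gi_one i),
    C.unA hk (C.I_mul C.g_one (C.I_pow C.gi_one i))⟩

theorem om_mem (C : QC R h a Q n m) {k : ℕ} (hk : k < n) : om h (a * Q ^ k) ∈ R := by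
  unfold om
  refine div_mem (R.mul_mem (C.A_mem k) (R.sub_mem R.one_mem (R.mul_mem (R.mul_mem (C.A_mem k) (C.A_mem k)) C.hg.2.1))) ?_
  exact ((C.unA0 hk).pow 2).mul ((C.unA1 hk).pow 2)

theorem sf_sub (C : QC R h a Q n m) {k : ℕ} (hk : k < n) (i : ℕ) :
    I R h 5 (sf h (a * Q ^ k) i - 1 - h * om h (a * Q ^ k) * sg h i) := by
  obtain ⟨u1, u2, u3⟩ := C.unAi hk i
  have u4 := C.unA0 hk
  have u5 := C.unA1 hk
  have hA := C.A_mem k
  have hom := C.om_mem hk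
  set A := a * Q ^ k with hAdef
  have hxy := C.g_mul i
  have main : sf h A i - 1 - h * om h A * sg h i = h * sg h i * sg h i *
      (om h A * A / ((1 - A * (1 - h) ^ i) * (1 - A * (1 - h)⁻¹ ^ i))) := by
    have e1 : sf h A i - 1 = h * sg h i * (A * (1 - A * A * (1 - h))) /
        ((1 - A * (1 - h) ^ i) * (1 - A * (1 - h)⁻¹ ^ i) * (1 - A * (1 - h)) ^ 2) := by
      have hD : (1 - A * (1 - h) ^ i) * (1 - A * (1 - h)⁻¹ ^ i) * (1 - A * (1 - h)) ^ 2 ≠ 0 :=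
        mul_ne_zero (mul_ne_zero u1.1 u2.1) (pow_ne_zero 2 u5.1)
      unfold sf
      rw [div_sub_one hD]
      congr 1
      unfold sg
      rw [pow_succ]
      generalize (1 - h) ^ i = x at hxy ⊢
      generalize (1 - h)⁻¹ ^ i = y at hxy ⊢
      linear_combination (A ^ 2 * (1 - h) ^ 2 * (1 - A) ^ 2 - A ^ 2 * (1 - A * (1 - h)) ^ 2) * hxy
    have e2 : om h A * ((1 - A) ^ 2 * (1 - A * (1 - h)) ^ 2) = A * (1 - A * A * (1 - h)) := by
      unfold om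
      exact div_mul_cancel₀ _ (mul_ne_zero (pow_ne_zero 2 u4.1) (pow_ne_zero 2 u5.1))
    have e3 : (1 - A) ^ 2 - (1 - A * (1 - h) ^ i) * (1 - A * (1 - h)⁻¹ ^ i) = A * sg h i := by
      unfold sg
      generalize (1 - h) ^ i = x at hxy ⊢
      generalize (1 - h)⁻¹ ^ i = y at hxy ⊢
      linear_combination (-A ^ 2) * hxy
    rw [e1, ← e2]
    have v1 := u1.1
    have v2 := u2.1
    have v5 := u5.1
    have e4 : h * sg h i * (om h A * ((1 - A) ^ 2 * (1 - A * (1 - h)) ^ 2)) /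
        ((1 - A * (1 - h) ^ i) * (1 - A * (1 - h)⁻¹ ^ i) * (1 - A * (1 - h)) ^ 2) =
        h * sg h i * om h A * ((1 - A) ^ 2 / ((1 - A * (1 - h) ^ i) * (1 - A * (1 - h)⁻¹ ^ i))) := by
      generalize (1 - A * (1 - h) ^ i) = D1 at v1 ⊢
      generalize (1 - A * (1 - h)⁻¹ ^ i) = D2 at v2 ⊢
      generalize (1 - A * (1 - h)) = D5 at v5 ⊢
      field_simp
    have e5 : (1 - A) ^ 2 / ((1 - A * (1 - h) ^ i) * (1 - A * (1 - h)⁻¹ ^ i)) =
        1 + A * sg h i / ((1 - A * (1 - h) ^ i) * (1 - A * (1 - h)⁻¹ ^ i)) := by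
      have hD : (1 - A * (1 - h) ^ i) * (1 - A * (1 - h)⁻¹ ^ i) ≠ 0 := mul_ne_zero v1 v2
      rw [← e3, sub_div, div_self hD]
      ring
    rw [e4, e5]
    ring
  rw [main]
  have h1 : I R h 1 h := ⟨1, R.one_mem, by ring⟩
  have h2 := C.sg_I i
  have h3 := (h1.mul h2).mul h2
  refine h3.mul_mem (div_mem (R.mul_mem hom hA) (u1.mul u2))

theorem sf_I3 (C : QC R h a Q n m) {k : ℕ} (hk : k < n) (i : ℕ) : I R h 3 (sf h (a * Q ^ k) i - 1) := by
  have h1 := (C.sf_sub hk i).mono C.L (show 3 ≤ 5 by norm_num)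
  have h2 : I R h 1 h := ⟨1, R.one_mem, by ring⟩
  have h3 : I R h (1 + 2) (h * om h (a * Q ^ k) * sg h i) := (h2.mul_mem (C.om_mem hk)).mul (C.sg_I i)
  have := h1.add h3
  rwa [sub_add_cancel] at this

/-- the perturbation is a product -/
theorem ep_prod (C : QC R h a Q n m) {k : ℕ} (hk : k < n) (l : ℕ) :
    ep h l (a * Q ^ k) = ∏ i ∈ range l, sf h (a * Q ^ k) (i + 1) := by
  induction l with
  | zero =>
    unfold ep
    have u4 := (C.unA0 hk).1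
    have u5 := (C.unA1 hk).1
    have hg := C.hg.1
    simp only [mul_zero, zero_add, pow_one, range_zero, prod_empty]
    rw [mul_inv_cancel₀ hg, mul_one, div_mul_cancel₀ _ u5, div_self u4]
  | succ l ih =>
    rw [prod_range_succ, ← ih]
    obtain ⟨u1, u2, u3⟩ := C.unAi hk (l + 1)
    obtain ⟨w1, w2, w3⟩ := C.unAi hk (l + 2)
    have u4 := (C.unA0 hk).1
    have u5 := (C.unA1 hk).1
    have hg := C.hg.1
    set A := a * Q ^ k with hA
    have e1 : A * ((1 - h) * (1 - h)⁻¹ ^ (l + 1 + 1)) = A * (1 - h)⁻¹ ^ (l + 1) := by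
      rw [pow_succ (1 - h)⁻¹ (l + 1)]
      field_simp
    unfold ep sf
    rw [e1]
    have v1 := u1.1
    have v2 := u2.1
    have v3 := u3.1
    have e2 : 2 * (l + 1) + 1 = (2 * l + 1) + 2 := by ring
    rw [e2, pow_add]
    generalize (1 - A * (1 - h) ^ (l + 1)) = D1 at v1 ⊢
    generalize (1 - A * (1 - h)⁻¹ ^ (l + 1)) = D2 at v2 ⊢
    generalize (1 - A * ((1 - h) * (1 - h)⁻¹ ^ (l + 1))) = D3 at v3 ⊢
    generalize (1 - A * (1 - h)) = D5 at u5 ⊢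
    generalize (1 - A * (1 - h) ^ (l + 1 + 1)) = D6
    generalize (1 - A) = D4 at u4 ⊢
    field_simp

/-- `∑ (g^i + g^(-i) - 2) / h^2` -/
noncomputable def sp (h : K) (m : ℕ) : K := ∑ i ∈ range m, ((∑ j ∈ range (i + 1), (1 - h) ^ j) ^ 2 * (1 - h)⁻¹ ^ (i + 1))

theorem sp_mem (C : QC R h a Q n m) (l : ℕ) : sp h l ∈ R :=
  R.sum_mem fun i _ => R.mul_mem (R.pow_mem (R.sum_mem fun j _ => R.pow_mem C.hg.2.1 j) 2) (R.pow_mem C.hg.2.2 _)

theorem sum_sg (C : QC R h a Q n m) (l : ℕ) : ∑ i ∈ range l, sg h (i + 1) = h ^ 2 * sp h l := by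
  unfold sp
  rw [mul_sum]
  exact sum_congr rfl fun i _ => C.sg_eq (i + 1)

theorem br_I (C : QC R h a Q n m) (i : ℕ) : I R h 1 (∑ j ∈ range i, (1 - h) ^ j - (i : K)) := by
  have : (i : K) = ∑ _j ∈ range i, (1 : K) := by simp
  rw [this, ← sum_sub_distrib]
  exact I.sum _ _ fun j _ => C.I_pow C.g_one j

theorem natCast_mem' (n : ℕ) : (n : K) ∈ R := natCast_mem R n

theorem sp_I (C : QC R h a Q n m) (l : ℕ) : I R h 1 (sp h l - ∑ i ∈ range l, ((i + 1 : ℕ) : K) ^ 2) := by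
  unfold sp
  rw [← sum_sub_distrib]
  refine I.sum _ _ fun i _ => ?_
  set b := ∑ j ∈ range (i + 1), (1 - h) ^ j with hb
  have h1 : I R h 1 (b - ((i + 1 : ℕ) : K)) := C.br_I (i + 1)
  have hbR : b ∈ R := R.sum_mem fun j _ => R.pow_mem C.hg.2.1 j
  have hc : ((i + 1 : ℕ) : K) ∈ R := natCast_mem' _
  have h2 := C.I_pow C.gi_one (i + 1)
  have e : b ^ 2 * (1 - h)⁻¹ ^ (i + 1) - ((i + 1 : ℕ) : K) ^ 2 =
      b ^ 2 * ((1 - h)⁻¹ ^ (i + 1) - 1) + (b - ((i + 1 : ℕ) : K)) * (b + ((i + 1 : ℕ) : K)) := by ring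
  rw [e]
  exact (I.mem_mul (R.pow_mem hbR 2) h2).add (h1.mul_mem (R.add_mem hbR hc))

/-- the expansion of the perturbation -/
theorem ep_sub (C : QC R h a Q n m) {k : ℕ} (hk : k < n) (l : ℕ) :
    I R h 5 (ep h l (a * Q ^ k) - 1 - h * om h (a * Q ^ k) * (h ^ 2 * sp h l)) := by
  rw [C.ep_prod hk, ← C.sum_sg l]
  have h1 := (prod_sum C.L l (fun i => sf h (a * Q ^ k) (i + 1)) fun i _ => C.sf_I3 hk (i + 1)).mono C.L
    (show 5 ≤ 3 + 3 by norm_num)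
  have h2 : I R h 5 (∑ i ∈ range l, (sf h (a * Q ^ k) (i + 1) - 1) -
      h * om h (a * Q ^ k) * ∑ i ∈ range l, sg h (i + 1)) := by
    rw [mul_sum, ← sum_sub_distrib]
    exact I.sum _ _ fun i _ => C.sf_sub hk (i + 1)
  have h3 := h1.add h2
  have e : ∏ i ∈ range l, sf h (a * Q ^ k) (i + 1) - 1 - h * om h (a * Q ^ k) * ∑ i ∈ range l, sg h (i + 1) =
      ∏ i ∈ range l, sf h (a * Q ^ k) (i + 1) - 1 - ∑ i ∈ range l, (sf h (a * Q ^ k) (i + 1) - 1) +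
        (∑ i ∈ range l, (sf h (a * Q ^ k) (i + 1) - 1) - h * om h (a * Q ^ k) * ∑ i ∈ range l, sg h (i + 1)) := by
    ring
  rw [e]
  exact h3

theorem ep_I3 (C : QC R h a Q n m) {k : ℕ} (hk : k < n) (l : ℕ) : I R h 3 (ep h l (a * Q ^ k) - 1) := by
  rw [C.ep_prod hk]
  exact prod_one C.L l _ fun i _ => C.sf_I3 hk (i + 1)

theorem two_unit (C : QC R h a Q n m) : Un R (2 : K) := by
  have := C.L.rat 2 (by norm_num)
  exact ⟨by exact_mod_cast this.1, by exact_mod_cast natCast_mem' (R := R) 2, by exact_mod_cast this.2⟩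

theorem one_add_g (C : QC R h a Q n m) : Un R (1 + (1 - h)) := by
  have e : 1 + (1 - h) = 2 + (-h) := by ring
  rw [e]
  exact C.two_unit.add_I C.L ⟨-1, R.neg_mem R.one_mem, by ring⟩

/-- the difference of the two summable functions -/
theorem fd_sub (C : QC R h a Q n m) {k : ℕ} (hk : k < n) :
    I R h 4 (fd h (a * Q ^ k) - h ^ 2 * ((1 + (1 - h)) * (1 - h)⁻¹) * om h (a * Q ^ k)) := by
  have u1 := (C.unAi hk 2).1
  have u2 : Un R (1 - a * Q ^ k * (1 - h)⁻¹) := C.unA hk C.gi_one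
  have u4 := C.unA0 hk
  have u5 := C.unA1 hk
  have hA := C.A_mem k
  have hom := C.om_mem hk
  set A := a * Q ^ k with hAdef
  set c := (1 + (1 - h)) * (1 - h)⁻¹ with hc
  have hcR : c ∈ R := R.mul_mem C.one_add_g.2.1 C.hg.2.2
  have hgi : (1 - h) * (1 - h)⁻¹ = 1 := mul_inv_cancel₀ C.hg.1
  have e0 : (1 - A * (1 - h)) * (1 - A) - (1 - A * (1 - h) ^ 2) * (1 - A * (1 - h)⁻¹) = A * (h ^ 2 * c) := by
    rw [hc]
    generalize (1 - h)⁻¹ = y at hgi ⊢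
    linear_combination (-A ^ 2 * (1 - h) + A + A * (1 - h) - A * (1 - h) ^ 2) * hgi
  have main : fd h A - h ^ 2 * c * om h A = h ^ 2 * h ^ 2 *
      (c * c * om h A * A / ((1 - A * (1 - h) ^ 2) * (1 - A * (1 - h)⁻¹))) := by
    have v1 := u1.1
    have v2 := u2.1
    have v4 := u4.1
    have v5 := u5.1
    have e2 : 1 - A * A * (1 - h) = 1 - A * A * (1 - h) := rfl
    have e3 : fd h A = (1 - A * A * (1 - h)) * (A * (h ^ 2 * c)) /
        (((1 - A * (1 - h) ^ 2) * (1 - A * (1 - h)⁻¹)) * ((1 - A * (1 - h)) * (1 - A))) := by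
      rw [← e0]
      unfold fd
      rw [div_sub_div _ _ (mul_ne_zero v1 v2) (mul_ne_zero v5 v4)]
      congr 1
      ring
    have e4 : om h A = A * (1 - A * A * (1 - h)) / (((1 - A * (1 - h)) * (1 - A)) * ((1 - A * (1 - h)) * (1 - A))) := by
      unfold om
      congr 1
      ring
    have hP : (1 - A * (1 - h)) * (1 - A) ≠ 0 := mul_ne_zero v5 v4
    have hT : (1 - A * (1 - h) ^ 2) * (1 - A * (1 - h)⁻¹) ≠ 0 := mul_ne_zero v1 v2
    rw [e3, e4]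
    generalize (1 - A * (1 - h)) * (1 - A) = P at hP e0 ⊢
    generalize (1 - A * (1 - h) ^ 2) * (1 - A * (1 - h)⁻¹) = T at hT e0 ⊢
    generalize 1 - A * A * (1 - h) = W
    clear_value c A
    have e6 : W * (A * (h ^ 2 * c)) / (T * P) - h ^ 2 * c * (A * W / (P * P)) =
        W * (A * (h ^ 2 * c)) * (P - T) / (T * P * P) := by
      field_simp
    rw [e6, e0]
    field_simp
  rw [main]
  have h2 : I R h 2 (h ^ 2) := ⟨1, R.one_mem, by ring⟩
  exact (h2.mul h2).mul_mem (div_mem (R.mul_mem (R.mul_mem (R.mul_mem hcR hcR) hom) hA) (u1.mul u2))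

end QC

end Pool.Agent.Q34.QW
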