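import Pool.Agent.Q34.QWc

/-!
The truncated very-well-poised basic series with `2 (m + 1)` equal parameters modulo `h ^ 5`: the theorem.
-/

set_option autoImplicit false

namespace Pool.Agent.Q34.QW

open Finset

variable {K : Type*} [Field K] {R : Subring K} {h : K} {a Q : K} {n m : ℕ}

/-- the terms of the series -/
noncomputable def W (a Q : K) (n m k : ℕ) : K :=
  (∏ j ∈ range k, ((1 - a * Q ^ j) / (1 - Q ^ (j + 1)))) ^ (2 * (m + 1)) * (Q ^ n) ^ k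

namespace QC

theorem ratio (C : QC R h a Q n m) {j : ℕ} (hj : j < n) :
    ((1 - a * Q ^ j) / (1 - Q ^ (j + 1))) ^ (2 * (m + 1)) * Q ^ n =
      ((1 - a * Q ^ j) * (Q ^ n - Q ^ j)) / ((1 - Q ^ (j + 1)) * (1 - a * Q ^ (j + n + 1))) *
        ep h m (a * Q ^ j) := by
  obtain ⟨u1, u2, u3⟩ := C.unAi hj (m + 1)
  have u4 := (C.unA0 hj).1
  have u5 := (C.unA1 hj).1
  have hg := C.hg.1
  have hB := C.Ag j
  have e1 : a * Q ^ (j + n + 1) = a * Q ^ j * (1 - h) ^ (m + 1) := by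
    rw [show j + n + 1 = j + (n + 1) by ring, pow_add, C.hQn]
    ring
  have e2 : Q ^ n - Q ^ j = Q ^ n * (1 - a * Q ^ j * ((1 - h) * (1 - h)⁻¹ ^ (m + 1))) := by
    have e3 : Q ^ n * (a * Q ^ j * ((1 - h) * (1 - h)⁻¹ ^ (m + 1))) = Q ^ j := by
      calc Q ^ n * (a * Q ^ j * ((1 - h) * (1 - h)⁻¹ ^ (m + 1)))
          = Q ^ n * (a * Q ^ j * (1 - h)) * (1 - h)⁻¹ ^ (m + 1) := by ring
        _ = Q ^ j * (Q ^ (n + 1)) * (1 - h)⁻¹ ^ (m + 1) := by rw [hB]; ring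
        _ = Q ^ j * ((1 - h) ^ (m + 1) * (1 - h)⁻¹ ^ (m + 1)) := by rw [C.hQn]; ring
        _ = Q ^ j := by rw [C.g_mul, mul_one]
    rw [mul_sub, e3, mul_one]
  have v1 := u1.1
  have v3 := u3.1
  rw [e1, e2, ← hB]
  unfold ep
  have e4 : 2 * (m + 1) = (2 * m + 1) + 1 := by ring
  rw [e4, pow_succ ((1 - a * Q ^ j) / (1 - a * Q ^ j * (1 - h))) (2 * m + 1)]
  generalize ((1 - a * Q ^ j) / (1 - a * Q ^ j * (1 - h))) ^ (2 * m + 1) = Z
  generalize (1 - a * Q ^ j * (1 - h) ^ (m + 1)) = D1 at v1 ⊢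
  generalize (1 - a * Q ^ j * ((1 - h) * (1 - h)⁻¹ ^ (m + 1))) = D3 at v3 ⊢
  generalize (1 - a * Q ^ j * (1 - h)) = D5 at u5 ⊢
  field_simp

theorem W_eq (C : QC R h a Q n m) {k : ℕ} (hk : k ≤ n) :
    W a Q n m k = V n a Q k * ∏ j ∈ range k, ep h m (a * Q ^ j) := by
  unfold W V
  have e : (Q ^ n) ^ k = ∏ _j ∈ range k, Q ^ n := by rw [prod_const, card_range]
  rw [e, ← prod_pow, ← prod_mul_distrib, ← prod_mul_distrib]
  exact prod_congr rfl fun j hj => C.ratio (lt_of_lt_of_le (mem_range.1 hj) hk)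

theorem Qn_unit (C : QC R h a Q n m) : Un R (1 - Q ^ n) := by
  have := C.hU (n - 1) (by have := C.hn; omega)
  rwa [Nat.sub_add_cancel C.hn] at this

theorem V_mem (C : QC R h a Q n m) {k : ℕ} (hk : k ≤ n) : V n a Q k ∈ R := by
  unfold V
  refine R.prod_mem fun j hj => ?_
  have hj' : j < n := lt_of_lt_of_le (mem_range.1 hj) hk
  have e1 : a * Q ^ (j + n + 1) = a * Q ^ j * (1 - h) ^ (m + 1) := by
    rw [show j + n + 1 = j + (n + 1) by ring, pow_add, C.hQn]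
    ring
  rw [e1]
  refine div_mem (R.mul_mem (R.sub_mem R.one_mem (C.A_mem j)) (R.sub_mem (R.pow_mem C.unQ.2.1 n) (R.pow_mem C.unQ.2.1 j))) ?_
  exact (C.hU j hj').mul (C.unAi hj' (m + 1)).1

theorem U_mem (C : QC R h a Q n m) {k : ℕ} (hk : k ≤ n) : U n a Q k ∈ R := by
  unfold U
  refine div_mem (R.neg_mem (R.mul_mem (C.V_mem hk) (R.mul_mem ?_ ?_))) C.Qn_unit
  · exact R.sub_mem R.one_mem (R.pow_mem C.unQ.2.1 k)
  · exact R.sub_mem R.one_mem (C.A_mem (k + n))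

/-- the multiplier -/
noncomputable def lam (h : K) (m : ℕ) : K := h * (sp h m * ((1 - h) / (1 + (1 - h))))

theorem lam_I (C : QC R h a Q n m) : I R h 1 (lam h m) := by
  refine ⟨sp h m * ((1 - h) / (1 + (1 - h))), R.mul_mem (C.sp_mem m) (div_mem C.hg.2.1 C.one_add_g), ?_⟩
  unfold lam
  ring

theorem ep_fd (C : QC R h a Q n m) {k : ℕ} (hk : k < n) :
    I R h 5 (ep h m (a * Q ^ k) - 1 - lam h m * fd h (a * Q ^ k)) := by
  have h1 := C.ep_sub hk m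
  have h2 := (C.lam_I).mul (C.fd_sub hk)
  have e : ep h m (a * Q ^ k) - 1 - lam h m * fd h (a * Q ^ k) =
      (ep h m (a * Q ^ k) - 1 - h * om h (a * Q ^ k) * (h ^ 2 * sp h m)) -
      lam h m * (fd h (a * Q ^ k) - h ^ 2 * ((1 + (1 - h)) * (1 - h)⁻¹) * om h (a * Q ^ k)) := by
    have v1 := C.hg.1
    have v2 := C.one_add_g.1
    have e2 : lam h m * ((1 + (1 - h)) * (1 - h)⁻¹) = h * sp h m := by
      unfold lam
      field_simp
    have e3 : lam h m * (h ^ 2 * ((1 + (1 - h)) * (1 - h)⁻¹) * om h (a * Q ^ k)) =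
        h * om h (a * Q ^ k) * (h ^ 2 * sp h m) := by
      calc _ = (lam h m * ((1 + (1 - h)) * (1 - h)⁻¹)) * (h ^ 2 * om h (a * Q ^ k)) := by ring
        _ = _ := by rw [e2]; ring
    rw [mul_sub, e3]
    ring
  rw [e]
  exact h1.sub h2

/-- the reduction to a difference of two summable series -/
theorem reduce (C : QC R h a Q n m) :
    I R h 5 (∑ k ∈ range (n + 1), (1 - a * Q ^ (2 * k)) * W a Q n m k +
      lam h m * ∑ k ∈ range n, U n a Q (k + 1) * fd h (a * Q ^ k)) := by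
  have e1 : ∑ k ∈ range (n + 1), (1 - a * Q ^ (2 * k)) * W a Q n m k =
      ∑ k ∈ range (n + 1), (1 - a * Q ^ (2 * k)) * (V n a Q k * ∏ j ∈ range k, ep h m (a * Q ^ j)) := by
    refine sum_congr rfl fun k hk => ?_
    rw [C.W_eq (by have := mem_range.1 hk; omega)]
  rw [e1, abel C.ne C.hn (fun k => ∏ j ∈ range k, ep h m (a * Q ^ j)) (fun k => ep h m (a * Q ^ k))
    (fun k => prod_range_succ _ k), mul_sum, neg_add_eq_sub, ← sum_sub_distrib]
  refine I.sum _ _ fun k hk => ?_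
  have hk' := mem_range.1 hk
  have h1 := C.ep_fd hk'
  have h2 := C.ep_I3 hk' m
  have h3 : I R h 3 (∏ j ∈ range k, ep h m (a * Q ^ j) - 1) :=
    prod_one C.L k _ fun i hi => C.ep_I3 (by omega) m
  have h4 := (h3.mul h2).mono C.L (show 5 ≤ 3 + 3 by norm_num)
  have hU := C.U_mem (show k + 1 ≤ n by omega)
  have e2 : lam h m * (U n a Q (k + 1) * fd h (a * Q ^ k)) -
      U n a Q (k + 1) * ((∏ j ∈ range k, ep h m (a * Q ^ j)) * (ep h m (a * Q ^ k) - 1)) =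
      U n a Q (k + 1) * (-(ep h m (a * Q ^ k) - 1 - lam h m * fd h (a * Q ^ k)) -
        (∏ j ∈ range k, ep h m (a * Q ^ j) - 1) * (ep h m (a * Q ^ k) - 1)) := by ring
  rw [e2]
  exact I.mem_mul hU (h1.neg.sub h4)

/-- the ratio of the two products -/
noncomputable def rj (h A : K) : K := ((1 - A * (1 - h)) * (1 - A)) / ((1 - A * (1 - h) ^ 2) * (1 - A * (1 - h)⁻¹))

theorem fd_sum (C : QC R h a Q n m) :
    ∑ k ∈ range n, U n a Q (k + 1) * fd h (a * Q ^ k) =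
      (1 - a * Q ^ n) / (1 - Q ^ n) * (∏ j ∈ range n, rj h (a * Q ^ j) - 1) := by
  have hg := C.hg.1
  have v1 : (1 - h) ^ 2 * (1 - h)⁻¹ * a = Q := by
    rw [C.hQ]
    field_simp
  have v2 : (1 - h) * 1 * a = Q := by
    rw [C.hQ]
    ring
  have w1 : ∀ j < n, (1 - a * Q ^ j * (1 - h) ^ 2) * (1 - a * Q ^ j * (1 - h)⁻¹) ≠ 0 := fun j hj =>
    mul_ne_zero (C.unAi hj 2).1.1 (C.unA hj C.gi_one).1
  have w2 : ∀ j < n, (1 - a * Q ^ j * (1 - h)) * (1 - a * Q ^ j * 1) ≠ 0 := fun j hj => by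
    rw [mul_one]
    exact mul_ne_zero (C.unA1 hj).1 (C.unA0 hj).1
  have p1 := pf C.ne C.hn v1 w1
  have p2 := pf C.ne C.hn v2 w2
  have e1 : ∀ k, a * Q ^ k * (a * Q ^ k) * (1 - h) = a * Q ^ (2 * k + 1) := by
    intro k
    have : Q ^ (2 * k + 1) = Q ^ k * Q ^ (k + 1) := by rw [← pow_add]; congr 1; ring
    rw [this, ← C.Ag k]
    ring
  have e2 : ∑ k ∈ range n, U n a Q (k + 1) * fd h (a * Q ^ k) =
      ∑ k ∈ range n, U n a Q (k + 1) * ((1 - a * Q ^ (2 * k + 1)) /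
        ((1 - a * Q ^ k * (1 - h) ^ 2) * (1 - a * Q ^ k * (1 - h)⁻¹))) -
      ∑ k ∈ range n, U n a Q (k + 1) * ((1 - a * Q ^ (2 * k + 1)) /
        ((1 - a * Q ^ k * (1 - h)) * (1 - a * Q ^ k * 1))) := by
    rw [← sum_sub_distrib]
    refine sum_congr rfl fun k _ => ?_
    unfold fd
    rw [e1, mul_one, ← mul_sub]
  rw [e2, p1, p2]
  have t0 : ∏ j ∈ range n, ((1 - a * Q ^ j * (1 - h)) * (1 - a * Q ^ j * 1)) = G Q n * F a Q n := by
    unfold G F
    rw [← prod_mul_distrib]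
    exact prod_congr rfl fun j _ => by rw [C.Ag, mul_one]
  have t1 : ∏ j ∈ range n, rj h (a * Q ^ j) = (G Q n * F a Q n) /
      ∏ j ∈ range n, ((1 - a * Q ^ j * (1 - h) ^ 2) * (1 - a * Q ^ j * (1 - h)⁻¹)) := by
    rw [← t0, ← prod_div_distrib]
    refine prod_congr rfl fun j _ => ?_
    unfold rj
    rw [mul_one]
  have gn : G Q n = G Q (n - 1) * (1 - Q ^ n) := by
    have := G_succ (Q := Q) (n - 1)
    rwa [Nat.sub_add_cancel C.hn] at this
  have hT1 : ∏ j ∈ range n, ((1 - a * Q ^ j * (1 - h) ^ 2) * (1 - a * Q ^ j * (1 - h)⁻¹)) ≠ 0 :=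
    prod_ne_zero_iff.2 fun j hj => w1 j (mem_range.1 hj)
  have hFn := F_ne C.ne n
  have hGn := G_ne C.ne (n - 1)
  have hq := C.Qn_unit.1
  rw [t0, t1, gn, F_succ]
  generalize ∏ j ∈ range n, ((1 - a * Q ^ j * (1 - h) ^ 2) * (1 - a * Q ^ j * (1 - h)⁻¹)) = T1 at hT1 ⊢
  generalize 1 - Q ^ n = q at hq ⊢
  generalize 1 - a * Q ^ n = q'
  field_simp

/-- the first-order terms of the ratio -/
theorem rj_sub (C : QC R h a Q n m) {j : ℕ} (hj : j < n) :
    I R h 2 (rj h (a * Q ^ j) - 1) ∧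
      I R h 3 (rj h (a * Q ^ j) - 1 - h ^ 2 * (2 * (Q ^ (j + 1) / (1 - Q ^ (j + 1)) ^ 2))) := by
  have u1 := (C.unAi hj 2).1
  have u2 : Un R (1 - a * Q ^ j * (1 - h)⁻¹) := C.unA hj C.gi_one
  have u6 := C.hU j hj
  have hA := C.A_mem j
  have hB := C.Ag j
  have hBR : Q ^ (j + 1) ∈ R := R.pow_mem C.unQ.2.1 _
  have hgi : (1 - h) * (1 - h)⁻¹ = 1 := mul_inv_cancel₀ C.hg.1
  set A := a * Q ^ j with hAdef
  set B := Q ^ (j + 1) with hBdef
  have hT : Un R ((1 - A * (1 - h) ^ 2) * (1 - A * (1 - h)⁻¹)) := u1.mul u2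
  set T := (1 - A * (1 - h) ^ 2) * (1 - A * (1 - h)⁻¹) with hTdef
  have e1 : rj h A - 1 = h ^ 2 * ((1 + (1 - h)) * (1 - h)⁻¹ * A / T) := by
    have e0 : (1 - A * (1 - h)) * (1 - A) - T = A * (h ^ 2 * ((1 + (1 - h)) * (1 - h)⁻¹)) := by
      rw [hTdef]
      generalize (1 - h)⁻¹ = y at hgi ⊢
      linear_combination (-A ^ 2 * (1 - h) + A + A * (1 - h) - A * (1 - h) ^ 2) * hgi
    have : rj h A - 1 = ((1 - A * (1 - h)) * (1 - A) - T) / T := by
      unfold rj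
      rw [sub_div, div_self hT.1]
    rw [this, e0]
    ring
  have c1 : (1 + (1 - h)) * (1 - h)⁻¹ * A ∈ R := R.mul_mem (R.mul_mem C.one_add_g.2.1 C.hg.2.2) hA
  constructor
  · rw [e1]
    exact ⟨_, div_mem c1 hT, rfl⟩
  · rw [e1, ← mul_sub]
    have h2 : I R h 2 (h ^ 2) := ⟨1, R.one_mem, by ring⟩
    refine h2.mul (m := 1) ?_
    -- modulo `h`
    have d1 : I R h 1 ((1 + (1 - h)) * (1 - h)⁻¹ * A - 2 * B) := by
      refine ⟨-((1 - h)⁻¹ * A) + 2 * ((1 - h)⁻¹ * A) + 2 * A, ?_, ?_⟩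
      · have := R.mul_mem C.hg.2.2 hA
        exact R.add_mem (R.add_mem (R.neg_mem this) (R.mul_mem C.two_unit.2.1 this)) (R.mul_mem C.two_unit.2.1 hA)
      · rw [← hB]
        generalize (1 - h)⁻¹ = y at hgi ⊢
        linear_combination (2 * A) * hgi
    have d2 : I R h 1 (T - (1 - B) ^ 2) := by
      have i1 : I R h 1 (1 - A * (1 - h) ^ 2 - (1 - B)) := by
        have := I.mem_mul hA (C.g_one.sub (C.I_pow C.g_one 2))
        have e : 1 - A * (1 - h) ^ 2 - (1 - B) = A * ((1 - h) - 1 - ((1 - h) ^ 2 - 1)) := by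
          rw [← hB]
          ring
        rw [e]
        exact this
      have i2 : I R h 1 (1 - A * (1 - h)⁻¹ - (1 - B)) := by
        have := I.mem_mul hA (C.g_one.sub C.gi_one)
        have e : 1 - A * (1 - h)⁻¹ - (1 - B) = A * ((1 - h) - 1 - ((1 - h)⁻¹ - 1)) := by
          rw [← hB]
          ring
        rw [e]
        exact this
      have e : T - (1 - B) ^ 2 = (1 - A * (1 - h) ^ 2 - (1 - B)) * (1 - A * (1 - h)⁻¹) +
          (1 - B) * (1 - A * (1 - h)⁻¹ - (1 - B)) := by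
        rw [hTdef]
        ring
      rw [e]
      exact (i1.mul_mem u2.2.1).add (I.mem_mul u6.2.1 i2)
    have u7 := u6.pow 2
    have e2 : (1 + (1 - h)) * (1 - h)⁻¹ * A / T - 2 * (B / (1 - B) ^ 2) =
        (((1 + (1 - h)) * (1 - h)⁻¹ * A - 2 * B) * (1 - B) ^ 2 - 2 * B * (T - (1 - B) ^ 2)) / (T * (1 - B) ^ 2) := by
      have v1 := hT.1
      have v2 := u7.1
      generalize (1 + (1 - h)) * (1 - h)⁻¹ * A = X
      generalize (1 - B) ^ 2 = Y at v2 ⊢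
      clear_value T
      field_simp
      ring
    rw [e2]
    refine I.div ((d1.mul_mem u7.2.1).sub (I.mem_mul (R.mul_mem C.two_unit.2.1 hBR) d2)) (hT.mul u7)

/-- the sum in the main term -/
noncomputable def HS (Q : K) (n : ℕ) : K := ∑ j ∈ range n, Q ^ (j + 1) / (1 - Q ^ (j + 1)) ^ 2

theorem HS_mem (C : QC R h a Q n m) : HS Q n ∈ R :=
  R.sum_mem fun j hj => div_mem (R.pow_mem C.unQ.2.1 _) ((C.hU j (mem_range.1 hj)).pow 2)

theorem prod_rj (C : QC R h a Q n m) :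
    I R h 2 (∏ j ∈ range n, rj h (a * Q ^ j) - 1) ∧
      I R h 3 (∏ j ∈ range n, rj h (a * Q ^ j) - 1 - h ^ 2 * (2 * HS Q n)) := by
  refine ⟨prod_one C.L n _ fun j hj => (C.rj_sub hj).1, ?_⟩
  have h1 := (prod_sum C.L n (fun j => rj h (a * Q ^ j)) fun j hj => (C.rj_sub hj).1).mono C.L
    (show 3 ≤ 2 + 2 by norm_num)
  have h2 : I R h 3 (∑ j ∈ range n, (rj h (a * Q ^ j) - 1) - h ^ 2 * (2 * HS Q n)) := by
    unfold HS
    rw [mul_sum, mul_sum, ← sum_sub_distrib]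
    exact I.sum _ _ fun j hj => (C.rj_sub (mem_range.1 hj)).2
  have := h1.add h2
  rwa [sub_add_sub_cancel] at this

/-- `1² + ⋯ + m²` -/
noncomputable def ka (K : Type*) [Field K] (m : ℕ) : K := ∑ i ∈ range m, ((i + 1 : ℕ) : K) ^ 2

theorem ka_mem (C : QC R h a Q n m) (l : ℕ) : ka K l ∈ R := R.sum_mem fun i _ => R.pow_mem (natCast_mem' _) 2

theorem lam_sub (C : QC R h a Q n m) : I R h 2 (lam h m - h * (ka K m / 2)) := by
  have u := C.one_add_g
  have t := C.two_unit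
  have h1 := C.sp_I m
  have e : lam h m - h * (ka K m / 2) = h * ((sp h m - ka K m) * ((1 - h) / (1 + (1 - h))) +
      h * (-(ka K m) / (2 * (1 + (1 - h))))) := by
    unfold lam
    have v1 := u.1
    have v2 := t.1
    field_simp
    ring
  rw [e]
  have i1 : I R h 1 h := ⟨1, R.one_mem, by ring⟩
  refine i1.mul (m := 1) ((h1.mul_mem (div_mem C.hg.2.1 u)).add (i1.mul_mem (div_mem (R.neg_mem (C.ka_mem m)) (t.mul u))))

theorem aQn (C : QC R h a Q n m) : 1 - a * Q ^ n = h * ∑ j ∈ range m, (1 - h) ^ j := by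
  have e : a * Q ^ n = (1 - h) ^ m := by
    have h1 : a * Q ^ n * (1 - h) = (1 - h) ^ m * (1 - h) := by
      rw [C.Ag, C.hQn, pow_succ]
    exact mul_right_cancel₀ C.hg.1 h1
  rw [e, one_sub_pow]

/-- **the theorem**: the series modulo `h ^ 5` -/
theorem final (C : QC R h a Q n m) :
    I R h 5 (∑ k ∈ range (n + 1), (1 - a * Q ^ (2 * k)) * W a Q n m k +
      h ^ 4 * (ka K m * (m : K) * HS Q n / (1 - Q ^ n))) := by
  have h1 := C.reduce
  rw [C.fd_sum] at h1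
  have hq := C.Qn_unit
  have hHS := C.HS_mem
  obtain ⟨p2, p3⟩ := C.prod_rj
  have l1 := C.lam_I
  have l2 := C.lam_sub
  set P := ∏ j ∈ range n, rj h (a * Q ^ j) - 1 with hP
  set X := (1 - a * Q ^ n) / (1 - Q ^ n) with hX
  have hmR : (m : K) ∈ R := natCast_mem' m
  have x1 : I R h 1 X := by
    rw [hX, C.aQn]
    exact ⟨(∑ j ∈ range m, (1 - h) ^ j) / (1 - Q ^ n), div_mem (R.sum_mem fun j _ => R.pow_mem C.hg.2.1 j) hq, by ring⟩
  have x2 : I R h 2 (X - h * ((m : K) / (1 - Q ^ n))) := by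
    rw [hX, C.aQn]
    have e : h * ∑ j ∈ range m, (1 - h) ^ j = h * ((∑ j ∈ range m, (1 - h) ^ j - (m : K)) + (m : K)) := by ring
    have e2 : h * ((∑ j ∈ range m, (1 - h) ^ j - (m : K)) + (m : K)) / (1 - Q ^ n) - h * ((m : K) / (1 - Q ^ n)) =
        h * ((∑ j ∈ range m, (1 - h) ^ j - (m : K)) / (1 - Q ^ n)) := by ring
    rw [e, e2]
    have i1 : I R h 1 h := ⟨1, R.one_mem, by ring⟩
    exact i1.mul (m := 1) ((C.br_I m).div hq)
  have hl0 : ka K m / 2 ∈ R := div_mem (C.ka_mem m) C.two_unit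
  have hx0 : (m : K) / (1 - Q ^ n) ∈ R := div_mem hmR hq
  have hp0 : 2 * HS Q n ∈ R := R.mul_mem C.two_unit.2.1 hHS
  have main : I R h 5 (lam h m * (X * P) - (h * (ka K m / 2)) * (h * ((m : K) / (1 - Q ^ n))) *
      (h ^ 2 * (2 * HS Q n))) := by
    have e : lam h m * (X * P) - (h * (ka K m / 2)) * (h * ((m : K) / (1 - Q ^ n))) * (h ^ 2 * (2 * HS Q n)) =
        lam h m * X * (P - h ^ 2 * (2 * HS Q n)) +
        (lam h m * (X - h * ((m : K) / (1 - Q ^ n))) * (h ^ 2 * (2 * HS Q n)) +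
        (lam h m - h * (ka K m / 2)) * (h * ((m : K) / (1 - Q ^ n))) * (h ^ 2 * (2 * HS Q n))) := by ring
    rw [e]
    have i1 : ∀ y ∈ R, I R h 1 (h * y) := fun y hy => ⟨y, hy, by ring⟩
    have i2 : ∀ y ∈ R, I R h 2 (h ^ 2 * y) := fun y hy => ⟨y, hy, by ring⟩
    refine ((l1.mul x1).mul p3).add (((l1.mul x2).mul (i2 _ hp0)).add ((l2.mul (i1 _ hx0)).mul (i2 _ hp0)))
  have := h1.sub main
  have e : ∑ k ∈ range (n + 1), (1 - a * Q ^ (2 * k)) * W a Q n m k +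
      h ^ 4 * (ka K m * (m : K) * HS Q n / (1 - Q ^ n)) =
      ∑ k ∈ range (n + 1), (1 - a * Q ^ (2 * k)) * W a Q n m k + lam h m * (X * P) -
      (lam h m * (X * P) - (h * (ka K m / 2)) * (h * ((m : K) / (1 - Q ^ n))) * (h ^ 2 * (2 * HS Q n))) := by
    have v1 := hq.1
    have v2 := C.two_unit.1
    field_simp
    ring
  rw [e]
  exact this

end QC

end Pool.Agent.Q34.QW
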