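import Pool.Agent.Q34.QWd

/-!
The sum `∑ Q^j / (1 - Q^j)^2` modulo `h`.
-/

set_option autoImplicit false

namespace Pool.Agent.Q34.QW

open Finset

variable {K : Type*} [Field K] {R : Subring K} {h : K} {a Q : K} {n m : ℕ}

theorem S1_id (B : K) (P : ℕ) : (1 - B) * ∑ i ∈ range P, (i : K) * B ^ i =
    ∑ i ∈ range P, B ^ i - 1 - ((P : K) - 1) * B ^ P := by
  induction P with
  | zero => simp
  | succ P ih =>
    rw [sum_range_succ, mul_add, ih, sum_range_succ]
    push_cast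
    ring

theorem sum_id (P : ℕ) : 2 * ∑ i ∈ range P, (i : K) = (P : K) * ((P : K) - 1) := by
  induction P with
  | zero => simp
  | succ P ih =>
    rw [sum_range_succ, mul_add, ih]
    push_cast
    ring

theorem sum_sq (P : ℕ) : 6 * ∑ i ∈ range P, (i : K) ^ 2 = (P : K) * ((P : K) - 1) * (2 * (P : K) - 1) := by
  induction P with
  | zero => simp
  | succ P ih =>
    rw [sum_range_succ, mul_add, ih]
    push_cast
    ring

theorem ka_eq (P : ℕ) : 6 * QC.ka K P = (P : K) * ((P : K) + 1) * (2 * (P : K) + 1) := by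
  unfold QC.ka
  induction P with
  | zero => simp
  | succ P ih =>
    rw [sum_range_succ, mul_add, ih]
    push_cast
    ring

namespace QC

theorem geom_I (C : QC R h a Q n m) {B : K} (hB : Un R (1 - B)) (hBP : I R h 1 (B ^ (n + 1) - 1)) :
    I R h 1 (∑ i ∈ range (n + 1), B ^ i) := by
  have h1 := mul_neg_geom_sum B (n + 1)
  have e : ∑ i ∈ range (n + 1), B ^ i = (-(B ^ (n + 1) - 1)) / (1 - B) := by
    rw [eq_div_iff hB.1, mul_comm, h1]
    ring
  rw [e]
  exact hBP.neg.div hB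

theorem QP_one (C : QC R h a Q n m) : I R h 1 (Q ^ (n + 1) - 1) := by
  rw [C.hQn]
  exact C.I_pow C.g_one (m + 1)

theorem S1_I (C : QC R h a Q n m) {j : ℕ} (hj : j < n) :
    I R h 1 ((1 - Q ^ (j + 1)) * ∑ i ∈ range (n + 1), (i : K) * (Q ^ (j + 1)) ^ i + ((n + 1 : ℕ) : K)) := by
  have hBP : I R h 1 ((Q ^ (j + 1)) ^ (n + 1) - 1) := by
    rw [← pow_mul, mul_comm, pow_mul]
    exact C.I_pow C.QP_one (j + 1)
  have h1 := C.geom_I (C.hU j hj) hBP
  rw [S1_id]
  have e : ∑ i ∈ range (n + 1), (Q ^ (j + 1)) ^ i - 1 - (((n + 1 : ℕ) : K) - 1) * (Q ^ (j + 1)) ^ (n + 1) +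
      ((n + 1 : ℕ) : K) = ∑ i ∈ range (n + 1), (Q ^ (j + 1)) ^ i -
        (((n + 1 : ℕ) : K) - 1) * ((Q ^ (j + 1)) ^ (n + 1) - 1) := by ring
  rw [e]
  refine h1.sub (I.mem_mul (R.sub_mem (natCast_mem' _) R.one_mem) hBP)

/-- one term -/
theorem term_I (C : QC R h a Q n m) {j : ℕ} (hj : j < n) :
    I R h 1 (((n + 1 : ℕ) : K) ^ 2 * (Q ^ (j + 1) / (1 - Q ^ (j + 1)) ^ 2) -
      Q ^ (j + 1) * (∑ i ∈ range (n + 1), (i : K) * (Q ^ (j + 1)) ^ i) ^ 2) := by
  have h1 := C.S1_I hj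
  have u := C.hU j hj
  have hBR : Q ^ (j + 1) ∈ R := R.pow_mem C.unQ.2.1 _
  set B := Q ^ (j + 1) with hB
  set T := ∑ i ∈ range (n + 1), (i : K) * B ^ i with hT
  have hTR : T ∈ R := R.sum_mem fun i _ => R.mul_mem (natCast_mem' i) (R.pow_mem hBR i)
  have hPR : ((n + 1 : ℕ) : K) ∈ R := natCast_mem' _
  have e : ((n + 1 : ℕ) : K) ^ 2 * (B / (1 - B) ^ 2) - B * T ^ 2 =
      (((1 - B) * T + ((n + 1 : ℕ) : K)) * (B * (((n + 1 : ℕ) : K) - (1 - B) * T))) / (1 - B) ^ 2 := by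
    have := u.1
    clear_value T
    field_simp
    ring
  rw [e]
  exact (h1.mul_mem (R.mul_mem hBR (R.sub_mem hPR (R.mul_mem u.2.1 hTR)))).div (u.pow 2)

theorem T_I (C : QC R h a Q n m) {l : ℕ} (h1 : 1 ≤ l) (h2 : l ≤ 2 * n + 1) :
    I R h 1 (∑ j ∈ range n, (Q ^ (j + 1)) ^ l - (if l = n + 1 then (n : K) else -1)) := by
  have hsw : ∀ j, (Q ^ (j + 1)) ^ l = (Q ^ l) ^ (j + 1) := fun j => by rw [← pow_mul, ← pow_mul, mul_comm]
  have hP := C.QP_one
  rw [sum_congr rfl fun j _ => hsw j]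
  by_cases hl : l = n + 1
  · rw [if_pos hl, hl]
    have e : (n : K) = ∑ _j ∈ range n, (1 : K) := by simp
    rw [e, ← sum_sub_distrib]
    exact I.sum _ _ fun j _ => C.I_pow hP (j + 1)
  · rw [if_neg hl, sub_neg_eq_add]
    have e : ∑ j ∈ range n, (Q ^ l) ^ (j + 1) + 1 = ∑ j ∈ range (n + 1), (Q ^ l) ^ j := by
      rw [sum_range_succ' _ n, pow_zero]
    rw [e]
    refine C.geom_I ?_ ?_
    · rcases Nat.lt_or_ge l (n + 1) with h3 | h3
      · have := C.hU (l - 1) (by omega)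
        rwa [Nat.sub_add_cancel h1] at this
      · obtain ⟨d, hd⟩ : ∃ d, l = (n + 1) + (d + 1) := ⟨l - (n + 2), by omega⟩
        have u := C.hU d (by omega)
        have e2 : 1 - Q ^ l = (1 - Q ^ (d + 1)) + Q ^ (d + 1) * (-(Q ^ (n + 1) - 1)) := by
          rw [hd, pow_add]
          ring
        rw [e2]
        exact u.add_I C.L (I.mem_mul (R.pow_mem C.unQ.2.1 _) hP.neg)
    · rw [← pow_mul, mul_comm, pow_mul]
      exact C.I_pow hP l

/-- **the value of the sum modulo `h`** -/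
theorem HS_I (C : QC R h a Q n m) : I R h 1 (HS Q n + (((n + 1 : ℕ) : K) ^ 2 - 1) / 12) := by
  set P : K := ((n + 1 : ℕ) : K) with hP
  have hPn : (n : K) = P - 1 := by rw [hP]; push_cast; ring
  -- step one
  have h1 : I R h 1 (P ^ 2 * HS Q n - ∑ j ∈ range n, Q ^ (j + 1) *
      (∑ i ∈ range (n + 1), (i : K) * (Q ^ (j + 1)) ^ i) ^ 2) := by
    unfold HS
    rw [mul_sum, ← sum_sub_distrib]
    exact I.sum _ _ fun j hj => C.term_I (mem_range.1 hj)
  -- step two
  have e2 : ∑ j ∈ range n, Q ^ (j + 1) * (∑ i ∈ range (n + 1), (i : K) * (Q ^ (j + 1)) ^ i) ^ 2 =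
      ∑ i ∈ range (n + 1), ∑ i' ∈ range (n + 1), ((i : K) * i') * ∑ j ∈ range n, (Q ^ (j + 1)) ^ (i + i' + 1) := by
    have : ∀ j, Q ^ (j + 1) * (∑ i ∈ range (n + 1), (i : K) * (Q ^ (j + 1)) ^ i) ^ 2 =
        ∑ i ∈ range (n + 1), ∑ i' ∈ range (n + 1), ((i : K) * i') * (Q ^ (j + 1)) ^ (i + i' + 1) := by
      intro j
      rw [sq, sum_mul_sum, mul_sum]
      refine sum_congr rfl fun i _ => ?_
      rw [mul_sum]
      refine sum_congr rfl fun i' _ => ?_
      rw [pow_succ (Q ^ (j + 1)) (i + i'), pow_add (Q ^ (j + 1)) i i']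
      ring
    rw [sum_congr rfl fun j _ => this j, sum_comm]
    refine sum_congr rfl fun i _ => ?_
    rw [sum_comm]
    exact sum_congr rfl fun i' _ => by rw [mul_sum]
  have h2 : I R h 1 (∑ i ∈ range (n + 1), ∑ i' ∈ range (n + 1), ((i : K) * i') *
      ∑ j ∈ range n, (Q ^ (j + 1)) ^ (i + i' + 1) -
      ∑ i ∈ range (n + 1), ∑ i' ∈ range (n + 1), ((i : K) * i') * (if i + i' + 1 = n + 1 then (n : K) else -1)) := by
    rw [← sum_sub_distrib]
    refine I.sum _ _ fun i hi => ?_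
    rw [← sum_sub_distrib]
    refine I.sum _ _ fun i' hi' => ?_
    rw [← mul_sub]
    have hi1 := mem_range.1 hi
    have hi2 := mem_range.1 hi'
    exact I.mem_mul (R.mul_mem (natCast_mem' _) (natCast_mem' _)) (C.T_I (by omega) (by omega))
  -- step three
  have e3 : ∑ i ∈ range (n + 1), ∑ i' ∈ range (n + 1), ((i : K) * i') *
      (if i + i' + 1 = n + 1 then (n : K) else -1) =
      P * ∑ i ∈ range (n + 1), ((i : K) * (P - 1 - i)) - (∑ i ∈ range (n + 1), (i : K)) ^ 2 := by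
    have hif : ∀ i i' : ℕ, (if i + i' + 1 = n + 1 then (n : K) else -1) =
        (if i' = n - i ∧ i ≤ n then P else 0) - 1 := by
      intro i i'
      by_cases hc : i + i' + 1 = n + 1
      · rw [if_pos hc, if_pos ⟨by omega, by omega⟩, hPn]
      · rw [if_neg hc, if_neg (fun h => hc (by omega))]
        ring
    rw [sq, sum_mul_sum, mul_sum, ← sum_sub_distrib]
    refine sum_congr rfl fun i hi => ?_
    have hi' := mem_range.1 hi
    have e4 : ∀ i' : ℕ, ((i : K) * i') * (if i + i' + 1 = n + 1 then (n : K) else -1) =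
        (if i' = n - i then P * ((i : K) * i') else 0) - (i : K) * i' := by
      intro i'
      rw [hif, mul_sub, mul_one]
      congr 1
      by_cases hc : i' = n - i
      · rw [if_pos ⟨hc, by omega⟩, if_pos hc]
        ring
      · rw [if_neg (fun h => hc h.1), if_neg hc, mul_zero]
    rw [sum_congr rfl fun i' _ => e4 i', sum_sub_distrib, sum_ite_eq' (range (n + 1)) (n - i)]
    rw [if_pos (mem_range.2 (by omega))]
    have e5 : ((n - i : ℕ) : K) = P - 1 - i := by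
      rw [Nat.cast_sub (by omega), hPn]
    rw [e5]
  have t := C.two_unit
  have u12 : Un R (12 : K) := by
    have := C.L.rat 12 (by norm_num)
    exact ⟨by exact_mod_cast this.1, by exact_mod_cast natCast_mem' (R := R) 12, by exact_mod_cast this.2⟩
  have uP : Un R P := by
    have := C.L.rat (n + 1) (by omega)
    exact ⟨this.1, natCast_mem' _, this.2⟩
  have e6 : 12 * (P * ∑ i ∈ range (n + 1), ((i : K) * (P - 1 - i)) - (∑ i ∈ range (n + 1), (i : K)) ^ 2) =
      -(P ^ 2 * (P ^ 2 - 1)) := by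
    have s1 := sum_id (K := K) (n + 1)
    have s2 := sum_sq (K := K) (n + 1)
    rw [← hP] at s1 s2
    have e7 : ∑ i ∈ range (n + 1), ((i : K) * (P - 1 - i)) =
        (P - 1) * ∑ i ∈ range (n + 1), (i : K) - ∑ i ∈ range (n + 1), (i : K) ^ 2 := by
      rw [mul_sum, ← sum_sub_distrib]
      exact sum_congr rfl fun i _ => by ring
    rw [e7]
    generalize ∑ i ∈ range (n + 1), (i : K) = A1 at s1 ⊢
    generalize ∑ i ∈ range (n + 1), (i : K) ^ 2 = A2 at s2 ⊢
    linear_combination (6 * P * (P - 1) - 3 * (2 * A1 + P * (P - 1))) * s1 - 2 * P * s2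
  have h3 : I R h 1 (P ^ 2 * HS Q n - (P * ∑ i ∈ range (n + 1), ((i : K) * (P - 1 - i)) -
      (∑ i ∈ range (n + 1), (i : K)) ^ 2)) := by
    rw [← e3]
    have := h1.add (e2 ▸ h2)
    rwa [sub_add_sub_cancel] at this
  have e8 : HS Q n + (P ^ 2 - 1) / 12 = (P ^ 2 * HS Q n - (P * ∑ i ∈ range (n + 1), ((i : K) * (P - 1 - i)) -
      (∑ i ∈ range (n + 1), (i : K)) ^ 2)) / P ^ 2 := by
    have v1 := uP.1
    have v2 := u12.1
    generalize P * ∑ i ∈ range (n + 1), ((i : K) * (P - 1 - i)) - (∑ i ∈ range (n + 1), (i : K)) ^ 2 = X at e6 ⊢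
    clear_value P
    field_simp
    linear_combination e6
  rw [e8]
  exact h3.div (uP.pow 2)

end QC

end Pool.Agent.Q34.QW
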