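import Pool.Agent.Q34.QWe

/-!
The local ring of an irreducible polynomial in the field of rational functions, and cyclotomic
polynomials.
-/

set_option autoImplicit false

namespace Pool.Agent.Q34.QW

open Finset Polynomial

/-- the embedding of the polynomials -/
noncomputable abbrev em (A : ℚ[X]) : RatFunc ℚ := algebraMap ℚ[X] (RatFunc ℚ) A

theorem em_inj {A B : ℚ[X]} (h : em A = em B) : A = B :=
  IsFractionRing.injective ℚ[X] (RatFunc ℚ) h

theorem em_ne {A : ℚ[X]} (h : A ≠ 0) : em A ≠ 0 := fun h' => h (em_inj (h'.trans (map_zero _).symm))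

/-- rational functions with denominator prime to `f` -/
def Rf (f : ℚ[X]) (hf : Prime f) : Subring (RatFunc ℚ) where
  carrier := {x | ∃ A B : ℚ[X], ¬ f ∣ B ∧ x = em A / em B}
  mul_mem' := by
    rintro _ _ ⟨A, B, hB, rfl⟩ ⟨C, D, hD, rfl⟩
    refine ⟨A * C, B * D, fun h => (hf.dvd_or_dvd h).elim hB hD, ?_⟩
    simp only [em, map_mul]
    rw [div_mul_div_comm]
  one_mem' := ⟨1, 1, fun h => hf.not_isUnit (isUnit_of_dvd_one h), by simp [em]⟩
  add_mem' := by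
    rintro _ _ ⟨A, B, hB, rfl⟩ ⟨C, D, hD, rfl⟩
    refine ⟨A * D + B * C, B * D, fun h => (hf.dvd_or_dvd h).elim hB hD, ?_⟩
    have h1 : em B ≠ 0 := em_ne fun h => hB (h ▸ dvd_zero f)
    have h2 : em D ≠ 0 := em_ne fun h => hD (h ▸ dvd_zero f)
    simp only [em, map_mul, map_add]
    rw [div_add_div _ _ h1 h2]
  zero_mem' := ⟨0, 1, fun h => hf.not_isUnit (isUnit_of_dvd_one h), by simp [em]⟩
  neg_mem' := by
    rintro _ ⟨A, B, hB, rfl⟩
    refine ⟨-A, B, hB, ?_⟩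
    simp only [em, map_neg]
    rw [neg_div]

variable {f : ℚ[X]} (hf : Prime f)

theorem mem_em (A : ℚ[X]) : em A ∈ Rf f hf := ⟨A, 1, fun h => hf.not_isUnit (isUnit_of_dvd_one h), by simp [em]⟩

theorem un_em {A : ℚ[X]} (hA : ¬ f ∣ A) : Un (Rf f hf) (em A) :=
  ⟨em_ne fun h => hA (h ▸ dvd_zero f), mem_em hf A, 1, A, hA, by simp [em]⟩

theorem em_nat (n : ℕ) : em (n : ℚ[X]) = (n : RatFunc ℚ) := by simp [em]

theorem loc_em {H : ℚ[X]} (hH : f ∣ H) : Loc (Rf f hf) (em H) where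
  mem := mem_em hf H
  J := by
    rintro _ ⟨A, B, hB, rfl⟩
    have h1 : ¬ f ∣ B + H * A := fun h => hB ((dvd_add_left (dvd_mul_of_dvd_left hH A)).1 h)
    have h2 : em B ≠ 0 := em_ne fun h => hB (h ▸ dvd_zero f)
    have h3 : em (B + H * A) ≠ 0 := em_ne fun h => h1 (h ▸ dvd_zero f)
    have e : 1 + em H * (em A / em B) = em (B + H * A) / em B := by
      rw [eq_div_iff h2]
      simp only [em, map_add, map_mul] at *
      field_simp
    rw [e]
    exact ⟨div_ne_zero h3 h2, B, B + H * A, h1, by rw [inv_div]⟩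
  rat := by
    intro n hn
    have h1 : ¬ f ∣ (n : ℚ[X]) := by
      intro h
      apply hf.not_isUnit
      refine isUnit_of_dvd_unit h ?_
      rw [← C_eq_natCast]
      exact (isUnit_C).2 (IsUnit.mk0 _ (by exact_mod_cast hn))
    have := un_em hf h1
    rw [em_nat] at this
    exact ⟨this.1, this.2.2⟩

/-- congruence of rational functions modulo a polynomial -/
def Cg (P : ℚ[X]) (x : RatFunc ℚ) : Prop := ∃ A B : ℚ[X], IsCoprime B P ∧ P ∣ A ∧ x = em A / em B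

theorem cg_of_I {H c : ℚ[X]} (hH : H = c * f) {m : ℕ} {x : RatFunc ℚ}
    (h : I (Rf f hf) (em H) m x) : Cg (f ^ m) x := by
  obtain ⟨_, ⟨A, B, hB, rfl⟩, rfl⟩ := h
  refine ⟨H ^ m * A, B, ?_, ?_, ?_⟩
  · exact (IsCoprime.pow_left_iff (m := 1) one_pos).1 (by
      simpa using IsCoprime.pow_right (n := m) ((hf.irreducible.coprime_iff_not_dvd.2 hB).symm))
  · rw [hH, mul_pow]
    exact dvd_mul_of_dvd_left (dvd_mul_left _ _) _
  · simp only [em, map_mul, map_pow]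
    rw [mul_div_assoc]

theorem Cg.sub {P : ℚ[X]} {x y : RatFunc ℚ} (hP : P ≠ 0) (hu : ¬ IsUnit P) (hx : Cg P x) (hy : Cg P y) : Cg P (x - y) := by
  obtain ⟨A, B, hB, hA, rfl⟩ := hx
  obtain ⟨C, D, hD, hC, rfl⟩ := hy
  have h0 : ∀ B : ℚ[X], IsCoprime B P → em B ≠ 0 := fun B hB => em_ne fun h => hu (by
    rw [h] at hB
    exact isCoprime_zero_left.1 hB)
  refine ⟨A * D - B * C, B * D, hB.mul_left hD, dvd_sub (dvd_mul_of_dvd_left hA _) (dvd_mul_of_dvd_right hC _), ?_⟩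
  simp only [em, map_mul, map_sub]
  rw [div_sub_div _ _ (h0 B hB) (h0 D hD)]

theorem cg_poly {P A : ℚ[X]} (hu : ¬ IsUnit P) (h : Cg P (em A)) : P ∣ A := by
  obtain ⟨C, D, hD, hC, e⟩ := h
  have h0 : em D ≠ 0 := em_ne fun h => hu (by
    rw [h] at hD
    exact isCoprime_zero_left.1 hD)
  rw [eq_div_iff h0] at e
  have e2 : A * D = C := em_inj (by
    simp only [em, map_mul] at *
    exact e)
  rw [← e2] at hC
  exact hD.symm.dvd_of_dvd_mul_right hC

/-! ### cyclotomic polynomials -/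

/-- a primitive root of unity -/
noncomputable def ze (n : ℕ) : ℂ := Complex.exp (2 * Real.pi * Complex.I / n)

theorem ze_prim {n : ℕ} (hn : n ≠ 0) : IsPrimitiveRoot (ze n) n := Complex.isPrimitiveRoot_exp n hn

theorem cyc_dvd {n : ℕ} (hn : 0 < n) (A : ℚ[X]) : cyclotomic n ℚ ∣ A ↔ aeval (ze n) A = 0 := by
  rw [cyclotomic_eq_minpoly_rat (ze_prim hn.ne') hn]
  constructor
  · rintro ⟨B, rfl⟩
    rw [map_mul, minpoly.aeval, zero_mul]
  · exact fun h => minpoly.dvd ℚ _ h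

theorem cyc_prime {n : ℕ} (hn : 0 < n) : Prime (cyclotomic n ℚ) := (cyclotomic.irreducible_rat hn).prime

theorem cyc_not_X {n : ℕ} (hn : 0 < n) : ¬ cyclotomic n ℚ ∣ X := by
  rw [cyc_dvd hn, aeval_X]
  exact (ze_prim hn.ne').ne_zero hn.ne'

theorem cyc_not_pow {n : ℕ} (hn : 0 < n) {N : ℕ} (hN : ¬ n ∣ N) : ¬ cyclotomic n ℚ ∣ 1 - X ^ N := by
  rw [cyc_dvd hn]
  intro h
  simp only [map_sub, map_one, map_pow, aeval_X] at h
  exact hN ((ze_prim hn.ne').dvd_of_pow_eq_one N (sub_eq_zero.1 h).symm)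

theorem cyc_dvd_pow {n : ℕ} (hn : 0 < n) {N : ℕ} (hN : n ∣ N) : cyclotomic n ℚ ∣ 1 - X ^ N := by
  rw [cyc_dvd hn]
  obtain ⟨d, rfl⟩ := hN
  simp only [map_sub, map_one, map_pow, aeval_X]
  rw [pow_mul, (ze_prim hn.ne').pow_eq_one, one_pow, sub_self]

theorem X_pow_ne {a b : ℕ} (h : a ≠ b) : (RatFunc.X : RatFunc ℚ) ^ a ≠ RatFunc.X ^ b := by
  intro e
  apply h
  have e2 : (X ^ a : ℚ[X]) = X ^ b := em_inj (by
    simp only [em, map_pow, RatFunc.algebraMap_X]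
    exact e)
  have := congrArg natDegree e2
  simpa using this

end Pool.Agent.Q34.QW
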