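import Pool.Agent.Q34.QWf

/-!
The antisymmetry of the series at a primitive root of unity of order `(n + 1)^2`, and combination of
coprime moduli.
-/

set_option autoImplicit false

namespace Pool.Agent.Q34.QW

open Finset Polynomial

/-- the numerator of the series -/
def NN {A : Type*} [CommRing A] (n M : ℕ) (a Q : A) : A :=
  ∑ k ∈ range (n + 1), (1 - a * Q ^ (2 * k)) *
    ((∏ j ∈ range k, (1 - a * Q ^ j)) * ∏ j ∈ range (n - k), (1 - Q ^ (k + j + 1))) ^ (2 * M) * (Q ^ n) ^ k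

/-- the denominator -/
def GG {A : Type*} [CommRing A] (n : ℕ) (Q : A) : A := ∏ j ∈ range n, (1 - Q ^ (j + 1))

theorem NN_map {A B : Type*} [CommRing A] [CommRing B] (f : A →+* B) (n M : ℕ) (a Q : A) :
    f (NN n M a Q) = NN n M (f a) (f Q) := by
  unfold NN
  simp only [map_sum, map_mul, map_sub, map_one, map_pow, map_prod]

theorem GG_map {A B : Type*} [CommRing A] [CommRing B] (f : A →+* B) (n : ℕ) (Q : A) :
    f (GG n Q) = GG n (f Q) := by
  unfold GG
  simp only [map_prod, map_sub, map_one, map_pow]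

section field

variable {K : Type*} [Field K]

/-- the products -/
noncomputable def ro (a Q : K) (k : ℕ) : K := ∏ j ∈ range k, ((1 - a * Q ^ j) / (1 - Q ^ (j + 1)))

theorem NN_eq {n M : ℕ} {a Q : K} (h : ∀ j < n, 1 - Q ^ (j + 1) ≠ 0) :
    NN n M a Q = GG n Q ^ (2 * M) * ∑ k ∈ range (n + 1), (1 - a * Q ^ (2 * k)) * ro a Q k ^ (2 * M) * (Q ^ n) ^ k := by
  unfold NN
  rw [mul_sum]
  refine sum_congr rfl fun k hk => ?_
  have hk' : k ≤ n := Nat.lt_succ_iff.1 (mem_range.1 hk)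
  have e : (∏ j ∈ range k, (1 - a * Q ^ j)) * ∏ j ∈ range (n - k), (1 - Q ^ (k + j + 1)) = GG n Q * ro a Q k := by
    have e1 : GG n Q = (∏ j ∈ range k, (1 - Q ^ (j + 1))) * ∏ j ∈ range (n - k), (1 - Q ^ (k + j + 1)) := by
      unfold GG
      rw [← prod_range_add]
      congr 2
      omega
    have e2 : ro a Q k = (∏ j ∈ range k, (1 - a * Q ^ j)) / ∏ j ∈ range k, (1 - Q ^ (j + 1)) := by
      unfold ro
      rw [prod_div_distrib]
    have h0 : ∏ j ∈ range k, (1 - Q ^ (j + 1)) ≠ 0 :=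
      prod_ne_zero_iff.2 fun j hj => h j (lt_of_lt_of_le (mem_range.1 hj) hk')
    rw [e1, e2]
    field_simp
  rw [e]
  ring

theorem ro_zero (a Q : K) : ro a Q 0 = 1 := by simp [ro]

theorem ro_succ (a Q : K) (k : ℕ) : ro a Q (k + 1) = ro a Q k * ((1 - a * Q ^ k) / (1 - Q ^ (k + 1))) := by
  unfold ro
  rw [prod_range_succ]

/-- the symmetry of the products -/
theorem ro_sym {n : ℕ} {a Q g : K} (h : ∀ j < n, 1 - Q ^ (j + 1) ≠ 0) (ha : a * Q ^ n = 1) (hQ : Q = a * g) :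
    ∀ k ≤ n, ro a Q (n - k) = ro a Q n * ro a Q k * g ^ k := by
  intro k
  induction k with
  | zero => intro _; rw [ro_zero, pow_zero, mul_one, mul_one, Nat.sub_zero]
  | succ k ih =>
    intro hk
    have ih' := ih (by omega)
    obtain ⟨d, rfl⟩ : ∃ d, n = k + 1 + d := ⟨n - (k + 1), by omega⟩
    have e1 : k + 1 + d - k = d + 1 := by omega
    have e2 : k + 1 + d - (k + 1) = d := by omega
    rw [e1, ro_succ] at ih'
    rw [e2, ro_succ _ _ k, pow_succ g]
    have ha0 : a ≠ 0 := by rintro rfl; simp at ha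
    have hQ0 : Q ≠ 0 := by
      rintro rfl
      rw [zero_pow (by omega), mul_zero] at ha
      exact zero_ne_one ha
    have h1 : 1 - Q ^ (k + 1) ≠ 0 := h k (by omega)
    have h2 : 1 - Q ^ (d + 1) ≠ 0 := h d (by omega)
    have s1 : 1 - a * Q ^ k = -(a * Q ^ k) * (1 - Q ^ (d + 1)) := by
      have : a * Q ^ k * Q ^ (d + 1) = 1 := by rw [← ha]; ring
      linear_combination -this
    have s2 : 1 - a * Q ^ d = -(a * Q ^ d) * (1 - Q ^ (k + 1)) := by
      have : a * Q ^ d * Q ^ (k + 1) = 1 := by rw [← ha]; ring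
      linear_combination -this
    have s3 : a * Q ^ d * (a * Q ^ k) * g = 1 := by
      have h5 : a * Q ^ k * Q ^ d * Q = 1 := by rw [← ha]; ring
      calc a * Q ^ d * (a * Q ^ k) * g = a * Q ^ k * Q ^ d * (a * g) := by ring
        _ = 1 := by rw [← hQ, h5]
    rw [s2] at ih'
    rw [s1]
    have h3 : a * Q ^ d ≠ 0 := mul_ne_zero ha0 (pow_ne_zero _ hQ0)
    set A := a * Q ^ d
    set B := a * Q ^ k
    set x := 1 - Q ^ (k + 1)
    set y := 1 - Q ^ (d + 1)
    have e3 : ro a Q d = ro a Q (k + 1 + d) * ro a Q k * g ^ k * (-y / (A * x)) := by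
      rw [← ih']
      field_simp
    rw [e3]
    have e4 : -y / (A * x) = -B * y / x * g := by
      rw [div_mul_eq_mul_div, div_eq_div_iff (mul_ne_zero h3 h1) h1]
      linear_combination (y * x) * s3
    rw [e4]
    ring

/-- **antisymmetry** -/
theorem anti [CharZero K] {n : ℕ} {a Q g : K} (h : ∀ j < n, 1 - Q ^ (j + 1) ≠ 0) (ha : a * Q ^ n = 1)
    (hQ : Q = a * g) (hg : a ^ (n + 1) = g) (hg1 : g ^ (n + 1) = 1) :
    ∑ k ∈ range (n + 1), (1 - a * Q ^ (2 * k)) * ro a Q k ^ (2 * (n + 2)) * (Q ^ n) ^ k = 0 := by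
  have ha0 : a ≠ 0 := by rintro rfl; simp at ha
  have hg0 : g ≠ 0 := by rw [← hg]; exact pow_ne_zero _ ha0
  have hQ0 : Q ≠ 0 := by rw [hQ]; exact mul_ne_zero ha0 hg0
  have hM : g ^ (n + 2) = g := by rw [pow_succ, hg1, one_mul]
  have hn2 : ro a Q n ^ 2 = g := by
    have h1 := ro_sym h ha hQ n le_rfl
    rw [Nat.sub_self, ro_zero] at h1
    have h2 : ro a Q n ^ 2 * g ^ n = g * g ^ n := by
      rw [← pow_succ', hg1, h1]
      ring
    exact mul_right_cancel₀ (pow_ne_zero _ hg0) h2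
  have key : ∀ k ∈ range (n + 1), (1 - a * Q ^ (2 * (n - k))) * ro a Q (n - k) ^ (2 * (n + 2)) * (Q ^ n) ^ (n - k) =
      -((1 - a * Q ^ (2 * k)) * ro a Q k ^ (2 * (n + 2)) * (Q ^ n) ^ k) := by
    intro k hk
    have hk' : k ≤ n := Nat.lt_succ_iff.1 (mem_range.1 hk)
    rw [ro_sym h ha hQ k hk', mul_pow, mul_pow]
    have e1 : ro a Q n ^ (2 * (n + 2)) = g := by rw [pow_mul, hn2, hM]
    have e2 : (g ^ k) ^ (2 * (n + 2)) = g ^ (2 * k) := by
      rw [← pow_mul, show k * (2 * (n + 2)) = (n + 2) * (2 * k) by ring, pow_mul, hM]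
    rw [e1, e2]
    have e3 : a * Q ^ (2 * k) * (1 - a * Q ^ (2 * (n - k))) = a * Q ^ (2 * k) - 1 := by
      have : a * Q ^ (2 * k) * (a * Q ^ (2 * (n - k))) = (a * Q ^ n) ^ 2 := by
        have : Q ^ (2 * k) * Q ^ (2 * (n - k)) = Q ^ (n * 2) := by
          rw [← pow_add]
          congr 1
          omega
        calc _ = a * a * (Q ^ (2 * k) * Q ^ (2 * (n - k))) := by ring
          _ = _ := by rw [this]; ring
      rw [mul_sub, mul_one, this, ha, one_pow]
    have e4 : ∀ i, (Q ^ n) ^ i * a ^ i = 1 := by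
      intro i
      rw [← mul_pow, mul_comm (Q ^ n), ha, one_pow]
    have e5 : (Q ^ n) ^ k * (a * Q ^ (2 * k)) * a ^ (n - k) = g ^ (2 * k) * g := by
      have : a ^ (n - k) * a ^ k = a ^ n := by rw [← pow_add]; congr 1; omega
      have h2 : (Q ^ n) ^ k * (a * Q ^ (2 * k)) * a ^ (n - k) = ((Q ^ n) ^ k * a ^ k) * (a * (a ^ (n - k) * a ^ k)) * g ^ (2 * k) := by
        have : Q ^ (2 * k) = a ^ k * a ^ k * g ^ (2 * k) := by
          rw [hQ, mul_pow, two_mul k, pow_add a]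
        rw [this]
        ring
      rw [h2, e4, this, ← pow_succ', hg]
      ring
    have hne : a * Q ^ (2 * k) * a ^ (n - k) ≠ 0 :=
      mul_ne_zero (mul_ne_zero ha0 (pow_ne_zero _ hQ0)) (pow_ne_zero _ ha0)
    apply mul_right_cancel₀ hne
    calc (1 - a * Q ^ (2 * (n - k))) * (g * ro a Q k ^ (2 * (n + 2)) * g ^ (2 * k)) * (Q ^ n) ^ (n - k) *
        (a * Q ^ (2 * k) * a ^ (n - k)) =
        (a * Q ^ (2 * k) * (1 - a * Q ^ (2 * (n - k)))) * (g * ro a Q k ^ (2 * (n + 2)) * g ^ (2 * k)) *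
          ((Q ^ n) ^ (n - k) * a ^ (n - k)) := by ring
      _ = (a * Q ^ (2 * k) - 1) * ro a Q k ^ (2 * (n + 2)) * (g ^ (2 * k) * g) := by rw [e3, e4]; ring
      _ = (a * Q ^ (2 * k) - 1) * ro a Q k ^ (2 * (n + 2)) * ((Q ^ n) ^ k * (a * Q ^ (2 * k)) * a ^ (n - k)) := by
        rw [e5]
      _ = _ := by ring
  have h2 := sum_range_reflect (fun k => (1 - a * Q ^ (2 * k)) * ro a Q k ^ (2 * (n + 2)) * (Q ^ n) ^ k) (n + 1)
  have h3 : ∑ j ∈ range (n + 1), (1 - a * Q ^ (2 * (n + 1 - 1 - j))) * ro a Q (n + 1 - 1 - j) ^ (2 * (n + 2)) *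
      (Q ^ n) ^ (n + 1 - 1 - j) = -∑ k ∈ range (n + 1), (1 - a * Q ^ (2 * k)) * ro a Q k ^ (2 * (n + 2)) * (Q ^ n) ^ k := by
    rw [← sum_neg_distrib]
    refine sum_congr rfl fun k hk => ?_
    rw [show n + 1 - 1 = n by omega]
    exact key k hk
  rw [h3] at h2
  have h4 : (2 : K) * ∑ k ∈ range (n + 1), (1 - a * Q ^ (2 * k)) * ro a Q k ^ (2 * (n + 2)) * (Q ^ n) ^ k = 0 := by
    linear_combination -h2
  exact (mul_eq_zero.1 h4).resolve_left two_ne_zero

end field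

/-- combination of coprime moduli -/
theorem Cg.combine {P1 P2 : ℚ[X]} (hu1 : ¬ IsUnit P1) (hu2 : ¬ IsUnit P2) (h12 : IsCoprime P1 P2) {x : RatFunc ℚ}
    (h1 : Cg P1 x) (h2 : Cg P2 x) : Cg (P1 * P2) x := by
  have key : ∀ P : ℚ[X], ¬ IsUnit P → Cg P x → IsCoprime x.denom P ∧ P ∣ x.num := by
    rintro P hu ⟨A, B, hB, hA, e⟩
    have h0 : em B ≠ 0 := em_ne fun h => hu (by
      rw [h] at hB
      exact isCoprime_zero_left.1 hB)
    have hd : em x.denom ≠ 0 := em_ne x.denom_ne_zero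
    have hx : em x.num / em x.denom = x := RatFunc.num_div_denom x
    have e1 : x.num * B = A * x.denom := by
      apply em_inj
      have hx' := hx.trans e
      rw [div_eq_div_iff hd h0] at hx'
      simp only [em, map_mul] at *
      exact hx'
    have hc : IsCoprime x.num x.denom := RatFunc.isCoprime_num_denom x
    have d1 : x.denom ∣ B := by
      refine hc.symm.dvd_of_dvd_mul_left ?_
      rw [e1]
      exact dvd_mul_left _ _
    refine ⟨hB.of_isCoprime_of_dvd_left d1, ?_⟩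
    refine hB.symm.dvd_of_dvd_mul_right ?_
    rw [e1]
    exact dvd_mul_of_dvd_left hA _
  obtain ⟨a1, b1⟩ := key P1 hu1 h1
  obtain ⟨a2, b2⟩ := key P2 hu2 h2
  exact ⟨x.num, x.denom, a1.mul_right a2, h12.mul_dvd b1 b2, (RatFunc.num_div_denom x).symm⟩

end Pool.Agent.Q34.QW
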