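import Mathlib
import Pool.Agent.Q34.Red

set_option autoImplicit false

/-! The terminating very-well-poised `5F4` summation over `ℚ`, by telescoping. -/

namespace Pool.Agent.Q34.WZ5

open Finset Pool.Agent.Q34.Red
open scoped Nat

/-- the summand without the very-well-poised factor -/
def U (a b c : ℚ) (n k : ℕ) : ℚ :=
  rf a k * rf b k * rf c k * rf (-(n : ℚ)) k /
    ((k ! : ℕ) * rf (1 + a - b) k * rf (1 + a - c) k * rf (1 + a + n) k)

lemma rf_ne {b : ℚ} {k : ℕ} (h : ∀ i < k, b + i ≠ 0) : rf b k ≠ 0 := by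
  unfold rf
  rw [prod_ne_zero_iff]
  intro i hi
  exact h i (mem_range.mp hi)

theorem partial_sum (a b c : ℚ) (n m : ℕ) (hb : ∀ i ≤ m, 1 + a - b + i ≠ 0)
    (hc : ∀ i ≤ m, 1 + a - c + i ≠ 0) (hd : ∀ i ≤ m + 1, 1 + a + n + i ≠ 0) :
    ∑ k ∈ range (m + 1), ((1 + a - b + n) * (1 + a - c + n) * ((a + 2 * k) * U a b c (n + 1) k) -
      (1 + a + n) * (1 + a - b - c + n) * ((a + 2 * k) * U a b c n k)) =
    (1 + a + n) * (a + m) * (b + m) * (c + m) / (1 + a + n + m) * U a b c n m := by
  induction m with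
  | zero =>
    have h0 := hd 0 (by norm_num)
    simp only [Nat.cast_zero, add_zero] at h0
    simp only [zero_add, range_one, sum_singleton, U, rf_zero, Nat.factorial_zero, Nat.cast_one,
      Nat.cast_zero, add_zero]
    field_simp
    ring
  | succ m ih =>
    rw [sum_range_succ, ih (fun i hi => hb i (by omega)) (fun i hi => hc i (by omega))
      (fun i hi => hd i (by omega))]
    have kf : ((m ! : ℕ) : ℚ) ≠ 0 := by exact_mod_cast m.factorial_ne_zero
    have m1 : (m : ℚ) + 1 ≠ 0 := by positivity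
    have nb : rf (1 + a - b) m ≠ 0 := rf_ne fun i hi => hb i (by omega)
    have nc : rf (1 + a - c) m ≠ 0 := rf_ne fun i hi => hc i (by omega)
    have nd : rf (1 + a + n) m ≠ 0 := rf_ne fun i hi => hd i (by omega)
    have b1 := hb m (by omega)
    have c1 := hc m (by omega)
    have d0 := hd 0 (by omega)
    have d1 := hd m (by omega)
    have d2 := hd (m + 1) (by omega)
    have e1 : rf (-((n + 1 : ℕ) : ℚ)) (m + 1) = -((n : ℚ) + 1) * rf (-(n : ℚ)) m := by
      rw [rf_succ']
      congr 1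
      · push_cast; ring
      · congr 1; push_cast; ring
    have e2 : rf (1 + a + ((n + 1 : ℕ) : ℚ)) (m + 1) =
        rf (1 + a + n) m * (1 + a + n + m) * (1 + a + n + (m + 1 : ℕ)) / (1 + a + n) := by
      rw [eq_div_iff (by simpa using d0)]
      have : rf (1 + a + (n : ℚ)) (m + 1 + 1) = rf (1 + a + n) m * (1 + a + n + m) * (1 + a + n + (m + 1 : ℕ)) := by
        rw [rf_succ, rf_succ]
      rw [← this, rf_succ' _ (m + 1), mul_comm]
      congr 2
      push_cast; ring
    have e0 : U a b c (n + 1) (m + 1) = rf a m * (a + m) * (rf b m * (b + m)) * (rf c m * (c + m)) *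
        (-((n : ℚ) + 1) * rf (-(n : ℚ)) m) /
        (((m ! : ℕ) * (m + 1)) * (rf (1 + a - b) m * (1 + a - b + m)) *
          (rf (1 + a - c) m * (1 + a - c + m)) *
          (rf (1 + a + n) m * (1 + a + n + m) * (1 + a + n + (m + 1 : ℕ)) / (1 + a + n))) := by
      unfold U
      rw [e1, e2, rf_succ a, rf_succ b, rf_succ c, rf_succ (1 + a - b), rf_succ (1 + a - c),
        Nat.factorial_succ]
      push_cast
      ring
    have e3 : U a b c n (m + 1) = rf a m * (a + m) * (rf b m * (b + m)) * (rf c m * (c + m)) *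
        (rf (-(n : ℚ)) m * (-(n : ℚ) + m)) /
        (((m ! : ℕ) * (m + 1)) * (rf (1 + a - b) m * (1 + a - b + m)) *
          (rf (1 + a - c) m * (1 + a - c + m)) *
          (rf (1 + a + n) m * (1 + a + n + m))) := by
      unfold U
      rw [rf_succ a, rf_succ b, rf_succ c, rf_succ (1 + a - b), rf_succ (1 + a - c),
        rf_succ (1 + a + (n : ℚ)), rf_succ (-(n : ℚ)), Nat.factorial_succ]
      push_cast
      ring
    rw [e0, e3]
    unfold U
    push_cast at d2 ⊢
    simp only [Nat.cast_zero, add_zero] at d0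
    field_simp
    ring

/-- the terminating very-well-poised `5F4` sum, recurrence form -/
theorem sum_rec (a b c : ℚ) (n : ℕ) (hb : ∀ i ≤ n + 1, 1 + a - b + i ≠ 0)
    (hc : ∀ i ≤ n + 1, 1 + a - c + i ≠ 0) (hd : ∀ i ≤ n + 2, 1 + a + n + i ≠ 0) :
    (1 + a - b + n) * (1 + a - c + n) * ∑ k ∈ range (n + 1 + 1), (a + 2 * k) * U a b c (n + 1) k =
    (1 + a + n) * (1 + a - b - c + n) * ∑ k ∈ range (n + 1), (a + 2 * k) * U a b c n k := by
  have h := partial_sum a b c n (n + 1) hb hc hd
  have z : U a b c n (n + 1) = 0 := by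
    unfold U
    rw [rf_succ (-(n : ℚ))]
    simp
  rw [z, mul_zero, sum_sub_distrib, ← mul_sum, ← mul_sum, sub_eq_zero] at h
  rw [h, sum_range_succ _ (n + 1), z, mul_zero, add_zero]

/-- the terminating very-well-poised `5F4` sum -/
theorem sum_eq (a b c : ℚ) (n : ℕ) (hb : ∀ i ≤ n + 1, 1 + a - b + i ≠ 0)
    (hc : ∀ i ≤ n + 1, 1 + a - c + i ≠ 0) (hd : ∀ i : ℕ, 1 + a + i ≠ 0) :
    rf (1 + a - b) n * rf (1 + a - c) n * ∑ k ∈ range (n + 1), (a + 2 * k) * U a b c n k =
    a * rf (1 + a) n * rf (1 + a - b - c) n := by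
  induction n with
  | zero => simp [U, rf_zero]
  | succ n ih =>
    have h1 := sum_rec a b c n (fun i hi => hb i (by omega)) (fun i hi => hc i (by omega))
      (fun i _ => by have := hd (n + i); push_cast at this; rwa [← add_assoc] at this)
    have h2 := ih (fun i hi => hb i (by omega)) (fun i hi => hc i (by omega))
    rw [rf_succ (1 + a - b), rf_succ (1 + a - c), rf_succ (1 + a), rf_succ (1 + a - b - c)]
    linear_combination (rf (1 + a - b) n * rf (1 + a - c) n) * h1 +
      (1 + a + n) * (1 + a - b - c + n) * h2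

end Pool.Agent.Q34.WZ5
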