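import Mathlib
import Pool.Agent.Q34.WZ5

set_option autoImplicit false

/-! Common part of the `(6k ± 1)` supercongruences modulo `p^3`. -/

namespace Pool.Agent.Q34.S3

open Finset Pool.Agent.Helper857.Pad Pool.Agent.Q34.Red
open scoped Nat

variable {p : ℕ} [hp : Fact p.Prime]

def P (a x : ℚ) (k : ℕ) : ℚ :=
  ∏ i ∈ range k, ((a + i) ^ 2 - x ^ 2) / ((1 + (i : ℚ)) ^ 2 - x ^ 2)
def Q (a : ℚ) (k : ℕ) : ℚ := ∏ i ∈ range k, (a + i) ^ 2 / (1 + (i : ℚ)) ^ 2
def h (a : ℚ) (k : ℕ) : ℚ := ∑ i ∈ range k, (((a + i) ^ 2)⁻¹ - ((1 + (i : ℚ)) ^ 2)⁻¹)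
def v (a : ℚ) (k : ℕ) : ℚ := rf a k * rf (1 / 2) k / ((k ! : ℕ) * rf (1 / 2 + a) k)

lemma sq_I {x : ℚ} (hx : I p 1 x) : I p 2 (x ^ 2) := hx.pow 2

lemma four_I {x : ℚ} (hx : I p 1 x) : I p 4 (x ^ 4) := hx.pow 4

lemma step {A B x : ℚ} (hA : Un p A) (hB : Un p B) (hx : I p 1 x) :
    I p 4 ((A ^ 2 - x ^ 2) / (B ^ 2 - x ^ 2) - A ^ 2 / B ^ 2 * (1 - x ^ 2 * ((A ^ 2)⁻¹ - (B ^ 2)⁻¹))) := by
  have hx2 : I p 1 (-(x ^ 2)) := (sq_I hx).mono (by norm_num) |>.neg
  have hB2 : Un p (B ^ 2 + -(x ^ 2)) := (hB.pow 2).add_I hx2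
  have e : (A ^ 2 - x ^ 2) / (B ^ 2 - x ^ 2) - A ^ 2 / B ^ 2 * (1 - x ^ 2 * ((A ^ 2)⁻¹ - (B ^ 2)⁻¹)) =
      x ^ 4 * ((A ^ 2 - B ^ 2) * ((B ^ 4)⁻¹ * (B ^ 2 + -(x ^ 2))⁻¹)) := by
    have h1 := hA.1
    have h2 := hB.1
    have h3 := hB2.1
    rw [← sub_eq_add_neg] at h3 ⊢
    field_simp
    ring
  rw [e]
  exact (four_I hx).mul_mem ((Zp p).mul_mem ((Zp p).sub_mem ((Zp p).pow_mem hA.2.1 2)
    ((Zp p).pow_mem hB.2.1 2)) ((Zp p).mul_mem (hB.pow 4).2.2 hB2.2.2))

lemma h_mem {a : ℚ} {n : ℕ} (hA : ∀ i < n, Un p (a + i)) (hn : n < p) (k : ℕ) (hk : k ≤ n) :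
    h a k ∈ Zp p := by
  refine (Zp p).sum_mem fun i hi => (Zp p).sub_mem ?_ ?_
  · exact ((hA i (by have := mem_range.mp hi; omega)).pow 2).2.2
  · have : Un p (1 + (i : ℚ)) := by
      have := Un.nat_lt (p := p) (n := 1 + i) (by omega) (by have := mem_range.mp hi; omega)
      exact_mod_cast this
    exact (this.pow 2).2.2

lemma Q_un {a : ℚ} {n : ℕ} (hA : ∀ i < n, Un p (a + i)) (hn : n < p) (k : ℕ) (hk : k ≤ n) :
    Un p (Q a k) := by
  refine Un.prod _ _ fun i hi => ?_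
  have : Un p (1 + (i : ℚ)) := by
    have := Un.nat_lt (p := p) (n := 1 + i) (by omega) (by have := mem_range.mp hi; omega)
    exact_mod_cast this
  exact ((hA i (by have := mem_range.mp hi; omega)).pow 2).div (this.pow 2)

lemma expand {a x : ℚ} {n : ℕ} (hA : ∀ i < n, Un p (a + i)) (hn : n < p) (hx : I p 1 x)
    (k : ℕ) (hk : k ≤ n) : I p 4 (P a x k - Q a k * (1 - x ^ 2 * h a k)) := by
  induction k with
  | zero => simpa [P, Q, h] using I.zero 4
  | succ k ih =>
    have ih' := ih (by omega)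
    have hB : Un p (1 + (k : ℚ)) := by
      have := Un.nat_lt (p := p) (n := 1 + k) (by omega) (by omega)
      exact_mod_cast this
    have hAk := hA k (by omega)
    have st := step hAk hB hx
    have hρ : ((a + k) ^ 2 - x ^ 2) / ((1 + k) ^ 2 - x ^ 2) ∈ Zp p := by
      have hx2 : I p 1 (-(x ^ 2)) := (sq_I hx).mono (by norm_num) |>.neg
      have h1 : Un p ((1 + (k : ℚ)) ^ 2 - x ^ 2) := by
        rw [sub_eq_add_neg]; exact (hB.pow 2).add_I hx2
      have h2 : Un p ((a + (k : ℚ)) ^ 2 - x ^ 2) := by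
        rw [sub_eq_add_neg]; exact (hAk.pow 2).add_I hx2
      exact (h2.div h1).2.1
    have hQ := (Q_un hA hn k (by omega)).2.1
    have hh := h_mem hA hn k (by omega)
    have hxm := hx.mem
    have e1 : P a x (k + 1) = P a x k * (((a + k) ^ 2 - x ^ 2) / ((1 + k) ^ 2 - x ^ 2)) := by
      unfold P; rw [prod_range_succ]
    have e2 : Q a (k + 1) = Q a k * ((a + k) ^ 2 / (1 + k) ^ 2) := by
      unfold Q; rw [prod_range_succ]
    have e3 : h a (k + 1) = h a k + (((a + (k : ℚ)) ^ 2)⁻¹ - ((1 + (k : ℚ)) ^ 2)⁻¹) := by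
      unfold h; rw [sum_range_succ]
    rw [e1, e2, e3]
    set ρ := ((a + k) ^ 2 - x ^ 2) / ((1 + k) ^ 2 - x ^ 2)
    set r := (a + (k : ℚ)) ^ 2 / (1 + k) ^ 2 with hr
    set e := (((a + (k : ℚ)) ^ 2)⁻¹ - ((1 + (k : ℚ)) ^ 2)⁻¹) with he
    have hrm : r ∈ Zp p := ((hAk.pow 2).div (hB.pow 2)).2.1
    have hem : e ∈ Zp p := (Zp p).sub_mem (hAk.pow 2).2.2 (hB.pow 2).2.2
    have key : P a x k * ρ - Q a k * r * (1 - x ^ 2 * (h a k + e)) =
        (P a x k - Q a k * (1 - x ^ 2 * h a k)) * ρ +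
        (ρ - r * (1 - x ^ 2 * e)) * (Q a k * (1 - x ^ 2 * h a k)) +
        x ^ 4 * (Q a k * r * (h a k * e)) := by ring
    rw [key]
    refine I.add (I.add (ih'.mul_mem hρ) (st.mul_mem ?_)) ((four_I hx).mul_mem ?_)
    · exact (Zp p).mul_mem hQ ((Zp p).sub_mem (Zp p).one_mem
        ((Zp p).mul_mem ((Zp p).pow_mem hxm 2) hh))
    · exact (Zp p).mul_mem ((Zp p).mul_mem hQ hrm) ((Zp p).mul_mem hh hem)

/-- the exact evaluation -/
lemma exact_sum {a x : ℚ} {n : ℕ} (hax : a + n = x) (h1 : ∀ i : ℕ, 1 / 2 + a + i ≠ 0)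
    (h2 : ∀ i : ℕ, 1 - x + i ≠ 0) (h3 : ∀ i : ℕ, a + i ≠ 0) :
    ∑ k ∈ range (n + 1), (a + 2 * k) * (v a k * P a x k) = x := by
  have S := WZ5.sum_eq a (1 / 2) (a + x) n
    (fun i _ => by rw [show 1 + a - 1 / 2 + (i : ℚ) = 1 / 2 + a + i by ring]; exact h1 i)
    (fun i _ => by rw [show 1 + a - (a + x) + (i : ℚ) = 1 - x + i by ring]; exact h2 i)
    (fun i => by have := h3 (i + 1); push_cast at this; rwa [show 1 + a + (i : ℚ) = a + (i + 1) by ring])
  have hU : ∀ k, WZ5.U a (1 / 2) (a + x) n k = v a k * P a x k := by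
    intro k
    have hP : P a x k = rf (a + x) k * rf (-(n : ℚ)) k / (rf (1 + a - (a + x)) k * rf (1 + a + n) k) := by
      unfold P rf
      rw [← prod_mul_distrib, ← prod_mul_distrib, ← prod_div_distrib]
      refine prod_congr rfl fun i _ => ?_
      congr 1
      · rw [show -(n : ℚ) = a - x by linarith]; ring
      · rw [show 1 + a + (n : ℚ) = 1 + x by linarith]; ring
    rw [hP]
    unfold WZ5.U v
    rw [show 1 + a - 1 / 2 = 1 / 2 + a by ring]
    rw [div_mul_div_comm]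
    congr 1 <;> ring
  simp only [hU] at S
  rw [show 1 + a - 1 / 2 = 1 / 2 + a by ring, show 1 + a - (a + x) = 1 - x by ring,
    show 1 / 2 + a - (a + x) = 1 / 2 - x by ring, rf_neg (1 - x), rf_neg (1 / 2 - x),
    show 1 - (1 - x) - (n : ℚ) = a by linarith, show 1 - (1 / 2 - x) - (n : ℚ) = 1 / 2 + a by linarith,
    ← mul_assoc] at S
  have n1 : rf (1 / 2 + a) n ≠ 0 := WZ5.rf_ne fun i _ => h1 i
  have n2 : rf a n ≠ 0 := WZ5.rf_ne fun i _ => h3 i
  have e : a * rf (1 + a) n = rf a n * x := by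
    rw [add_comm 1 a, ← rf_succ', rf_succ, hax]
  have n3 : ((-1 : ℚ) ^ n) ≠ 0 := pow_ne_zero _ (by norm_num)
  have n4 : rf (1 / 2 + a) n * (-1) ^ n * rf a n ≠ 0 := mul_ne_zero (mul_ne_zero n1 n3) n2
  apply mul_left_cancel₀ n4
  rw [S]
  linear_combination ((-1) ^ n * rf (1 / 2 + a) n) * e

/-- reduction of rising factorials -/
lemma R_rf {b : ℚ} (hb : b ∈ Zp p) (k : ℕ) : R p (rf b k) = rf (R p b) k := by
  unfold rf
  rw [R_prod _ _ fun i _ => (Zp p).add_mem hb (nat_mem i)]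
  refine prod_congr rfl fun i _ => ?_
  rw [R_add hb (nat_mem i), R_nat]

lemma rf_mem {b : ℚ} (hb : b ∈ Zp p) (k : ℕ) : rf b k ∈ Zp p :=
  (Zp p).prod_mem fun i _ => (Zp p).add_mem hb (nat_mem i)

lemma rf_negNat (n k : ℕ) (hk : k ≤ n) {F : Type*} [Field F] :
    rf (-(n : F)) k = (-1) ^ k * (n.choose k : F) * (k ! : ℕ) := by
  induction k with
  | zero => simp [rf_zero]
  | succ k ih =>
    rw [rf_succ, ih (by omega), Nat.factorial_succ, pow_succ]
    have e2 : ((n.choose (k + 1) : ℕ) : F) * (k + 1) = (n.choose k : F) * (n - k) := by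
      have := Nat.choose_succ_right_eq n k
      have h3 : ((n.choose (k + 1) * (k + 1) : ℕ) : F) = ((n.choose k * (n - k) : ℕ) : F) := by
        rw [this]
      push_cast [Nat.cast_sub (show k ≤ n by omega)] at h3
      exact h3
    push_cast
    linear_combination (-1) ^ k * (k ! : F) * e2

/-- main theorem -/
theorem main {a x : ℚ} {n : ℕ} (hax : a + n = x) (hx : I p 1 x) (hn : 2 * n + 1 ≤ p)
    (hp2 : 2 < p) (ha : a ∈ Zp p)
    (hA : ∀ i < n, Un p (a + i)) (hH : ∀ i < n, Un p (1 / 2 + a + i))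
    (h1 : ∀ i : ℕ, 1 / 2 + a + i ≠ 0)
    (h2 : ∀ i : ℕ, 1 - x + i ≠ 0) (h3 : ∀ i : ℕ, a + i ≠ 0) :
    I p 3 (∑ k ∈ range (n + 1), (a + 2 * k) * (v a k * Q a k) - x) := by
  have hnp : n < p := by omega
  have u2 : Un p (2 : ℚ) := by exact_mod_cast Un.nat_lt (p := p) (n := 2) (by norm_num) hp2
  have um : (1 / 2 : ℚ) ∈ Zp p := by rw [one_div]; exact u2.2.2
  have hrfH : ∀ k ≤ n, Un p (rf (1 / 2 + a) k) := fun k hk => Un.prod _ _ fun i hi =>
    hH i (by have := mem_range.mp hi; omega)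
  have hfk : ∀ k ≤ n, Un p ((k ! : ℕ) : ℚ) := fun k hk => Un.fac (by omega)
  have hv : ∀ k ≤ n, v a k ∈ Zp p := fun k hk => by
    unfold v
    rw [div_eq_mul_inv]
    exact (Zp p).mul_mem ((Zp p).mul_mem (rf_mem ha k) (rf_mem um k))
      ((hfk k hk).mul (hrfH k hk)).2.2
  have hQm : ∀ k ≤ n, Q a k ∈ Zp p := fun k hk => (Q_un hA hnp k hk).2.1
  have hhm : ∀ k ≤ n, h a k ∈ Zp p := fun k hk => h_mem hA hnp k hk
  set X := ∑ k ∈ range (n + 1), (a + 2 * k) * (v a k * Q a k) * h a k with hX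
  have hXm : X ∈ Zp p := (Zp p).sum_mem fun k hk => by
    have hk' : k ≤ n := by have := mem_range.mp hk; omega
    refine (Zp p).mul_mem ((Zp p).mul_mem ?_ ((Zp p).mul_mem (hv k hk') (hQm k hk'))) (hhm k hk')
    have := nat_mem (p := p) (2 * k)
    push_cast at this
    exact (Zp p).add_mem ha this
  -- X is divisible by p
  have hXp : I p 1 X := by
    apply R_eq_zero hXm
    have hRa : R p a = -(n : ZMod p) := by
      have e : R p (a + n) = 0 := by rw [hax]; exact R_of_I hx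
      rw [R_add ha (nat_mem n), R_nat] at e
      linear_combination e
    have hR2 : R p (2 : ℚ) = 2 := by exact_mod_cast R_nat (p := p) 2
    set c : ZMod p := R p (1 / 2) with hc
    have hc2 : 2 * c = 1 := by
      rw [hc, ← hR2, ← R_mul u2.2.1 um, mul_one_div_cancel (by norm_num), R_one]
    have h2' : (2 : ZMod p) ≠ 0 := by rw [← hR2]; exact u2.R_ne
    -- values
    have hcn : ∀ k ≤ n, rf c k ≠ 0 := by
      intro l hl
      unfold rf
      rw [prod_ne_zero_iff]
      intro i hi h0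
      have hi' : i < l := mem_range.mp hi
      have e : ((2 * i + 1 : ℕ) : ZMod p) = 0 := by
        push_cast
        linear_combination 2 * h0 - hc2
      exact absurd (Nat.le_of_dvd (by omega) ((ZMod.natCast_eq_zero_iff _ _).mp e)) (by omega)
    have key : ∀ k ≤ n, rf c n * R p (v a k * Q a k) = (n.choose k : ZMod p) ^ 3 * rf c k * rf c (n - k) := by
      intro k hk
      have hk0 : ((k ! : ℕ) : ZMod p) ≠ 0 := by rw [← R_nat]; exact (hfk k hk).R_ne
      have hfac : ((k ! : ℕ) : ℚ) = ∏ i ∈ range k, (1 + (i : ℚ)) := by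
        rw [← Finset.prod_range_add_one_eq_factorial]
        push_cast
        exact prod_congr rfl fun i _ => by ring
      have e1 : ((k ! : ℕ) : ℚ) ^ 3 * rf (1 / 2 + a) k * (v a k * Q a k) = rf a k ^ 3 * rf (1 / 2) k := by
        have hQ : Q a k * ((k ! : ℕ) : ℚ) ^ 2 = rf a k ^ 2 := by
          rw [hfac]
          unfold Q rf
          rw [prod_div_distrib, prod_pow, prod_pow]
          have : ∏ i ∈ range k, (1 + (i : ℚ)) ≠ 0 := by
            rw [← hfac]; exact (hfk k hk).1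
          field_simp
        have hv' : v a k * (((k ! : ℕ) : ℚ) * rf (1 / 2 + a) k) = rf a k * rf (1 / 2) k :=
          div_mul_cancel₀ _ ((hfk k hk).mul (hrfH k hk)).1
        linear_combination (Q a k * ((k ! : ℕ) : ℚ) ^ 2) * hv' + (rf a k * rf (1 / 2) k) * hQ
      have e2 := congrArg (R p) e1
      rw [R_mul ((Zp p).mul_mem ((Zp p).pow_mem (nat_mem _) 3) (hrfH k hk).2.1)
          ((Zp p).mul_mem (hv k hk) (hQm k hk)),
        R_mul ((Zp p).pow_mem (nat_mem _) 3) (hrfH k hk).2.1, R_pow (nat_mem _), R_nat,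
        R_mul ((Zp p).pow_mem (rf_mem ha k) 3) (rf_mem um k), R_pow (rf_mem ha k),
        R_rf ha, R_rf um, R_rf ((Zp p).add_mem um ha), R_add um ha, hRa, ← hc,
        rf_negNat n k hk] at e2
      -- split rf c n
      have e3 : rf c n = (-1) ^ k * rf (c - n) k * rf c (n - k) := by
        have : rf c n = rf c (n - k) * rf (c + ((n - k : ℕ) : ZMod p)) k := by
          rw [← rf_add]; congr 1; omega
        rw [this, rf_neg (c - (n : ZMod p)), Nat.cast_sub hk]
        rw [show 1 - (c - (n : ZMod p)) - k = c + (n - k) by linear_combination (-1) * hc2]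
        have s : ((-1 : ZMod p) ^ k) * (-1) ^ k = 1 := by rw [← mul_pow]; norm_num
        linear_combination (-(rf c (n - k) * rf (c + ((n : ZMod p) - k)) k)) * s
      rw [← sub_eq_add_neg] at e2
      have s : ((-1 : ZMod p) ^ k) * (-1) ^ k = 1 := by rw [← mul_pow]; norm_num
      have hk3 : ((k ! : ℕ) : ZMod p) ^ 3 ≠ 0 := pow_ne_zero 3 hk0
      apply mul_left_cancel₀ hk3
      rw [e3]
      linear_combination ((-1) ^ k * rf c (n - k)) * e2 +
        ((n.choose k : ZMod p) ^ 3 * ((k ! : ℕ) : ZMod p) ^ 3 * rf c k * rf c (n - k) *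
          ((-1 : ZMod p) ^ k * (-1) ^ k + 1)) * s
    have hsym : ∀ k ≤ n, R p (v a (n - k) * Q a (n - k)) = R p (v a k * Q a k) := by
      intro k hk
      apply mul_left_cancel₀ (hcn n le_rfl)
      rw [key k hk, key (n - k) (by omega), Nat.choose_symm hk, show n - (n - k) = k by omega]
      ring
    have hone : ∀ i < n, (1 + (i : ZMod p)) ≠ 0 := fun i hi => by
      have := natCast_ne (p := p) (n := 1 + i) (by omega) (by omega)
      exact_mod_cast this
    have Rh : ∀ k ≤ n, R p (h a k) = ∑ i ∈ range k, (((-(n : ZMod p) + i) ^ 2)⁻¹ - ((1 + (i : ZMod p)) ^ 2)⁻¹) := by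
      intro k hk
      unfold h
      rw [R_sum]
      swap
      · intro i hi
        have hi' := mem_range.mp hi
        have uB : Un p (1 + (i : ℚ)) := by
          have := Un.nat_lt (p := p) (n := 1 + i) (by omega) (by omega)
          exact_mod_cast this
        exact (Zp p).sub_mem ((hA i (by omega)).pow 2).2.2 (uB.pow 2).2.2
      refine sum_congr rfl fun i hi => ?_
      have hi' := mem_range.mp hi
      have uB : Un p (1 + (i : ℚ)) := by
        have := Un.nat_lt (p := p) (n := 1 + i) (by omega) (by omega)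
        exact_mod_cast this
      rw [R_sub ((hA i (by omega)).pow 2).2.2 (uB.pow 2).2.2, ((hA i (by omega)).pow 2).R_inv,
        (uB.pow 2).R_inv, R_pow (hA i (by omega)).2.1, R_pow uB.2.1, R_add ha (nat_mem i),
        R_add (Zp p).one_mem (nat_mem i), hRa, R_nat, R_one]
    -- harmonic form
    set H : ℕ → ZMod p := fun k => ∑ i ∈ range k, ((1 + (i : ZMod p)) ^ 2)⁻¹ with hH'
    have Rh2 : ∀ k ≤ n, R p (h a k) = H n - H (n - k) - H k := by
      intro k hk
      rw [Rh k hk, sum_sub_distrib]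
      have : ∑ i ∈ range k, ((-(n : ZMod p) + i) ^ 2)⁻¹ = H n - H (n - k) := by
        have e : H n = H (n - k) + ∑ i ∈ range k, ((1 + (((n - k) + i : ℕ) : ZMod p)) ^ 2)⁻¹ := by
          simp only [hH']
          rw [← sum_range_add]
          congr 2; omega
        rw [e, add_sub_cancel_left, ← sum_range_reflect]
        refine sum_congr rfl fun i hi => ?_
        have hi' := mem_range.mp hi
        rw [show n - k + i = n - (k - i) by omega, show k - 1 - i = k - (i + 1) by omega,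
          Nat.cast_sub (by omega), Nat.cast_sub (by omega), Nat.cast_sub (by omega)]
        push_cast
        congr 1
        ring
      rw [this]
    have hhs : ∀ k ≤ n, R p (h a (n - k)) = R p (h a k) := by
      intro k hk
      rw [Rh2 k hk, Rh2 (n - k) (by omega), show n - (n - k) = k by omega]
      ring
    -- conclude
    have RX : R p X = ∑ k ∈ range (n + 1), (-(n : ZMod p) + 2 * k) * R p (v a k * Q a k) * R p (h a k) := by
      rw [hX, R_sum]
      swap
      · intro k hk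
        have hk' : k ≤ n := by have := mem_range.mp hk; omega
        refine (Zp p).mul_mem ((Zp p).mul_mem ?_ ((Zp p).mul_mem (hv k hk') (hQm k hk'))) (hhm k hk')
        have := nat_mem (p := p) (2 * k)
        push_cast at this
        exact (Zp p).add_mem ha this
      refine sum_congr rfl fun k hk => ?_
      have hk' : k ≤ n := by have := mem_range.mp hk; omega
      have m2 : (2 * (k : ℚ)) ∈ Zp p := by
        have := nat_mem (p := p) (2 * k)
        push_cast at this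
        exact this
      have hvQ : v a k * Q a k ∈ Zp p := (Zp p).mul_mem (hv k hk') (hQm k hk')
      rw [R_mul ((Zp p).mul_mem ((Zp p).add_mem ha m2) hvQ) (hhm k hk'),
        R_mul ((Zp p).add_mem ha m2) hvQ, R_add ha m2, hRa,
        R_mul u2.2.1 (nat_mem k), hR2, R_nat]
    have flip : R p X = - R p X := by
      conv_lhs => rw [RX, ← sum_flip]
      rw [RX, ← sum_neg_distrib]
      refine sum_congr rfl fun k hk => ?_
      have hk' : k ≤ n := by have := mem_range.mp hk; omega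
      rw [hsym k hk', hhs k hk', Nat.cast_sub hk']
      ring
    have : 2 * R p X = 0 := by linear_combination flip
    rcases mul_eq_zero.mp this with h0 | h0
    · exact absurd h0 h2'
    · exact h0
  -- assembling
  have ex := exact_sum hax h1 h2 h3
  have e : ∑ k ∈ range (n + 1), (a + 2 * k) * (v a k * Q a k) - x =
      x ^ 2 * X - ∑ k ∈ range (n + 1), (P a x k - Q a k * (1 - x ^ 2 * h a k)) * ((a + 2 * k) * v a k) := by
    conv_lhs => rw [← ex]
    rw [hX, mul_sum, ← sum_sub_distrib, ← sum_sub_distrib]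
    refine sum_congr rfl fun k _ => ?_
    ring
  rw [e]
  refine I.sub (I.mono (by norm_num) ((sq_I hx).mul hXp)) ?_
  refine I.sum _ _ fun k hk => ?_
  have hk' : k ≤ n := by have := mem_range.mp hk; omega
  refine I.mono (by norm_num) ((expand hA hnp hx k hk').mul_mem ((Zp p).mul_mem ?_ (hv k hk')))
  have := nat_mem (p := p) (2 * k)
  push_cast at this
  exact (Zp p).add_mem ha this

lemma rf_dup (b : ℚ) (k : ℕ) : rf (2 * b) (2 * k) = 4 ^ k * rf b k * rf (1 / 2 + b) k := by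
  induction k with
  | zero => simp [rf_zero]
  | succ k ih =>
    rw [show 2 * (k + 1) = 2 * k + 1 + 1 by ring, rf_succ, rf_succ, ih, rf_succ, rf_succ, pow_succ]
    push_cast
    ring

lemma fac_rf (k : ℕ) : ((k ! : ℕ) : ℚ) = rf 1 k := by
  rw [← Finset.prod_range_add_one_eq_factorial]
  push_cast
  exact prod_congr rfl fun i _ => by ring

lemma fac_dup (k : ℕ) : (((2 * k)! : ℕ) : ℚ) = 4 ^ k * rf (1 / 2) k * (k ! : ℕ) := by
  induction k with
  | zero => simp [rf_zero]
  | succ k ih =>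
    rw [show 2 * (k + 1) = 2 * k + 1 + 1 by ring, Nat.factorial_succ, Nat.factorial_succ,
      Nat.factorial_succ, rf_succ, pow_succ]
    push_cast at ih ⊢
    rw [ih]
    ring

lemma term_eq (a : ℚ) (k : ℕ) (h1 : ∀ i : ℕ, a + i ≠ 0) (h2 : ∀ i : ℕ, 1 / 2 + a + i ≠ 0) :
    rf a k ^ 4 * (((2 * k)! : ℕ) : ℚ) / (((k ! : ℕ) : ℚ) ^ 4 * rf (2 * a) (2 * k)) =
      v a k * Q a k := by
  have n1 : rf a k ≠ 0 := WZ5.rf_ne fun i _ => h1 i
  have n2 : rf (1 / 2 + a) k ≠ 0 := WZ5.rf_ne fun i _ => h2 i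
  have n3 : ((k ! : ℕ) : ℚ) ≠ 0 := by exact_mod_cast k.factorial_ne_zero
  have hQ : Q a k = rf a k ^ 2 / ((k ! : ℕ) : ℚ) ^ 2 := by
    rw [fac_rf]
    unfold Q rf
    rw [prod_div_distrib, prod_pow, prod_pow]
  rw [rf_dup, fac_dup, hQ]
  unfold v
  generalize rf (1 / 2 + a) k = D at *
  field_simp

end Pool.Agent.Q34.S3
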