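import Pool.Agent.Q34.PF

/-!
The very-well-poised sum `∑ (1 - 2 d + 2 k) V k E k`: summation by parts and the product formula of its weights.
-/

set_option autoImplicit false

namespace Pool.Agent.Q34.VW

open Finset Nat

variable {K : Type*} [Field K]

/-- `F m = ∏ (i - 2 d)`, `1 ≤ i ≤ m` -/
noncomputable def F (d : K) (m : ℕ) : K := ∏ i ∈ range m, ((i : K) + 1 - 2 * d)

/-- the terms of the summable series -/
noncomputable def V (n : ℕ) (d : K) (k : ℕ) : K :=
  ∏ j ∈ range k, ((((j : K) + 1 - 2 * d) * (j - n)) / (((j : K) + 1) * (j + n + 2 - 2 * d)))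

/-- the partial sums of the summable series -/
noncomputable def U (n : ℕ) (d : K) (k : ℕ) : K := V n d k * (k * (k + n + 1 - 2 * d)) / (-(n : K))

theorem V_succ (n : ℕ) (d : K) (k : ℕ) :
    V n d (k + 1) = V n d k * ((((k : K) + 1 - 2 * d) * (k - n)) / (((k : K) + 1) * (k + n + 2 - 2 * d))) := by
  unfold V
  rw [prod_range_succ]

theorem F_succ (d : K) (m : ℕ) : F d (m + 1) = F d m * ((m : K) + 1 - 2 * d) := by
  unfold F
  rw [prod_range_succ]

theorem F_ne {d : K} (hF : ∀ i : ℕ, (i : K) + 1 - 2 * d ≠ 0) (m : ℕ) : F d m ≠ 0 :=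
  prod_ne_zero_iff.2 fun i _ => hF i

theorem F_add (d : K) (s m : ℕ) : F d s * ∏ j ∈ range m, ((j : K) + s + 1 - 2 * d) = F d (s + m) := by
  unfold F
  rw [prod_range_add]
  congr 1
  refine prod_congr rfl fun j _ => ?_
  push_cast
  ring

variable [CharZero K]

theorem U_diff {n : ℕ} (hn : 0 < n) {d : K} (hF : ∀ i : ℕ, (i : K) + 1 - 2 * d ≠ 0) (k : ℕ) :
    U n d (k + 1) - U n d k = (1 - 2 * d + 2 * k) * V n d k := by
  have h1 : (k : K) + 1 ≠ 0 := by exact_mod_cast Nat.succ_ne_zero k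
  have h2 : (k : K) + n + 2 - 2 * d ≠ 0 := by
    have := hF (k + n + 1)
    push_cast at this
    intro h
    exact this (by rw [← h]; ring)
  have hn' : (n : K) ≠ 0 := by exact_mod_cast hn.ne'
  unfold U
  rw [V_succ]
  push_cast
  field_simp
  ring

theorem U_zero (n : ℕ) (d : K) : U n d 0 = 0 := by
  unfold U
  push_cast
  ring

theorem U_last (n : ℕ) (d : K) : U n d (n + 1) = 0 := by
  unfold U
  rw [V_succ]
  simp

/-- summation by parts -/
theorem abel {n : ℕ} (hn : 0 < n) {d : K} (hF : ∀ i : ℕ, (i : K) + 1 - 2 * d ≠ 0) (E e : ℕ → K)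
    (hE : ∀ k, E (k + 1) = E k * e k) :
    ∑ k ∈ range (n + 1), (1 - 2 * d + 2 * k) * (V n d k * E k) =
      -∑ k ∈ range n, U n d (k + 1) * (E k * (e k - 1)) := by
  have h : ∀ m : ℕ, ∑ k ∈ range (m + 1), (1 - 2 * d + 2 * k) * (V n d k * E k) =
      U n d (m + 1) * E m - ∑ k ∈ range m, U n d (k + 1) * (E k * (e k - 1)) := by
    intro m
    induction m with
    | zero =>
      rw [sum_range_one, sum_range_zero, sub_zero, ← mul_assoc, ← U_diff hn hF 0, U_zero]
      ring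
    | succ m ih =>
      rw [sum_range_succ, ih, sum_range_succ _ m, ← mul_assoc, ← U_diff hn hF (m + 1), hE m]
      ring
  rw [h n, U_last]
  ring

theorem prod_desc (n m : ℕ) (h : m ≤ n) :
    (∏ j ∈ range m, ((j : K) - n)) * ((n - m)! : ℕ) = (-1) ^ m * (n ! : ℕ) := by
  induction m with
  | zero => simp
  | succ m ih =>
    have e : n - m = (n - (m + 1)) + 1 := by omega
    have ih' := ih (by omega)
    rw [e, Nat.factorial_succ] at ih'
    have e2 : ((n - (m + 1) : ℕ) : K) = n - (m + 1) := by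
      rw [Nat.cast_sub h]
      push_cast
      ring
    push_cast at ih'
    rw [e2] at ih'
    rw [prod_range_succ, pow_succ]
    have : (∏ j ∈ range m, ((j : K) - n)) * ((m : K) - n) * ((n - (m + 1))! : ℕ) =
      -((∏ j ∈ range m, ((j : K) - n)) * ((n - (m + 1) + 1) * ((n - (m + 1))! : ℕ))) := by ring
    rw [this, ih']
    ring

theorem V_closed {n : ℕ} {d : K} (hF : ∀ i : ℕ, (i : K) + 1 - 2 * d ≠ 0) (k : ℕ) (hk : k ≤ n) :
    V n d k * (((k ! : ℕ) : K) * F d (n + 1 + k) * ((n - k)! : ℕ)) =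
      F d k * F d (n + 1) * ((-1) ^ k * (n ! : ℕ)) := by
  rw [← prod_desc n k hk, ← F_add d (n + 1) k]
  have h1 : V n d k = (F d k * ∏ j ∈ range k, ((j : K) - n)) /
      (((k ! : ℕ) : K) * ∏ j ∈ range k, ((j : K) + (n + 1 : ℕ) + 1 - 2 * d)) := by
    unfold V F
    rw [← prod_range_add_one_eq_factorial]
    push_cast
    rw [← prod_mul_distrib, ← prod_mul_distrib, ← prod_div_distrib]
    refine prod_congr rfl fun j _ => ?_
    congr 2
    ring
  have h2 : ∏ j ∈ range k, ((j : K) + (n + 1 : ℕ) + 1 - 2 * d) ≠ 0 := by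
    refine prod_ne_zero_iff.2 fun j _ => ?_
    have := hF (j + (n + 1))
    push_cast at this ⊢
    exact this
  have h3 : ((k ! : ℕ) : K) ≠ 0 := by exact_mod_cast k.factorial_ne_zero
  rw [h1, div_mul_eq_mul_div, div_eq_iff (mul_ne_zero h3 h2)]
  ring

/-- the squares of `j + 1 - d` -/
noncomputable def z (d : K) (j : ℕ) : K := ((j : K) + 1 - d) ^ 2

theorem z_sub (d : K) (j k : ℕ) : z d j - z d k = ((j : K) - k) * ((j : K) + (k + 1 : ℕ) + 1 - 2 * d) := by
  unfold z
  push_cast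
  ring

theorem z_ne {d : K} (hF : ∀ i : ℕ, (i : K) + 1 - 2 * d ≠ 0) (j : ℕ) : z d j ≠ 0 := by
  unfold z
  refine pow_ne_zero 2 ?_
  have := hF (2 * j + 1)
  push_cast at this
  intro h
  apply this
  have : (2 * (j : K) + 1 + 1 - 2 * d) = 2 * ((j : K) + 1 - d) := by ring
  rw [this, h, mul_zero]

theorem z_inj {d : K} (hF : ∀ i : ℕ, (i : K) + 1 - 2 * d ≠ 0) (j k : ℕ) (h : j ≠ k) : z d j ≠ z d k := by
  intro hz
  have h1 := z_sub d j k
  rw [hz, sub_self] at h1
  have h2 : ((j : K) - k) ≠ 0 := sub_ne_zero.2 (by exact_mod_cast h)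
  have h3 : ((j : K) + (k + 1 : ℕ) + 1 - 2 * d) ≠ 0 := by
    have := hF (j + (k + 1))
    push_cast at this ⊢
    exact this
  exact mul_ne_zero h2 h3 h1.symm

theorem erase_prod {n k : ℕ} (hk : k < n) (f : ℕ → K) :
    ∏ j ∈ (range n).erase k, f j = (∏ j ∈ range k, f j) * ∏ j ∈ range (n - (k + 1)), f (k + 1 + j) := by
  have h1 : f k * ∏ j ∈ (range n).erase k, f j = ∏ j ∈ range n, f j := mul_prod_erase _ _ (mem_range.2 hk)
  have e : n = (k + 1) + (n - (k + 1)) := by omega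
  have h2 : ∏ j ∈ range n, f j = (∏ j ∈ range k, f j) * f k * ∏ j ∈ range (n - (k + 1)), f (k + 1 + j) := by
    conv_lhs => rw [e]
    rw [prod_range_add, prod_range_succ]
  by_cases h0 : f k = 0
  · -- both sides computed directly
    have e3 : (range n).erase k = (range k) ∪ ((range (n - (k + 1))).image fun j => k + 1 + j) := by
      ext a
      simp only [mem_erase, mem_range, mem_union, mem_image]
      constructor
      · rintro ⟨h, h'⟩
        rcases Nat.lt_or_ge a k with h4 | h4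
        · exact Or.inl h4
        · exact Or.inr ⟨a - (k + 1), by omega, by omega⟩
      · rintro (h | ⟨b, hb, rfl⟩)
        · exact ⟨by omega, by omega⟩
        · exact ⟨by omega, by omega⟩
    rw [e3, prod_union, prod_image]
    · intro a _ b _ hab
      simpa using hab
    · rw [disjoint_left]
      intro a ha hb
      simp only [mem_range, mem_image] at ha hb
      obtain ⟨b, _, rfl⟩ := hb
      omega
  · apply mul_left_cancel₀ h0
    rw [h1, h2]
    ring

theorem key {n k : ℕ} {d : K} (hF : ∀ i : ℕ, (i : K) + 1 - 2 * d ≠ 0) (hk : k < n) :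
    V n d (k + 1) * (((k : K) + 1) * (k + n + 2 - 2 * d)) * (2 * ((k : K) + 1 - d)) *
      ∏ j ∈ (range n).erase k, (z d j - z d k) = -((n ! : ℕ) * F d (n + 1)) := by
  rw [erase_prod hk]
  -- first product
  have a1 : ∏ j ∈ range k, (z d j - z d k) = ((-1) ^ k * (k ! : ℕ)) *
      ∏ j ∈ range k, ((j : K) + (k + 1 : ℕ) + 1 - 2 * d) := by
    have := prod_desc (K := K) k k le_rfl
    rw [Nat.sub_self, Nat.factorial_zero, Nat.cast_one, mul_one] at this
    rw [← this, ← prod_mul_distrib]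
    exact prod_congr rfl fun j _ => z_sub d j k
  have a2 : ∏ j ∈ range (n - (k + 1)), (z d (k + 1 + j) - z d k) = ((n - (k + 1))! : ℕ) *
      ∏ j ∈ range (n - (k + 1)), ((j : K) + (2 * k + 2 : ℕ) + 1 - 2 * d) := by
    rw [← prod_range_add_one_eq_factorial]
    push_cast
    rw [← prod_mul_distrib]
    refine prod_congr rfl fun j _ => ?_
    rw [z_sub]
    push_cast
    ring
  have b1 := F_add d (k + 1) k
  have b2 := F_add d (2 * k + 2) (n - (k + 1))
  have e1 : k + 1 + k = 2 * k + 1 := by ring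
  have e2 : 2 * k + 2 + (n - (k + 1)) = n + k + 1 := by omega
  rw [e1] at b1
  rw [e2] at b2
  have c1 : F d (2 * k + 2) = F d (2 * k + 1) * (2 * ((k : K) + 1 - d)) := by
    rw [F_succ]
    push_cast
    ring
  have c2 : F d (n + 1 + (k + 1)) = F d (n + k + 1) * ((k : K) + n + 2 - 2 * d) := by
    rw [show n + 1 + (k + 1) = (n + k + 1) + 1 by ring, F_succ]
    push_cast
    ring
  have v := V_closed hF (k + 1) (show k + 1 ≤ n by omega)
  rw [c2] at v
  rw [a1, a2]
  rw [← b1] at c1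
  rw [← b2, c1] at v
  have f1 := F_ne hF (k + 1)
  have f2 : ∏ j ∈ range k, ((j : K) + (k + 1 : ℕ) + 1 - 2 * d) ≠ 0 := by
    intro h
    rw [h, mul_zero] at b1
    exact F_ne hF _ b1.symm
  have f3 : ((k + 1)! : K) = ((k : K) + 1) * (k ! : ℕ) := by
    rw [Nat.factorial_succ]
    push_cast
    ring
  have f4 : (-1 : K) ^ (k + 1) = -(-1) ^ k := by rw [pow_succ]; ring
  rw [f3, f4] at v
  have sgn : ((-1 : K) ^ k) * (-1) ^ k = 1 := by
    rw [← mul_pow]
    norm_num
  apply mul_left_cancel₀ f1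
  calc F d (k + 1) * (V n d (k + 1) * (((k : K) + 1) * (k + n + 2 - 2 * d)) * (2 * ((k : K) + 1 - d)) *
      ((-1) ^ k * (k ! : ℕ) * (∏ j ∈ range k, ((j : K) + (k + 1 : ℕ) + 1 - 2 * d)) *
        (((n - (k + 1))! : ℕ) * ∏ j ∈ range (n - (k + 1)), ((j : K) + (2 * k + 2 : ℕ) + 1 - 2 * d))))
      = (-1) ^ k * (V n d (k + 1) * (((k : K) + 1) * (k ! : ℕ) *
          (F d (k + 1) * (∏ j ∈ range k, ((j : K) + (k + 1 : ℕ) + 1 - 2 * d)) * (2 * ((k : K) + 1 - d)) *
            (∏ j ∈ range (n - (k + 1)), ((j : K) + (2 * k + 2 : ℕ) + 1 - 2 * d)) *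
            ((k : K) + n + 2 - 2 * d)) * ((n - (k + 1))! : ℕ))) := by ring
    _ = (-1) ^ k * (F d (k + 1) * F d (n + 1) * (-(-1) ^ k * (n ! : ℕ))) := by rw [v]
    _ = -(((-1) ^ k * (-1) ^ k) * (F d (k + 1) * ((n ! : ℕ) * F d (n + 1)))) := by ring
    _ = F d (k + 1) * -((n ! : ℕ) * F d (n + 1)) := by rw [sgn]; ring

end Pool.Agent.Q34.VW
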