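import Pool.Agent.Q34.VWn
import Pool.Agent.Q34.Red

/-!
The supercongruence for the truncated very-well-poised series with `2 M` equal parameters.
-/

set_option autoImplicit false

namespace Pool.Agent.Q34.VW

open Finset Nat

/-- the data -/
structure Ctx (p : ℕ) [Fact p.Prime] (s M n v : ℕ) : Prop where
  h3 : 3 < p
  hn : n + 1 = p ^ (s + 1)
  hM : ¬ p ∣ M
  hM2 : 2 ≤ M
  hv : v ≤ 1
  hv1 : padicNorm p ((M : ℚ) - 1) ≤ (p : ℚ)⁻¹ ^ v

/-- `P / (2 M)` -/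
noncomputable def dd (p s M : ℕ) : ℚ := (p : ℚ) ^ (s + 1) / (2 * M)

/-- the variable of the expansions -/
noncomputable def xx (d : ℚ) (j : ℕ) : ℚ := d / ((j : ℚ) + 1 - d)

variable {p : ℕ} [hp : Fact p.Prime] {s M n v : ℕ}


namespace Ctx

theorem N2 (C : Ctx p s M n v) : padicNorm p (2 : ℚ) = 1 := by
  have h : ¬ p ∣ 2 := fun h => by
    have := Nat.le_of_dvd (by norm_num) h
    have := C.h3
    omega
  exact_mod_cast (padicNorm.nat_eq_one_iff (p := p) 2).2 h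

theorem NM (C : Ctx p s M n v) : padicNorm p (M : ℚ) = 1 := (padicNorm.nat_eq_one_iff (p := p) M).2 C.hM

theorem M0 (C : Ctx p s M n v) : (M : ℚ) ≠ 0 := by
  have := C.hM2
  positivity

theorem Nd (C : Ctx p s M n v) : padicNorm p (dd p s M) = (p : ℚ)⁻¹ ^ (s + 1) := by
  unfold dd
  rw [padicNorm.div, padicNorm.mul, C.N2, C.NM, N_p_pow]
  ring

theorem P_eq (C : Ctx p s M n v) : (n : ℚ) + 1 = 2 * M * dd p s M := by
  have h1 : ((n : ℚ) + 1) = (p : ℚ) ^ (s + 1) := by exact_mod_cast C.hn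
  rw [h1]
  unfold dd
  have := C.M0
  field_simp

theorem n_pos (C : Ctx p s M n v) : 0 < n := by
  have h := C.hn
  have h3 := C.h3
  have : p ^ 1 ≤ p ^ (s + 1) := Nat.pow_le_pow_right hp.out.pos (by omega)
  rw [pow_one] at this
  omega

theorem hF (C : Ctx p s M n v) (i : ℕ) : (i : ℚ) + 1 - 2 * dd p s M ≠ 0 := by
  intro h
  have hM0 := C.M0
  have h1 : (M : ℚ) * ((i : ℚ) + 1) = (p : ℚ) ^ (s + 1) := by
    have h2 : 2 * M * dd p s M = (p : ℚ) ^ (s + 1) := by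
      unfold dd
      field_simp
    rw [← h2]
    linear_combination (M : ℚ) * h
  have h2 : M * (i + 1) = p ^ (s + 1) := by exact_mod_cast h1
  have h3 : M ∣ p ^ (s + 1) := ⟨i + 1, h2.symm⟩
  have h4 : Nat.Coprime M (p ^ (s + 1)) := by
    refine Nat.Coprime.pow_right _ ?_
    rw [Nat.coprime_comm]
    exact (Nat.Prime.coprime_iff_not_dvd hp.out).2 C.hM
  have h5 : M = 1 := Nat.Coprime.eq_one_of_dvd h4 h3
  have := C.hM2
  omega

theorem N_ge (C : Ctx p s M n v) {j : ℕ} (hj : j < n) : (p : ℚ)⁻¹ ^ s ≤ padicNorm p ((j : ℚ) + 1) := by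
  have h : ¬ p ^ (s + 1) ∣ (j + 1) := by
    intro h
    have := Nat.le_of_dvd (by omega) h
    have := C.hn
    omega
  have := N_nat_ge (p := p) h
  push_cast at this
  exact this

theorem lt (C : Ctx p s M n v) {j : ℕ} (hj : j < n) : (p : ℚ)⁻¹ ^ (s + 1) < padicNorm p ((j : ℚ) + 1) := by
  refine lt_of_lt_of_le ?_ (C.N_ge hj)
  rw [pow_succ]
  have h := t_pos (p := p)
  exact mul_lt_of_lt_one_right (by positivity) t_lt_one

theorem N_a (C : Ctx p s M n v) {j : ℕ} (hj : j < n) {y : ℚ} (hy : padicNorm p y ≤ (p : ℚ)⁻¹ ^ (s + 1)) :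
    padicNorm p ((j : ℚ) + 1 - y) = padicNorm p ((j : ℚ) + 1) := N_sub_eq (hy.trans_lt (C.lt hj))

theorem N_2d (C : Ctx p s M n v) : padicNorm p (2 * dd p s M) ≤ (p : ℚ)⁻¹ ^ (s + 1) := by
  rw [padicNorm.mul, C.N2, C.Nd, one_mul]

theorem N_P (C : Ctx p s M n v) : padicNorm p ((n : ℚ) + 1) = (p : ℚ)⁻¹ ^ (s + 1) := by
  have h1 : ((n : ℚ) + 1) = (p : ℚ) ^ (s + 1) := by exact_mod_cast C.hn
  rw [h1, N_p_pow]

theorem N_n (C : Ctx p s M n v) : padicNorm p (n : ℚ) = 1 := by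
  have h : (n : ℚ) = -1 + ((n : ℚ) + 1) := by ring
  rw [h, N_add_eq]
  · rw [padicNorm.neg, padicNorm.one]
  · rw [C.N_P, padicNorm.neg, padicNorm.one, pow_succ]
    have h1 : (p : ℚ)⁻¹ ^ s ≤ 1 := pow_le_one₀ t_pos.le t_le_one
    calc (p : ℚ)⁻¹ ^ s * (p : ℚ)⁻¹ ≤ 1 * (p : ℚ)⁻¹ := mul_le_mul_of_nonneg_right h1 t_pos.le
      _ < 1 := by rw [one_mul]; exact t_lt_one

theorem N_1 (C : Ctx p s M n v) {j : ℕ} (hj : j < n) : padicNorm p ((j : ℚ) + 1 - dd p s M) = padicNorm p ((j : ℚ) + 1) :=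
  C.N_a hj C.Nd.le

theorem N_2 (C : Ctx p s M n v) {j : ℕ} (hj : j < n) : padicNorm p ((j : ℚ) + 1 - 2 * dd p s M) = padicNorm p ((j : ℚ) + 1) :=
  C.N_a hj C.N_2d

theorem N_3 (C : Ctx p s M n v) {j : ℕ} (hj : j < n) : padicNorm p ((j : ℚ) - n) = padicNorm p ((j : ℚ) + 1) := by
  have : (j : ℚ) - n = (j : ℚ) + 1 - ((n : ℚ) + 1) := by ring
  rw [this]
  exact C.N_a hj C.N_P.le

theorem N_4 (C : Ctx p s M n v) {j : ℕ} (hj : j < n) : padicNorm p ((j : ℚ) + n + 2 - 2 * dd p s M) = padicNorm p ((j : ℚ) + 1) := by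
  have : (j : ℚ) + n + 2 - 2 * dd p s M = (j : ℚ) + 1 - (2 * dd p s M - ((n : ℚ) + 1)) := by ring
  rw [this]
  exact C.N_a hj (N_sub_le C.N_2d C.N_P.le)

theorem N_pos (C : Ctx p s M n v) {j : ℕ} (hj : j < n) : 0 < padicNorm p ((j : ℚ) + 1) :=
  lt_trans (pow_pos t_pos _) (C.lt hj)

theorem N_x (C : Ctx p s M n v) {j : ℕ} (hj : j < n) :
    padicNorm p (xx (dd p s M) j) * padicNorm p ((j : ℚ) + 1) = (p : ℚ)⁻¹ ^ (s + 1) := by
  unfold xx
  rw [padicNorm.div, C.N_1 hj, C.Nd, div_mul_cancel₀ _ (C.N_pos hj).ne']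

theorem N_x_le (C : Ctx p s M n v) {j : ℕ} (hj : j < n) : padicNorm p (xx (dd p s M) j) ≤ (p : ℚ)⁻¹ := by
  have h := C.N_x hj
  have h2 := C.N_ge hj
  have h3 : 0 < (p : ℚ)⁻¹ ^ s := pow_pos t_pos _
  by_contra hlt
  push Not at hlt
  have : (p : ℚ)⁻¹ * (p : ℚ)⁻¹ ^ s < padicNorm p (xx (dd p s M) j) * padicNorm p ((j : ℚ) + 1) :=
    mul_lt_mul hlt h2 h3 (padicNorm.nonneg _)
  rw [h, pow_succ, mul_comm] at this
  exact lt_irrefl _ this

theorem N_V (C : Ctx p s M n v) {k : ℕ} (hk : k ≤ n) : padicNorm p (V n (dd p s M) k) = 1 := by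
  unfold V
  rw [N_prod]
  refine prod_eq_one fun j hj => ?_
  have hj' : j < n := lt_of_lt_of_le (mem_range.1 hj) hk
  rw [padicNorm.div, padicNorm.mul, padicNorm.mul, C.N_2 hj', C.N_3 hj', C.N_4 hj']
  exact div_self (mul_pos (C.N_pos hj') (C.N_pos hj')).ne'

theorem N_U (C : Ctx p s M n v) {k : ℕ} (hk : k < n) :
    padicNorm p (U n (dd p s M) (k + 1)) * padicNorm p (xx (dd p s M) k) ^ 2 = ((p : ℚ)⁻¹ ^ (s + 1)) ^ 2 := by
  have h1 : padicNorm p (U n (dd p s M) (k + 1)) = padicNorm p ((k : ℚ) + 1) ^ 2 := by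
    unfold U
    rw [padicNorm.div, padicNorm.neg, C.N_n, div_one, padicNorm.mul, C.N_V (by omega), one_mul, padicNorm.mul]
    have e1 : ((k + 1 : ℕ) : ℚ) = (k : ℚ) + 1 := by push_cast; ring
    have e2 : (((k + 1 : ℕ) : ℚ) + n + 1 - 2 * dd p s M) = (k : ℚ) + n + 2 - 2 * dd p s M := by push_cast; ring
    rw [e2, e1, C.N_4 hk]
    ring
  rw [h1, ← C.N_x hk]
  ring

/-- the ratio of consecutive terms -/
theorem ratio (C : Ctx p s M n v) {k : ℕ} (hk : k < n) :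
    (((k : ℚ) + 1 - 2 * dd p s M) / ((k : ℚ) + 1)) ^ (2 * M) =
      ((((k : ℚ) + 1 - 2 * dd p s M) * (k - n)) / (((k : ℚ) + 1) * (k + n + 2 - 2 * dd p s M))) *
        ep (2 * M - 1) (xx (dd p s M) k) := by
  set d := dd p s M with hd
  have hM2 := C.hM2
  have e0 : 2 * M = (2 * M - 1) + 1 := by omega
  set q := 2 * M - 1 with hq
  have hy : (k : ℚ) + 1 - d ≠ 0 := by
    intro h
    have := C.N_1 hk
    rw [← hd, h, padicNorm.zero] at this
    exact (C.N_pos hk).ne this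
  have hk1 : (k : ℚ) + 1 ≠ 0 := by exact_mod_cast Nat.succ_ne_zero k
  have hk2 : (k : ℚ) + 1 - 2 * d ≠ 0 := C.hF k
  have hk3 : (k : ℚ) - n ≠ 0 := by
    rw [sub_ne_zero]
    exact_mod_cast hk.ne
  have hk4 : (k : ℚ) + n + 2 - 2 * d ≠ 0 := by
    have := C.hF (k + n + 1)
    push_cast at this
    intro h
    exact this (by rw [← h]; ring)
  have hP : (n : ℚ) + 1 = (q + 1) * d := by
    rw [C.P_eq, ← hd]
    have : ((2 * M : ℕ) : ℚ) = ((q + 1 : ℕ) : ℚ) := by rw [← e0]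
    push_cast at this
    rw [this]
  set x := xx d k with hx
  have hx' : x * ((k : ℚ) + 1 - d) = d := by
    rw [hx]
    unfold xx
    exact div_mul_cancel₀ _ hy
  have r1 : (k : ℚ) + 1 - 2 * d = ((k : ℚ) + 1 - d) * (1 - x) := by linear_combination hx'
  have r2 : (k : ℚ) + 1 = ((k : ℚ) + 1 - d) * (1 + x) := by linear_combination -hx'
  have r3 : (k : ℚ) - n = ((k : ℚ) + 1 - d) * (1 - q * x) := by linear_combination (q : ℚ) * hx' - hP
  have r4 : (k : ℚ) + n + 2 - 2 * d = ((k : ℚ) + 1 - d) * (1 + q * x) := by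
    linear_combination -(q : ℚ) * hx' + hP
  have s1 : 1 - x ≠ 0 := fun h => hk2 (by rw [r1, h, mul_zero])
  have s2 : 1 + x ≠ 0 := fun h => hk1 (by rw [r2, h, mul_zero])
  have s3 : 1 - q * x ≠ 0 := fun h => hk3 (by rw [r3, h, mul_zero])
  have s4 : 1 + q * x ≠ 0 := fun h => hk4 (by rw [r4, h, mul_zero])
  have t1 : ((k : ℚ) + 1 - 2 * d) / ((k : ℚ) + 1) = (1 - x) / (1 + x) := by
    rw [r1]
    nth_rw 2 [r2]
    rw [mul_div_mul_left _ _ hy]
  have t2 : (((k : ℚ) + 1 - 2 * d) * (k - n)) / (((k : ℚ) + 1) * (k + n + 2 - 2 * d)) =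
      ((1 - x) * (1 - q * x)) / ((1 + x) * (1 + q * x)) := by
    rw [r4, r3]
    rw [show ((k : ℚ) + 1 - 2 * d) * (((k : ℚ) + 1 - d) * (1 - q * x)) =
      ((k : ℚ) + 1 - d) * (((k : ℚ) + 1 - 2 * d) * (1 - q * x)) by ring,
      show ((k : ℚ) + 1) * (((k : ℚ) + 1 - d) * (1 + q * x)) =
      ((k : ℚ) + 1 - d) * (((k : ℚ) + 1) * (1 + q * x)) by ring,
      mul_div_mul_left _ _ hy, mul_div_mul_comm, t1, ← mul_div_mul_comm]
  rw [t1, t2, e0]
  unfold ep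
  rw [pow_succ, div_pow]
  have p1 := pow_ne_zero q s1
  have p2 := pow_ne_zero q s2
  rw [_root_.div_mul_div_comm, _root_.div_mul_div_comm, div_eq_div_iff (mul_ne_zero p2 s2)
    (mul_ne_zero (mul_ne_zero s2 s4) (mul_ne_zero p2 s3))]
  ring

/-- the series is the product of the summable series and of the perturbation -/
theorem W_eq (C : Ctx p s M n v) {k : ℕ} (hk : k ≤ n) :
    (∏ j ∈ range k, (((j : ℚ) + 1 - 2 * dd p s M) / ((j : ℚ) + 1))) ^ (2 * M) =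
      V n (dd p s M) k * ∏ j ∈ range k, ep (2 * M - 1) (xx (dd p s M) j) := by
  rw [← prod_pow]
  unfold V
  rw [← prod_mul_distrib]
  refine prod_congr rfl fun j hj => ?_
  exact C.ratio (lt_of_lt_of_le (mem_range.1 hj) hk)

end Ctx

end Pool.Agent.Q34.VW
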