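import Pool.Agent.Q34.VWb

/-!
The supercongruence for the truncated very-well-poised series with `2 M` equal parameters: the estimates.
-/

set_option autoImplicit false

namespace Pool.Agent.Q34.VW

open Finset Nat

variable {p : ℕ} [hp : Fact p.Prime] {s M n v : ℕ}


theorem tau_pow_le {a b : ℕ} (h : a ≤ b) : (p : ℚ)⁻¹ ^ b ≤ (p : ℚ)⁻¹ ^ a := pow_le_pow_of_le_one t_pos.le t_le_one h

namespace Ctx

theorem N_G (C : Ctx p s M n v) : padicNorm p (G3 (2 * M - 1)) ≤ (p : ℚ)⁻¹ ^ v := by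
  have hM2 := C.hM2
  obtain ⟨q, hq⟩ : ∃ q, q = 2 * M - 1 := ⟨_, rfl⟩
  rw [← hq]
  have hqM : (q : ℚ) = 2 * M - 1 := by
    rw [hq, Nat.cast_sub (by omega)]
    push_cast
    ring
  have c2 : ((q.choose 2 : ℕ) : ℚ) = q * (q - 1) / 2 := Nat.cast_choose_two ℚ q
  have c3 : ((q.choose 3 : ℕ) : ℚ) * 3 = (q.choose 2 : ℕ) * ((q : ℚ) - 2) := by
    have h := Nat.choose_succ_right_eq q 2
    have h2 : (((q.choose (2 + 1) * (2 + 1) : ℕ)) : ℚ) = ((q.choose 2 * (q - 2) : ℕ) : ℚ) := by rw [h]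
    rw [Nat.cast_mul, Nat.cast_mul, Nat.cast_sub (by omega)] at h2
    push_cast at h2
    exact h2
  have h3G : 3 * G3 q = 8 * q * M * ((M : ℚ) - 1) := by
    unfold G3
    have : 3 * (2 * ((q : ℚ) * (q.choose 2 : ℕ) - (q.choose 3 : ℕ))) =
        2 * (3 * q * (q.choose 2 : ℕ) - (q.choose 3 : ℕ) * 3) := by ring
    rw [this, c3, c2, hqM]
    ring
  have N3 : padicNorm p (3 : ℚ) = 1 := by
    have h : ¬ p ∣ 3 := fun h => by
      have := Nat.le_of_dvd (by norm_num) h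
      have := C.h3
      omega
    exact_mod_cast (padicNorm.nat_eq_one_iff (p := p) 3).2 h
  have e : padicNorm p (G3 q) = padicNorm p (3 * G3 q) := by rw [padicNorm.mul, N3, one_mul]
  rw [e, h3G, padicNorm.mul]
  have h1 : padicNorm p (8 * (q : ℚ) * M) ≤ 1 := by
    have := N_nat (p := p) (8 * q * M)
    push_cast at this
    exact this
  calc padicNorm p (8 * (q : ℚ) * M) * padicNorm p ((M : ℚ) - 1) ≤ 1 * (p : ℚ)⁻¹ ^ v :=
        mul_le_mul h1 C.hv1 (padicNorm.nonneg _) zero_le_one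
    _ = (p : ℚ)⁻¹ ^ v := one_mul _

theorem ep_sub (C : Ctx p s M n v) {k : ℕ} (hk : k < n) :
    padicNorm p (ep (2 * M - 1) (xx (dd p s M) k) - 1 -
      (G3 (2 * M - 1) * xx (dd p s M) k ^ 3 + G5 (2 * M - 1) * xx (dd p s M) k ^ 5)) ≤
      max ((p : ℚ)⁻¹ ^ v * padicNorm p (xx (dd p s M) k) ^ 6) (padicNorm p (xx (dd p s M) k) ^ 7) := by
  refine (ep_exp _ (C.N_x_le hk)).trans (max_le_max ?_ le_rfl)
  exact mul_le_mul_of_nonneg_right C.N_G (pow_nonneg (padicNorm.nonneg _) _)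

theorem ep_one (C : Ctx p s M n v) {k : ℕ} (hk : k < n) :
    padicNorm p (ep (2 * M - 1) (xx (dd p s M) k) - 1) ≤ (p : ℚ)⁻¹ ^ v * padicNorm p (xx (dd p s M) k) ^ 3 := by
  set x := xx (dd p s M) k with hx
  have ha := C.N_x_le hk
  rw [← hx] at ha
  have ha0 : 0 ≤ padicNorm p x := padicNorm.nonneg _
  have ha1 : padicNorm p x ≤ 1 := N_le_one_of ha
  have ht := t_pos (p := p)
  have h2 : padicNorm p x ^ 2 ≤ (p : ℚ)⁻¹ ^ v := by
    calc padicNorm p x ^ 2 ≤ (p : ℚ)⁻¹ ^ 2 := pow_le_pow_left₀ ha0 ha 2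
      _ ≤ (p : ℚ)⁻¹ ^ v := tau_pow_le (by have := C.hv; omega)
  have h5 : padicNorm p x ^ 5 ≤ (p : ℚ)⁻¹ ^ v * padicNorm p x ^ 3 := by
    calc padicNorm p x ^ 5 = padicNorm p x ^ 2 * padicNorm p x ^ 3 := by ring
      _ ≤ (p : ℚ)⁻¹ ^ v * padicNorm p x ^ 3 := mul_le_mul_of_nonneg_right h2 (pow_nonneg ha0 _)
  have e : ep (2 * M - 1) x - 1 = (ep (2 * M - 1) x - 1 - (G3 (2 * M - 1) * x ^ 3 + G5 (2 * M - 1) * x ^ 5)) +
      (G3 (2 * M - 1) * x ^ 3 + G5 (2 * M - 1) * x ^ 5) := by ring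
  rw [e]
  refine N_add_le ((C.ep_sub hk).trans (max_le ?_ ?_)) (N_add_le ?_ ?_)
  · exact mul_le_mul_of_nonneg_left (pow_le_pow_of_le_one ha0 ha1 (by norm_num)) (pow_nonneg ht.le _)
  · exact (pow_le_pow_of_le_one ha0 ha1 (by norm_num)).trans h5
  · rw [padicNorm.mul, N_pow]
    exact mul_le_mul_of_nonneg_right C.N_G (pow_nonneg ha0 _)
  · rw [padicNorm.mul, N_pow]
    exact (mul_le_of_le_one_left (pow_nonneg ha0 _) (N_G5 _)).trans h5

/-- the perturbation -/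
noncomputable def EE (p s M : ℕ) (k : ℕ) : ℚ := ∏ j ∈ range k, ep (2 * M - 1) (xx (dd p s M) j)

theorem EE_succ (k : ℕ) : EE p s M (k + 1) = EE p s M k * ep (2 * M - 1) (xx (dd p s M) k) := by
  unfold EE
  rw [prod_range_succ]

theorem EE_one (C : Ctx p s M n v) {k : ℕ} (hk : k ≤ n) : padicNorm p (EE p s M k - 1) ≤ (p : ℚ)⁻¹ ^ (v + 3) := by
  induction k with
  | zero =>
    unfold EE
    simp only [range_zero, prod_empty, sub_self, padicNorm.zero]
    exact pow_nonneg t_pos.le _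
  | succ k ih =>
    have ih' := ih (by omega)
    have h1 : padicNorm p (EE p s M k) ≤ 1 := by
      have : EE p s M k = 1 + (EE p s M k - 1) := by ring
      rw [this]
      refine N_add_le (by rw [padicNorm.one]) (ih'.trans (pow_le_one₀ t_pos.le t_le_one))
    have e : EE p s M (k + 1) - 1 = EE p s M k * (ep (2 * M - 1) (xx (dd p s M) k) - 1) + (EE p s M k - 1) := by
      rw [EE_succ]
      ring
    rw [e]
    refine N_add_le ?_ ih'
    have h2 := N_mul_le h1 (C.ep_one (show k < n by omega))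
    refine h2.trans ?_
    rw [one_mul, pow_add]
    refine mul_le_mul_of_nonneg_left ?_ (pow_nonneg t_pos.le _)
    exact pow_le_pow_left₀ (padicNorm.nonneg _) (C.N_x_le (by omega)) 3

/-- the constant of the partial fractions -/
noncomputable def Z1 (n : ℕ) (d : ℚ) : ℚ := -((n ! : ℕ) * F d (n + 1)) / ∏ j ∈ range n, z d j

theorem y_ne (C : Ctx p s M n v) (k : ℕ) : (k : ℚ) + 1 - dd p s M ≠ 0 := by
  have h := z_ne C.hF k
  unfold z at h
  exact fun h0 => h (by rw [h0]; ring)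

theorem U_key (C : Ctx p s M n v) {k : ℕ} (hk : k < n) :
    U n (dd p s M) (k + 1) * (-(n : ℚ)) * (2 * ((k : ℚ) + 1 - dd p s M)) =
      Z1 n (dd p s M) * PF.lb (range n) (z (dd p s M)) 0 k * z (dd p s M) k := by
  set d := dd p s M with hd
  have hn : (n : ℚ) ≠ 0 := by exact_mod_cast C.n_pos.ne'
  have hE : ∏ j ∈ (range n).erase k, (z d j - z d k) ≠ 0 := by
    refine prod_ne_zero_iff.2 fun j hj => sub_ne_zero.2 (z_inj C.hF j k (mem_erase.1 hj).1)
  have hE2 : ∏ j ∈ (range n).erase k, z d j ≠ 0 := prod_ne_zero_iff.2 fun j _ => z_ne C.hF j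
  have h1 : U n d (k + 1) * (-(n : ℚ)) * (2 * ((k : ℚ) + 1 - d)) * ∏ j ∈ (range n).erase k, (z d j - z d k) =
      -((n ! : ℕ) * F d (n + 1)) := by
    rw [← key C.hF hk]
    unfold U
    rw [div_mul_cancel₀ _ (neg_ne_zero.2 hn)]
    push_cast
    ring
  have h2 : PF.lb (range n) (z d) 0 k = (∏ j ∈ (range n).erase k, z d j) / ∏ j ∈ (range n).erase k, (z d j - z d k) := by
    unfold PF.lb
    rw [← prod_div_distrib]
    exact prod_congr rfl fun j _ => by rw [sub_zero]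
  have h3 : ∏ j ∈ range n, z d j = z d k * ∏ j ∈ (range n).erase k, z d j :=
    (mul_prod_erase _ _ (mem_range.2 hk)).symm
  unfold Z1
  rw [h2, h3, ← h1]
  have := z_ne C.hF k
  rw [← hd] at this
  field_simp

theorem U_x3 (C : Ctx p s M n v) {k : ℕ} (hk : k < n) :
    U n (dd p s M) (k + 1) * xx (dd p s M) k ^ 3 = -(dd p s M * Z1 n (dd p s M) / (2 * n)) *
      (dd p s M ^ 2 * (PF.lb (range n) (z (dd p s M)) 0 k / z (dd p s M) k ^ 1)) := by
  have h := C.U_key hk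
  have hn : (n : ℚ) ≠ 0 := by exact_mod_cast C.n_pos.ne'
  have hy := C.y_ne k
  have hz := z_ne C.hF k
  set d := dd p s M with hd
  set L := PF.lb (range n) (z d) 0 k with hL
  have e1 : U n d (k + 1) = -(Z1 n d * L * z d k) / (n * (2 * ((k : ℚ) + 1 - d))) := by
    rw [eq_div_iff (mul_ne_zero hn (mul_ne_zero two_ne_zero hy))]
    linear_combination -h
  rw [e1]
  unfold xx
  have hzz : z d k = ((k : ℚ) + 1 - d) ^ 2 := rfl
  rw [hzz]
  field_simp

theorem U_x5 (C : Ctx p s M n v) {k : ℕ} (hk : k < n) :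
    U n (dd p s M) (k + 1) * xx (dd p s M) k ^ 5 = -(dd p s M * Z1 n (dd p s M) / (2 * n)) *
      (dd p s M ^ 4 * (PF.lb (range n) (z (dd p s M)) 0 k / z (dd p s M) k ^ 2)) := by
  have h := C.U_key hk
  have hn : (n : ℚ) ≠ 0 := by exact_mod_cast C.n_pos.ne'
  have hy := C.y_ne k
  have hz := z_ne C.hF k
  set d := dd p s M with hd
  set L := PF.lb (range n) (z d) 0 k with hL
  have e1 : U n d (k + 1) = -(Z1 n d * L * z d k) / (n * (2 * ((k : ℚ) + 1 - d))) := by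
    rw [eq_div_iff (mul_ne_zero hn (mul_ne_zero two_ne_zero hy))]
    linear_combination -h
  rw [e1]
  unfold xx
  have hzz : z d k = ((k : ℚ) + 1 - d) ^ 2 := rfl
  rw [hzz]
  field_simp

theorem main_sum (C : Ctx p s M n v) (a b : ℚ) :
    ∑ k ∈ range n, U n (dd p s M) (k + 1) * (a * xx (dd p s M) k ^ 3 + b * xx (dd p s M) k ^ 5) =
      -(dd p s M * Z1 n (dd p s M) / (2 * n)) *
        (a * (dd p s M ^ 2 * PF.H (z (dd p s M)) 1 n) + b * (dd p s M ^ 4 * PF.H (z (dd p s M)) 2 n)) := by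
  unfold PF.H
  simp only [mul_sum]
  rw [← sum_add_distrib, mul_sum]
  refine sum_congr rfl fun k hk => ?_
  have h1 := C.U_x3 (mem_range.1 hk)
  have h2 := C.U_x5 (mem_range.1 hk)
  rw [mul_add, mul_left_comm, h1, mul_left_comm (U n (dd p s M) (k + 1)) b, h2]
  ring

theorem d2_z (C : Ctx p s M n v) (j : ℕ) : dd p s M ^ 2 * (z (dd p s M) j)⁻¹ = xx (dd p s M) j ^ 2 := by
  unfold xx z
  rw [div_pow]
  rfl

theorem H1_eq (C : Ctx p s M n v) (m : ℕ) :
    dd p s M ^ 2 * PF.H (z (dd p s M)) 1 m = ∑ j ∈ range m, xx (dd p s M) j ^ 2 := by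
  rw [PF.H_one _ _ (fun i _ j _ h => z_inj C.hF i j h) (fun i _ => z_ne C.hF i), mul_sum]
  exact sum_congr rfl fun j _ => C.d2_z j

theorem H1_le (C : Ctx p s M n v) {m : ℕ} (hm : m ≤ n) : padicNorm p (dd p s M ^ 2 * PF.H (z (dd p s M)) 1 m) ≤ (p : ℚ)⁻¹ ^ 2 := by
  rw [C.H1_eq]
  refine sum_le_of (pow_nonneg t_pos.le _) fun j hj => ?_
  rw [N_pow]
  exact pow_le_pow_left₀ (padicNorm.nonneg _) (C.N_x_le (by omega)) 2

theorem H2_le (C : Ctx p s M n v) {m : ℕ} (hm : m ≤ n) : padicNorm p (dd p s M ^ 4 * PF.H (z (dd p s M)) 2 m) ≤ (p : ℚ)⁻¹ ^ 4 := by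
  induction m with
  | zero =>
    unfold PF.H
    simp only [range_zero, sum_empty, mul_zero, padicNorm.zero]
    exact pow_nonneg t_pos.le _
  | succ m ih =>
    rw [PF.H_succ _ 1 m (fun i _ j _ h => z_inj C.hF i j h) (fun i _ => z_ne C.hF i)]
    have e : dd p s M ^ 4 * (PF.H (z (dd p s M)) (1 + 1) m + (z (dd p s M) m)⁻¹ * PF.H (z (dd p s M)) 1 (m + 1)) =
        dd p s M ^ 4 * PF.H (z (dd p s M)) 2 m +
          (dd p s M ^ 2 * (z (dd p s M) m)⁻¹) * (dd p s M ^ 2 * PF.H (z (dd p s M)) 1 (m + 1)) := by ring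
    rw [e, C.d2_z]
    refine N_add_le (ih (by omega)) ?_
    have h1 : padicNorm p (xx (dd p s M) m ^ 2) ≤ (p : ℚ)⁻¹ ^ 2 := by
      rw [N_pow]
      exact pow_le_pow_left₀ (padicNorm.nonneg _) (C.N_x_le (by omega)) 2
    calc _ ≤ (p : ℚ)⁻¹ ^ 2 * (p : ℚ)⁻¹ ^ 2 := N_mul_le h1 (C.H1_le hm)
      _ = (p : ℚ)⁻¹ ^ 4 := by ring

theorem N_Z1 (C : Ctx p s M n v) : padicNorm p (Z1 n (dd p s M)) ≤ (p : ℚ)⁻¹ ^ (s + 1 + v) := by
  have h1 : padicNorm p (∏ j ∈ range n, z (dd p s M) j) = (∏ j ∈ range n, padicNorm p ((j : ℚ) + 1)) * ∏ j ∈ range n, padicNorm p ((j : ℚ) + 1) := by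
    rw [N_prod, ← prod_mul_distrib]
    refine prod_congr rfl fun j hj => ?_
    unfold z
    rw [N_pow, C.N_1 (mem_range.1 hj)]
    ring
  have h2 : padicNorm p ((n ! : ℕ) : ℚ) = ∏ j ∈ range n, padicNorm p ((j : ℚ) + 1) := by
    rw [← prod_range_add_one_eq_factorial]
    push_cast
    rw [N_prod]
  have h3 : padicNorm p (F (dd p s M) (n + 1)) = (∏ j ∈ range n, padicNorm p ((j : ℚ) + 1)) * padicNorm p ((n : ℚ) + 1 - 2 * dd p s M) := by
    rw [F_succ, padicNorm.mul]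
    congr 1
    unfold F
    rw [N_prod]
    exact prod_congr rfl fun j hj => C.N_2 (mem_range.1 hj)
  have h0 : ∏ j ∈ range n, padicNorm p ((j : ℚ) + 1) ≠ 0 := prod_ne_zero_iff.2 fun j hj => (C.N_pos (mem_range.1 hj)).ne'
  have h4 : padicNorm p (Z1 n (dd p s M)) = padicNorm p ((n : ℚ) + 1 - 2 * dd p s M) := by
    unfold Z1
    rw [padicNorm.div, padicNorm.neg, padicNorm.mul, h1, h2, h3]
    field_simp
  have h5 : (n : ℚ) + 1 - 2 * dd p s M = 2 * (((M : ℚ) - 1) * dd p s M) := by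
    rw [C.P_eq]
    ring
  rw [h4, h5, padicNorm.mul, C.N2, one_mul, padicNorm.mul, C.Nd, mul_comm, pow_add (p : ℚ)⁻¹ (s + 1) v]
  exact mul_le_mul_of_nonneg_left C.hv1 (pow_nonneg (t_pos (p := p)).le _)

end Ctx

end Pool.Agent.Q34.VW
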