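import Pool.Agent.Q34.VWc

/-!
The supercongruence for the truncated very-well-poised series with `2 M` equal parameters: the theorem.
-/

set_option autoImplicit false

namespace Pool.Agent.Q34.VW

open Finset Nat

variable {p : ℕ} [hp : Fact p.Prime] {s M n v : ℕ}


open Pool.Agent.Helper857.Pad in
theorem N_of_I {x : ℚ} (h : I p 1 x) : padicNorm p x ≤ (p : ℚ)⁻¹ := by
  obtain ⟨y, hy, rfl⟩ := h
  have hy1 : padicNorm p y ≤ 1 := by
    have e : y = (y.num : ℚ) / (y.den : ℚ) := (Rat.num_div_den y).symm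
    rw [e, padicNorm.div, (padicNorm.nat_eq_one_iff (p := p) y.den).2 hy, div_one]
    exact padicNorm.of_int _
  rw [padicNorm.mul, pow_one, padicNorm.padicNorm_p_of_prime]
  exact mul_le_of_le_one_right t_pos.le hy1

open Pool.Agent.Helper857.Pad Pool.Agent.Q34.Red in
/-- the harmonic sum of order two -/
theorem sum_inv_sq (h3 : 3 < p) : padicNorm p (∑ i ∈ range (p - 1), (((i : ℚ) + 1)⁻¹) ^ 2) ≤ (p : ℚ)⁻¹ := by
  have hmem : ∀ i ∈ range (p - 1), (((i : ℚ) + 1)⁻¹) ^ 2 ∈ Zp p := by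
    intro i hi
    have hi' := mem_range.1 hi
    refine (Zp p).pow_mem ?_ 2
    have h : ¬ p ∣ (i + 1) := fun h => by
      have := Nat.le_of_dvd (by omega) h
      omega
    have := inv_nat_mem (p := p) h
    push_cast at this
    exact this
  refine N_of_I (R_eq_zero ((Zp p).sum_mem hmem) ?_)
  rw [R_sum _ _ hmem]
  have e1 : ∀ i ∈ range (p - 1), R p ((((i : ℚ) + 1)⁻¹) ^ 2) = (((i + 1 : ℕ) : ZMod p)⁻¹) ^ 2 := by
    intro i hi
    have hi' := mem_range.1 hi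
    have hu : Un p (((i + 1 : ℕ) : ℚ)) := Un.nat_lt (by omega) (by omega)
    have h1 : (((i : ℚ) + 1)⁻¹) ∈ Zp p := by
      have := hu.2.2
      push_cast at this
      exact this
    have h2 : (((i + 1 : ℕ) : ℚ)) * ((i : ℚ) + 1)⁻¹ = 1 := by
      push_cast
      exact mul_inv_cancel₀ (by positivity)
    have h3 := congrArg (R p) h2
    rw [R_mul hu.2.1 h1, R_nat, R_one] at h3
    rw [R_pow h1, eq_inv_of_mul_eq_one_right h3]
  rw [sum_congr rfl e1]
  have e2 : ∑ x : ZMod p, x ^ 2 = 0 := by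
    refine FiniteField.sum_pow_lt_card_sub_one (K := ZMod p) 2 ?_
    rw [ZMod.card]
    omega
  have e3 : ∑ x : ZMod p, (x⁻¹) ^ 2 = 0 := by
    rw [← e2]
    exact Fintype.sum_bijective (fun x : ZMod p => x⁻¹) inv_involutive.bijective _ _ (fun x => rfl)
  have hp2 := hp.out.two_le
  have e4 : ∑ x : ZMod p, (x⁻¹) ^ 2 = ∑ i ∈ range p, (((i : ℕ) : ZMod p)⁻¹) ^ 2 := by
    symm
    refine sum_bij' (fun (i : ℕ) _ => ((i : ℕ) : ZMod p)) (fun x _ => x.val) ?_ ?_ ?_ ?_ ?_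
    · intro i _
      exact mem_univ _
    · intro x _
      exact mem_range.2 (ZMod.val_lt x)
    · intro i hi
      exact ZMod.val_cast_of_lt (mem_range.1 hi)
    · intro x _
      exact ZMod.natCast_zmod_val x
    · intro i _
      rfl
  rw [e3] at e4
  have e5 : range p = range ((p - 1) + 1) := by
    congr 1
    omega
  rw [e5, sum_range_succ' _ (p - 1)] at e4
  simp only [Nat.cast_zero, inv_zero, ne_eq, OfNat.ofNat_ne_zero, not_false_eq_true, zero_pow, add_zero] at e4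
  exact e4.symm

namespace Ctx

/-- **the sum of the squares of the variables** -/
theorem sum_sq (C : Ctx p s M n v) : padicNorm p (∑ j ∈ range n, xx (dd p s M) j ^ 2) ≤ (p : ℚ)⁻¹ ^ 3 := by
  have hp0 : (p : ℚ) ≠ 0 := by exact_mod_cast hp.out.ne_zero
  have hp1 := hp.out.one_lt
  have hps : 0 < p ^ s := pow_pos hp.out.pos _
  -- split the sum
  have hsplit := sum_filter_add_sum_filter_not (range n) (fun j => p ^ s ∣ j + 1) (fun j => xx (dd p s M) j ^ 2)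
  rw [← hsplit]
  refine N_add_le ?_ ?_
  · -- the multiples
    have hre : ∑ j ∈ (range n).filter (fun j => p ^ s ∣ j + 1), xx (dd p s M) j ^ 2 =
        ∑ i ∈ range (p - 1), xx (dd p s M) (p ^ s * (i + 1) - 1) ^ 2 := by
      symm
      refine sum_bij' (fun i _ => p ^ s * (i + 1) - 1) (fun j _ => (j + 1) / p ^ s - 1) ?_ ?_ ?_ ?_ ?_
      · intro i hi
        have hi' := mem_range.1 hi
        rw [mem_filter, mem_range]
        have h1 : 0 < p ^ s * (i + 1) := by positivity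
        have h2 : p ^ s * (i + 1) < p ^ (s + 1) := by
          rw [pow_succ]
          exact Nat.mul_lt_mul_of_pos_left (by omega) hps
        have := C.hn
        refine ⟨by omega, ?_⟩
        have : p ^ s * (i + 1) - 1 + 1 = p ^ s * (i + 1) := by omega
        rw [this]
        exact dvd_mul_right _ _
      · intro j hj
        rw [mem_filter, mem_range] at hj
        obtain ⟨hj1, c, hc⟩ := hj
        rw [mem_range, hc, Nat.mul_div_cancel_left _ hps]
        have h0 : 0 < c := Nat.pos_of_ne_zero fun h => by rw [h, mul_zero] at hc; omega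
        have h2 : p ^ s * c < p ^ s * p := by
          rw [← pow_succ, ← hc, ← C.hn]
          omega
        have := Nat.lt_of_mul_lt_mul_left h2
        omega
      · intro i hi
        have h1 : 0 < p ^ s * (i + 1) := by positivity
        have : p ^ s * (i + 1) - 1 + 1 = p ^ s * (i + 1) := by omega
        rw [this, Nat.mul_div_cancel_left _ hps]
        omega
      · intro j hj
        rw [mem_filter, mem_range] at hj
        obtain ⟨hj1, c, hc⟩ := hj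
        rw [hc, Nat.mul_div_cancel_left _ hps]
        have h0 : 0 < c := Nat.pos_of_ne_zero fun h => by rw [h, mul_zero] at hc; omega
        rw [show c - 1 + 1 = c by omega, ← hc]
        omega
      · intro i _
        rfl
    rw [hre]
    -- compare with the harmonic sum
    have hM0 := C.M0
    have hcmp : ∀ i < p - 1, padicNorm p (xx (dd p s M) (p ^ s * (i + 1) - 1) ^ 2 -
        ((p : ℚ) / (2 * M)) ^ 2 * (((i : ℚ) + 1)⁻¹) ^ 2) ≤ (p : ℚ)⁻¹ ^ 3 := by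
      intro i hi
      have h1 : 0 < p ^ s * (i + 1) := by positivity
      have ecast : (((p ^ s * (i + 1) - 1 : ℕ) : ℚ)) + 1 = (p : ℚ) ^ s * ((i : ℚ) + 1) := by
        have : ((p ^ s * (i + 1) - 1 + 1 : ℕ) : ℚ) = ((p ^ s * (i + 1) : ℕ) : ℚ) := by
          congr 1
          omega
        push_cast at this
        exact this
      have hps0 : (p : ℚ) ^ s ≠ 0 := pow_ne_zero _ hp0
      have hi1 : padicNorm p ((i : ℚ) + 1) = 1 := by
        have h : ¬ p ∣ (i + 1) := fun h => by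
          have := Nat.le_of_dvd (by omega) h
          omega
        have := (padicNorm.nat_eq_one_iff (p := p) (i + 1)).2 h
        push_cast at this
        exact this
      have hA : padicNorm p (2 * (M : ℚ) * ((i : ℚ) + 1)) = 1 := by
        rw [padicNorm.mul, padicNorm.mul, C.N2, C.NM, hi1]
        norm_num
      have hB : padicNorm p (2 * (M : ℚ) * ((i : ℚ) + 1) - p) = 1 := by
        rw [N_sub_eq, hA]
        rw [hA, padicNorm.padicNorm_p_of_prime]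
        exact t_lt_one
      have hA0 : 2 * (M : ℚ) * ((i : ℚ) + 1) ≠ 0 := fun h => by rw [h] at hA; simp at hA
      have hB0 : 2 * (M : ℚ) * ((i : ℚ) + 1) - p ≠ 0 := fun h => by rw [h] at hB; simp at hB
      have hi0 : (i : ℚ) + 1 ≠ 0 := by positivity
      have ex : xx (dd p s M) (p ^ s * (i + 1) - 1) = p / (2 * (M : ℚ) * ((i : ℚ) + 1) - p) := by
        unfold xx dd
        rw [ecast, pow_succ]
        have e1 : (p : ℚ) ^ s * ((i : ℚ) + 1) - (p : ℚ) ^ s * p / (2 * M) =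
            (p : ℚ) ^ s * (2 * (M : ℚ) * ((i : ℚ) + 1) - p) / (2 * M) := by
          field_simp
        rw [e1, div_div_div_cancel_right₀ (by positivity), mul_div_mul_left _ _ hps0]
      have e2 : (p / (2 * (M : ℚ) * ((i : ℚ) + 1) - p)) ^ 2 - ((p : ℚ) / (2 * M)) ^ 2 * (((i : ℚ) + 1)⁻¹) ^ 2 =
          (p : ℚ) ^ 3 * (2 * (2 * (M : ℚ) * ((i : ℚ) + 1)) - p) /
            ((2 * (M : ℚ) * ((i : ℚ) + 1) - p) ^ 2 * (2 * (M : ℚ) * ((i : ℚ) + 1)) ^ 2) := by
        field_simp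
        ring
      rw [ex, e2, padicNorm.div, padicNorm.mul, padicNorm.mul, N_pow, N_pow, N_pow, hA, hB,
        padicNorm.padicNorm_p_of_prime]
      norm_num
      refine mul_le_of_le_one_right (by positivity) ?_
      refine N_sub_le ?_ ?_
      · rw [padicNorm.mul, hA, C.N2]
        norm_num
      · rw [padicNorm.padicNorm_p_of_prime]
        exact t_le_one
    have hsum : ∑ i ∈ range (p - 1), xx (dd p s M) (p ^ s * (i + 1) - 1) ^ 2 =
        ∑ i ∈ range (p - 1), (xx (dd p s M) (p ^ s * (i + 1) - 1) ^ 2 -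
          ((p : ℚ) / (2 * M)) ^ 2 * (((i : ℚ) + 1)⁻¹) ^ 2) +
        ((p : ℚ) / (2 * M)) ^ 2 * ∑ i ∈ range (p - 1), (((i : ℚ) + 1)⁻¹) ^ 2 := by
      rw [mul_sum, ← sum_add_distrib]
      exact sum_congr rfl fun i _ => by ring
    rw [hsum]
    refine N_add_le (sum_le_of (pow_nonneg t_pos.le _) hcmp) ?_
    have h2 : padicNorm p (((p : ℚ) / (2 * M)) ^ 2) = (p : ℚ)⁻¹ ^ 2 := by
      rw [N_pow, padicNorm.div, padicNorm.mul, C.N2, C.NM, padicNorm.padicNorm_p_of_prime]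
      norm_num
    calc _ ≤ (p : ℚ)⁻¹ ^ 2 * (p : ℚ)⁻¹ := N_mul_le h2.le (sum_inv_sq C.h3)
      _ = (p : ℚ)⁻¹ ^ 3 := by ring
  · -- the other terms
    refine padicNorm.sum_le' ?_ (pow_nonneg t_pos.le _)
    intro j hj
    rw [mem_filter, mem_range] at hj
    obtain ⟨hj1, hj2⟩ := hj
    rw [N_pow]
    have hs : s ≠ 0 := by
      rintro rfl
      exact hj2 (by simp)
    obtain ⟨s', rfl⟩ := Nat.exists_eq_succ_of_ne_zero hs
    have h1 := N_nat_ge (p := p) (m := j + 1) (s := s') hj2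
    push_cast at h1
    have h2 := C.N_x hj1
    have h3 : padicNorm p (xx (dd p (s' + 1) M) j) ≤ (p : ℚ)⁻¹ ^ 2 := by
      by_contra hlt
      push Not at hlt
      have h4 : (p : ℚ)⁻¹ ^ 2 * (p : ℚ)⁻¹ ^ s' < padicNorm p (xx (dd p (s' + 1) M) j) * padicNorm p ((j : ℚ) + 1) :=
        mul_lt_mul hlt h1 (pow_pos t_pos _) (padicNorm.nonneg _)
      rw [h2, ← pow_add] at h4
      have : s' + 1 + 1 = 2 + s' := by ring
      rw [this] at h4
      exact lt_irrefl _ h4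
    calc padicNorm p (xx (dd p (s' + 1) M) j) ^ 2 ≤ ((p : ℚ)⁻¹ ^ 2) ^ 2 := pow_le_pow_left₀ (padicNorm.nonneg _) h3 2
      _ = (p : ℚ)⁻¹ ^ 4 := by ring
      _ ≤ (p : ℚ)⁻¹ ^ 3 := tau_pow_le (by norm_num)

/-- the main term -/
theorem N_main (C : Ctx p s M n v) :
    padicNorm p (∑ k ∈ range n, U n (dd p s M) (k + 1) *
      (G3 (2 * M - 1) * xx (dd p s M) k ^ 3 + G5 (2 * M - 1) * xx (dd p s M) k ^ 5)) ≤
      ((p : ℚ)⁻¹ ^ (s + 1)) ^ 2 * (p : ℚ)⁻¹ ^ (2 * v + 3) := by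
  rw [C.main_sum, padicNorm.mul, padicNorm.neg, padicNorm.div, padicNorm.mul, padicNorm.mul, C.N2, C.N_n, C.Nd]
  have h1 : padicNorm p (G3 (2 * M - 1) * (dd p s M ^ 2 * PF.H (z (dd p s M)) 1 n)) ≤ (p : ℚ)⁻¹ ^ v * (p : ℚ)⁻¹ ^ 3 := by
    refine N_mul_le C.N_G ?_
    rw [C.H1_eq]
    exact C.sum_sq
  have h2 : padicNorm p (G5 (2 * M - 1) * (dd p s M ^ 4 * PF.H (z (dd p s M)) 2 n)) ≤ (p : ℚ)⁻¹ ^ v * (p : ℚ)⁻¹ ^ 3 := by
    calc _ ≤ 1 * (p : ℚ)⁻¹ ^ 4 := N_mul_le (N_G5 _) (C.H2_le le_rfl)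
      _ = (p : ℚ)⁻¹ ^ 4 := one_mul _
      _ ≤ (p : ℚ)⁻¹ ^ (v + 3) := tau_pow_le (by have := C.hv; omega)
      _ = (p : ℚ)⁻¹ ^ v * (p : ℚ)⁻¹ ^ 3 := pow_add _ _ _
  have h3 := N_add_le h1 h2
  have h4 : ((p : ℚ)⁻¹ ^ (s + 1) * padicNorm p (Z1 n (dd p s M))) / (1 * 1) ≤ (p : ℚ)⁻¹ ^ (s + 1) * (p : ℚ)⁻¹ ^ (s + 1 + v) := by
    rw [mul_one, div_one]
    exact mul_le_mul_of_nonneg_left C.N_Z1 (pow_nonneg t_pos.le _)
  calc _ ≤ ((p : ℚ)⁻¹ ^ (s + 1) * (p : ℚ)⁻¹ ^ (s + 1 + v)) * ((p : ℚ)⁻¹ ^ v * (p : ℚ)⁻¹ ^ 3) :=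
        mul_le_mul h4 h3 (padicNorm.nonneg _) (by have := t_pos (p := p); positivity)
    _ = _ := by ring

/-- **the theorem** -/
theorem final (C : Ctx p s M n v) :
    padicNorm p (∑ k ∈ range (n + 1), (1 - 2 * dd p s M + 2 * k) *
      (∏ j ∈ range k, (((j : ℚ) + 1 - 2 * dd p s M) / ((j : ℚ) + 1))) ^ (2 * M)) ≤
      (p : ℚ)⁻¹ ^ (2 * (s + 1) + 3 + 2 * v) := by
  have e1 : ∑ k ∈ range (n + 1), (1 - 2 * dd p s M + 2 * k) *
      (∏ j ∈ range k, (((j : ℚ) + 1 - 2 * dd p s M) / ((j : ℚ) + 1))) ^ (2 * M) =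
      ∑ k ∈ range (n + 1), (1 - 2 * dd p s M + 2 * k) * (V n (dd p s M) k * EE p s M k) := by
    refine sum_congr rfl fun k hk => ?_
    rw [C.W_eq (by have := mem_range.1 hk; omega)]
    rfl
  rw [e1, abel C.n_pos C.hF _ (fun k => ep (2 * M - 1) (xx (dd p s M) k)) (fun k => EE_succ k), padicNorm.neg]
  have e2 : ∑ k ∈ range n, U n (dd p s M) (k + 1) * (EE p s M k * (ep (2 * M - 1) (xx (dd p s M) k) - 1)) =
      ∑ k ∈ range n, (U n (dd p s M) (k + 1) * ((EE p s M k - 1) * (ep (2 * M - 1) (xx (dd p s M) k) - 1)) +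
        U n (dd p s M) (k + 1) * (ep (2 * M - 1) (xx (dd p s M) k) - 1 -
          (G3 (2 * M - 1) * xx (dd p s M) k ^ 3 + G5 (2 * M - 1) * xx (dd p s M) k ^ 5))) +
      ∑ k ∈ range n, U n (dd p s M) (k + 1) *
        (G3 (2 * M - 1) * xx (dd p s M) k ^ 3 + G5 (2 * M - 1) * xx (dd p s M) k ^ 5) := by
    rw [← sum_add_distrib]
    exact sum_congr rfl fun k _ => by ring
  have ht := t_pos (p := p)
  have e3 : (p : ℚ)⁻¹ ^ (2 * (s + 1) + 3 + 2 * v) = ((p : ℚ)⁻¹ ^ (s + 1)) ^ 2 * (p : ℚ)⁻¹ ^ (2 * v + 3) := by ring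
  rw [e2, e3]
  refine N_add_le (sum_le_of (by positivity) fun k hk => ?_) C.N_main
  have hU := C.N_U hk
  have ha := C.N_x_le hk
  have ha0 : 0 ≤ padicNorm p (xx (dd p s M) k) := padicNorm.nonneg _
  have ha1 : padicNorm p (xx (dd p s M) k) ≤ 1 := N_le_one_of ha
  refine N_add_le ?_ ?_
  · rw [padicNorm.mul]
    have h1 := N_mul_le (C.EE_one hk.le) (C.ep_one hk)
    calc _ ≤ padicNorm p (U n (dd p s M) (k + 1)) * ((p : ℚ)⁻¹ ^ (v + 3) * ((p : ℚ)⁻¹ ^ v * padicNorm p (xx (dd p s M) k) ^ 3)) :=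
          mul_le_mul_of_nonneg_left h1 (padicNorm.nonneg _)
      _ = (padicNorm p (U n (dd p s M) (k + 1)) * padicNorm p (xx (dd p s M) k) ^ 2) * (p : ℚ)⁻¹ ^ (2 * v + 3) * padicNorm p (xx (dd p s M) k) := by ring
      _ = (((p : ℚ)⁻¹ ^ (s + 1)) ^ 2 * (p : ℚ)⁻¹ ^ (2 * v + 3)) * padicNorm p (xx (dd p s M) k) := by rw [hU]
      _ ≤ _ := mul_le_of_le_one_right (by positivity) ha1
  · rw [padicNorm.mul]
    have h2 : max ((p : ℚ)⁻¹ ^ v * padicNorm p (xx (dd p s M) k) ^ 6) (padicNorm p (xx (dd p s M) k) ^ 7) ≤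
        padicNorm p (xx (dd p s M) k) ^ 2 * (p : ℚ)⁻¹ ^ (2 * v + 3) := by
      refine max_le ?_ ?_
      · have : padicNorm p (xx (dd p s M) k) ^ 4 ≤ (p : ℚ)⁻¹ ^ 4 := pow_le_pow_left₀ ha0 ha 4
        calc (p : ℚ)⁻¹ ^ v * padicNorm p (xx (dd p s M) k) ^ 6 = padicNorm p (xx (dd p s M) k) ^ 2 * ((p : ℚ)⁻¹ ^ v * padicNorm p (xx (dd p s M) k) ^ 4) := by ring
          _ ≤ padicNorm p (xx (dd p s M) k) ^ 2 * ((p : ℚ)⁻¹ ^ v * (p : ℚ)⁻¹ ^ 4) :=
              mul_le_mul_of_nonneg_left (mul_le_mul_of_nonneg_left this (by positivity)) (by positivity)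
          _ = padicNorm p (xx (dd p s M) k) ^ 2 * (p : ℚ)⁻¹ ^ (v + 4) := by rw [pow_add]
          _ ≤ _ := mul_le_mul_of_nonneg_left (tau_pow_le (by have := C.hv; omega)) (by positivity)
      · have : padicNorm p (xx (dd p s M) k) ^ 5 ≤ (p : ℚ)⁻¹ ^ 5 := pow_le_pow_left₀ ha0 ha 5
        calc padicNorm p (xx (dd p s M) k) ^ 7 = padicNorm p (xx (dd p s M) k) ^ 2 * padicNorm p (xx (dd p s M) k) ^ 5 := by ring
          _ ≤ padicNorm p (xx (dd p s M) k) ^ 2 * (p : ℚ)⁻¹ ^ 5 := mul_le_mul_of_nonneg_left this (by positivity)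
          _ ≤ _ := mul_le_mul_of_nonneg_left (tau_pow_le (by have := C.hv; omega)) (by positivity)
    calc _ ≤ padicNorm p (U n (dd p s M) (k + 1)) * (padicNorm p (xx (dd p s M) k) ^ 2 * (p : ℚ)⁻¹ ^ (2 * v + 3)) :=
          mul_le_mul_of_nonneg_left ((C.ep_sub hk).trans h2) (padicNorm.nonneg _)
      _ = (padicNorm p (U n (dd p s M) (k + 1)) * padicNorm p (xx (dd p s M) k) ^ 2) * (p : ℚ)⁻¹ ^ (2 * v + 3) := by ring
      _ ≤ _ := by rw [hU]

end Ctx

end Pool.Agent.Q34.VW
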