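import Pool.Agent.Q34.VWd

/-!
From the norm to congruences.
-/

set_option autoImplicit false

namespace Pool.Agent.Q34.VW

open Finset Nat

variable {p : ℕ} [hp : Fact p.Prime]


theorem exists_of_N {x : ℚ} {m : ℕ} (h : padicNorm p x ≤ (p : ℚ)⁻¹ ^ m) :
    ∃ u w : ℤ, ¬ (p : ℤ) ∣ w ∧ x = (p : ℚ) ^ m * (u / w) := by
  have hp0 : (p : ℚ) ≠ 0 := by exact_mod_cast hp.out.ne_zero
  have ht := t_pos (p := p)
  set y := x / (p : ℚ) ^ m with hy
  have hy1 : padicNorm p y ≤ 1 := by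
    rw [hy, padicNorm.div, N_p_pow, div_le_one (by positivity)]
    exact h
  refine ⟨y.num, y.den, ?_, ?_⟩
  · intro hd
    have hd' : p ∣ y.den := by exact_mod_cast hd
    have hn : ¬ (p : ℤ) ∣ y.num := by
      intro h2
      have h3 : p ∣ y.num.natAbs := Int.natCast_dvd.1 h2
      have := Nat.dvd_gcd h3 hd'
      rw [Nat.Coprime.gcd_eq_one y.reduced] at this
      exact hp.out.one_lt.ne' (Nat.dvd_one.1 this)
    have e : y = (y.num : ℚ) / (y.den : ℚ) := (Rat.num_div_den y).symm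
    have h1 : padicNorm p y = (padicNorm p (y.den : ℚ))⁻¹ := by
      conv_lhs => rw [e]
      rw [padicNorm.div, (padicNorm.int_eq_one_iff (p := p) _).2 hn, one_div]
    have h2 : padicNorm p (y.den : ℚ) < 1 := (padicNorm.nat_lt_one_iff (p := p) y.den).2 hd'
    have h3 : 0 < padicNorm p (y.den : ℚ) := by
      have h4 : (y.den : ℚ) ≠ 0 := by exact_mod_cast y.den_nz
      exact lt_of_le_of_ne (padicNorm.nonneg _) (padicNorm.nonzero h4).symm
    rw [h1] at hy1
    exact absurd hy1 (not_le.2 ((one_lt_inv₀ h3).2 h2))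
  · have e : ((y.num : ℚ) / ((y.den : ℤ) : ℚ)) = y := by
      rw [Int.cast_natCast]
      exact Rat.num_div_den y
    rw [e, hy]
    field_simp

theorem not_dvd_pred {r : ℕ} (hr : 1 ≤ r) : ¬ p ∣ p ^ r - 1 := by
  intro h
  have h1 : p ∣ p ^ r := dvd_pow_self p (by omega)
  have h2 : 1 ≤ p ^ r := Nat.one_le_pow _ _ hp.out.pos
  have h3 : p ∣ p ^ r - (p ^ r - 1) := Nat.dvd_sub h1 h
  rw [show p ^ r - (p ^ r - 1) = 1 by omega] at h3
  exact hp.out.one_lt.ne' (Nat.dvd_one.1 h3)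

end Pool.Agent.Q34.VW
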