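import Pool.Agent.Q34.VWa

/-!
`p`-adic norm on the rationals: small lemmas.
-/

set_option autoImplicit false

namespace Pool.Agent.Q34.VW

open Finset Nat

variable {p : ℕ} [hp : Fact p.Prime]


theorem t_pos : (0 : ℚ) < (p : ℚ)⁻¹ := by
  have : (0 : ℚ) < p := by exact_mod_cast hp.out.pos
  positivity

theorem t_le_one : (p : ℚ)⁻¹ ≤ 1 := inv_le_one_of_one_le₀ (by exact_mod_cast hp.out.one_lt.le)

theorem t_lt_one : (p : ℚ)⁻¹ < 1 := inv_lt_one_of_one_lt₀ (by exact_mod_cast hp.out.one_lt)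

theorem N_pow (x : ℚ) (k : ℕ) : padicNorm p (x ^ k) = padicNorm p x ^ k := by
  induction k with
  | zero => simp
  | succ k ih => rw [pow_succ, pow_succ, padicNorm.mul, ih]

theorem N_prod {ι : Type*} (s : Finset ι) (f : ι → ℚ) : padicNorm p (∏ i ∈ s, f i) = ∏ i ∈ s, padicNorm p (f i) := by
  classical
  induction s using Finset.induction_on with
  | empty => simp
  | insert a s ha ih => rw [prod_insert ha, prod_insert ha, padicNorm.mul, ih]

theorem N_add_le {x y c : ℚ} (hx : padicNorm p x ≤ c) (hy : padicNorm p y ≤ c) : padicNorm p (x + y) ≤ c :=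
  padicNorm.nonarchimedean.trans (max_le hx hy)

theorem N_sub_le {x y c : ℚ} (hx : padicNorm p x ≤ c) (hy : padicNorm p y ≤ c) : padicNorm p (x - y) ≤ c :=
  padicNorm.sub.trans (max_le hx hy)

theorem N_add_eq {x y : ℚ} (h : padicNorm p y < padicNorm p x) : padicNorm p (x + y) = padicNorm p x := by
  rw [padicNorm.add_eq_max_of_ne h.ne', max_eq_left h.le]

theorem N_sub_eq {x y : ℚ} (h : padicNorm p y < padicNorm p x) : padicNorm p (x - y) = padicNorm p x := by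
  rw [sub_eq_add_neg]
  exact N_add_eq (by rwa [padicNorm.neg])

theorem N_mul_le {x y c d : ℚ} (hx : padicNorm p x ≤ c) (hy : padicNorm p y ≤ d) : padicNorm p (x * y) ≤ c * d := by
  rw [padicNorm.mul]
  exact mul_le_mul hx hy (padicNorm.nonneg _) ((padicNorm.nonneg _).trans hx)

theorem N_nat (n : ℕ) : padicNorm p (n : ℚ) ≤ 1 := padicNorm.of_nat n

theorem N_one_add {x : ℚ} (h : padicNorm p x ≤ (p : ℚ)⁻¹) : padicNorm p (1 + x) = 1 := by
  rw [N_add_eq (x := 1) (y := x)]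
  · exact padicNorm.one
  · rw [padicNorm.one]
    exact h.trans_lt t_lt_one

theorem N_p_pow (r : ℕ) : padicNorm p ((p : ℚ) ^ r) = (p : ℚ)⁻¹ ^ r := by
  rw [N_pow, padicNorm.padicNorm_p_of_prime]

/-- a natural number not divisible by `p ^ (s + 1)` -/
theorem N_nat_ge {m s : ℕ} (hm : ¬ p ^ (s + 1) ∣ m) : (p : ℚ)⁻¹ ^ s ≤ padicNorm p (m : ℚ) := by
  have hm0 : m ≠ 0 := by
    rintro rfl
    exact hm (dvd_zero _)
  have h1 : ¬ (padicNorm p ((m : ℤ) : ℚ) ≤ (p : ℚ) ^ (-((s + 1 : ℕ) : ℤ))) := by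
    rw [← padicNorm.dvd_iff_norm_le]
    intro h
    apply hm
    exact_mod_cast h
  have hmq : (m : ℚ) ≠ 0 := by exact_mod_cast hm0
  obtain ⟨w, hw⟩ := padicNorm.values_discrete (p := p) hmq
  have hp1 : (1 : ℚ) < p := by exact_mod_cast hp.out.one_lt
  rw [Int.cast_natCast, hw, not_le] at h1
  have h2 : -((s + 1 : ℕ) : ℤ) < -w := (zpow_lt_zpow_iff_right₀ hp1).1 h1
  rw [hw, inv_pow, ← zpow_natCast, ← zpow_neg]
  refine (zpow_le_zpow_iff_right₀ hp1).2 ?_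
  push_cast at h2
  omega

theorem sum_le_of {n : ℕ} {f : ℕ → ℚ} {c : ℚ} (hc : 0 ≤ c) (h : ∀ i < n, padicNorm p (f i) ≤ c) :
    padicNorm p (∑ i ∈ range n, f i) ≤ c :=
  padicNorm.sum_le' (fun i hi => h i (mem_range.1 hi)) hc

/-- expansion of a power to order seven -/
theorem pow_exp (q : ℕ) (x : ℚ) (hx : padicNorm p x ≤ 1) : ∃ c : ℚ, padicNorm p c ≤ 1 ∧
    (1 + x) ^ q = 1 + (q : ℚ) * x + ((q.choose 2 : ℕ) : ℚ) * x ^ 2 + ((q.choose 3 : ℕ) : ℚ) * x ^ 3 +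
      ((q.choose 4 : ℕ) : ℚ) * x ^ 4 + ((q.choose 5 : ℕ) : ℚ) * x ^ 5 + ((q.choose 6 : ℕ) : ℚ) * x ^ 6 +
      c * x ^ 7 := by
  induction q with
  | zero => exact ⟨0, by simp, by simp⟩
  | succ q ih =>
    obtain ⟨c, hc, e⟩ := ih
    refine ⟨((q.choose 6 : ℕ) : ℚ) + (1 + x) * c, ?_, ?_⟩
    · refine N_add_le (N_nat _) ?_
      have : padicNorm p ((1 + x) * c) ≤ 1 * 1 := N_mul_le (N_add_le (by rw [padicNorm.one]) hx) hc
      simpa using this
    · rw [pow_succ, e]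
      have c2 : (((q + 1).choose 2 : ℕ) : ℚ) = q + (q.choose 2 : ℕ) := by
        rw [Nat.choose_succ_succ' q 1, Nat.choose_one_right]
        push_cast
        ring
      have c3 : (((q + 1).choose 3 : ℕ) : ℚ) = (q.choose 2 : ℕ) + (q.choose 3 : ℕ) := by
        rw [Nat.choose_succ_succ' q 2]; push_cast; ring
      have c4 : (((q + 1).choose 4 : ℕ) : ℚ) = (q.choose 3 : ℕ) + (q.choose 4 : ℕ) := by
        rw [Nat.choose_succ_succ' q 3]; push_cast; ring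
      have c5 : (((q + 1).choose 5 : ℕ) : ℚ) = (q.choose 4 : ℕ) + (q.choose 5 : ℕ) := by
        rw [Nat.choose_succ_succ' q 4]; push_cast; ring
      have c6 : (((q + 1).choose 6 : ℕ) : ℚ) = (q.choose 5 : ℕ) + (q.choose 6 : ℕ) := by
        rw [Nat.choose_succ_succ' q 5]; push_cast; ring
      rw [c2, c3, c4, c5, c6]
      push_cast
      ring

/-- the coefficient of the cubic term -/
def G3 (q : ℕ) : ℚ := 2 * ((q : ℚ) * (q.choose 2 : ℕ) - (q.choose 3 : ℕ))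

/-- the coefficient of the quintic term -/
def G5 (q : ℕ) : ℚ := 2 * ((q : ℚ) * (q.choose 4 : ℕ) - (q.choose 5 : ℕ)) -
  ((q.choose 2 : ℕ) - (q : ℚ) ^ 2) * G3 q

/-- the ratio of the two products -/
noncomputable def ep (q : ℕ) (x : ℚ) : ℚ := (1 - x) ^ q * (1 + q * x) / ((1 + x) ^ q * (1 - q * x))

theorem half_G3 (q : ℕ) : padicNorm p (G3 q / 2) ≤ 1 := by
  have : G3 q / 2 = (((q : ℤ) * (q.choose 2 : ℤ) - (q.choose 3 : ℤ) : ℤ) : ℚ) := by
    unfold G3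
    push_cast
    ring
  rw [this]
  exact padicNorm.of_int _

theorem N_G3 (q : ℕ) : padicNorm p (G3 q) ≤ 1 := by
  have : G3 q = 2 * (G3 q / 2) := by ring
  rw [this]
  have h := N_mul_le (p := p) (N_nat 2) (half_G3 q)
  simpa using h

theorem N_G5 (q : ℕ) : padicNorm p (G5 q) ≤ 1 := by
  have : G5 q = ((2 * ((q : ℤ) * (q.choose 4 : ℤ) - (q.choose 5 : ℤ)) -
    ((q.choose 2 : ℤ) - (q : ℤ) ^ 2) * (2 * ((q : ℤ) * (q.choose 2 : ℤ) - (q.choose 3 : ℤ))) : ℤ) : ℚ) := by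
    unfold G5 G3
    push_cast
    ring
  rw [this]
  exact padicNorm.of_int _

theorem N_le_one_of {x : ℚ} (h : padicNorm p x ≤ (p : ℚ)⁻¹) : padicNorm p x ≤ 1 := h.trans t_le_one

/-- the expansion of the ratio -/
theorem ep_exp (q : ℕ) {x : ℚ} (hx : padicNorm p x ≤ (p : ℚ)⁻¹) :
    padicNorm p (ep q x - 1 - (G3 q * x ^ 3 + G5 q * x ^ 5)) ≤ max (padicNorm p (G3 q) * padicNorm p x ^ 6) (padicNorm p x ^ 7) := by
  have hx1 : padicNorm p x ≤ 1 := N_le_one_of hx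
  obtain ⟨c, hc, e⟩ := pow_exp (p := p) q x hx1
  obtain ⟨c', hc', e'⟩ := pow_exp (p := p) q (-x) (by rwa [padicNorm.neg])
  have D1 : padicNorm p (1 + x) = 1 := N_one_add hx
  have D2 : padicNorm p (1 - (q : ℚ) * x) = 1 := by
    rw [sub_eq_add_neg]
    refine N_one_add ?_
    rw [padicNorm.neg]
    calc padicNorm p ((q : ℚ) * x) ≤ 1 * (p : ℚ)⁻¹ := N_mul_le (N_nat q) hx
      _ = _ := one_mul _
  have hD : padicNorm p ((1 + x) ^ q * (1 - q * x)) = 1 := by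
    rw [padicNorm.mul, N_pow, D1, D2]
    simp
  have hD0 : (1 + x) ^ q * (1 - q * x) ≠ 0 := by
    intro h
    rw [h] at hD
    simp at hD
  have e1 : (1 - x) ^ q = 1 - (q : ℚ) * x + ((q.choose 2 : ℕ) : ℚ) * x ^ 2 - ((q.choose 3 : ℕ) : ℚ) * x ^ 3 +
      ((q.choose 4 : ℕ) : ℚ) * x ^ 4 - ((q.choose 5 : ℕ) : ℚ) * x ^ 5 + ((q.choose 6 : ℕ) : ℚ) * x ^ 6 -
      c' * x ^ 7 := by
    rw [sub_eq_add_neg, e']
    ring
  set a2 := ((q.choose 2 : ℕ) : ℚ) with ha2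
  set a3 := ((q.choose 3 : ℕ) : ℚ) with ha3
  set a4 := ((q.choose 4 : ℕ) : ℚ) with ha4
  set a5 := ((q.choose 5 : ℕ) : ℚ) with ha5
  set a6 := ((q.choose 6 : ℕ) : ℚ) with ha6
  have n2 : padicNorm p a2 ≤ 1 := N_nat _
  have n3 : padicNorm p a3 ≤ 1 := N_nat _
  have n4 : padicNorm p a4 ≤ 1 := N_nat _
  have n5 : padicNorm p a5 ≤ 1 := N_nat _
  have n6 : padicNorm p a6 ≤ 1 := N_nat _
  have nq : padicNorm p (q : ℚ) ≤ 1 := N_nat _
  have hG3 : G3 q = 2 * (q * a2 - a3) := rfl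
  have hG5 : G5 q = 2 * (q * a4 - a5) - (a2 - q ^ 2) * G3 q := rfl
  have nG3 : padicNorm p (G3 q) ≤ 1 := N_G3 q
  have nG5 : padicNorm p (G5 q) ≤ 1 := N_G5 q
  -- products of integral elements are integral
  have M : ∀ {u v : ℚ}, padicNorm p u ≤ 1 → padicNorm p v ≤ 1 → padicNorm p (u * v) ≤ 1 := fun hu hv => by
    simpa using N_mul_le (p := p) hu hv
  have A : ∀ {u v : ℚ}, padicNorm p u ≤ 1 → padicNorm p v ≤ 1 → padicNorm p (u + v) ≤ 1 := fun hu hv => N_add_le hu hv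
  have S : ∀ {u v : ℚ}, padicNorm p u ≤ 1 → padicNorm p v ≤ 1 → padicNorm p (u - v) ≤ 1 := fun hu hv => N_sub_le hu hv
  have o1 : padicNorm p (1 : ℚ) ≤ 1 := by rw [padicNorm.one]
  have o2 : padicNorm p (2 : ℚ) ≤ 1 := by exact_mod_cast N_nat (p := p) 2
  have Pw : ∀ {u : ℚ} (k : ℕ), padicNorm p u ≤ 1 → padicNorm p (u ^ k) ≤ 1 := fun k hu => by
    rw [N_pow]; exact pow_le_one₀ (padicNorm.nonneg _) hu
  -- the two remainders
  let W : ℚ := a4 - q * a3 + (a5 - q * a4) * x + (a6 - q * a5) * x ^ 2 + (c - q * a6) * x ^ 3 - q * c * x ^ 4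
  have nW : padicNorm p W ≤ 1 := by
    have t1 : padicNorm p (a4 - q * a3) ≤ 1 := S n4 (M nq n3)
    have t2 : padicNorm p ((a5 - q * a4) * x) ≤ 1 := M (S n5 (M nq n4)) hx1
    have t3 : padicNorm p ((a6 - q * a5) * x ^ 2) ≤ 1 := M (S n6 (M nq n5)) (Pw 2 hx1)
    have t4 : padicNorm p ((c - q * a6) * x ^ 3) ≤ 1 := M (S hc (M nq n6)) (Pw 3 hx1)
    have t5 : padicNorm p (q * c * x ^ 4) ≤ 1 := M (M nq hc) (Pw 4 hx1)
    exact S (A (A (A t1 t2) t3) t4) t5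
  let Y : ℚ := 2 * q * a6 - c' * (1 + q * x) - c * (1 - q * x) - (a2 - q ^ 2) * G5 q - W * G3 q +
    (G3 q / 2) * G5 q * x - W * G5 q * x ^ 2
  have nY : padicNorm p Y ≤ 1 := by
    have s1 : padicNorm p (2 * q * a6) ≤ 1 := M (M o2 nq) n6
    have s2 : padicNorm p (c' * (1 + q * x)) ≤ 1 := M hc' (A o1 (M nq hx1))
    have s3 : padicNorm p (c * (1 - q * x)) ≤ 1 := M hc (S o1 (M nq hx1))
    have s4 : padicNorm p ((a2 - q ^ 2) * G5 q) ≤ 1 := M (S n2 (Pw 2 nq)) nG5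
    have s5 : padicNorm p (W * G3 q) ≤ 1 := M nW nG3
    have s6 : padicNorm p ((G3 q / 2) * G5 q * x) ≤ 1 := M (M (half_G3 q) nG5) hx1
    have s7 : padicNorm p (W * G5 q * x ^ 2) ≤ 1 := M (M nW nG5) (Pw 2 hx1)
    exact S (A (S (S (S (S s1 s2) s3) s4) s5) s6) s7
  have main : ep q x - 1 - (G3 q * x ^ 3 + G5 q * x ^ 5) =
      (G3 q * (G3 q / 2) * x ^ 6 + Y * x ^ 7) / ((1 + x) ^ q * (1 - q * x)) := by
    rw [eq_div_iff hD0]
    have : (ep q x - 1 - (G3 q * x ^ 3 + G5 q * x ^ 5)) * ((1 + x) ^ q * (1 - q * x)) =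
        (1 - x) ^ q * (1 + q * x) - ((1 + x) ^ q * (1 - q * x)) * (1 + (G3 q * x ^ 3 + G5 q * x ^ 5)) := by
      unfold ep
      rw [sub_sub, sub_mul, div_mul_cancel₀ _ hD0]
      ring
    rw [this, e1, e]
    simp only [Y, W, hG5, hG3]
    ring
  rw [main, padicNorm.div, hD, div_one]
  refine padicNorm.nonarchimedean.trans (max_le_max ?_ ?_)
  · rw [padicNorm.mul, padicNorm.mul, N_pow]
    have h6 : 0 ≤ padicNorm p x ^ 6 := by have := padicNorm.nonneg (p := p) x; positivity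
    have h7 : padicNorm p (G3 q) * padicNorm p (G3 q / 2) ≤ padicNorm p (G3 q) := mul_le_of_le_one_right (padicNorm.nonneg _) (half_G3 q)
    exact mul_le_mul_of_nonneg_right h7 h6
  · rw [padicNorm.mul, N_pow]
    exact mul_le_of_le_one_left (by have := padicNorm.nonneg (p := p) x; positivity) nY

end Pool.Agent.Q34.VW
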